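import Pool.Agent.Lib.MP_1a91b9_ntQT.DE8

/-!
# Quartic stability: the curve `y² = x³ + x` over a quadratic field which contains `i`
-/

set_option autoImplicit false

namespace Pool.Agent.Lib.MP_1a91b9_ntQT

open Finset NumberField Pool.Agent.Lib.MP_1a91b9_ntH Pool.Agent.Lib.MP_1a91b9_ntQ
  Pool.Agent.Lib.MP_1a91b9_ntQ.Da Pool.Agent.Lib.MP_1a91b9_ntQ.M Pool.Agent.Lib.MP_1a91b9_ntM
  Pool.Agent.Lib.MP_1a91b9_ntM.E

noncomputable section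

open Pool.Agent.Lib.MP_1a91b9_ntW.J (RkZ)

/-- `-1 = i²` is good: the matrix is empty. -/
theorem b1_K4 : Cn (-1 : 𝓞 K4) := by
  have hSq : (⟨2, 0, ∅, ∅, ∅⟩ : DD8).Sq := ⟨by decide, by decide, by simp⟩
  have hel : (⟨2, 0, ∅, ∅, ∅⟩ : DD8).el = -1 := by
    show iO ^ ((2 : ZMod 4)).val * lam ^ ((0 : Fin 4)).val *
      (DDq ∅ * DDq ∅ ^ 3 * DDq ∅ ^ 2) = -1
    have h1 : DDq ∅ = 1 := by simp [DDq]
    have h2 : ((2 : ZMod 4)).val = 2 := rfl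
    rw [h1, h2]
    have h3 : iO ^ 2 = -1 := iO_sq
    rw [h3]
    simp
  have h := good_sq hSq (by
    refine ⟨fun _ => ?_, fun h => ?_, fun h => ?_⟩
    · rw [Matrix.det_isEmpty]
      exact one_ne_zero
    · exact absurd h (by decide)
    · exact absurd h (by decide))
  rw [hel] at h
  exact h

/-- **The curve `y² = x³ + x`.** -/
theorem b1 {K : Type} [Field K] [NumberField K] (hK : Module.finrank ℚ K = 2) {i : K} (hi : i ^ 2 = -1) :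
    RkZ (⟨0, 0, 0, 1, 0⟩ : WeierstrassCurve K) := by
  obtain ⟨e⟩ := Pool.Agent.Lib.MP_1a91b9_ntW.J.iso_K4 hK hi
  have h0 : RkZ (Pool.Agent.Lib.MP_1a91b9_ntL.crv 0 (-(((-1 : 𝓞 K4)) : K4))) := b1_K4
  obtain ⟨⟨g, g1, g2, g3⟩, hf⟩ := h0
  have hW : (Pool.Agent.Lib.MP_1a91b9_ntL.crv 0 (-(((-1 : 𝓞 K4)) : K4))).map (e : K4 →+* K) =
      ⟨0, 0, 0, 1, 0⟩ := by
    have h1 : (((-1 : 𝓞 K4)) : K4) = -1 := by simp
    rw [h1, neg_neg]
    unfold Pool.Agent.Lib.MP_1a91b9_ntL.crv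
    refine WeierstrassCurve.ext ?_ ?_ ?_ ?_ ?_
    · exact map_zero e
    · exact map_zero e
    · exact map_zero e
    · exact map_one e
    · exact map_zero e
  rw [← hW]
  refine ⟨⟨g, g1, fun s hs => ?_, g3⟩, ?_⟩
  · rw [g2 s hs]
    exact (Pool.Agent.Lib.MP_1a91b9_ntI.ls_e_hasJ e (Pool.Agent.Lib.MP_1a91b9_ntW.J.hasJ_crv4 _) s).symm
  · exact (Equiv.ofBijective _ (Pool.Agent.Lib.MP_1a91b9_ntI.ptMap_bij e _)).finite_iff.1 hf

end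

end Pool.Agent.Lib.MP_1a91b9_ntQT
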