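import Pool.Agent.Lib.MP_1a91b9_ntQT.DE8
import Pool.Agent.Lib.MP_1a91b9_ntW.J.Mono

/-!
# Quartic stability: an infinite set of curves of rank zero
-/

set_option autoImplicit false

namespace Pool.Agent.Lib.MP_1a91b9_ntQT

open NumberField
open Pool.Agent.Lib.MP_1a91b9_ntW.J (RkZ)
open Pool.Agent.Lib.MP_1a91b9_ntQ

/-- `-1` is not a fourth power -/
private theorem B2_neg_one {K : Type} [Field K] [NumberField K] (hK : Module.finrank ℚ K = 2) (y : K) :
    y ^ 4 ≠ -(1 : K) := by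
  intro hy
  have hfact : Fact (Nat.Prime 2) := ⟨Nat.prime_two⟩
  have ho : orderOf y = 2 ^ (2 + 1) := orderOf_eq_prime_pow (by
    have e : (2 : ℕ) ^ 2 = 4 := by norm_num
    rw [e, hy]
    intro h
    have h2 : (2 : K) = 0 := by linear_combination -h
    exact two_ne_zero h2) (by
    have e : (2 : ℕ) ^ (2 + 1) = 4 * 2 := by norm_num
    rw [e, pow_mul, hy]
    ring)
  have h8 : IsPrimitiveRoot y 8 := by
    have h := IsPrimitiveRoot.orderOf y
    rw [ho] at h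
    exact h
  have h1 := h8.totient_le_degree_minpoly
  have hint : IsIntegral ℤ y := h8.isIntegral (by norm_num)
  have h2 : minpoly ℚ y = (minpoly ℤ y).map (algebraMap ℤ ℚ) :=
    minpoly.isIntegrallyClosed_eq_field_fractions' ℚ hint
  have h3 : (minpoly ℚ y).natDegree = (minpoly ℤ y).natDegree := by
    rw [h2]
    exact (minpoly.monic hint).natDegree_map _
  have h4 : (minpoly ℚ y).natDegree ≤ Module.finrank ℚ K := minpoly.natDegree_le y
  have h5 : Nat.totient 8 = 4 := by decide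
  omega

private theorem B2_sq {K : Type} [Field K] {i : K} (hi : i ^ 2 = -1) {a : K} (h : IsSquare (-a)) :
    IsSquare a := by
  obtain ⟨b, hb⟩ := h
  exact ⟨i * b, by linear_combination -hb - b ^ 2 * hi⟩

/-- the independence -/
private theorem B2_ind {K : Type} [Field K] {i : K} (hi : i ^ 2 = -1) {x y : K} (hx0 : x ≠ 0) (hy0 : y ≠ 0)
    (hx : ¬ IsSquare x) (hy : ¬ IsSquare y) (hxy : ¬ IsSquare (x * y)) (k l : ℕ) (hk1 : 1 ≤ k) (hk3 : k ≤ 3)
    (hl1 : 1 ≤ l) (hl3 : l ≤ 3) (z : K) : z ^ 4 ≠ (-x) ^ k * (-y) ^ l := by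
  intro h
  have hk : k = 1 ∨ k = 2 ∨ k = 3 := by omega
  have hl : l = 1 ∨ l = 2 ∨ l = 3 := by omega
  rcases hk with rfl | rfl | rfl <;> rcases hl with rfl | rfl | rfl
  · exact hxy ⟨z ^ 2, by linear_combination -h⟩
  · exact hx (B2_sq hi ⟨z ^ 2 / y, by field_simp; linear_combination -h⟩)
  · exact hxy ⟨z ^ 2 / y, by field_simp; linear_combination -h⟩
  · exact hy (B2_sq hi ⟨z ^ 2 / x, by field_simp; linear_combination -h⟩)
  · have h1 : (x * y - z ^ 2) * (x * y + z ^ 2) = 0 := by linear_combination -h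
    rcases mul_eq_zero.1 h1 with h2 | h2
    · exact hxy ⟨z, by linear_combination h2⟩
    · exact hxy (B2_sq hi ⟨z, by linear_combination -h2⟩)
  · exact hy (B2_sq hi ⟨z ^ 2 / (x * y), by field_simp; linear_combination -h⟩)
  · exact hxy ⟨z ^ 2 / x, by field_simp; linear_combination -h⟩
  · exact hx (B2_sq hi ⟨z ^ 2 / (x * y), by field_simp; linear_combination -h⟩)
  · exact hxy ⟨z ^ 2 / (x * y), by field_simp; linear_combination -h⟩

/-- **An infinite set of independent curves of rank zero.** -/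
theorem inf_S {K : Type} [Field K] [NumberField K] (hK : Module.finrank ℚ K = 2) {i : K} (hi : i ^ 2 = -1) :
    ∃ S : Set K, S.Infinite ∧ (∀ A ∈ S, A ≠ 0 ∧ ∀ z : K, z ^ 4 ≠ -A) ∧
      (∀ A ∈ S, ∀ A' ∈ S, A ≠ A' → ∀ k l : ℕ, 1 ≤ k → k ≤ 3 → 1 ≤ l → l ≤ 3 → ∀ z : K,
        z ^ 4 ≠ (-A) ^ k * (-A') ^ l) ∧
      ∀ A ∈ S, RkZ (⟨0, 0, 0, A, 0⟩ : WeierstrassCurve K) := by
  classical
  obtain ⟨f, hP, hr⟩ := exists_seq_of_forall_finset_exists
    (fun x : 𝓞 K => (x : K) ≠ 0 ∧ ¬ IsSquare (x : K) ∧ RkZ (⟨0, 0, 0, (x : K), 0⟩ : WeierstrassCurve K))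
    (fun x y : 𝓞 K => ¬ IsSquare ((x : K) * (y : K))) (by
      intro s hs
      have hB : ∀ β ∈ insert (1 : K) (s.image fun x : 𝓞 K => (x : K)), β ≠ 0 := by
        intro β hβ
        rcases Finset.mem_insert.1 hβ with rfl | h
        · exact one_ne_zero
        · obtain ⟨x, hx, rfl⟩ := Finset.mem_image.1 h
          exact (hs x hx).1
      obtain ⟨c0, hc0⟩ : ∃ c : ℝ, c = (∏' i : ℕ, (1 + 1 / (2 : ℝ) ^ (i + 1))⁻¹) ^ 3 := ⟨_, rfl⟩
      have hc : 0 < c0 := by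
        rw [hc0, cinf2_form]
        exact pow_pos cinf2_pos5 3
      have key := main_K K hK ⟨i, hi⟩ (A := 1) one_ne_zero (by
        rintro ⟨y, hy⟩
        exact B2_neg_one hK y hy) (insert (1 : K) (s.image fun x : 𝓞 K => (x : K))) hB (n := 0) (m := 1)
        (u := 0) (one_dvd _) (fun q hq h => hq.not_isUnit (isUnit_of_dvd_one
          ((dvd_pow_self q (by norm_num)).trans h.1))) (c0 / 2) (by positivity)
      rw [← hc0] at key
      obtain ⟨X, hX⟩ := key.exists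
      have hne : Nat.card {x : 𝓞 K // (∀ z : 𝓞 K, z ^ 4 ∣ x → IsUnit z) ∧ (1 : 𝓞 K) ∣ x - 0 ∧
          |Algebra.norm ℤ x| ≤ X ∧ RkZ (⟨0, 0, 0, 1 * x, 0⟩ : WeierstrassCurve K) ∧
          RkZ (⟨0, 0, 0, 1 * (x : K) ^ 2, 0⟩ : WeierstrassCurve K) ∧
          RkZ (⟨0, 0, 0, 1 * (x : K) ^ 3, 0⟩ : WeierstrassCurve K) ∧
          ∀ β ∈ insert (1 : K) (s.image fun x : 𝓞 K => (x : K)), ¬ IsSquare (β * (x : K))} ≠ 0 := by
        intro h0
        rw [h0, Nat.cast_zero, zero_div] at hX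
        linarith
      obtain ⟨⟨x, -, -, -, hx1, -, -, hx2⟩⟩ := (Nat.card_ne_zero.1 hne).1
      have h1 := hx2 1 (Finset.mem_insert_self _ _)
      rw [one_mul] at h1 hx1
      refine ⟨x, ⟨fun h => h1 ⟨0, by rw [h, zero_mul]⟩, h1, hx1⟩, fun y hy => ?_⟩
      exact hx2 (y : K) (Finset.mem_insert_of_mem (Finset.mem_image.2 ⟨y, hy, rfl⟩)))
  have hinj : Function.Injective fun n => (f n : K) := by
    intro m n hmn
    have hmn' : (f m : K) = (f n : K) := hmn
    rcases lt_trichotomy m n with h | h | h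
    · exact absurd ⟨(f m : K), by rw [← hmn']⟩ (hr m n h)
    · exact h
    · exact absurd ⟨(f n : K), by rw [hmn']⟩ (hr n m h)
  refine ⟨Set.range fun n => (f n : K), Set.infinite_range_of_injective hinj, ?_, ?_, ?_⟩
  · rintro _ ⟨n, rfl⟩
    refine ⟨(hP n).1, fun z hz => (hP n).2.1 (B2_sq hi ⟨z ^ 2, ?_⟩)⟩
    linear_combination -hz
  · rintro _ ⟨m, rfl⟩ _ ⟨n, rfl⟩ hne k l hk1 hk3 hl1 hl3 z
    have hmn : m ≠ n := fun h => hne (by rw [h])
    have hxy : ¬ IsSquare ((f m : K) * (f n : K)) := by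
      rcases lt_or_gt_of_ne hmn with h | h
      · exact hr m n h
      · rw [mul_comm]
        exact hr n m h
    exact B2_ind hi (hP m).1 (hP n).1 (hP m).2.1 (hP n).2.1 hxy k l hk1 hk3 hl1 hl3 z
  · rintro _ ⟨n, rfl⟩
    exact (hP n).2.2

end Pool.Agent.Lib.MP_1a91b9_ntQT
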