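import Pool.Agent.Lib.MP_1a91b9_ntQT.TL9
import Pool.Agent.Lib.MP_1a91b9_ntQT.B1
import Pool.Agent.Lib.MP_1a91b9_ntQT.B2

/-!
# MP_1a91b9_nt (quartic stability): the curve itself over the fields between `K` and `K(d^(1/4))`
-/

set_option autoImplicit false

namespace Pool.Agent.Lib.MP_1a91b9_ntQT

open NumberField IsDedekindDomain WeierstrassCurve
open Pool.Agent.Lib.MP_1a91b9_nuI (HasJ)
open Pool.Agent.Lib.MP_1a91b9_ntL (crv)
open Pool.Agent.Lib.MP_1a91b9_ntJ (TowP)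
open Pool.Agent.Lib.MP_1a91b9_ntW.J (RkZ twd twd_crv)
open Pool.Agent.Lib.MP_1a91b9_ntC Pool.Agent.Lib.MP_1a91b9_ntC.Sh

/-- a root of a square generates a field of degree at most two -/
private theorem Q1_nsq {K : Type} [Field K] [NumberField K] {d : K} {N : Type} [Field N] [NumberField N]
    [Algebra K N] {x : N} (hx : x ^ 4 = algebraMap K N d) (hgen : IntermediateField.adjoin K {x} = ⊤)
    (h4 : Module.finrank K N = 4) : ¬ IsSquare d := by
  rintro ⟨c, hc⟩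
  have h1 : (x ^ 2 - algebraMap K N c) * (x ^ 2 + algebraMap K N c) = 0 := by
    rw [hc, map_mul] at hx
    linear_combination hx
  obtain ⟨c', hc'⟩ : ∃ c' : K, x ^ 2 = algebraMap K N c' := by
    rcases mul_eq_zero.1 h1 with h | h
    · exact ⟨c, sub_eq_zero.1 h⟩
    · exact ⟨-c, by rw [map_neg]; exact eq_neg_of_add_eq_zero_left h⟩
  have hfin : FiniteDimensional K N := Module.Finite.of_restrictScalars_finite ℚ K N
  have hint : IsIntegral K x := Algebra.IsIntegral.isIntegral x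
  have hroot : Polynomial.aeval x (Polynomial.X ^ 2 - Polynomial.C c' : Polynomial K) = 0 := by
    simp [hc']
  have hmon : (Polynomial.X ^ 2 - Polynomial.C c' : Polynomial K) ≠ 0 :=
    (Polynomial.monic_X_pow_sub_C c' two_ne_zero).ne_zero
  have hle : (minpoly K x).natDegree ≤ 2 := by
    have := Polynomial.natDegree_le_of_dvd (minpoly.dvd K x hroot) hmon
    rwa [Polynomial.natDegree_X_pow_sub_C] at this
  have h5 : Module.finrank K (IntermediateField.adjoin K {x}) = (minpoly K x).natDegree :=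
    IntermediateField.adjoin.finrank hint
  rw [hgen, IntermediateField.finrank_top'] at h5
  omega

/-- the fields between `K` and `K(x)` are generated by fourth roots -/
private theorem Q1_gen {K : Type} [Field K] [NumberField K] {i : K} (hi : i ^ 2 = -1) {d : K}
    {N : Type} [Field N] [NumberField N]
    [Algebra K N] {x : N} (hx : x ^ 4 = algebraMap K N d) (hgen : IntermediateField.adjoin K {x} = ⊤)
    (h4 : Module.finrank K N = 4) (F : Type) [Field F] [NumberField F] [Algebra K F] [Algebra F N]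
    [IsScalarTower K F N] :
    IntermediateField.adjoin K {z : F | ∃ c : K, z ^ 4 = algebraMap K F c} = ⊤ := by
  have hd : ¬ IsSquare d := Q1_nsq hx hgen h4
  have hmul := Module.finrank_mul_finrank K F N
  rw [h4] at hmul
  have p1 : 0 < Module.finrank K F := Module.finrank_pos
  have hcase : Module.finrank K F = 1 ∨ Module.finrank K F = 2 ∨ Module.finrank K F = 4 := by
    have hdvd : Module.finrank K F ∣ 4 := ⟨_, hmul.symm⟩
    have hle : Module.finrank K F ≤ 4 := Nat.le_of_dvd (by norm_num) hdvd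
    generalize Module.finrank K F = a at p1 hdvd hle
    interval_cases a <;> revert hdvd <;> decide
  rcases hcase with hF | hF | hF
  · have hbij : Function.Bijective (algebraMap K F) := Module.Free.bijective_algebraMap_of_finrank_eq_one hF
    rw [eq_top_iff]
    intro z _
    obtain ⟨z', rfl⟩ := hbij.2 z
    exact IntermediateField.algebraMap_mem _ _
  · obtain ⟨y, hy1, hy2⟩ := sq_mem hi hd hx hgen (F := F) hF
    have h1 : IntermediateField.adjoin K {y} = ⊤ := top_of_prime hF (q4_sq' hy2 hd)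
    rw [eq_top_iff, ← h1]
    refine IntermediateField.adjoin.mono K _ _ ?_
    intro z hz
    rw [Set.mem_singleton_iff.1 hz]
    refine ⟨d ^ 2, ?_⟩
    rw [map_pow, ← hy2]
    ring
  · have h6 : Module.finrank F N = 1 := by
      rw [hF] at hmul
      omega
    have hbij : Function.Bijective (algebraMap F N) := Module.Free.bijective_algebraMap_of_finrank_eq_one h6
    obtain ⟨z, hz⟩ := hbij.2 x
    have hz4 : z ^ 4 = algebraMap K F d := hbij.1 (by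
      rw [map_pow, hz, hx, IsScalarTower.algebraMap_apply K F N])
    have h1 : IntermediateField.adjoin K {z} = ⊤ := by
      rw [eq_top_iff]
      intro w _
      have h7 : algebraMap F N w ∈ IntermediateField.adjoin K {x} := by
        rw [hgen]
        exact IntermediateField.mem_top
      have h8 : IntermediateField.adjoin K {x} =
          (IntermediateField.adjoin K {z}).map (IsScalarTower.toAlgHom K F N) := by
        rw [IntermediateField.adjoin_map, Set.image_singleton]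
        congr 1
        rw [← hz]
        rfl
      rw [h8, IntermediateField.mem_map] at h7
      obtain ⟨w', hw', hw⟩ := h7
      rw [← hbij.1 hw]
      exact hw'
    rw [eq_top_iff, ← h1]
    refine IntermediateField.adjoin.mono K _ _ ?_
    intro w hw
    rw [Set.mem_singleton_iff.1 hw]
    exact ⟨d, hz4⟩

/-- **The towers for the curve itself.** -/
theorem tow_self {K : Type} [Field K] [NumberField K] (hK : Module.finrank ℚ K = 2) {i : K}
    (hi : i ^ 2 = -1) {A : K} (hA : A ≠ 0) {F : Type} [Field F] [NumberField F] [Algebra K F]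
    (hF : IntermediateField.adjoin K {z : F | ∃ c : K, z ^ 4 = algebraMap K F c} = ⊤)
    (h : ∃ g : ℂ → ℂ, Differentiable ℂ g ∧ (∀ s : ℂ, 3 / 2 < s.re →
      g s = ((⟨0, 0, 0, A, 0⟩ : WeierstrassCurve K).baseChange F).LSeries s) ∧ g 1 ≠ 0) :
    TowP K ((⟨0, 0, 0, A, 0⟩ : WeierstrassCurve K).baseChange F) := by
  have e : (twd (crv 0 A) (((1 : 𝓞 K)) : K)).map (algebraMap K F) =
      (⟨0, 0, 0, A, 0⟩ : WeierstrassCurve K).baseChange F := by
    have e1 : ((1 : 𝓞 K) : K) = 1 := rfl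
    rw [twd_crv, e1, mul_zero, one_pow, one_mul]
    rfl
  have h1 := Pool.Agent.Lib.MP_1a91b9_ntJ.ks_star (K := K) (F := F) (l := 4) (Or.inr ⟨rfl, i, hi⟩) hF hK
    (W := crv 0 A) (q_cmk hi hA) (q_pt2 A) (d := 1) one_ne_zero (by rw [e]; exact h)
  rw [e] at h1
  exact h1

namespace Fin

open Pool.Agent.Lib.MP_1a91b9_ntDV.Fin (RamOK RelBSD BSD0)

/-- The property `S` of the curve `V` over `F`: the towers above `F`. -/
def PropS (K : Type) [Field K] [NumberField K] {F : Type} [Field F] [NumberField F] [Algebra K F]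
    (V : WeierstrassCurve F) : Prop :=
  ∃ S : Finset ℕ, ∀ (q : ℕ) [Fact q.Prime], q ∉ S →
    ∀ (k : ℕ) (L M : Type) [Field L] [NumberField L] [Field M] [NumberField M]
      [Algebra F L] [Algebra L M] [Algebra F M] [IsScalarTower F L M] [IsGalois F M],
      Module.finrank F M = q ^ k → RamOK K V q L →
    ∀ (N : Type) [Field N] [NumberField N] [Algebra N L] (W : WeierstrassCurve N)
      (C : WeierstrassCurve.VariableChange L), C • W.baseChange L = V.baseChange L → BSD0 q W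

/-- The property `R` of the element `e` of `F`. -/
def PropR5 {K : Type} [Field K] [NumberField K] (E : WeierstrassCurve K) (F : Type) [Field F]
    [NumberField F] [Algebra K F] (e : F) : Prop :=
  ∀ V : WeierstrassCurve F, V = ⟨0, 0, 0, algebraMap K F E.a₄ * e ^ 2, 0⟩ →
    PropS K V ∧
    ∃ S : Finset ℕ, ∀ (q : ℕ) [Fact q.Prime], q ∉ S →
    ∀ (k : ℕ) (L M : Type) [Field L] [NumberField L] [Field M] [NumberField M]
      [Algebra F L] [Algebra L M] [Algebra F M] [IsScalarTower F L M] [IsGalois F M],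
      Module.finrank F M = q ^ k → RamOK K V q L →
    ∀ (L' : Type) [Field L'] [NumberField L'] [Algebra L L'] (y : L'),
      y ^ 2 = algebraMap L L' (algebraMap F L e) → IntermediateField.adjoin L {y} = ⊤ →
      RelBSD q ((E.baseChange F).baseChange L) (((E.baseChange F).baseChange L).baseChange L')

/-- The property of `d`, for the fields between `K` and `N = K(d^(1/4))`. -/
def PropQ5 {K : Type} [Field K] [NumberField K] (E : WeierstrassCurve K) (d : K) : Prop :=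
  ∀ (N : Type) [Field N] [NumberField N] [Algebra K N] (x : N), x ^ 4 = algebraMap K N d →
    IntermediateField.adjoin K {x} = ⊤ →
    Module.finrank K N = 4 ∧
    ∀ (F : Type) [Field F] [NumberField F] [Algebra K F] [Algebra F N] [IsScalarTower K F N],
      (∀ x' y' : F, (E.baseChange F).toAffine.Equation x' y' →
        ∃ x y : K, algebraMap K F x = x' ∧ algebraMap K F y = y') ∧
      (∃ g : ℂ → ℂ, Differentiable ℂ g ∧ g 1 ≠ 0 ∧ ∀ s : ℂ, 3 / 2 < s.re →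
        (E.baseChange F).LSeries s = E.LSeries s * g s) ∧
      (∀ (F' : Type) [Field F'] [NumberField F'] [Algebra F F'] [Algebra F' N]
        [IsScalarTower F F' N], Module.finrank F F' ≠ 1 →
        ∃ S : Finset ℕ, ∀ (q : ℕ) [Fact q.Prime], q ∉ S →
          RelBSD q (E.baseChange F) ((E.baseChange F).baseChange F')) ∧
      (∀ e : F, algebraMap F N e = x ^ 2 ∨ algebraMap F N e = x ^ 4 → ¬ IsSquare e →
        PropR5 E F e) ∧
      ((E = ⟨0, 0, 0, 1, 0⟩ ∨ ∃ g : ℂ → ℂ, Differentiable ℂ g ∧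
        (∀ s : ℂ, 3 / 2 < s.re → g s = E.LSeries s) ∧ g 1 ≠ 0) → PropS K (E.baseChange F))

theorem propR5_iff {K : Type} [Field K] [NumberField K] {E : WeierstrassCurve K} {F : Type} [Field F]
    [NumberField F] [Algebra K F] {e : F} : PropR5 E F e ↔ PropR E F e := by
  constructor
  · intro h V hV
    obtain ⟨⟨S₁, h1⟩, S₂, h2⟩ := h V hV
    refine ⟨S₁ ∪ S₂, fun q _ hq k L M _ _ _ _ _ _ _ _ _ hM hR => ⟨?_, ?_⟩⟩
    · exact h1 q (fun g => hq (Finset.mem_union_left _ g)) k L M hM hR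
    · exact h2 q (fun g => hq (Finset.mem_union_right _ g)) k L M hM hR
  · intro h V hV
    obtain ⟨S, h1⟩ := h V hV
    exact ⟨⟨S, fun q _ hq k L M _ _ _ _ _ _ _ _ _ hM hR => (h1 q hq k L M hM hR).1⟩,
      S, fun q _ hq k L M _ _ _ _ _ _ _ _ _ hM hR => (h1 q hq k L M hM hR).2⟩

theorem propQ5_iff {K : Type} [Field K] [NumberField K] (hK : Module.finrank ℚ K = 2) {i : K}
    (hi : i ^ 2 = -1) {A : K} (hA : A ≠ 0) {d : K} :
    PropQ5 (⟨0, 0, 0, A, 0⟩ : WeierstrassCurve K) d ↔ PropQ (⟨0, 0, 0, A, 0⟩ : WeierstrassCurve K) d := by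
  constructor
  · intro h N _ _ _ x hx hgen
    obtain ⟨h4, h5⟩ := h N x hx hgen
    refine ⟨h4, fun F _ _ _ _ _ => ?_⟩
    obtain ⟨a1, a2, a3, a4, -⟩ := h5 F
    exact ⟨a1, a2, a3, fun e he hs => propR5_iff.1 (a4 e he hs)⟩
  · intro h N _ _ _ x hx hgen
    obtain ⟨h4, h5⟩ := h N x hx hgen
    refine ⟨h4, fun F _ _ _ _ _ => ?_⟩
    obtain ⟨a1, a2, a3, a4⟩ := h5 F
    refine ⟨a1, a2, a3, fun e he hs => propR5_iff.2 (a4 e he hs), ?_⟩
    intro hE
    have hg : ∃ g : ℂ → ℂ, Differentiable ℂ g ∧ (∀ s : ℂ, 3 / 2 < s.re →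
        g s = (⟨0, 0, 0, A, 0⟩ : WeierstrassCurve K).LSeries s) ∧ g 1 ≠ 0 := by
      rcases hE with hE | hE
      · rw [hE]
        exact (b1 hK hi).1
      · exact hE
    obtain ⟨g, g1, g3, g2⟩ := hg
    obtain ⟨g', g1', g2', g3'⟩ := a2
    obtain ⟨S, hS⟩ := tow_self hK hi hA (Q1_gen hi hx hgen h4 F)
      ⟨fun s => g s * g' s, g1.mul g1', fun s hs => by rw [g3' s hs, ← g3 s hs], mul_ne_zero g2 g2'⟩
    exact ⟨S, fun q _ hq k L M _ _ _ _ _ _ _ _ _ hM hram N _ _ _ W C hC =>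
      hS q hq k N L M hM hram W C hC⟩

open Classical in
/-- **The law.** -/
theorem fin_T5 (K : Type) [Field K] [NumberField K] (hK : Module.finrank ℚ K = 2)
    (hi : ∃ i : K, i ^ 2 = -1) (T : Set (K × 𝓞 K))
    (h0 : ∀ τ ∈ T, τ.1 ≠ 0 ∧ τ.2 ≠ 0 ∧ ∀ z : K, z ^ 4 ≠ -τ.1)
    (hT : ∀ τ ∈ T, ∀ τ' ∈ T, τ ≠ τ' → ∀ k l : ℕ, 1 ≤ k → k ≤ 3 → 1 ≤ l → l ≤ 3 → ∀ z : K,
      z ^ 4 ≠ (-τ.1) ^ k * (-τ'.1) ^ l * ((τ.2 * τ'.2 : 𝓞 K) : K) ^ 2)
    (n : ℕ) (m u : 𝓞 K) (hm : m ∣ 2 ^ n) (hu : ∀ q : 𝓞 K, Prime q → ¬ (q ^ 4 ∣ m ∧ q ^ 4 ∣ u))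
    (t : ℕ) (v : ℝ) (hv : v = if T.Infinite then 1 else ∑ j ∈ Finset.Icc t T.ncard,
      (T.ncard.choose j : ℝ) * ((∏' i : ℕ, (1 + 1 / (2 : ℝ) ^ (i + 1))⁻¹) ^ 3) ^ j *
        (1 - (∏' i : ℕ, (1 + 1 / (2 : ℝ) ^ (i + 1))⁻¹) ^ 3) ^ (T.ncard - j))
    (ε : ℝ) (hε : 0 < ε) :
    ∀ᶠ X : ℝ in Filter.atTop, v - ε ≤
      (Nat.card {d : 𝓞 K // (∀ z : 𝓞 K, z ^ 4 ∣ d → IsUnit z) ∧ m ∣ d - u ∧
        |Algebra.norm ℤ d| ≤ X ∧
        t ≤ {τ ∈ T | PropQ5 (⟨0, 0, 0, τ.1, 0⟩ : WeierstrassCurve K)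
          ((τ.2 * d : 𝓞 K) : K)}.encard} : ℝ) /
        (Nat.card {d : 𝓞 K // (∀ z : 𝓞 K, z ^ 4 ∣ d → IsUnit z) ∧ m ∣ d - u ∧
          |Algebra.norm ℤ d| ≤ X} : ℝ) := by
  obtain ⟨i, hi'⟩ := hi
  have h1 : ∀ d : 𝓞 K, {τ ∈ T | PropQ5 (⟨0, 0, 0, τ.1, 0⟩ : WeierstrassCurve K)
      ((τ.2 * d : 𝓞 K) : K)} = {τ ∈ T | PropQ (⟨0, 0, 0, τ.1, 0⟩ : WeierstrassCurve K)
      ((τ.2 * d : 𝓞 K) : K)} := by
    intro d
    ext τ
    constructor
    · rintro ⟨h2, h3⟩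
      exact ⟨h2, (propQ5_iff hK hi' (h0 τ h2).1).1 h3⟩
    · rintro ⟨h2, h3⟩
      exact ⟨h2, (propQ5_iff hK hi' (h0 τ h2).1).2 h3⟩
  simp only [h1]
  exact fin_T K hK ⟨i, hi'⟩ T h0 hT n m u hm hu t v hv ε hε

/-- The set `T` of pairs `(A, δ)` is admissible. -/
def Adm {K : Type} [Field K] [NumberField K] (T : Set (K × 𝓞 K)) : Prop :=
  (∀ τ ∈ T, τ.1 ≠ 0 ∧ τ.2 ≠ 0 ∧ ∀ z : K, z ^ 4 ≠ -τ.1) ∧
  ∀ τ ∈ T, ∀ τ' ∈ T, τ ≠ τ' → ∀ k l : ℕ, 1 ≤ k → k ≤ 3 → 1 ≤ l → l ≤ 3 → ∀ z : K,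
    z ^ 4 ≠ (-τ.1) ^ k * (-τ'.1) ^ l * ((τ.2 * τ'.2 : 𝓞 K) : K) ^ 2

open Classical in
/-- **The law, and the infinite set of curves of rank zero.** -/
theorem fin_T6 (K : Type) [Field K] [NumberField K] (hK : Module.finrank ℚ K = 2)
    (hi : ∃ i : K, i ^ 2 = -1) :
    (∀ T : Set (K × 𝓞 K), Adm T → ∀ (n : ℕ) (m u : 𝓞 K), m ∣ 2 ^ n →
      (∀ q : 𝓞 K, Prime q → ¬ (q ^ 4 ∣ m ∧ q ^ 4 ∣ u)) →
      ∀ (t : ℕ) (v : ℝ), (v = if T.Infinite then 1 else ∑ j ∈ Finset.Icc t T.ncard,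
        (T.ncard.choose j : ℝ) * ((∏' i : ℕ, (1 + 1 / (2 : ℝ) ^ (i + 1))⁻¹) ^ 3) ^ j *
          (1 - (∏' i : ℕ, (1 + 1 / (2 : ℝ) ^ (i + 1))⁻¹) ^ 3) ^ (T.ncard - j)) →
      ∀ ε : ℝ, 0 < ε → ∀ᶠ X : ℝ in Filter.atTop, v - ε ≤
        (Nat.card {d : 𝓞 K // (∀ z : 𝓞 K, z ^ 4 ∣ d → IsUnit z) ∧ m ∣ d - u ∧
          |Algebra.norm ℤ d| ≤ X ∧
          t ≤ {τ ∈ T | PropQ5 (⟨0, 0, 0, τ.1, 0⟩ : WeierstrassCurve K)
            ((τ.2 * d : 𝓞 K) : K)}.encard} : ℝ) /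
          (Nat.card {d : 𝓞 K // (∀ z : 𝓞 K, z ^ 4 ∣ d → IsUnit z) ∧ m ∣ d - u ∧
            |Algebra.norm ℤ d| ≤ X} : ℝ)) ∧
    ∃ S : Set K, S.Infinite ∧ Adm {τ : K × 𝓞 K | τ.1 ∈ S ∧ τ.2 = 1} ∧
      ∀ A ∈ S, ∃ g : ℂ → ℂ, Differentiable ℂ g ∧
        (∀ s : ℂ, 3 / 2 < s.re → g s = (⟨0, 0, 0, A, 0⟩ : WeierstrassCurve K).LSeries s) ∧
        g 1 ≠ 0 := by
  refine ⟨fun T hT n m u hm hu t v hv ε hε => fin_T5 K hK hi T hT.1 hT.2 n m u hm hu t v hv ε hε, ?_⟩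
  obtain ⟨i, hi'⟩ := hi
  obtain ⟨S, h1, h2, h3, h4⟩ := inf_S hK hi'
  refine ⟨S, h1, ⟨?_, ?_⟩, fun A hA => (h4 A hA).1⟩
  · rintro ⟨A, δ⟩ ⟨hA, hδ⟩
    refine ⟨(h2 A hA).1, ?_, (h2 A hA).2⟩
    show δ ≠ 0
    rw [show δ = 1 from hδ]
    exact one_ne_zero
  · rintro ⟨A, δ⟩ ⟨hA, hδ⟩ ⟨A', δ'⟩ ⟨hA', hδ'⟩ hne k l hk1 hk3 hl1 hl3 z
    have e : δ = 1 := hδ
    have e' : δ' = 1 := hδ'
    subst e e'
    have h5 := h3 A hA A' hA' (fun h => hne (by rw [h])) k l hk1 hk3 hl1 hl3 z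
    have e1 : (((1 : 𝓞 K) * 1 : 𝓞 K) : K) = 1 := by simp
    show z ^ 4 ≠ (-A) ^ k * (-A') ^ l * (((1 : 𝓞 K) * 1 : 𝓞 K) : K) ^ 2
    rw [e1, one_pow, mul_one]
    exact h5

end Fin

end Pool.Agent.Lib.MP_1a91b9_ntQT
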