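import Mathlib

/-!
# MP_1a91b9_nt (quartic stability), block AR (no new points): definitions
-/

set_option autoImplicit false

namespace Pool.Agent.Lib.MP_1a91b9_ntQT

open WeierstrassCurve

/-- `N = K(x)`, `x ^ 4 = d`, `i ^ 2 = -1`, `i` in `K`, `d` not a square, and `σ` is the automorphism with `σ x = i x`. -/
structure Q4 {K N : Type} [Field K] [Field N] [Algebra K N] (i d : K) (x : N) (σ : N →ₐ[K] N) : Prop where
  i_sq : i ^ 2 = -1
  pow : x ^ 4 = algebraMap K N d
  nsq : ¬ IsSquare d
  map : σ x = algebraMap K N i * x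
  span : ∀ z : N, ∃ a b c e : K, z = algebraMap K N a + algebraMap K N b * x + algebraMap K N c * x ^ 2 +
    algebraMap K N e * x ^ 3
  indep : ∀ a b c e : K, algebraMap K N a + algebraMap K N b * x + algebraMap K N c * x ^ 2 +
    algebraMap K N e * x ^ 3 = 0 → a = 0 ∧ b = 0 ∧ c = 0 ∧ e = 0

/-- The point `Q` satisfies `σ Q = [i ^ j] Q`, where `[i] (u, v) = (-u, i v)`. -/
def EigP {K N : Type} [Field K] [Field N] [Algebra K N] (W : WeierstrassCurve K) (i : K) (σ : N →ₐ[K] N)
    (j : ℕ) (Q : (W.baseChange N).toAffine.Point) : Prop :=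
  ∀ (u v : N) (h : (W.baseChange N).toAffine.Nonsingular u v), Q = Affine.Point.some u v h →
    σ u = (-1) ^ j * u ∧ σ v = algebraMap K N (i ^ j) * v

/-- The points of `W` over the algebraic closure with the square of the abscissa in `X`, and the point at infinity. -/
def TorsX {K : Type} [Field K] (W : WeierstrassCurve K) (X : Set K) :
    Set (W.baseChange (AlgebraicClosure K)).toAffine.Point :=
  {Q | ∀ (u v : AlgebraicClosure K) (h : (W.baseChange (AlgebraicClosure K)).toAffine.Nonsingular u v),
    Q = Affine.Point.some u v h → ∃ t ∈ X, u ^ 2 = algebraMap K (AlgebraicClosure K) t}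

end Pool.Agent.Lib.MP_1a91b9_ntQT
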