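import Mathlib

/-!
# Leaf AR1 (medium-): a lower bound for the height of the square of the abscissa of `(1 + i) P`

`φ t = -(t + A)² / (4 t)`. For `t ≠ 0`: `2 h(t) - C ≤ h(φ t)`.
Proof: as `height_dup` in `MP_1a91b9_ntC/Tx.lean`, with `Height.logHeight_eval_ge'` (or `logHeight_eval_ge`; Mathlib, `NumberTheory/Height/MvPolynomial.lean`; see also its use in `NumberTheory/Height/EllipticCurve.lean`) for the two forms of degree `2` in `T = X 0`, `U = X 1`:
`p 0 = -(T + A U)²`, `p 1 = 4 T U`. Certificate of degree `M + N = 3`, `M = 1`: with `P = (T + A U)² = - p 0`, `Q = T U = p 1 / 4`: `T ^ 3 = T P - (2 A T + A² U) Q` and `U ^ 3 = A⁻² (U P - (T + 2 A U) Q)`.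
`logHeight ![-(t + A)², 4 t] = logHeight₁ (φ t)` by `logHeight₁_div_eq_logHeight`, `logHeight₁ t = logHeight ![t, 1]` by `logHeight₁_eq_logHeight`. Evaluate at `![t, 1]`.
-/

set_option autoImplicit false

namespace Pool.Agent.Lib.MP_1a91b9_ntQT

open Height

theorem height_phi {F : Type} [Field F] [NumberField F] {A : F} (hA : A ≠ 0) :
    ∃ C : ℝ, ∀ t : F, t ≠ 0 → 2 * logHeight₁ t - C ≤ logHeight₁ (-(t + A) ^ 2 / (4 * t)) := by
  classical
  let c : Fin 2 × Fin 2 → F × F := fun a =>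
    if a = (0, 0) then (-1, 0) else if a = (0, 1) then (-(A / 2), -(A ^ 2 / 4)) else
      if a = (1, 0) then (0, -(A ^ 2)⁻¹) else (-((A ^ 2)⁻¹ / 4), -((A ^ 2)⁻¹ * A / 2))
  let q : Fin 2 × Fin 2 → MvPolynomial (Fin 2) F := fun a =>
    MvPolynomial.C (c a).1 * MvPolynomial.X 0 + MvPolynomial.C (c a).2 * MvPolynomial.X 1
  have hq : ∀ a, (q a).IsHomogeneous 1 := fun a =>
    (MvPolynomial.isHomogeneous_C_mul_X _ _).add (MvPolynomial.isHomogeneous_C_mul_X _ _)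
  let p : Fin 2 → MvPolynomial (Fin 2) F :=
    ![-(MvPolynomial.X 0 + MvPolynomial.C A * MvPolynomial.X 1) ^ 2,
      MvPolynomial.C 4 * (MvPolynomial.X 0 * MvPolynomial.X 1)]
  obtain ⟨C, hC⟩ := logHeight_eval_ge' (M := 1) (N := 2) hq
  refine ⟨-C, fun t ht => ?_⟩
  have hp0 : (p 0).eval ![t, 1] = -(t + A) ^ 2 := by
    change MvPolynomial.eval ![t, 1] (-(MvPolynomial.X 0 + MvPolynomial.C A * MvPolynomial.X 1) ^ 2) = _
    simp
  have hp1 : (p 1).eval ![t, 1] = 4 * t := by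
    change MvPolynomial.eval ![t, 1] (MvPolynomial.C 4 * (MvPolynomial.X 0 * MvPolynomial.X 1)) = _
    simp
  have hqe : ∀ a, (q a).eval ![t, 1] = (c a).1 * t + (c a).2 := by
    intro a
    change MvPolynomial.eval ![t, 1] (MvPolynomial.C (c a).1 * MvPolynomial.X 0 +
      MvPolynomial.C (c a).2 * MvPolynomial.X 1) = _
    simp
  have h := hC p (x := ![t, 1]) (by
    intro k
    rw [Fin.sum_univ_two, hp0, hp1, hqe, hqe]
    fin_cases k
    · change (-1 * t + 0) * -(t + A) ^ 2 + (-(A / 2) * t + -(A ^ 2 / 4)) * (4 * t) = t ^ (1 + 2)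
      ring
    · change (0 * t + -(A ^ 2)⁻¹) * -(t + A) ^ 2 + (-((A ^ 2)⁻¹ / 4) * t + -((A ^ 2)⁻¹ * A / 2)) * (4 * t) =
        1 ^ (1 + 2)
      have hi : (A ^ 2)⁻¹ * A ^ 2 = 1 := inv_mul_cancel₀ (pow_ne_zero 2 hA)
      calc (0 * t + -(A ^ 2)⁻¹) * -(t + A) ^ 2 + (-((A ^ 2)⁻¹ / 4) * t + -((A ^ 2)⁻¹ * A / 2)) * (4 * t) =
            (A ^ 2)⁻¹ * A ^ 2 := by ring
        _ = 1 ^ (1 + 2) := by rw [hi, one_pow])
  have e1 : (fun j => (p j).eval ![t, 1]) = ![-(t + A) ^ 2, 4 * t] := by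
    funext j
    fin_cases j
    · exact hp0
    · exact hp1
  rw [e1, ← logHeight₁_eq_logHeight, ← logHeight₁_div_eq_logHeight] at h
  push_cast at h
  linarith

end Pool.Agent.Lib.MP_1a91b9_ntQT
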