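import Pool.Agent.Lib.MP_1a91b9_ntQT.AR1
import Pool.Agent.Lib.MP_1a91b9_ntC.Tx

/-!
# Leaf AR2 (medium): finitely many squares of abscissae of torsion points in `F`

Proof: as `tors_x` in `MP_1a91b9_ntC/Tx.lean`. Let `φ t = -(t + A)² / (4 t)`. If `t = x²`, `t ≠ 0`, `t ≠ -A` then for `P = (x, y)` on `y² = x³ + A x` the square of the abscissa of `2 P` is
`φ (φ t) = (t - A) ^ 4 / (16 t (t + A) ^ 2)` (`dup_point` with `a = 0`, `b = A`: `dupX 0 A x = (x² - A)² / (4 (x³ + A x))`). With `C` of `height_phi` (leaf AR1) and `M = max C (max 0 (h (-A)))`: for `M < h(z)`: `z ≠ 0` (`h 0 = 0`), `z ≠ -A`, `h (φ z) ≥ 2 h(z) - C > h(z) > M`, hence also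
`φ z ≠ 0`, and `h (φ (φ z)) > h(z)`. If `M < h(t)` then the points `2 ^ k P` have the squares of abscissae `(φ ∘ φ)^[k] t` of strictly growing height, they are pairwise different, and `P` is not a torsion point (`finite_multiples`). So `X` = the finite set `{t | h(t) ≤ M}` (`NumberField.finite_setOfPred_logHeight₁_le`).
-/

set_option autoImplicit false

namespace Pool.Agent.Lib.MP_1a91b9_ntQT

open Height WeierstrassCurve

/-- the square of the abscissa of the multiple by `1 + i` -/
private noncomputable def AR2_phi {F : Type} [Field F] (A t : F) : F := -(t + A) ^ 2 / (4 * t)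

private theorem AR2_phi_phi {F : Type} [Field F] [CharZero F] {A z : F} (hz : z ≠ 0) (hzA : z + A ≠ 0) :
    AR2_phi A (AR2_phi A z) = (z - A) ^ 4 / (16 * (z * (z + A) ^ 2)) := by
  have h4 : (4 : F) ≠ 0 := by norm_num
  have hw : -(z + A) ^ 2 / (4 * z) + A = -(z - A) ^ 2 / (4 * z) := by
    field_simp
    ring
  show -(-(z + A) ^ 2 / (4 * z) + A) ^ 2 / (4 * (-(z + A) ^ 2 / (4 * z))) = _
  rw [hw]
  field_simp
  norm_num

theorem tors_t {F : Type} [Field F] [NumberField F] {A : F} (hA : A ≠ 0) :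
    ∃ X : Finset F, ∀ (F' : Type) [Field F'] [NumberField F'] [DecidableEq F'] [Algebra F F']
      (t : F) (x y : F')
      (h : (⟨0, 0, 0, algebraMap F F' A, 0⟩ : WeierstrassCurve F').toAffine.Nonsingular x y),
      x ^ 2 = algebraMap F F' t → IsOfFinAddOrder (Affine.Point.some _ _ h) → t ∈ X := by
  classical
  obtain ⟨C, hC⟩ := height_phi hA
  obtain ⟨M, hM⟩ : ∃ M : ℝ, M = max (max C 0) (logHeight₁ (-A)) := ⟨_, rfl⟩
  have hMC : C ≤ M := by
    rw [hM]
    exact (le_max_left _ _).trans (le_max_left _ _)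
  have hM0 : 0 ≤ M := by
    rw [hM]
    exact (le_max_right _ _).trans (le_max_left _ _)
  have hMB : logHeight₁ (-A) ≤ M := by
    rw [hM]
    exact le_max_right _ _
  have hfin : {x : F | logHeight₁ x ≤ M}.Finite := NumberField.finite_setOfPred_logHeight₁_le F M
  refine ⟨hfin.toFinset, ?_⟩
  intro F' _ _ _ _ t x y h hxt htor
  rw [Set.Finite.mem_toFinset]
  show logHeight₁ t ≤ M
  by_contra hlt
  rw [not_le] at hlt
  -- one step
  have hstep1 : ∀ z : F, M < logHeight₁ z → z ≠ 0 ∧ z + A ≠ 0 ∧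
      logHeight₁ z < logHeight₁ (AR2_phi A z) := by
    intro z hz
    have h1 : z ≠ 0 := by
      rintro rfl
      rw [logHeight₁_zero] at hz
      linarith
    have h2 : z + A ≠ 0 := by
      intro h2
      rw [add_eq_zero_iff_eq_neg] at h2
      rw [h2] at hz
      linarith
    refine ⟨h1, h2, ?_⟩
    have h3 : 2 * logHeight₁ z - C ≤ logHeight₁ (AR2_phi A z) := hC z h1
    linarith
  have hstep : ∀ z : F, M < logHeight₁ z → z ≠ 0 ∧ z + A ≠ 0 ∧
      logHeight₁ z < logHeight₁ (AR2_phi A (AR2_phi A z)) := by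
    intro z hz
    obtain ⟨h1, h2, h3⟩ := hstep1 z hz
    exact ⟨h1, h2, h3.trans (hstep1 _ (hz.trans h3)).2.2⟩
  obtain ⟨u, hu⟩ : ∃ u : ℕ → F, u = fun k => (fun z => AR2_phi A (AR2_phi A z))^[k] t := ⟨_, rfl⟩
  have hu0 : u 0 = t := by
    rw [hu]
    rfl
  have hus : ∀ k, u (k + 1) = AR2_phi A (AR2_phi A (u k)) := by
    intro k
    rw [hu]
    exact Function.iterate_succ_apply' _ _ _
  have hgt : ∀ k, M < logHeight₁ (u k) := by
    intro k
    induction k with
    | zero =>
      rw [hu0]
      exact hlt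
    | succ k ih =>
      rw [hus]
      exact ih.trans (hstep _ ih).2.2
  have hmono : StrictMono fun k => logHeight₁ (u k) := by
    refine strictMono_nat_of_lt_succ fun k => ?_
    rw [hus]
    exact (hstep _ (hgt k)).2.2
  have hpt : ∀ k, ∃ (x' y' : F') (h' : (⟨0, 0, 0, algebraMap F F' A, 0⟩ :
      WeierstrassCurve F').toAffine.Nonsingular x' y'), x' ^ 2 = algebraMap F F' (u k) ∧
      (2 ^ k : ℕ) • Affine.Point.some _ _ h = Affine.Point.some _ _ h' := by
    intro k
    induction k with
    | zero =>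
      rw [hu0]
      exact ⟨x, y, h, hxt, by rw [pow_zero, one_nsmul]⟩
    | succ k ih =>
      obtain ⟨x', y', h', ex, e⟩ := ih
      obtain ⟨hz, hzA, -⟩ := hstep _ (hgt k)
      have hx0 : x' ≠ 0 := by
        rintro rfl
        apply hz
        apply (algebraMap F F').injective
        rw [map_zero, ← ex]
        ring
      have hxA : x' ^ 2 + algebraMap F F' A ≠ 0 := by
        intro h2
        apply hzA
        apply (algebraMap F F').injective
        rw [map_zero, map_add, ← ex]
        exact h2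
      have h0 : x' ^ 3 + 0 * x' ^ 2 + algebraMap F F' A * x' ≠ 0 := by
        have e1 : x' ^ 3 + 0 * x' ^ 2 + algebraMap F F' A * x' = x' * (x' ^ 2 + algebraMap F F' A) := by
          ring
        rw [e1]
        exact mul_ne_zero hx0 hxA
      obtain ⟨y'', h'', e''⟩ := MP_1a91b9_ntC.dup_point h' h0
      have e3 : (MP_1a91b9_ntC.dupX 0 (algebraMap F F' A) x') ^ 2 = algebraMap F F' (u (k + 1)) := by
        rw [hus, AR2_phi_phi hz hzA, MP_1a91b9_ntC.dupX]
        simp only [map_div₀, map_pow, map_sub, map_mul, map_add, map_ofNat]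
        rw [← ex]
        have h16 : (4 : F') ≠ 0 := by norm_num
        have h17 : (16 : F') ≠ 0 := by norm_num
        have e5 : x' ^ 3 + 0 * x' ^ 2 + algebraMap F F' A * x' = x' * (x' ^ 2 + algebraMap F F' A) := by
          ring
        rw [e5, div_pow]
        congr 1
        · ring
        · ring
      refine ⟨_, y'', h'', e3, ?_⟩
      rw [pow_succ, mul_comm, mul_smul, e, e'']
  have hfinm := finite_multiples.2 htor
  have hinj : Function.Injective fun k : ℕ => (2 ^ k : ℕ) • Affine.Point.some _ _ h := by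
    intro k l hkl
    obtain ⟨x1, y1, h1, q1, e1⟩ := hpt k
    obtain ⟨x2, y2, h2, q2, e2⟩ := hpt l
    have h3 : Affine.Point.some _ _ h1 = Affine.Point.some _ _ h2 := by
      rw [← e1, ← e2]
      exact hkl
    have h4 := (Affine.Point.some.inj h3).1
    rw [h4, q2] at q1
    have h5 := (algebraMap F F').injective q1
    exact hmono.injective (congrArg logHeight₁ h5.symm)
  have hmem : ∀ k : ℕ, (2 ^ k : ℕ) • Affine.Point.some _ _ h ∈
      (AddSubmonoid.multiples (Affine.Point.some _ _ h) : Set _) := fun k =>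
    (AddSubmonoid.mem_multiples_iff _ _).2 ⟨2 ^ k, rfl⟩
  exact Set.infinite_of_injective_forall_mem hinj hmem hfinm

end Pool.Agent.Lib.MP_1a91b9_ntQT
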