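import Pool.Agent.Lib.MP_1a91b9_ntQT.AR0

/-!
# Leaf AR3 (medium): the field `N = K(x)`, `x ^ 4 = d`

Proof. Independence: put `s = x ^ 2`, `s ^ 2 = d`, `s` is not in `K` (the image), as `d` is not a square. Let `(a + c s) + x (b + e s) = 0`. If `b + e s ≠ 0` then `x = -(a + c s) / (b + e s) = u + v s` with `u, v` in `K` (multiply by `b - e s`; `(b + e s) (b - e s) = b² - e² d ≠ 0`), so `s = x ^ 2 = u² + v² d + 2 u v s`,
so `u² + v² d = 0`, `2 u v = 1`, `d = (i u / v) ^ 2`: contradiction. So `b + e s = 0`, `b = e = 0`, then `a + c s = 0`, `a = c = 0`. Span: `Algebra.adjoin K {x}` = `⊤` (`IntermediateField.adjoin_simple_toSubalgebra_of_isAlgebraic`), every polynomial in `x` reduces by `x ^ 4 = d` (`Polynomial.modByMonic` by `X ^ 4 - C d`,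
`natDegree < 4`, `Polynomial.aeval_eq_sum_range'`). `finrank = 4`: a basis (or `minpoly`: `X ^ 4 - C d` is the minimal polynomial, as no polynomial of degree `< 4` kills `x`). `σ`: `IntermediateField.adjoin.powerBasis` / `PowerBasis.lift`, or directly `(IntermediateField.adjoinRootEquivAdjoin ..)`, `AdjoinRoot.liftAlgHom`:
`i x` is a root of the minimal polynomial `X ^ 4 - C d` (`i ^ 4 = 1`). Compare `nn_auto` in `MP_1a91b9_ntC/NoNew.lean` and `MP_1a91b9_ntMC`. (No finiteness of `N` is needed in the hypotheses.)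
-/

set_option autoImplicit false

namespace Pool.Agent.Lib.MP_1a91b9_ntQT

private theorem ar3_quad {K N : Type} [Field K] [Field N] [Algebra K N] {d : K}
    (hd : ¬ IsSquare d) {s : N} (hs : s ^ 2 = algebraMap K N d) {u v : K}
    (h : algebraMap K N u + algebraMap K N v * s = 0) : u = 0 ∧ v = 0 := by
  have hv : v = 0 := by
    by_contra hv
    have hv1 : algebraMap K N v ≠ 0 := fun h0 => hv ((map_eq_zero _).1 h0)
    have h1 : s = algebraMap K N (-u / v) := by
      rw [map_div₀, map_neg, eq_div_iff hv1]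
      linear_combination h
    have h2 : algebraMap K N ((-u / v) * (-u / v)) = algebraMap K N d := by
      rw [map_mul, ← h1, ← hs]
      ring
    exact hd ⟨-u / v, ((algebraMap K N).injective h2).symm⟩
  refine ⟨?_, hv⟩
  rw [hv, map_zero, zero_mul, add_zero] at h
  exact (map_eq_zero _).1 h

private theorem ar3_indep {K N : Type} [Field K] [CharZero K] [Field N] [Algebra K N] {i d : K}
    (hi : i ^ 2 = -1) (hd : ¬ IsSquare d) {x : N} (hx : x ^ 4 = algebraMap K N d) (a b c e : K)
    (h : algebraMap K N a + algebraMap K N b * x + algebraMap K N c * x ^ 2 +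
      algebraMap K N e * x ^ 3 = 0) : a = 0 ∧ b = 0 ∧ c = 0 ∧ e = 0 := by
  have hs : (x ^ 2) ^ 2 = algebraMap K N d := by
    rw [← hx]
    ring
  have hbe : b = 0 ∧ e = 0 := by
    by_contra hbe
    have hD : b ^ 2 - e ^ 2 * d ≠ 0 := by
      intro hD
      by_cases he : e = 0
      · rw [he] at hD
        have hb : b = 0 := by
          have : b ^ 2 = 0 := by linear_combination hD
          exact pow_eq_zero_iff (two_ne_zero) |>.1 this
        exact hbe ⟨hb, he⟩
      · refine hd ⟨b / e, ?_⟩
        field_simp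
        linear_combination -hD
    have hDN : algebraMap K N (b ^ 2 - e ^ 2 * d) ≠ 0 := fun h0 => hD ((map_eq_zero _).1 h0)
    obtain ⟨u, hu⟩ : ∃ u, u = -(a * b - c * e * d) / (b ^ 2 - e ^ 2 * d) := ⟨_, rfl⟩
    obtain ⟨v, hv⟩ : ∃ v, v = -(b * c - a * e) / (b ^ 2 - e ^ 2 * d) := ⟨_, rfl⟩
    have hu' : (b ^ 2 - e ^ 2 * d) * u = -(a * b - c * e * d) := by
      rw [hu, mul_div_cancel₀ _ hD]
    have hv' : (b ^ 2 - e ^ 2 * d) * v = -(b * c - a * e) := by
      rw [hv, mul_div_cancel₀ _ hD]
    have hxu : x = algebraMap K N u + algebraMap K N v * x ^ 2 := by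
      have e1 := congrArg (algebraMap K N) hu'
      have e2 := congrArg (algebraMap K N) hv'
      simp only [map_mul, map_sub, map_neg, map_pow] at e1 e2 hDN
      rw [← hs] at e1 e2 hDN
      apply mul_left_cancel₀ hDN
      linear_combination (algebraMap K N b - algebraMap K N e * x ^ 2) * h - e1 - x ^ 2 * e2
    have h2 : algebraMap K N (u ^ 2 + v ^ 2 * d) + algebraMap K N (2 * u * v - 1) * x ^ 2 = 0 := by
      have e3 : x ^ 2 = (algebraMap K N u + algebraMap K N v * x ^ 2) ^ 2 := by rw [← hxu]
      simp only [map_mul, map_sub, map_add, map_pow, map_one, map_ofNat]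
      rw [← hs]
      linear_combination -e3
    obtain ⟨h3, h4⟩ := ar3_quad hd hs h2
    have hv0 : v ≠ 0 := by
      intro h0
      rw [h0] at h4
      have : (1 : K) = 0 := by linear_combination -h4
      exact one_ne_zero this
    refine hd ⟨i * u / v, ?_⟩
    field_simp
    linear_combination h3 - u ^ 2 * hi
  obtain ⟨hb, he⟩ := hbe
  have h5 : algebraMap K N a + algebraMap K N c * x ^ 2 = 0 := by
    rw [hb, he, map_zero] at h
    linear_combination h
  obtain ⟨h6, h7⟩ := ar3_quad hd hs h5
  exact ⟨h6, hb, h7, he⟩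

private theorem ar3_span {K N : Type} [Field K] [Field N] [Algebra K N] {d : K}
    {x : N} (hx : x ^ 4 = algebraMap K N d) (hg : IntermediateField.adjoin K {x} = ⊤) (z : N) :
    ∃ a b c e : K, z = algebraMap K N a + algebraMap K N b * x + algebraMap K N c * x ^ 2 +
      algebraMap K N e * x ^ 3 := by
  have hint : IsIntegral K x := by
    refine ⟨Polynomial.X ^ 4 - Polynomial.C d, Polynomial.monic_X_pow_sub_C d (by norm_num), ?_⟩
    rw [Polynomial.eval₂_sub, Polynomial.eval₂_pow, Polynomial.eval₂_X, Polynomial.eval₂_C, hx,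
      sub_self]
  have hz : z ∈ Algebra.adjoin K {x} := by
    rw [← IntermediateField.adjoin_simple_toSubalgebra_of_isAlgebraic hint.isAlgebraic, hg]
    exact IntermediateField.mem_top
  induction hz using Algebra.adjoin_induction with
  | mem y hy =>
    rw [Set.mem_singleton_iff] at hy
    refine ⟨0, 1, 0, 0, ?_⟩
    rw [hy, map_one, map_zero]
    ring
  | algebraMap r =>
    refine ⟨r, 0, 0, 0, ?_⟩
    rw [map_zero]
    ring
  | add y z _ _ hy hz =>
    obtain ⟨a, b, c, e, h1⟩ := hy
    obtain ⟨a', b', c', e', h2⟩ := hz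
    refine ⟨a + a', b + b', c + c', e + e', ?_⟩
    rw [h1, h2]
    simp only [map_add]
    ring
  | mul y z _ _ hy hz =>
    obtain ⟨a, b, c, e, h1⟩ := hy
    obtain ⟨a', b', c', e', h2⟩ := hz
    refine ⟨a * a' + d * (b * e' + c * c' + e * b'), a * b' + b * a' + d * (c * e' + e * c'),
      a * c' + b * b' + c * a' + d * (e * e'), a * e' + b * c' + c * b' + e * a', ?_⟩
    rw [h1, h2]
    simp only [map_add, map_mul]
    rw [← hx]
    ring

theorem auto4 {K N : Type} [Field K] [CharZero K] [Field N] [Algebra K N] {i d : K} (hi : i ^ 2 = -1)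
    (hd : ¬ IsSquare d) {x : N} (hx : x ^ 4 = algebraMap K N d)
    (hg : IntermediateField.adjoin K {x} = ⊤) :
    Module.finrank K N = 4 ∧ ∃ σ : N →ₐ[K] N, Q4 i d x σ := by
  have hind := ar3_indep hi hd hx
  have hsp := ar3_span hx hg
  have hli : LinearIndependent K (fun k : Fin 4 => x ^ (k : ℕ)) := by
    rw [Fintype.linearIndependent_iff]
    intro g hg0
    rw [Fin.sum_univ_four] at hg0
    have h0 : algebraMap K N (g 0) + algebraMap K N (g 1) * x + algebraMap K N (g 2) * x ^ 2 +
        algebraMap K N (g 3) * x ^ 3 = 0 := by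
      rw [← hg0]
      simp only [Algebra.smul_def, Fin.val_zero, Fin.val_one, Fin.val_two, pow_zero, pow_one,
        mul_one]
      rfl
    obtain ⟨h1, h2, h3, h4⟩ := hind _ _ _ _ h0
    intro k
    fin_cases k
    · exact h1
    · exact h2
    · exact h3
    · exact h4
  have htop : ⊤ ≤ Submodule.span K (Set.range fun k : Fin 4 => x ^ (k : ℕ)) := by
    intro z _
    obtain ⟨a, b, c, e, hz⟩ := hsp z
    have hm : ∀ (k : Fin 4) (r : K), algebraMap K N r * x ^ (k : ℕ) ∈
        Submodule.span K (Set.range fun k : Fin 4 => x ^ (k : ℕ)) := by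
      intro k r
      rw [← Algebra.smul_def]
      exact Submodule.smul_mem _ _ (Submodule.subset_span ⟨k, rfl⟩)
    have hz' : z = algebraMap K N a * x ^ ((0 : Fin 4) : ℕ) +
        algebraMap K N b * x ^ ((1 : Fin 4) : ℕ) + algebraMap K N c * x ^ ((2 : Fin 4) : ℕ) +
        algebraMap K N e * x ^ ((3 : Fin 4) : ℕ) := by
      rw [hz]
      simp only [Fin.val_zero, Fin.val_one, Fin.val_two, pow_zero, pow_one, mul_one]
      rfl
    rw [hz']
    exact Submodule.add_mem _ (Submodule.add_mem _ (Submodule.add_mem _ (hm 0 a) (hm 1 b))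
      (hm 2 c)) (hm 3 e)
  let pb : PowerBasis K N :=
    { gen := x
      dim := 4
      basis := Module.Basis.mk hli htop
      basis_eq_pow := fun k => by rw [Module.Basis.mk_apply] }
  have hpb : pb.gen = x := rfl
  have hfin : Module.Finite K N := pb.finite
  have hrank : Module.finrank K N = 4 := pb.finrank
  have hmin : Polynomial.X ^ 4 - Polynomial.C d = minpoly K pb.gen := by
    refine Polynomial.eq_of_monic_of_dvd_of_natDegree_le
      (minpoly.monic pb.isIntegral_gen) (Polynomial.monic_X_pow_sub_C d (by norm_num)) ?_ ?_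
    · refine minpoly.dvd K _ ?_
      rw [hpb, map_sub, map_pow, Polynomial.aeval_X, Polynomial.aeval_C, hx, sub_self]
    · rw [pb.natDegree_minpoly, Polynomial.natDegree_X_pow_sub_C]
  have hroot : Polynomial.aeval (algebraMap K N i * x) (minpoly K pb.gen) = 0 := by
    rw [← hmin, map_sub, map_pow, Polynomial.aeval_X, Polynomial.aeval_C, mul_pow, hx]
    have h4 : algebraMap K N i ^ 4 = 1 := by
      have h5 : i ^ 4 = 1 := by linear_combination (i ^ 2 - 1) * hi
      rw [← map_pow, h5, map_one]
    rw [h4, one_mul, sub_self]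
  refine ⟨hrank, pb.lift (algebraMap K N i * x) hroot, ?_⟩
  exact { i_sq := hi
          pow := hx
          nsq := hd
          map := pb.lift_gen (algebraMap K N i * x) hroot
          span := hsp
          indep := hind }

/-- the fixed elements -/
theorem fix4 {K N : Type} [Field K] [CharZero K] [Field N] [Algebra K N] {i d : K} {x : N}
    {σ : N →ₐ[K] N} (h : Q4 i d x σ) {z : N} (hz : σ z = z) : ∃ a : K, algebraMap K N a = z := by
  obtain ⟨a, b, c, e, hz1⟩ := h.span z
  have hI : algebraMap K N i ^ 2 = -1 := by rw [← map_pow, h.i_sq, map_neg, map_one]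
  have h1 : algebraMap K N 0 + algebraMap K N (b * (i - 1)) * x +
      algebraMap K N (c * (-2)) * x ^ 2 + algebraMap K N (e * (-i - 1)) * x ^ 3 = 0 := by
    have h2 := hz
    rw [hz1] at h2
    simp only [map_add, map_mul, map_pow, AlgHom.commutes, h.map] at h2
    simp only [map_zero, map_mul, map_sub, map_neg, map_one, map_ofNat]
    linear_combination h2 - algebraMap K N c * x ^ 2 * hI -
      algebraMap K N e * algebraMap K N i * x ^ 3 * hI
  obtain ⟨_, h3, h4, h5⟩ := h.indep _ _ _ _ h1
  have hi1 : i - 1 ≠ 0 := by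
    intro h0
    have h6 : i = 1 := sub_eq_zero.1 h0
    have h7 := h.i_sq
    rw [h6] at h7
    have h8 : (2 : K) = 0 := by linear_combination h7
    exact two_ne_zero h8
  have hi2 : -i - 1 ≠ 0 := by
    intro h0
    have h6 : i = -1 := by linear_combination -h0
    have h7 := h.i_sq
    rw [h6] at h7
    have h8 : (2 : K) = 0 := by linear_combination h7
    exact two_ne_zero h8
  have hb : b = 0 := (mul_eq_zero.1 h3).resolve_right hi1
  have hc : c = 0 := (mul_eq_zero.1 h4).resolve_right (neg_ne_zero.2 two_ne_zero)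
  have he : e = 0 := (mul_eq_zero.1 h5).resolve_right hi2
  refine ⟨a, ?_⟩
  rw [hz1, hb, hc, he, map_zero]
  ring

/-- the order of the automorphism -/
theorem ord4 {K N : Type} [Field K] [CharZero K] [Field N] [Algebra K N] {i d : K} {x : N}
    {σ : N →ₐ[K] N} (h : Q4 i d x σ) (z : N) : σ (σ (σ (σ z))) = z := by
  obtain ⟨a, b, c, e, hz⟩ := h.span z
  have hI : algebraMap K N i ^ 2 = -1 := by rw [← map_pow, h.i_sq, map_neg, map_one]
  have hx : σ (σ (σ (σ x))) = x := by
    simp only [map_mul, AlgHom.commutes, h.map]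
    linear_combination (algebraMap K N i ^ 2 - 1) * x * hI
  rw [hz]
  simp only [map_add, map_mul (M := N), map_pow, AlgHom.commutes]
  rw [hx]

end Pool.Agent.Lib.MP_1a91b9_ntQT
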