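import Pool.Agent.Lib.MP_1a91b9_ntQT.AR3

/-!
# Leaf AR4 (medium): the eigenpoints are finitely many

Proof: as `hAmc`, `hAmf` in `nn_main` (`MP_1a91b9_ntC/NoNew.lean`). Let `Q = (u, v)` with `σ u = (-1) ^ j u`, `σ v = i ^ j v`. Put `X = u x ^ (2 j)`, `Y = v x ^ (3 j)`. `σ X = (-1) ^ j i ^ (2 j) X = X`, `σ Y = i ^ j i ^ (3 j) Y = Y` (`i ^ 2 = -1`, `i ^ 4 = 1`), so `X = X₀`, `Y = Y₀` are in `K` (`fix4`), and
`Y² = X³ + A x ^ (4 j) X = X³ + A d ^ j X`. So `(X₀, Y₀)` is a point of `y² = x³ + A d ^ j x` over `K` (nonsingular because the discriminant `-64 (A d ^ j) ^ 3` is not zero: `Affine.equation_iff_nonsingular_of_Δ_ne_zero`). The map `Q ↦ (X₀, Y₀)`, `0 ↦ 0` is injective (`x ≠ 0` as `d` is not a square). `eig_sq`: `σ (u²) = u²`.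
-/

set_option autoImplicit false

namespace Pool.Agent.Lib.MP_1a91b9_ntQT

open WeierstrassCurve

private theorem AR4_i {K : Type} [Field K] {i : K} (hi : i ^ 2 = -1) : i ^ 4 = 1 := by
  have h1 : i ^ 4 = (i ^ 2) ^ 2 := by ring
  rw [h1, hi]
  ring

theorem eig_fin {K N : Type} [Field K] [NumberField K] [Field N] [Algebra K N] {i d : K} {x : N}
    {σ : N →ₐ[K] N} (h : Q4 i d x σ) {A : K} (hA : A ≠ 0) (W : WeierstrassCurve K)
    (hW : W = ⟨0, 0, 0, A, 0⟩) (j : ℕ)
    (hfin : Finite (⟨0, 0, 0, A * d ^ j, 0⟩ : WeierstrassCurve K).toAffine.Point) :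
    {Q : (W.baseChange N).toAffine.Point | EigP W i σ j Q}.Finite := by
  subst hW
  have hd0 : d ≠ 0 := by
    rintro rfl
    exact h.nsq ⟨0, by ring⟩
  have hx0 : x ≠ 0 := by
    intro hx
    have h1 := h.pow
    rw [hx, zero_pow (by norm_num)] at h1
    exact hd0 ((map_eq_zero (algebraMap K N)).1 h1.symm)
  have hI : (algebraMap K N i) ^ 2 = -1 := by
    rw [← map_pow, h.i_sq, map_neg, map_one]
  have hI4 : (algebraMap K N i) ^ 4 = 1 := AR4_i hI
  let V : WeierstrassCurve K := ⟨0, 0, 0, A * d ^ j, 0⟩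
  have hVΔ : V.Δ ≠ 0 := by
    have h4 : V.Δ = -64 * (A * d ^ j) ^ 3 := by
      simp only [V, WeierstrassCurve.Δ, WeierstrassCurve.b₂, WeierstrassCurve.b₄,
        WeierstrassCurve.b₆, WeierstrassCurve.b₈]
      ring
    rw [h4]
    exact mul_ne_zero (by norm_num) (pow_ne_zero _ (mul_ne_zero hA (pow_ne_zero _ hd0)))
  have hfV : Finite V.toAffine.Point := hfin
  have key : ∀ Q : {Q : ((⟨0, 0, 0, A, 0⟩ : WeierstrassCurve K).baseChange N).toAffine.Point |
      EigP ⟨0, 0, 0, A, 0⟩ i σ j Q}, ∃ R : V.toAffine.Point,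
      (Q.1 = 0 ∧ R = 0) ∨ ∃ (u v : N) (X Y : K) (g : _) (g' : _),
        Q.1 = Affine.Point.some u v g ∧ R = Affine.Point.some X Y g' ∧
          algebraMap K N X = u * x ^ (2 * j) ∧ algebraMap K N Y = v * x ^ (3 * j) := by
    rintro ⟨Q, hQ⟩
    rcases Q with _ | ⟨u, v, g⟩
    · exact ⟨0, Or.inl ⟨rfl, rfl⟩⟩
    · obtain ⟨h1, h2⟩ := hQ u v g rfl
      have hfX : σ (u * x ^ (2 * j)) = u * x ^ (2 * j) := by
        rw [map_mul, map_pow, h.map, h1, mul_pow, pow_mul (algebraMap K N i) 2 j, hI]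
        have h3 : ((-1 : N) ^ j) * (-1) ^ j = 1 := by
          rw [← mul_pow]
          norm_num
        linear_combination u * x ^ (2 * j) * h3
      have hfY : σ (v * x ^ (3 * j)) = v * x ^ (3 * j) := by
        rw [map_mul, map_pow, h.map, h2, mul_pow, map_pow]
        have h3 : (algebraMap K N i) ^ j * (algebraMap K N i) ^ (3 * j) = 1 := by
          rw [← pow_add, show j + 3 * j = 4 * j by ring, pow_mul, hI4, one_pow]
        linear_combination v * x ^ (3 * j) * h3
      obtain ⟨X, hX⟩ := fix4 h hfX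
      obtain ⟨Y, hY⟩ := fix4 h hfY
      have heq : v ^ 2 = u ^ 3 + algebraMap K N A * u := by
        have h4 := g.1
        rw [Affine.equation_iff] at h4
        change v ^ 2 + algebraMap K N 0 * u * v + algebraMap K N 0 * v =
          u ^ 3 + algebraMap K N 0 * u ^ 2 + algebraMap K N A * u + algebraMap K N 0 at h4
        rw [map_zero] at h4
        linear_combination h4
      have h5 : V.toAffine.Nonsingular X Y := by
        rw [← Affine.equation_iff_nonsingular_of_Δ_ne_zero hVΔ, Affine.equation_iff]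
        show Y ^ 2 + 0 * X * Y + 0 * Y = X ^ 3 + 0 * X ^ 2 + A * d ^ j * X + 0
        apply (algebraMap K N).injective
        simp only [map_add, map_mul, map_pow, map_zero]
        rw [hX, hY]
        have h6 : (algebraMap K N d) ^ j = x ^ (4 * j) := by
          rw [← h.pow, ← pow_mul]
        rw [h6]
        have h7 : (x ^ (3 * j)) ^ 2 = x ^ (6 * j) := by
          rw [← pow_mul]
          congr 1
          ring
        have h8 : (x ^ (2 * j)) ^ 3 = x ^ (6 * j) := by
          rw [← pow_mul]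
          congr 1
          ring
        have h9 : x ^ (4 * j) * x ^ (2 * j) = x ^ (6 * j) := by
          rw [← pow_add]
          congr 1
          ring
        linear_combination v ^ 2 * h7 + x ^ (6 * j) * heq - u ^ 3 * h8 -
          algebraMap K N A * u * h9
      exact ⟨Affine.Point.some _ _ h5, Or.inr ⟨u, v, X, Y, g, h5, rfl, rfl, hX, hY⟩⟩
  choose f hf using key
  have hinj : Function.Injective f := by
    intro Q Q' hQQ
    apply Subtype.ext
    rcases hf Q with ⟨h4, h5⟩ | ⟨u, v, X, Y, g, g', h4, h5, h6, h7⟩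
    · rcases hf Q' with ⟨h4', h5'⟩ | ⟨u', v', X', Y', k, k', h4', h5', h6', h7'⟩
      · rw [h4, h4']
      · rw [h5, h5'] at hQQ
        cases hQQ
    · rcases hf Q' with ⟨h4', h5'⟩ | ⟨u', v', X', Y', k, k', h4', h5', h6', h7'⟩
      · rw [h5, h5'] at hQQ
        cases hQQ
      · rw [h5, h5', Affine.Point.some.injEq] at hQQ
        have h8 : u = u' := by
          apply mul_right_cancel₀ (pow_ne_zero (2 * j) hx0)
          rw [← h6, ← h6', hQQ.1]
        have h9 : v = v' := by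
          apply mul_right_cancel₀ (pow_ne_zero (3 * j) hx0)
          rw [← h7, ← h7', hQQ.2]
        rw [h4, h4', Affine.Point.some.injEq]
        exact ⟨h8, h9⟩
  have hF : Finite {Q : ((⟨0, 0, 0, A, 0⟩ : WeierstrassCurve K).baseChange N).toAffine.Point |
      EigP ⟨0, 0, 0, A, 0⟩ i σ j Q} := Finite.of_injective f hinj
  exact Set.toFinite _

theorem eig_sq {K N : Type} [Field K] [NumberField K] [Field N] [Algebra K N] {i d : K} {x : N}
    {σ : N →ₐ[K] N} (h : Q4 i d x σ) {W : WeierstrassCurve K} {j : ℕ} {u v : N}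
    {hn : (W.baseChange N).toAffine.Nonsingular u v} (hQ : EigP W i σ j (Affine.Point.some u v hn)) :
    ∃ t : K, u ^ 2 = algebraMap K N t := by
  obtain ⟨h1, _⟩ := hQ u v hn rfl
  have h2 : σ (u ^ 2) = u ^ 2 := by
    rw [map_pow, h1, mul_pow, ← pow_mul, mul_comm j 2, pow_mul]
    norm_num
  obtain ⟨t, ht⟩ := fix4 h h2
  exact ⟨t, ht.symm⟩

end Pool.Agent.Lib.MP_1a91b9_ntQT
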