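import Pool.Agent.Lib.MP_1a91b9_ntQT.AR0
import Pool.Agent.Lib.MP_1a91b9_ntC.NoNew

/-!
# Leaf AR5 (medium-, 3 short): finite sets of points over the algebraic closure

`torsX_fin`: finitely many `u` (roots of `X² - t`, `t ∈ X`), for every `u` at most two `v`. (Copy the pattern of `nn_two_fin` in `MP_1a91b9_ntC/NoNew.lean`: a map to `Option (L × L)` or the coordinates.) `quarter_fin`: `{P | 4 • P = R}` = the union over the halves `T` of `R` (`nn_half_fin`) of the halves of `T`, `4 • P = 2 • (2 • P)`.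
`reps4`: `nn_reps` twice: `x = r + 2 y`, `y = r' + 2 z`, `x = (r + 2 r') + 4 z`.
-/

set_option autoImplicit false

namespace Pool.Agent.Lib.MP_1a91b9_ntQT

open WeierstrassCurve

theorem torsX_fin {K : Type} [Field K] [CharZero K] (W : WeierstrassCurve K) {X : Set K}
    (hX : X.Finite) : (TorsX W X).Finite := by
  classical
  let L := AlgebraicClosure K
  let V : WeierstrassCurve L := W.baseChange L
  have hroot : ∀ p : Polynomial L, p ≠ 0 → {x : L | p.eval x = 0}.Finite := fun p hp => Polynomial.finite_setOfPred_isRoot hp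
  have hU : (⋃ t ∈ X, {u : L | u ^ 2 = algebraMap K L t}).Finite := by
    refine hX.biUnion fun t _ => ?_
    refine (hroot (Polynomial.X ^ 2 - Polynomial.C (algebraMap K L t)) (Polynomial.X_pow_sub_C_ne_zero (by norm_num) _)).subset ?_
    intro u hu
    have hu' : u ^ 2 = algebraMap K L t := hu
    show (Polynomial.X ^ 2 - Polynomial.C (algebraMap K L t)).eval u = 0
    rw [Polynomial.eval_sub, Polynomial.eval_pow, Polynomial.eval_X, Polynomial.eval_C, hu', sub_self]
  have hV : ∀ u : L, {v : L | V.toAffine.Equation u v}.Finite := by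
    intro u
    have hp : (Polynomial.X ^ 2 + Polynomial.C (V.a₁ * u + V.a₃) * Polynomial.X -
        Polynomial.C (u ^ 3 + V.a₂ * u ^ 2 + V.a₄ * u + V.a₆) : Polynomial L) ≠ 0 := by
      intro h
      have h2 : (Polynomial.X ^ 2 + Polynomial.C (V.a₁ * u + V.a₃) * Polynomial.X -
        Polynomial.C (u ^ 3 + V.a₂ * u ^ 2 + V.a₄ * u + V.a₆) : Polynomial L).coeff 2 = 0 := by rw [h, Polynomial.coeff_zero]
      rw [Polynomial.coeff_sub, Polynomial.coeff_add, Polynomial.coeff_X_pow, Polynomial.coeff_C_mul, Polynomial.coeff_X,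
        Polynomial.coeff_C] at h2
      norm_num at h2
    refine (hroot _ hp).subset ?_
    intro v hv
    have hv' : V.toAffine.Equation u v := hv
    rw [Affine.equation_iff] at hv'
    show (Polynomial.X ^ 2 + Polynomial.C (V.a₁ * u + V.a₃) * Polynomial.X -
        Polynomial.C (u ^ 3 + V.a₂ * u ^ 2 + V.a₄ * u + V.a₆) : Polynomial L).eval v = 0
    simp only [Polynomial.eval_sub, Polynomial.eval_add, Polynomial.eval_pow, Polynomial.eval_mul, Polynomial.eval_X, Polynomial.eval_C]
    have e1 : V.toAffine.a₁ = V.a₁ := rfl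
    have e2 : V.toAffine.a₂ = V.a₂ := rfl
    have e3 : V.toAffine.a₃ = V.a₃ := rfl
    have e4 : V.toAffine.a₄ = V.a₄ := rfl
    have e6 : V.toAffine.a₆ = V.a₆ := rfl
    rw [e1, e2, e3, e4, e6] at hv'
    linear_combination hv'
  let g : V.toAffine.Point → Option (L × L) := fun P => match P with
    | .zero => none
    | .some x y _ => some (x, y)
  have hfin : ({none} ∪ some '' (⋃ u ∈ (⋃ t ∈ X, {u : L | u ^ 2 = algebraMap K L t}), (fun v => (u, v)) '' {v : L | V.toAffine.Equation u v}) :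
      Set (Option (L × L))).Finite :=
    (Set.finite_singleton none).union ((hU.biUnion fun u _ => (hV u).image _).image _)
  refine Set.Finite.of_finite_image (f := g) (hfin.subset ?_) ?_
  · rintro _ ⟨P, hP, rfl⟩
    rcases P with _ | ⟨x, y, h⟩
    · exact Or.inl rfl
    · right
      obtain ⟨t, ht, hxt⟩ := hP x y h rfl
      refine ⟨(x, y), ?_, rfl⟩
      refine Set.mem_biUnion (x := x) (Set.mem_biUnion ht hxt) ⟨y, h.1, rfl⟩
  · rintro (_ | ⟨x, y, h⟩) hP (_ | ⟨x', y', h'⟩) hP' hh
    · rfl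
    · exact absurd hh (by simp [g])
    · exact absurd hh (by simp [g])
    · have h4 : x = x' ∧ y = y' := by simpa [g] using hh
      rw [Affine.Point.some.injEq]
      exact h4

theorem quarter_fin {L : Type} [Field L] [DecidableEq L] [CharZero L] (V : WeierstrassCurve L)
    (h1 : V.a₁ = 0) (h3 : V.a₃ = 0) (R : V.toAffine.Point) : {P : V.toAffine.Point | 4 • P = R}.Finite := by
  have h := (Pool.Agent.Lib.MP_1a91b9_ntC.nn_half_fin V h1 h3 R).biUnion fun T _ => Pool.Agent.Lib.MP_1a91b9_ntC.nn_half_fin V h1 h3 T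
  refine h.subset ?_
  intro P hP
  have hP' : 4 • P = R := hP
  refine Set.mem_biUnion (x := 2 • P) ?_ ?_
  · show 2 • (2 • P) = R
    rw [← mul_smul]
    exact hP'
  · show 2 • P = 2 • P
    rfl

theorem reps4 {A : Type} [AddCommGroup A] (hA : AddGroup.FG A) :
    ∃ s : Set A, s.Finite ∧ ∀ x : A, ∃ r ∈ s, ∃ y : A, x = r + 4 • y := by
  obtain ⟨s, hs, h⟩ := Pool.Agent.Lib.MP_1a91b9_ntC.nn_reps hA
  refine ⟨Set.image2 (fun r r' => r + 2 • r') s s, hs.image2 _ hs, fun x => ?_⟩
  obtain ⟨r, hr, y, hy⟩ := h x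
  obtain ⟨r', hr', z, hz⟩ := h y
  refine ⟨r + 2 • r', ⟨r, hr, r', hr', rfl⟩, z, ?_⟩
  have h4 : (4 : ℕ) • z = (2 : ℕ) • ((2 : ℕ) • z) := by
    rw [← mul_smul]
    norm_num
  rw [hy, hz, smul_add, h4]
  abel

end Pool.Agent.Lib.MP_1a91b9_ntQT
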