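import Pool.Agent.Lib.MP_1a91b9_ntQT.AR3

/-!
# Leaf AR6 (medium): finitely many classes of `d`

Proof. For `c : Fin 4 → Kb` (`Kb = AlgebraicClosure K`, `i' = algebraMap K Kb i`) and `j` let `r j c = (c 0 + i' ^ (3 j) c 1 + i' ^ (6 j) c 2 + i' ^ (9 j) c 3) / 4` (`i ^ (-j) = i ^ (3 j)`). `D` = the set of the `(r 1 c) ^ 4`, `(r 2 c) ^ 2`, `(r 3 c) ^ 4` for `c` with values in `C`: finite (`Set.Finite.pi`, images).
`B` = the set of the `β ≠ 0` in `K` with `algebraMap K Kb β ∈ D`: finite (`Set.Finite.preimage`, injective). Now let `z = a + b x + c x² + e x³`, `σ^k z = a + b i^k x + c i^(2k) x² + e i^(3k) x³`; for `c k = φ (σ^k z)`: `r 1 = φ (b x)`, `r 2 = φ (c x²)`, `r 3 = φ (e x³)` (as `1 + i^l + i^(2l) + i^(3l) = 0` for `4 ∤ l`; use `linear_combination` with `i' ^ 2 = -1`), so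
`(r 1) ^ 4 = b⁴ d`, `(r 2) ^ 2 = c² d`, `(r 3) ^ 4 = e⁴ d³`. If `b ≠ 0` then `b⁴ d ∈ B` and `b⁴ d · d` is a square: contradiction. In the same way `c² d · d`, `e⁴ d³ · d`. (`d ≠ 0` as `d` is not a square.) Then `z = a`.
-/

set_option autoImplicit false

namespace Pool.Agent.Lib.MP_1a91b9_ntQT

theorem cls_fin {K : Type} [Field K] [CharZero K] (i : K) {C : Set (AlgebraicClosure K)}
    (hC : C.Finite) : ∃ B : Finset K, (∀ β ∈ B, β ≠ 0) ∧
      ∀ (N : Type) [Field N] [Algebra K N] (d : K) (x : N) (σ : N →ₐ[K] N), Q4 i d x σ →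
      (∀ β ∈ B, ¬ IsSquare (β * d)) → ∀ (φ : N →ₐ[K] AlgebraicClosure K) (z : N),
      φ z ∈ C → φ (σ z) ∈ C → φ (σ (σ z)) ∈ C → φ (σ (σ (σ z))) ∈ C →
      ∃ a : K, algebraMap K N a = z := by
  classical
  obtain ⟨i', hi'⟩ : ∃ j : AlgebraicClosure K, algebraMap K (AlgebraicClosure K) i = j := ⟨_, rfl⟩
  have hT : {c : Fin 4 → AlgebraicClosure K | ∀ k, c k ∈ C}.Finite :=
    Set.Finite.pi' (fun _ => hC)
  let T : Set (Fin 4 → AlgebraicClosure K) := {c | ∀ k, c k ∈ C}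
  let f1 : (Fin 4 → AlgebraicClosure K) → AlgebraicClosure K := fun c =>
    ((c 0 - i' * c 1 - c 2 + i' * c 3) / 4) ^ 4
  let f2 : (Fin 4 → AlgebraicClosure K) → AlgebraicClosure K := fun c =>
    ((c 0 - c 1 + c 2 - c 3) / 4) ^ 2
  let f3 : (Fin 4 → AlgebraicClosure K) → AlgebraicClosure K := fun c =>
    ((c 0 + i' * c 1 - c 2 - i' * c 3) / 4) ^ 4
  have hD : (f1 '' T ∪ f2 '' T ∪ f3 '' T).Finite :=
    ((hT.image f1).union (hT.image f2)).union (hT.image f3)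
  have hB : (algebraMap K (AlgebraicClosure K) ⁻¹' (f1 '' T ∪ f2 '' T ∪ f3 '' T)).Finite :=
    hD.preimage (algebraMap K (AlgebraicClosure K)).injective.injOn
  refine ⟨hB.toFinset.erase 0, fun β hβ => (Finset.mem_erase.mp hβ).1, ?_⟩
  intro N _ _ d x σ h hβ φ z h0 h1 h2 h3
  have hd0 : d ≠ 0 := fun hd => h.nsq (by rw [hd]; exact IsSquare.zero)
  obtain ⟨a, b, c, e, hz⟩ := h.span z
  have hi2' : i' ^ 2 = -1 := by
    rw [← hi', ← map_pow, h.i_sq, map_neg, map_one]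
  have s1 : σ z = algebraMap K N a + algebraMap K N b * (algebraMap K N i * x) +
      algebraMap K N c * (algebraMap K N i * x) ^ 2 + algebraMap K N e * (algebraMap K N i * x) ^ 3 := by
    rw [hz]
    simp only [map_add, map_mul, map_pow, AlgHom.commutes, h.map]
  have s2 : σ (σ z) = algebraMap K N a + algebraMap K N b * (algebraMap K N i * (algebraMap K N i * x)) +
      algebraMap K N c * (algebraMap K N i * (algebraMap K N i * x)) ^ 2 +
      algebraMap K N e * (algebraMap K N i * (algebraMap K N i * x)) ^ 3 := by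
    rw [s1]
    simp only [map_add, map_mul, map_pow, AlgHom.commutes, h.map]
  have s3 : σ (σ (σ z)) = algebraMap K N a +
      algebraMap K N b * (algebraMap K N i * (algebraMap K N i * (algebraMap K N i * x))) +
      algebraMap K N c * (algebraMap K N i * (algebraMap K N i * (algebraMap K N i * x))) ^ 2 +
      algebraMap K N e * (algebraMap K N i * (algebraMap K N i * (algebraMap K N i * x))) ^ 3 := by
    rw [s2]
    simp only [map_add, map_mul, map_pow, AlgHom.commutes, h.map]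
  obtain ⟨A, hA⟩ : ∃ A : AlgebraicClosure K, algebraMap K (AlgebraicClosure K) a = A := ⟨_, rfl⟩
  obtain ⟨B, hBB⟩ : ∃ A : AlgebraicClosure K, algebraMap K (AlgebraicClosure K) b = A := ⟨_, rfl⟩
  obtain ⟨G, hG⟩ : ∃ A : AlgebraicClosure K, algebraMap K (AlgebraicClosure K) c = A := ⟨_, rfl⟩
  obtain ⟨E, hE⟩ : ∃ A : AlgebraicClosure K, algebraMap K (AlgebraicClosure K) e = A := ⟨_, rfl⟩
  obtain ⟨X, hX⟩ : ∃ A : AlgebraicClosure K, φ x = A := ⟨_, rfl⟩
  obtain ⟨Dd, hDd⟩ : ∃ A : AlgebraicClosure K, algebraMap K (AlgebraicClosure K) d = A := ⟨_, rfl⟩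
  have hX4 : X ^ 4 = Dd := by
    rw [← hX, ← map_pow, h.pow, AlgHom.commutes, hDd]
  have t0 : φ z = A + B * X + G * X ^ 2 + E * X ^ 3 := by
    rw [hz]
    simp only [map_add, map_mul, map_pow, AlgHom.commutes, hA, hBB, hG, hE, hX]
  have t1 : φ (σ z) = A + B * (i' * X) + G * (i' * X) ^ 2 + E * (i' * X) ^ 3 := by
    rw [s1]
    simp only [map_add, map_mul, map_pow, AlgHom.commutes, hA, hBB, hG, hE, hX, hi']
  have t2 : φ (σ (σ z)) = A + B * (i' * (i' * X)) + G * (i' * (i' * X)) ^ 2 +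
      E * (i' * (i' * X)) ^ 3 := by
    rw [s2]
    simp only [map_add, map_mul, map_pow, AlgHom.commutes, hA, hBB, hG, hE, hX, hi']
  have t3 : φ (σ (σ (σ z))) = A + B * (i' * (i' * (i' * X))) + G * (i' * (i' * (i' * X))) ^ 2 +
      E * (i' * (i' * (i' * X))) ^ 3 := by
    rw [s3]
    simp only [map_add, map_mul, map_pow, AlgHom.commutes, hA, hBB, hG, hE, hX, hi']
  let cc : Fin 4 → AlgebraicClosure K := ![φ z, φ (σ z), φ (σ (σ z)), φ (σ (σ (σ z)))]
  have hcc : cc ∈ T := by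
    intro k
    fin_cases k
    · exact h0
    · exact h1
    · exact h2
    · exact h3
  have p3 : i' ^ 3 = -i' := by linear_combination i' * hi2'
  have p4 : i' ^ 4 = 1 := by linear_combination (i' ^ 2 - 1) * hi2'
  have p6 : i' ^ 6 = -1 := by linear_combination i' ^ 2 * p4 + hi2'
  have p7 : i' ^ 7 = -i' := by linear_combination i' ^ 3 * p4 + p3
  have p9 : i' ^ 9 = i' := by linear_combination i' ^ 2 * p7 - p3
  have p10 : i' ^ 10 = -1 := by linear_combination i' * p9 + hi2'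
  have four : (4 : AlgebraicClosure K) ≠ 0 := by
    exact_mod_cast (four_ne_zero : (4 : ℕ) ≠ 0)
  have e1 : f1 cc = algebraMap K (AlgebraicClosure K) (b ^ 4 * d) := by
    have hr : (φ z - i' * φ (σ z) - φ (σ (σ z)) + i' * φ (σ (σ (σ z)))) / 4 = B * X := by
      rw [t0, t1, t2, t3, div_eq_iff four]
      linear_combination -2 * B * X * hi2' + B * X * p4 - X ^ 2 * G * p3 - X ^ 2 * G * p4 +
        X ^ 2 * G * p7 - X ^ 3 * E * p4 - X ^ 3 * E * p6 + X ^ 3 * E * p10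
    show ((φ z - i' * φ (σ z) - φ (σ (σ z)) + i' * φ (σ (σ (σ z)))) / 4) ^ 4 = _
    rw [hr, map_mul, map_pow, hBB, hDd, ← hX4, mul_pow]
  have e2 : f2 cc = algebraMap K (AlgebraicClosure K) (c ^ 2 * d) := by
    have hr : (φ z - φ (σ z) + φ (σ (σ z)) - φ (σ (σ (σ z)))) / 4 = G * X ^ 2 := by
      rw [t0, t1, t2, t3, div_eq_iff four]
      linear_combination B * X * hi2' - B * X * p3 - X ^ 2 * G * hi2' + X ^ 2 * G * p4 -
        X ^ 2 * G * p6 - X ^ 3 * E * p3 + X ^ 3 * E * p6 - X ^ 3 * E * p9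
    show ((φ z - φ (σ z) + φ (σ (σ z)) - φ (σ (σ (σ z)))) / 4) ^ 2 = _
    rw [hr, map_mul, map_pow, hG, hDd, ← hX4]
    ring
  have e3 : f3 cc = algebraMap K (AlgebraicClosure K) (e ^ 4 * d ^ 3) := by
    have hr : (φ z + i' * φ (σ z) - φ (σ (σ z)) - i' * φ (σ (σ (σ z)))) / 4 = E * X ^ 3 := by
      rw [t0, t1, t2, t3, div_eq_iff four]
      linear_combination -B * X * p4 + X ^ 2 * G * p3 - X ^ 2 * G * p4 - X ^ 2 * G * p7 +
        X ^ 3 * E * p4 - X ^ 3 * E * p6 - X ^ 3 * E * p10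
    show ((φ z + i' * φ (σ z) - φ (σ (σ z)) - i' * φ (σ (σ (σ z)))) / 4) ^ 4 = _
    rw [hr, map_mul, map_pow, map_pow, hE, hDd, ← hX4]
    ring
  have hb : b = 0 := by
    by_contra hb
    refine hβ (b ^ 4 * d) (Finset.mem_erase.mpr ⟨mul_ne_zero (pow_ne_zero _ hb) hd0, ?_⟩) ?_
    · rw [Set.Finite.mem_toFinset]
      exact Or.inl (Or.inl ⟨cc, hcc, e1⟩)
    · exact ⟨b ^ 2 * d, by ring⟩
  have hc : c = 0 := by
    by_contra hc
    refine hβ (c ^ 2 * d) (Finset.mem_erase.mpr ⟨mul_ne_zero (pow_ne_zero _ hc) hd0, ?_⟩) ?_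
    · rw [Set.Finite.mem_toFinset]
      exact Or.inl (Or.inr ⟨cc, hcc, e2⟩)
    · exact ⟨c * d, by ring⟩
  have he : e = 0 := by
    by_contra he
    refine hβ (e ^ 4 * d ^ 3) (Finset.mem_erase.mpr ⟨mul_ne_zero (pow_ne_zero _ he)
      (pow_ne_zero _ hd0), ?_⟩) ?_
    · rw [Set.Finite.mem_toFinset]
      exact Or.inr ⟨cc, hcc, e3⟩
    · exact ⟨e ^ 2 * d ^ 2, by ring⟩
  refine ⟨a, ?_⟩
  rw [hz, hb, hc, he]
  simp only [map_zero, zero_mul, add_zero]

end Pool.Agent.Lib.MP_1a91b9_ntQT
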