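import Pool.Agent.Lib.MP_1a91b9_ntQT.AR0
import Pool.Agent.Lib.MP_1a91b9_ntJ.Anom

/-!
# Leaf AR7 (medium-, 4 short): the eigencomponents of a point

`exists_i`: as in `MP_1a91b9_ntJ/AnomI.lean` (the construction of `ι` there: `exists_end` of `MP_1a91b9_ntJ/Anom.lean` with `u = -i`: `u² = -1`, `u³ = i`), for a curve `V` with `a₁ = a₂ = a₃ = a₆ = 0`. `four_eig`: `P 0 = P + S P + S² P + S³ P`, `P 1 = P - I S P - S² P + I S³ P`, `P 2 = P - S P + S² P - S³ P`,
`P 3 = P + I S P - S² P - I S³ P` (`map_add`, `map_sub`, `abel`). `eig1`, `eig2`, `eig3`: by cases on the point; `I (I P) = -P`.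
-/

set_option autoImplicit false

namespace Pool.Agent.Lib.MP_1a91b9_ntQT

open WeierstrassCurve

theorem exists_i {L : Type} [Field L] [DecidableEq L] {i : L} (hi : i ^ 2 = -1) (V : WeierstrassCurve L)
    (h1 : V.a₁ = 0) (h2 : V.a₂ = 0) (h3 : V.a₃ = 0) (h6 : V.a₆ = 0) :
    ∃ I : V.toAffine.Point →+ V.toAffine.Point,
      (∀ x y h, ∃ h', I (Affine.Point.some x y h) = Affine.Point.some (-x) (i * y) h') ∧
      ∀ P, I (I P) = -P := by
  have hi0 : i ≠ 0 := by
    rintro rfl
    rw [zero_pow two_ne_zero] at hi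
    exact one_ne_zero (α := L) (by linear_combination hi)
  have hinv : i⁻¹ ^ 4 = 1 := by
    rw [inv_pow, show i ^ 4 = (i ^ 2) ^ 2 by ring, hi]
    norm_num
  have hu0 : -i ≠ 0 := neg_ne_zero.2 hi0
  obtain ⟨I, hI⟩ := Pool.Agent.Lib.MP_1a91b9_ntJ.exists_end V (⟨Units.mk0 (-i) hu0, 0, 0, 0⟩ : VariableChange L) (by
    have hui : (-i)⁻¹ ^ 4 = 1 := by
      rw [inv_neg, neg_pow, hinv]
      norm_num
    refine WeierstrassCurve.ext ?_ ?_ ?_ ?_ ?_
    · rw [variableChange_a₁, h1]
      simp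
    · rw [variableChange_a₂, h1, h2]
      simp
    · rw [variableChange_a₃, h1, h3]
      simp
    · rw [variableChange_a₄, h1, h2, h3]
      simp only [Units.val_inv_eq_inv_val, Units.val_mk0, hui]
      ring
    · rw [variableChange_a₆, h1, h2, h3, h6]
      simp)
  have hI' : ∀ x y h, ∃ h', I (Affine.Point.some x y h) = Affine.Point.some (-x) (i * y) h' := by
    intro x y h
    obtain ⟨h', e⟩ := hI x y h
    have ex : ((Units.mk0 (-i) hu0 : Lˣ) : L) ^ 2 * x + 0 = -x := by
      rw [Units.val_mk0]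
      linear_combination x * hi
    have ey : ((Units.mk0 (-i) hu0 : Lˣ) : L) ^ 3 * y + ((Units.mk0 (-i) hu0 : Lˣ) : L) ^ 2 * 0 * x +
        0 = i * y := by
      rw [Units.val_mk0]
      linear_combination (-i * y) * hi
    simp only [ex, ey] at h' e
    exact ⟨h', e⟩
  refine ⟨I, hI', ?_⟩
  rintro (_ | ⟨x, y, h⟩)
  · have h0 : I (Affine.Point.zero) = 0 := map_zero I
    rw [h0, map_zero]
    exact (neg_zero (G := V.toAffine.Point)).symm
  · obtain ⟨h', e⟩ := hI' x y h
    obtain ⟨h'', e'⟩ := hI' _ _ h'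
    rw [e, e', Affine.Point.neg_some]
    have ey : i * (i * y) = V.toAffine.negY x y := by
      rw [Affine.negY, h1, h3]
      linear_combination y * hi
    simp only [Affine.Point.some.injEq, neg_neg, true_and]
    exact ey

theorem four_eig {G : Type} [AddCommGroup G] {S I : G →+ G} (hS : ∀ P, S (S (S (S P))) = P)
    (hI : ∀ P, I (I P) = -P) (hSI : ∀ P, S (I P) = I (S P)) (P : G) :
    ∃ P0 P1 P2 P3 : G, S P0 = P0 ∧ S P1 = I P1 ∧ S P2 = -P2 ∧ S P3 = -I P3 ∧
      4 • P = P0 + P1 + P2 + P3 := by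
  refine ⟨P + S P + S (S P) + S (S (S P)), P - I (S P) - S (S P) + I (S (S (S P))), P - S P + S (S P) - S (S (S P)),
    P + I (S P) - S (S P) - I (S (S (S P))), ?_, ?_, ?_, ?_, ?_⟩
  · simp only [map_add, hS]
    abel
  · simp only [map_add, map_sub, hSI, hS, hI]
    abel
  · simp only [map_add, map_sub, hS]
    abel
  · simp only [map_add, map_sub, hSI, hS, hI]
    abel
  · abel

/-- Eigenpoints in terms of `S` and `I`. -/
theorem eig_iff {K N : Type} [Field K] [Field N] [DecidableEq N] [Algebra K N] {W : WeierstrassCurve K}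
    (h1 : W.a₁ = 0) (h3 : W.a₃ = 0) {i : K} (hi : i ^ 2 = -1) {σ : N →ₐ[K] N}
    {S I : (W.baseChange N).toAffine.Point →+ (W.baseChange N).toAffine.Point}
    (hS : S = Affine.Point.map (W' := W) σ)
    (hI : ∀ x y h, ∃ h', I (Affine.Point.some x y h) = Affine.Point.some (-x) (algebraMap K N i * y) h')
    (Q : (W.baseChange N).toAffine.Point) :
    (EigP W i σ 1 Q ↔ S Q = I Q) ∧ (EigP W i σ 2 Q ↔ S Q = -Q) ∧ (EigP W i σ 3 Q ↔ S Q = -I Q) := by
  have ha1 : (W.baseChange N).a₁ = 0 := by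
    show algebraMap K N W.a₁ = 0
    rw [h1, map_zero]
  have ha3 : (W.baseChange N).a₃ = 0 := by
    show algebraMap K N W.a₃ = 0
    rw [h3, map_zero]
  rcases Q with _ | ⟨u, v, h⟩
  · have e1 : S Affine.Point.zero = 0 := map_zero S
    have e2 : I Affine.Point.zero = 0 := map_zero I
    have e3 : -(Affine.Point.zero : (W.baseChange N).toAffine.Point) = 0 := neg_zero (G := (W.baseChange N).toAffine.Point)
    have e4 : ∀ j, EigP W i σ j (Affine.Point.zero : (W.baseChange N).toAffine.Point) := by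
      intro j u v h hh
      exact absurd hh (by simp)
    refine ⟨⟨fun _ => by rw [e1, e2], fun _ => e4 1⟩, ⟨fun _ => by rw [e1, e3], fun _ => e4 2⟩,
      ⟨fun _ => by rw [e1, e2]; exact (neg_zero (G := (W.baseChange N).toAffine.Point)).symm, fun _ => e4 3⟩⟩
  · obtain ⟨hI', eI⟩ := hI u v h
    have e0 : ∀ j, EigP W i σ j (Affine.Point.some u v h : (W.baseChange N).toAffine.Point) ↔
        σ u = (-1) ^ j * u ∧ σ v = algebraMap K N (i ^ j) * v := by
      intro j
      constructor
      · intro hh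
        exact hh u v h rfl
      · rintro hh u' v' h' e
        simp only [Affine.Point.some.injEq] at e
        rw [← e.1, ← e.2]
        exact hh
    have hS' : ∃ h', S (Affine.Point.some u v h) = Affine.Point.some (σ u) (σ v) h' := by
      rw [hS]
      exact ⟨_, Affine.Point.map_some (W' := W.toAffine) σ h⟩
    obtain ⟨hS'', eS⟩ := hS'
    have hi2 : algebraMap K N (i ^ 2) = -1 := by rw [hi, map_neg, map_one]
    refine ⟨?_, ?_, ?_⟩
    · rw [e0, eS, eI]
      simp only [Affine.Point.some.injEq, pow_one]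
      rw [neg_one_mul]
    · rw [e0, eS, Affine.Point.neg_some]
      simp only [Affine.Point.some.injEq]
      rw [hi2, Affine.negY, ha1, ha3]
      have e5 : ((-1 : N) ^ 2 * u) = u := by ring
      have e6 : -v - 0 * u - 0 = (-1 : N) * v := by ring
      rw [e5, e6]
    · rw [e0, eS, eI, Affine.Point.neg_some]
      simp only [Affine.Point.some.injEq]
      rw [Affine.negY, ha1, ha3]
      have e5 : ((-1 : N) ^ 3 * u) = -u := by ring
      have e6 : algebraMap K N (i ^ 3) * v = -(algebraMap K N i * v) - 0 * -u - 0 := by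
        have e7 : algebraMap K N (i ^ 3) = -algebraMap K N i := by
          rw [pow_succ, map_mul, hi2, neg_one_mul]
        rw [e7]
        ring
      rw [e5, e6]

end Pool.Agent.Lib.MP_1a91b9_ntQT
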