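import Pool.Agent.Lib.MP_1a91b9_ntQT.AR2
import Pool.Agent.Lib.MP_1a91b9_ntQT.AR4
import Pool.Agent.Lib.MP_1a91b9_ntQT.AR5
import Pool.Agent.Lib.MP_1a91b9_ntQT.AR6
import Pool.Agent.Lib.MP_1a91b9_ntQT.AR7

/-!
# Leaf AR8 (medium+, assembly): no new points over `N = K(d^(1/4))`

Follow `nn_main` and `no_new_of` in `MP_1a91b9_ntC/NoNew.lean`. Let `W = ⟨0, 0, 0, A, 0⟩` over `K`, `Kb = AlgebraicClosure K`, `X` from `tors_t` (leaf AR2), `TX = TorsX W X` (finite: `torsX_fin`, AR5), `s` finite with `x = r + 4 y` for all `x` in `W(K)` (`reps4` with `MP_17a322_nt.VJ.mordell_weil (W.baseChange K)` as in `nn_main`),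
`Qs` = the set of the `P` in `W(Kb)` with `4 P = r' + T1 + T2 + T3`, `r'` the image of an `r` in `s`, `T1, T2, T3` in `TX`: finite (`quarter_fin`; `Set.Finite.biUnion`). `C` = the set of the coordinates of the points of `Qs` (`nnX`, `nnY` in NoNew). `B` from `cls_fin` (AR6).
Now let `N, d, x` be given: `auto4` (AR3): `σ`, `Q4 i d x σ`. `S = Affine.Point.map (W' := W) σ`, `I` from `exists_i` (AR7) for `W.baseChange N` and `algebraMap K N i`. `S (S (S (S P))) = P` (`ord4`), `S (I P) = I (S P)` (`σ` fixes `i`), `I (I P) = -P`. Let `P = (x', y')` in `W(N)` (nonsingular because the discriminant is not zero).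
`four_eig`: `4 P = P0 + P1 + P2 + P3`. `P0` is fixed by `S`: it is the image of a point `R` of `W(K)` (`fix4`; as `hSfix` in `nn_main`). `P1, P2, P3` satisfy `EigP W i σ j` (`eig_iff`), `j = 1, 2, 3`; the set of the points with `S Q = I Q` (`= -Q`, `= -I Q`) is an additive subgroup, finite by `eig_fin`, so its elements
are torsion points; by `eig_sq` and `tors_t` the square of the abscissa is in `X`, so the images of `P1, P2, P3` in `W(Kb)` (under `φ : N →ₐ[K] Kb`, `IsAlgClosed.lift`) are in `TX`; the same for `S^k Pj` (also in the subgroup). `R = r + 4 T`. `P' = P - T`: `4 P' = r + P1 + P2 + P3`,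
`4 S^k P' = r + S^k P1 + S^k P2 + S^k P3`, so the images of `P', S P', S² P', S³ P'` are in `Qs`. If `P' = (z, w)` then `cls_fin` for `z` and for `w`: `z, w` are in `K`. So `P = P' + T` is the image of a point of `W(K)`.
-/

set_option autoImplicit false

namespace Pool.Agent.Lib.MP_1a91b9_ntQT

open WeierstrassCurve

/-- An element of a finite kernel is a torsion element. -/
private theorem AR8_tors {G : Type} [AddCommGroup G] (f : G →+ G) (hf : {Q | f Q = 0}.Finite) {Q : G}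
    (hQ : f Q = 0) : IsOfFinAddOrder Q := by
  have h1 : Finite f.ker := hf
  have h2 : IsOfFinAddOrder (⟨Q, hQ⟩ : f.ker) := isOfFinAddOrder_of_finite _
  exact AddMonoidHom.isOfFinAddOrder f.ker.subtype h2

open Classical in
private theorem AR8_main {K : Type} [Field K] [NumberField K] {i : K} (hi : i ^ 2 = -1) {A : K}
    (hA : A ≠ 0) (W : WeierstrassCurve K) (hW : W = ⟨0, 0, 0, A, 0⟩) :
    ∃ B : Finset K, (∀ β ∈ B, β ≠ 0) ∧ ∀ (N : Type) [Field N] [NumberField N] [Algebra K N] (d : K)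
      (x : N) (σ : N →ₐ[K] N), Q4 i d x σ →
      (∀ j : ℕ, 1 ≤ j → j ≤ 3 →
        Finite (⟨0, 0, 0, A * d ^ j, 0⟩ : WeierstrassCurve K).toAffine.Point) →
      (∀ β ∈ B, ¬ IsSquare (β * d)) →
      ∀ P : (W.baseChange N).toAffine.Point, ∃ Q : (W.baseChange K).toAffine.Point,
        P = Affine.Point.map (W' := W) (Algebra.ofId K N) Q := by
  have h1 : W.a₁ = 0 := by rw [hW]
  have h2 : W.a₂ = 0 := by rw [hW]
  have h3 : W.a₃ = 0 := by rw [hW]
  have h4 : W.a₄ = A := by rw [hW]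
  have h6 : W.a₆ = 0 := by rw [hW]
  have hΔ : W.Δ ≠ 0 := by
    have e : W.Δ = -64 * A ^ 3 := by
      simp only [WeierstrassCurve.Δ, WeierstrassCurve.b₂, WeierstrassCurve.b₄,
        WeierstrassCurve.b₆, WeierstrassCurve.b₈, h1, h2, h3, h4, h6]
      ring
    rw [e]
    exact mul_ne_zero (by norm_num) (pow_ne_zero 3 hA)
  have hell : W.IsElliptic := ⟨isUnit_iff_ne_zero.2 hΔ⟩
  have hellF : (W.baseChange K).IsElliptic :=
    inferInstanceAs (W.map (algebraMap K K)).IsElliptic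
  obtain ⟨X, hX⟩ := tors_t hA
  obtain ⟨s, hs, hrep⟩ := reps4 (Pool.Agent.Lib.MP_17a322_nt.VJ.mordell_weil (W.baseChange K))
  let Kb := AlgebraicClosure K
  have hb1 : (W.baseChange Kb).a₁ = 0 := by
    change algebraMap K Kb W.a₁ = 0
    rw [h1, map_zero]
  have hb3 : (W.baseChange Kb).a₃ = 0 := by
    change algebraMap K Kb W.a₃ = 0
    rw [h3, map_zero]
  obtain ⟨TX, hTX⟩ : ∃ TX, TX = TorsX W (X : Set K) := ⟨_, rfl⟩
  have hTXf : TX.Finite := by
    rw [hTX]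
    exact torsX_fin W X.finite_toSet
  let Qs : Set (W.baseChange Kb).toAffine.Point :=
    ⋃ r ∈ s, ⋃ T1 ∈ TX, ⋃ T2 ∈ TX, ⋃ T3 ∈ TX,
      {P | 4 • P = Affine.Point.map (W' := W) (Algebra.ofId K Kb) r + T1 + T2 + T3}
  have hQs : Qs.Finite := hs.biUnion fun r _ => hTXf.biUnion fun T1 _ => hTXf.biUnion fun T2 _ =>
    hTXf.biUnion fun T3 _ => quarter_fin _ hb1 hb3 _
  let C : Set Kb := (Pool.Agent.Lib.MP_1a91b9_ntC.nnX '' Qs) ∪ (Pool.Agent.Lib.MP_1a91b9_ntC.nnY '' Qs)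
  have hC : C.Finite := (hQs.image _).union (hQs.image _)
  obtain ⟨B, hB0, hB⟩ := cls_fin i hC
  refine ⟨B, hB0, ?_⟩
  intro N _ _ _ d x σ hq hfin hdB P
  have ha1 : (W.baseChange N).toAffine.a₁ = 0 := by
    change algebraMap K N W.a₁ = 0
    rw [h1, map_zero]
  have ha2 : (W.baseChange N).toAffine.a₂ = 0 := by
    change algebraMap K N W.a₂ = 0
    rw [h2, map_zero]
  have ha3 : (W.baseChange N).toAffine.a₃ = 0 := by
    change algebraMap K N W.a₃ = 0
    rw [h3, map_zero]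
  have ha6 : (W.baseChange N).toAffine.a₆ = 0 := by
    change algebraMap K N W.a₆ = 0
    rw [h6, map_zero]
  let φ : N →ₐ[K] Kb := IsAlgClosed.lift
  let S : (W.baseChange N).toAffine.Point →+ (W.baseChange N).toAffine.Point :=
    Affine.Point.map (W' := W) σ
  have hS : ∀ x y h, ∃ h', S (Affine.Point.some x y h) = Affine.Point.some (σ x) (σ y) h' :=
    fun x y h => ⟨_, rfl⟩
  obtain ⟨I, hI, hII⟩ := exists_i (i := algebraMap K N i) (by
    rw [← map_pow, hi, map_neg, map_one]) (W.baseChange N) ha1 ha2 ha3 ha6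
  have hSS : ∀ Q, S (S (S (S Q))) = Q := by
    rintro (_ | ⟨x, y, h⟩)
    · rfl
    · obtain ⟨h', e⟩ := hS x y h
      obtain ⟨h'', e'⟩ := hS _ _ h'
      obtain ⟨h₃, e₃⟩ := hS _ _ h''
      obtain ⟨h₄, e₄⟩ := hS _ _ h₃
      rw [e, e', e₃, e₄, Affine.Point.some.injEq]
      exact ⟨ord4 hq x, ord4 hq y⟩
  have hSI : ∀ Q, S (I Q) = I (S Q) := by
    rintro (_ | ⟨x, y, h⟩)
    · change S (I 0) = I (S 0)
      rw [map_zero, map_zero, map_zero]
    · obtain ⟨h', e⟩ := hS x y h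
      obtain ⟨h'', e'⟩ := hI x y h
      obtain ⟨h₃, e₃⟩ := hS _ _ h''
      obtain ⟨h₄, e₄⟩ := hI _ _ h'
      rw [e, e', e₃, e₄, Affine.Point.some.injEq]
      exact ⟨map_neg _ _, by rw [map_mul, AlgHom.commutes]⟩
  have hSF : ∀ Q : (W.baseChange K).toAffine.Point,
      S (Affine.Point.map (W' := W) (Algebra.ofId K N) Q) =
        Affine.Point.map (W' := W) (Algebra.ofId K N) Q := by
    rintro (_ | ⟨x, y, h⟩)
    · rfl
    · change Affine.Point.some _ _ _ = Affine.Point.some _ _ _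
      rw [Affine.Point.some.injEq]
      exact ⟨σ.commutes x, σ.commutes y⟩
  have hpt : ∀ (x y : N) (h : (W.baseChange N).toAffine.Nonsingular x y),
      (∃ a : K, algebraMap K N a = x) → (∃ b : K, algebraMap K N b = y) →
      ∃ R : (W.baseChange K).toAffine.Point,
        Affine.Point.some x y h = Affine.Point.map (W' := W) (Algebra.ofId K N) R := by
    rintro _ _ h ⟨a, rfl⟩ ⟨b, rfl⟩
    exact ⟨Affine.Point.some a b ((Affine.baseChange_nonsingular W.toAffine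
      (Algebra.ofId K N).injective _ _).mp h), rfl⟩
  have hSfix : ∀ Q, S Q = Q → ∃ R : (W.baseChange K).toAffine.Point,
      Q = Affine.Point.map (W' := W) (Algebra.ofId K N) R := by
    rintro (_ | ⟨x, y, h⟩) hQ
    · exact ⟨0, rfl⟩
    · obtain ⟨h', e⟩ := hS x y h
      rw [e, Affine.Point.some.injEq] at hQ
      exact hpt x y h (fix4 hq hQ.1) (fix4 hq hQ.2)
  -- the eigenpoints are torsion points
  have hE := eig_iff h1 h3 hi (S := S) rfl hI
  have htors : ∀ j : ℕ, 1 ≤ j → j ≤ 3 → ∀ Q, EigP W i σ j Q → IsOfFinAddOrder Q := by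
    intro j hj1 hj3 Q hQ
    have hf := eig_fin hq hA W hW j (hfin j hj1 hj3)
    obtain rfl | rfl | rfl : j = 1 ∨ j = 2 ∨ j = 3 := by omega
    · refine AR8_tors (S - I) (hf.subset fun Q' hQ' => ?_) ?_
      · exact (hE Q').1.2 (sub_eq_zero.1 hQ')
      · exact sub_eq_zero.2 ((hE Q).1.1 hQ)
    · refine AR8_tors (S + AddMonoidHom.id _) (hf.subset fun Q' hQ' => ?_) ?_
      · exact (hE Q').2.1.2 (add_eq_zero_iff_eq_neg.1 hQ')
      · exact add_eq_zero_iff_eq_neg.2 ((hE Q).2.1.1 hQ)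
    · refine AR8_tors (S + I) (hf.subset fun Q' hQ' => ?_) ?_
      · exact (hE Q').2.2.2 (add_eq_zero_iff_eq_neg.1 hQ')
      · exact add_eq_zero_iff_eq_neg.2 ((hE Q).2.2.1 hQ)
  have hVX : ∀ (V : WeierstrassCurve N), V = ⟨0, 0, 0, algebraMap K N A, 0⟩ →
      ∀ (t : K) (u v : N) (h : V.toAffine.Nonsingular u v), u ^ 2 = algebraMap K N t →
        IsOfFinAddOrder (Affine.Point.some _ _ h) → t ∈ X := by
    rintro _ rfl t u v h hu ho
    exact hX N t u v h hu ho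
  have hVW : W.baseChange N = ⟨0, 0, 0, algebraMap K N A, 0⟩ :=
    WeierstrassCurve.ext ha1 ha2 ha3 (congrArg (algebraMap K N) h4) ha6
  have htx : ∀ j : ℕ, 1 ≤ j → j ≤ 3 → ∀ Q, EigP W i σ j Q →
      Affine.Point.map (W' := W) φ Q ∈ TX := by
    intro j hj1 hj3 Q hQ
    have ht := htors j hj1 hj3 Q hQ
    rw [hTX]
    rcases Q with _ | ⟨u, v, h⟩
    · intro u' v' h' e
      cases e
    · intro u' v' h' e
      change Affine.Point.some _ _ _ = Affine.Point.some _ _ _ at e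
      rw [Affine.Point.some.injEq] at e
      obtain ⟨t, ht2⟩ := eig_sq hq hQ
      refine ⟨t, hVX _ hVW t u v h ht2 ht, ?_⟩
      rw [← e.1]
      change φ u ^ 2 = _
      rw [← map_pow, ht2, AlgHom.commutes]
  have hSE : ∀ j : ℕ, 1 ≤ j → j ≤ 3 → ∀ Q, EigP W i σ j Q → EigP W i σ j (S Q) := by
    intro j hj1 hj3 Q hQ
    obtain rfl | rfl | rfl : j = 1 ∨ j = 2 ∨ j = 3 := by omega
    · have h := (hE Q).1.1 hQ
      rw [(hE _).1, h, hSI, h]
    · have h := (hE Q).2.1.1 hQ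
      rw [(hE _).2.1, h, map_neg, h]
    · have h := (hE Q).2.2.1 hQ
      rw [(hE _).2.2, h, map_neg, hSI, h]
  -- the components
  obtain ⟨P0, P1, P2, P3, e0, e1, e2, e3, e4⟩ := four_eig hSS hII hSI P
  obtain ⟨R, hR⟩ := hSfix P0 e0
  obtain ⟨r, hr, T, hT⟩ := hrep R
  obtain ⟨P', hP'⟩ : ∃ P', P' = P - Affine.Point.map (W' := W) (Algebra.ofId K N) T := ⟨_, rfl⟩
  have h4P' : 4 • P' = Affine.Point.map (W' := W) (Algebra.ofId K N) r + P1 + P2 + P3 := by
    rw [hP', smul_sub, e4, hR, hT, map_add, map_nsmul]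
    abel
  have hmap : ∀ Q Q1 Q2 Q3 : (W.baseChange N).toAffine.Point, EigP W i σ 1 Q1 → EigP W i σ 2 Q2 →
      EigP W i σ 3 Q3 → 4 • Q = Affine.Point.map (W' := W) (Algebra.ofId K N) r + Q1 + Q2 + Q3 →
      Affine.Point.map (W' := W) φ Q ∈ Qs := by
    intro Q Q1 Q2 Q3 q1 q2 q3 hQ
    refine Set.mem_biUnion hr (Set.mem_biUnion (htx 1 le_rfl (by norm_num) Q1 q1)
      (Set.mem_biUnion (htx 2 (by norm_num) (by norm_num) Q2 q2)
        (Set.mem_biUnion (htx 3 (by norm_num) le_rfl Q3 q3) ?_)))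
    show 4 • Affine.Point.map (W' := W) φ Q = _
    rw [← map_nsmul, hQ, map_add, map_add, map_add]
    congr 3
    rcases r with _ | ⟨x, y, h⟩
    · rfl
    · change Affine.Point.some _ _ _ = Affine.Point.some _ _ _
      rw [Affine.Point.some.injEq]
      exact ⟨φ.commutes x, φ.commutes y⟩
  have hstep : ∀ Q Q1 Q2 Q3 : (W.baseChange N).toAffine.Point,
      4 • Q = Affine.Point.map (W' := W) (Algebra.ofId K N) r + Q1 + Q2 + Q3 →
      4 • S Q = Affine.Point.map (W' := W) (Algebra.ofId K N) r + S Q1 + S Q2 + S Q3 := by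
    intro Q Q1 Q2 Q3 hQ
    rw [← map_nsmul, hQ, map_add, map_add, map_add, hSF]
  have p1 : EigP W i σ 1 P1 := (hE P1).1.2 e1
  have p2 : EigP W i σ 2 P2 := (hE P2).2.1.2 e2
  have p3 : EigP W i σ 3 P3 := (hE P3).2.2.2 e3
  have s1 := hSE 1 le_rfl (by norm_num)
  have s2 := hSE 2 (by norm_num) (by norm_num)
  have s3 := hSE 3 (by norm_num) le_rfl
  have m0 := hmap P' P1 P2 P3 p1 p2 p3 h4P'
  have f1 := hstep _ _ _ _ h4P'
  have m1 := hmap _ _ _ _ (s1 _ p1) (s2 _ p2) (s3 _ p3) f1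
  have f2 := hstep _ _ _ _ f1
  have m2 := hmap _ _ _ _ (s1 _ (s1 _ p1)) (s2 _ (s2 _ p2)) (s3 _ (s3 _ p3)) f2
  have f3 := hstep _ _ _ _ f2
  have m3 := hmap _ _ _ _ (s1 _ (s1 _ (s1 _ p1))) (s2 _ (s2 _ (s2 _ p2)))
    (s3 _ (s3 _ (s3 _ p3))) f3
  suffices h : ∃ R' : (W.baseChange K).toAffine.Point,
      P' = Affine.Point.map (W' := W) (Algebra.ofId K N) R' by
    obtain ⟨R', hR'⟩ := h
    refine ⟨R' + T, ?_⟩
    rw [map_add, ← hR', hP', sub_add_cancel]
  rcases P' with _ | ⟨z, w, h⟩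
  · exact ⟨0, rfl⟩
  · exact hpt z w h
      (hB N d x σ hq hdB φ z (Or.inl ⟨_, m0, rfl⟩) (Or.inl ⟨_, m1, rfl⟩) (Or.inl ⟨_, m2, rfl⟩)
        (Or.inl ⟨_, m3, rfl⟩))
      (hB N d x σ hq hdB φ w (Or.inr ⟨_, m0, rfl⟩) (Or.inr ⟨_, m1, rfl⟩) (Or.inr ⟨_, m2, rfl⟩)
        (Or.inr ⟨_, m3, rfl⟩))

/-- **No new points** over `K(d^(1/4))`. -/
theorem no_new4 {K : Type} [Field K] [NumberField K] {i : K} (hi : i ^ 2 = -1) {A : K} (hA : A ≠ 0) :
    ∃ B : Finset K, (∀ β ∈ B, β ≠ 0) ∧ ∀ (N : Type) [Field N] [NumberField N] [Algebra K N] (d : K)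
      (x : N), x ^ 4 = algebraMap K N d → IntermediateField.adjoin K {x} = ⊤ → ¬ IsSquare d →
      (∀ j : ℕ, 1 ≤ j → j ≤ 3 →
        Finite (⟨0, 0, 0, A * d ^ j, 0⟩ : WeierstrassCurve K).toAffine.Point) →
      (∀ β ∈ B, ¬ IsSquare (β * d)) →
      ∀ x' y' : N, y' ^ 2 = x' ^ 3 + algebraMap K N A * x' →
        ∃ x₀ y₀ : K, algebraMap K N x₀ = x' ∧ algebraMap K N y₀ = y' := by
  obtain ⟨W, hW⟩ : ∃ W : WeierstrassCurve K, W = ⟨0, 0, 0, A, 0⟩ := ⟨_, rfl⟩
  obtain ⟨B, hB0, hB⟩ := AR8_main hi hA W hW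
  refine ⟨B, hB0, ?_⟩
  intro N _ _ _ d x hx hg hd hfin hdB x' y' heq
  obtain ⟨-, σ, hq⟩ := auto4 hi hd hx hg
  have hΔ : W.Δ ≠ 0 := by
    have e : W.Δ = -64 * A ^ 3 := by
      rw [hW]
      simp only [WeierstrassCurve.Δ, WeierstrassCurve.b₂, WeierstrassCurve.b₄,
        WeierstrassCurve.b₆, WeierstrassCurve.b₈]
      ring
    rw [e]
    exact mul_ne_zero (by norm_num) (pow_ne_zero 3 hA)
  have hΔ' : (W.baseChange N).Δ ≠ 0 := by
    change (W.map (algebraMap K N)).Δ ≠ 0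
    rw [WeierstrassCurve.map_Δ]
    exact (_root_.map_ne_zero _).2 hΔ
  have hns : (W.baseChange N).toAffine.Nonsingular x' y' := by
    rw [← Affine.equation_iff_nonsingular_of_Δ_ne_zero hΔ', Affine.equation_iff]
    show y' ^ 2 + algebraMap K N W.a₁ * x' * y' + algebraMap K N W.a₃ * y' =
      x' ^ 3 + algebraMap K N W.a₂ * x' ^ 2 + algebraMap K N W.a₄ * x' + algebraMap K N W.a₆
    rw [hW]
    show y' ^ 2 + algebraMap K N 0 * x' * y' + algebraMap K N 0 * y' =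
      x' ^ 3 + algebraMap K N 0 * x' ^ 2 + algebraMap K N A * x' + algebraMap K N 0
    rw [map_zero]
    linear_combination heq
  obtain ⟨Q, hQ⟩ := hB N d x σ hq hfin hdB (Affine.Point.some x' y' hns)
  rcases Q with _ | ⟨x₀, y₀, h₀⟩
  · cases hQ
  · change Affine.Point.some _ _ _ = Affine.Point.some _ _ _ at hQ
    rw [Affine.Point.some.injEq] at hQ
    exact ⟨x₀, y₀, hQ.1.symm, hQ.2.symm⟩

end Pool.Agent.Lib.MP_1a91b9_ntQT
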