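import Pool.Agent.Lib.MP_1a91b9_ntQ.B.DenTr
import Pool.Agent.Lib.MP_1a91b9_ntM.R.Tr

/-!
# Quartic stability, block DE

Leaf DE1: copy of `DS_of_DSB` (`ntM/R/Tr`) with the condition `Disjoint S C`, `C ⊆ P`: for `S` with `S ∩ P = B'` the condition means `Disjoint
B' C`; in `IB m P g` only the `B'` disjoint from `C` are used.
-/

set_option autoImplicit false
set_option linter.unusedSectionVars false

namespace Pool.Agent.Lib.MP_1a91b9_ntQT

open NumberField Finset Pool.Agent.Lib.MP_1a91b9_ntQ Pool.Agent.Lib.MP_1a91b9_ntM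
open Pool.Agent.Lib.MP_1a91b9_ntH (PS nm Sx mem_Sx nm_union one_le_nm)

noncomputable section

private theorem DE1_card {α : Type*} {p q : α → Prop} {i1 : DecidablePred p} {i2 : DecidablePred q}
    {s : Finset α} (h : ∀ x, p x ↔ q x) :
    (((@Finset.filter α p i1 s).card : ℕ) : ℝ) = (((@Finset.filter α q i2 s).card : ℕ) : ℝ) := by
  have h1 : p = q := funext fun x => propext (h x)
  subst h1
  rw [Subsingleton.elim i1 i2]

/-- **From the sets of primes outside `P` to the sets of primes outside `C`.** -/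
theorem DSc_of_DSB {m : ℕ} {C P : Finset Pg} (hCP : C ⊆ P) (g : G4n m) {κ₀ : ℝ}
    {Q : Finset Pg → Prop}
    (h : ∀ B' : Finset Pg, B' ⊆ P → Disjoint B' C → ∀ g' : GB m P,
      DSB m P g' κ₀ fun S => Q (B' ∪ S)) : DSc m C g κ₀ Q := by
  classical
  intro ε hε
  obtain ⟨n, hn⟩ : ∃ n : ℝ, n = ((IB m P g).card : ℝ) + 1 := ⟨_, rfl⟩
  have hn0 : 0 < n := by
    rw [hn]
    positivity
  have h' : ∀ i : Finset Pg × GB m P, ∃ X₀ : ℕ, i ∈ IB m P g → ∀ X : ℕ, X₀ ≤ X →
      κ₀ * (((Sx Pg X).filter fun S => Disjoint S P ∧ ∑ q ∈ S, clB m P q = i.2 ∧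
        Disjoint (i.1 ∪ S) C).card : ℝ) - ε / n * X ≤
        (((Sx Pg X).filter fun S => Disjoint S P ∧ ∑ q ∈ S, clB m P q = i.2 ∧
          (Disjoint (i.1 ∪ S) C ∧ Q (i.1 ∪ S))).card : ℝ) := by
    intro i
    by_cases hi : i ∈ IB m P g
    · by_cases hC : Disjoint i.1 C
      · obtain ⟨X₀, h0⟩ := h i.1 (mem_IB.1 hi).1 hC i.2 (ε / n) (by positivity)
        refine ⟨X₀, fun _ X hX => ?_⟩
        have h1 := h0 X hX
        have hd : ∀ S : Finset Pg, Disjoint S P → Disjoint (i.1 ∪ S) C := fun S hS =>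
          disjoint_union_left.2 ⟨hC, disjoint_of_subset_right hCP hS⟩
        refine le_trans (le_of_eq ?_) (h1.trans (le_of_eq ?_))
        · refine congrArg (fun x : ℝ => κ₀ * x - ε / n * X) (DE1_card fun S => ?_)
          exact ⟨fun h => ⟨h.1, h.2.1⟩, fun h => ⟨h.1, h.2, hd S h.1⟩⟩
        · refine DE1_card fun S => ?_
          exact ⟨fun h => ⟨h.1, h.2.1, hd S h.1, h.2.2⟩, fun h => ⟨h.1, h.2.1, h.2.2.2⟩⟩
      · refine ⟨0, fun _ X _ => ?_⟩
        have h2 : ((Sx Pg X).filter fun S => Disjoint S P ∧ ∑ q ∈ S, clB m P q = i.2 ∧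
            Disjoint (i.1 ∪ S) C) = ∅ := by
          refine filter_eq_empty_iff.2 fun S _ h3 => hC ?_
          exact disjoint_of_subset_left subset_union_left h3.2.2
        rw [h2, card_empty, Nat.cast_zero, mul_zero, zero_sub]
        have h3 : 0 ≤ ε / n * (X : ℝ) := by positivity
        have h4 : (0 : ℝ) ≤ (((Sx Pg X).filter fun S => Disjoint S P ∧ ∑ q ∈ S, clB m P q = i.2 ∧
          (Disjoint (i.1 ∪ S) C ∧ Q (i.1 ∪ S))).card : ℝ) := Nat.cast_nonneg _
        linarith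
    · exact ⟨0, fun h1 => absurd h1 hi⟩
  choose X₀ hX₀ using h'
  refine ⟨∑ i ∈ IB m P g, X₀ i * nm i.1, fun X hX => ?_⟩
  have hkey : ∀ i ∈ IB m P g,
      κ₀ * (((Sx Pg (X / nm i.1)).filter fun S => Disjoint S P ∧
        ∑ q ∈ S, clB m P q = i.2 ∧ Disjoint (i.1 ∪ S) C).card : ℝ) - ε / n * X ≤
      (((Sx Pg (X / nm i.1)).filter fun S => Disjoint S P ∧ ∑ q ∈ S, clB m P q = i.2 ∧
        (Disjoint (i.1 ∪ S) C ∧ Q (i.1 ∪ S))).card : ℝ) := by
    intro i hi
    have hpos : 0 < nm i.1 := one_le_nm i.1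
    have h1 : X₀ i ≤ X / nm i.1 := by
      rw [Nat.le_div_iff_mul_le hpos]
      exact (single_le_sum (f := fun i => X₀ i * nm i.1) (fun _ _ => Nat.zero_le _) hi).trans hX
    have h2 := hX₀ i hi _ h1
    have h3 : ((X / nm i.1 : ℕ) : ℝ) ≤ X := by exact_mod_cast Nat.div_le_self _ _
    have h4 : ε / n * ((X / nm i.1 : ℕ) : ℝ) ≤ ε / n * X :=
      mul_le_mul_of_nonneg_left h3 (by positivity)
    linarith
  have hs := sum_le_sum hkey
  rw [sum_sub_distrib, ← mul_sum, sum_const, nsmul_eq_mul] at hs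
  have e1 := cnt_eq m P g (fun S => Disjoint S C) X
  have e2 := cnt_eq m P g (fun S => Disjoint S C ∧ Q S) X
  have e1' : (((Sx Pg X).filter fun S => Disjoint S C ∧ ∑ q ∈ S, clq m q = g).card : ℝ) =
      ∑ i ∈ IB m P g, (((Sx Pg (X / nm i.1)).filter fun S => Disjoint S P ∧
        ∑ q ∈ S, clB m P q = i.2 ∧ Disjoint (i.1 ∪ S) C).card : ℝ) := by
    have e3 := congrArg (fun x : ℕ => (x : ℝ)) e1
    simp only [Nat.cast_sum] at e3
    refine Eq.trans (DE1_card fun S => and_comm) (e3.trans ?_)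
    exact sum_congr rfl fun i _ => DE1_card fun S => Iff.rfl
  have e2' : (((Sx Pg X).filter fun S => Disjoint S C ∧ ∑ q ∈ S, clq m q = g ∧ Q S).card : ℝ) =
      ∑ i ∈ IB m P g, (((Sx Pg (X / nm i.1)).filter fun S => Disjoint S P ∧
        ∑ q ∈ S, clB m P q = i.2 ∧ (Disjoint (i.1 ∪ S) C ∧ Q (i.1 ∪ S))).card : ℝ) := by
    have e3 := congrArg (fun x : ℕ => (x : ℝ)) e2
    simp only [Nat.cast_sum] at e3
    refine Eq.trans (DE1_card fun S => and_left_comm) (e3.trans ?_)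
    exact sum_congr rfl fun i _ => DE1_card fun S => Iff.rfl
  rw [← e1', ← e2'] at hs
  have hfin : ((IB m P g).card : ℝ) * (ε / n * X) ≤ ε * X := by
    have h5 : ((IB m P g).card : ℝ) ≤ n := by
      rw [hn]
      linarith
    have h6 : ((IB m P g).card : ℝ) * (ε / n * X) ≤ n * (ε / n * X) :=
      mul_le_mul_of_nonneg_right h5 (by positivity)
    have h7 : n * (ε / n * X) = ε * X := by field_simp
    linarith
  have hgoal : κ₀ * (((Sx Pg X).filter fun S => Disjoint S C ∧ ∑ q ∈ S, clq m q = g).card : ℝ) - ε * X ≤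
      (((Sx Pg X).filter fun S => Disjoint S C ∧ ∑ q ∈ S, clq m q = g ∧ Q S).card : ℝ) := by linarith
  refine le_trans (le_of_eq ?_) (hgoal.trans (le_of_eq ?_))
  · exact congrArg (fun x : ℝ => κ₀ * x - ε * X) (DE1_card fun S => Iff.rfl)
  · exact DE1_card fun S => Iff.rfl

end

end Pool.Agent.Lib.MP_1a91b9_ntQT
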