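import Pool.Agent.Lib.MP_1a91b9_ntQ.B.DenTrB

/-!
# Quartic stability, block DE

Leaf DE2: `densB_cls` with `DSc`.
-/

set_option autoImplicit false
set_option linter.unusedSectionVars false

namespace Pool.Agent.Lib.MP_1a91b9_ntQT

open NumberField Finset Pool.Agent.Lib.MP_1a91b9_ntQ
open Pool.Agent.Lib.MP_1a91b9_ntH (PS nm Sx mem_Sx)

noncomputable section

/-- **The transfer of the densities.** -/
theorem trC (m : ℕ) {M u : 𝓞 K4} (hM : M ∣ lam ^ (m + 5))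
    (hu : ¬ (lam ^ 4 ∣ M ∧ lam ^ 4 ∣ u)) (κ κ' : ℝ) (hκ : κ' < κ)
    (Good : ZMod 4 → Fin 4 → Finset Pg → Finset Pg → Finset Pg → Prop)
    (h : ∀ (k : ZMod 4) (j : Fin 4) (T B : Finset Pg), Disjoint T B → ∀ g : G4n m,
      DSc m (T ∪ B) g κ fun S => Good k j S T B)
    (Pr : 𝓞 K4 → Prop)
    (hPr : ∀ (k : ZMod 4) (j : Fin 4) (S T B : Finset Pg), Dj S T B → Good k j S T B →
      Pr (dB k j S T B)) :
    ∀ᶠ X : ℝ in Filter.atTop,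
      κ' ≤ (Nat.card {x : 𝓞 K4 // FFd x ∧ M ∣ x - u ∧ |Algebra.norm ℤ x| ≤ X ∧ Pr x} : ℝ) /
        (Nat.card {x : 𝓞 K4 // FFd x ∧ M ∣ x - u ∧ |Algebra.norm ℤ x| ≤ X} : ℝ) :=
  densBc m (fun x => M ∣ x - u) (fun k j y y' _ _ hyy => DenB.cls_congr hM k j y y' hyy)
    (DenB.cls_ne hu) κ κ' hκ Good (fun k j T B hTB g _ => h k j T B hTB g) Pr
    fun k j S T B h1 h2 h3 _ hG => hPr k j S T B ⟨h1, h2, h3⟩ hG

end

end Pool.Agent.Lib.MP_1a91b9_ntQT
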