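import Pool.Agent.Lib.MP_1a91b9_ntQT.TR1
import Pool.Agent.Lib.MP_1a91b9_ntM.E.GoodX
import Pool.Agent.Lib.MP_1a91b9_ntM.E.DenX

/-!
# Quartic stability, block DE

Leaf DE3: the data of the three twists. `dat_of`: `RX.exists_DD8`; `z.el` divides `x`, so its primes do (`z.el = dB ..`, `dvd_DDq`). `el_S`, `el_B`, `el_T`:
`dB` with `X` added (`DDq_union`). `good_ST`: `good_ns` (`ntM/E/GoodX`) for the data with `X ≠ ∅` added to `S` or `T` (not a square), `WD4_pow4`. `good_B`: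
`GdX_add` (`ntM/E/DenX`), `good_z`, `WD4_pow4`.
-/

set_option autoImplicit false
set_option linter.unusedSectionVars false

namespace Pool.Agent.Lib.MP_1a91b9_ntQT

open Finset NumberField Pool.Agent.Lib.MP_1a91b9_ntH Pool.Agent.Lib.MP_1a91b9_ntQ
  Pool.Agent.Lib.MP_1a91b9_ntQ.Da Pool.Agent.Lib.MP_1a91b9_ntQ.M Pool.Agent.Lib.MP_1a91b9_ntM
  Pool.Agent.Lib.MP_1a91b9_ntM.E

noncomputable section

open Pool.Agent.Lib.MP_1a91b9_nuX.LG (LConcl)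

theorem dat_of {x : 𝓞 K4} (hx : x ≠ 0) : ∃ (z : DD8) (t : 𝓞 K4), Dj z.S z.T z.B ∧ t ≠ 0 ∧
    x = z.el * t ^ 4 ∧ ∀ q : Pg, q ∈ z.S ∨ q ∈ z.T ∨ q ∈ z.B → q.1 ∣ x := by
  obtain ⟨z, t, hz, ht, h⟩ := RX.exists_DD8 hx
  refine ⟨z, t, hz, ht, h, fun q hq => ?_⟩
  rw [h]
  refine Dvd.dvd.mul_right ?_ _
  show q.1 ∣ iO ^ z.k.val * lam ^ z.j.val * (DDq z.S * DDq z.T ^ 3 * DDq z.B ^ 2)
  refine Dvd.dvd.mul_left ?_ _
  rcases hq with hq | hq | hq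
  · exact Dvd.dvd.mul_right (Dvd.dvd.mul_right (dvd_DDq.2 hq) _) _
  · exact Dvd.dvd.mul_right (Dvd.dvd.mul_left (dvd_pow (dvd_DDq.2 hq) three_ne_zero) _) _
  · exact Dvd.dvd.mul_left (dvd_pow (dvd_DDq.2 hq) two_ne_zero) _

theorem el_S (z : DD8) {X : Finset Pg} (h : Disjoint z.S X) :
    (⟨z.k, z.j, z.S ∪ X, z.T, z.B⟩ : DD8).el = z.el * DDq X := by
  show iO ^ z.k.val * lam ^ z.j.val * (DDq (z.S ∪ X) * DDq z.T ^ 3 * DDq z.B ^ 2) =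
    iO ^ z.k.val * lam ^ z.j.val * (DDq z.S * DDq z.T ^ 3 * DDq z.B ^ 2) * DDq X
  rw [DDq_union h]
  ring

theorem el_B (z : DD8) {X : Finset Pg} (h : Disjoint z.B X) :
    (⟨z.k, z.j, z.S, z.T, z.B ∪ X⟩ : DD8).el = z.el * DDq X ^ 2 := by
  show iO ^ z.k.val * lam ^ z.j.val * (DDq z.S * DDq z.T ^ 3 * DDq (z.B ∪ X) ^ 2) =
    iO ^ z.k.val * lam ^ z.j.val * (DDq z.S * DDq z.T ^ 3 * DDq z.B ^ 2) * DDq X ^ 2
  rw [DDq_union h]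
  ring

theorem el_T (z : DD8) {X : Finset Pg} (h : Disjoint z.T X) :
    (⟨z.k, z.j, z.S, z.T ∪ X, z.B⟩ : DD8).el = z.el * DDq X ^ 3 := by
  show iO ^ z.k.val * lam ^ z.j.val * (DDq z.S * DDq (z.T ∪ X) ^ 3 * DDq z.B ^ 2) =
    iO ^ z.k.val * lam ^ z.j.val * (DDq z.S * DDq z.T ^ 3 * DDq z.B ^ 2) * DDq X ^ 3
  rw [DDq_union h]
  ring

/-- the conclusion for `y² = x³ - D x` -/
def Cn (D : 𝓞 K4) : Prop := LConcl (WD4 D) ∧ Finite (WD4 D).toAffine.Point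

theorem good_S {z : DD8} {x t : 𝓞 K4} {P X : Finset Pg} (hz : Dj z.S z.T z.B)
    (hP : z.S ⊆ P ∧ z.T ⊆ P ∧ z.B ⊆ P) (hX : Disjoint X P) (hne : X ≠ ∅) (ht : t ≠ 0)
    (hx : x = z.el * t ^ 4) (hG : GdB z.k z.j (z.S ∪ X) z.T z.B) : Cn (x * DDq X) := by
  have hS : Disjoint z.S X := (hX.mono_right hP.1).symm
  have e : x * DDq X = (⟨z.k, z.j, z.S ∪ X, z.T, z.B⟩ : DD8).el * t ^ 4 := by
    rw [el_S z hS, hx]
    ring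
  rw [e]
  refine WD4_pow4 ht (good_ns (z := ⟨z.k, z.j, z.S ∪ X, z.T, z.B⟩) ?_ ?_ hG)
  · exact ⟨disjoint_union_left.2 ⟨hz.st, hX.mono_right hP.2.1⟩,
      disjoint_union_left.2 ⟨hz.sb, hX.mono_right hP.2.2⟩, hz.tb⟩
  · rintro ⟨-, -, h⟩
    have h1 : (z.S ∪ X) ∪ z.T = ∅ := h
    exact hne (union_eq_empty.1 (union_eq_empty.1 h1).1).2

theorem good_T {z : DD8} {x t : 𝓞 K4} {P X : Finset Pg} (hz : Dj z.S z.T z.B)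
    (hP : z.S ⊆ P ∧ z.T ⊆ P ∧ z.B ⊆ P) (hX : Disjoint X P) (hne : X ≠ ∅) (ht : t ≠ 0)
    (hx : x = z.el * t ^ 4) (hG : GdB z.k z.j z.S (z.T ∪ X) z.B) : Cn (x * DDq X ^ 3) := by
  have hT : Disjoint z.T X := (hX.mono_right hP.2.1).symm
  have e : x * DDq X ^ 3 = (⟨z.k, z.j, z.S, z.T ∪ X, z.B⟩ : DD8).el * t ^ 4 := by
    rw [el_T z hT, hx]
    ring
  rw [e]
  refine WD4_pow4 ht (good_ns (z := ⟨z.k, z.j, z.S, z.T ∪ X, z.B⟩) ?_ ?_ hG)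
  · exact ⟨disjoint_union_right.2 ⟨hz.st, (hX.mono_right hP.1).symm⟩, hz.sb,
      disjoint_union_left.2 ⟨hz.tb, hX.mono_right hP.2.2⟩⟩
  · rintro ⟨-, -, h⟩
    have h1 : z.S ∪ (z.T ∪ X) = ∅ := h
    exact hne (union_eq_empty.1 (union_eq_empty.1 h1).2).2

theorem good_B {z : DD8} {x t : 𝓞 K4} {P X : Finset Pg} (hz : Dj z.S z.T z.B)
    (hP : z.S ⊆ P ∧ z.T ⊆ P ∧ z.B ⊆ P) (hX : Disjoint X P) (ht : t ≠ 0)
    (hx : x = z.el * t ^ 4) (hG : GdX z X) : Cn (x * DDq X ^ 2) := by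
  have hB : Disjoint z.B X := (hX.mono_right hP.2.2).symm
  have e : x * DDq X ^ 2 = (⟨z.k, z.j, z.S, z.T, z.B ∪ X⟩ : DD8).el * t ^ 4 := by
    rw [el_B z hB, hx]
    ring
  rw [e]
  refine WD4_pow4 ht (good_z (z := ⟨z.k, z.j, z.S, z.T, z.B ∪ X⟩) ?_ ((RX.GdX_add z X).2 hG))
  exact ⟨hz.st, disjoint_union_right.2 ⟨hz.sb, (hX.mono_right hP.1).symm⟩,
    disjoint_union_right.2 ⟨hz.tb, (hX.mono_right hP.2.1).symm⟩⟩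

end

end Pool.Agent.Lib.MP_1a91b9_ntQT
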