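import Pool.Agent.Lib.MP_1a91b9_ntM.E.XAsm
import Pool.Agent.Lib.MP_1a91b9_ntM.E.DenX
import Pool.Agent.Lib.MP_1a91b9_ntM.E.GoodX

/-!
# Quartic stability, block DE

Leaf DE4: the class vectors. `cX_of_sq`: (product is a square => equal class vectors mod squares) the exponent of `λ` and of every `q ∈ Pg` in
`z.el * z'.el` is even (so `j ≡ j'` mod `2`, `z.S ∪ z.T = z'.S ∪ z'.T`), and then `i ^ (k + k')` is a square in `K4`, so `k + k'` is even. Another way: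
`y = ph k j (DDq Y) * s²` (`exists_sf`), `el_inv`, `el_mul`, and the uniqueness of the data modulo fourth powers (`el_uniq`: clear common factors,
both sides are fourth-power-free: `ff_inj` of `ntQ/B/DenFF`). `sq_of_cX`: the converse, as `sq_of_inv` in `ntM/E/Den` (`sq_iO`).
`sg_ne`: if `a = b²` were `cX z1 = sX z2` then for `y2 = ph z2.sk z2.sj (DDq z2.B)` (`el_sq`: `z2.el = y2²`) we get `y2 t2² = ± b e0`, `z1.el * y2 = `
square (`sq_of_cX` for `z1` and the data of `y2`), hence `b³ e0²` and so `± b` are squares and `a` is a fourth power.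
-/

set_option autoImplicit false
set_option linter.unusedSectionVars false

namespace Pool.Agent.Lib.MP_1a91b9_ntQT

open Finset NumberField Pool.Agent.Lib.MP_1a91b9_ntH Pool.Agent.Lib.MP_1a91b9_ntQ
  Pool.Agent.Lib.MP_1a91b9_ntQ.Da Pool.Agent.Lib.MP_1a91b9_ntQ.M Pool.Agent.Lib.MP_1a91b9_ntM
  Pool.Agent.Lib.MP_1a91b9_ntM.E

noncomputable section

/-! ### Helpers -/

private theorem DE4_el (z : DD8) : z.el = DenB.ph z.k z.j (pB z.S z.T z.B) := rfl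

private theorem DE4_ff {z : DD8} (h : Dj z.S z.T z.B) : FFd z.el := by
  rw [DE4_el]
  exact DenB.ph_ff z.k z.j h.st h.sb h.tb

private theorem DE4_pow4 {u : 𝓞 K4} (hu : IsUnit u) : u ^ 4 = 1 := by
  obtain ⟨k, hk⟩ := exists_pow_unit hu
  rw [hk, ← pow_mul, mul_comm, pow_mul, iO_four, one_pow]

private theorem DE4_dvd {a b x y : 𝓞 K4} (hb : FFd b) (hxy : IsRelPrime x y)
    (he : a * x ^ 4 = b * y ^ 4) : IsUnit x := by
  refine hb x ?_
  have h1 : IsRelPrime (x ^ 4) (y ^ 4) := hxy.pow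
  refine h1.dvd_of_dvd_mul_right ?_
  rw [← he]
  exact dvd_mul_left _ _

private theorem DE4_md_neg : ∀ k : ZMod 4, md (-k) = md k := by
  have h : ∀ k : ZMod 4, (ZMod.castHom (show 2 ∣ 4 by norm_num) (ZMod 2)) (-k) =
      (ZMod.castHom (show 2 ∣ 4 by norm_num) (ZMod 2)) k := by decide
  exact h

private theorem DE4_j_neg : ∀ j : Fin 4, (((-j).val : ℕ) : ZMod 2) = ((j.val : ℕ) : ZMod 2) := by
  decide

private theorem DE4_cX_inv (P : Finset Pg) (z : DD8) : cX P z.inv = cX P z := by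
  unfold cX DD8.inv kvB
  dsimp only
  rw [DE4_md_neg, DE4_j_neg, union_comm]

private theorem DE4_cX_mul (P : Finset Pg) (z : DD8) (k : ZMod 4) (j : Fin 2) (Y : Finset Pg) :
    cX P (z.mul k j Y) = cX P z := by
  unfold cX DD8.mul kvB
  dsimp only
  rw [E.md_two, dj_par, E.sE_union]

private theorem DE4_par {j j' : Fin 4} (h : ((j.val : ℕ) : ZMod 2) = ((j'.val : ℕ) : ZMod 2)) :
    Even (j.val + j'.val) := by
  revert j j'
  decide

private theorem DE4_sk {z : DD8} (h : z.Sq) : md z.sk = hk z.k := by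
  obtain ⟨h1, _, _⟩ := h
  have key : ∀ k : ZMod 4, (ZMod.castHom (show 2 ∣ 4 by norm_num) (ZMod 2)) k = 0 →
      (ZMod.castHom (show 2 ∣ 4 by norm_num) (ZMod 2)) (if k = 0 then 0 else 1) =
        if 2 ≤ k.val then 1 else 0 := by decide
  exact key _ h1

private theorem DE4_sj {z : DD8} (h : z.Sq) :
    (((Fin.castLE (by norm_num) z.sj : Fin 4).val : ℕ) : ZMod 2) = hj z.j := by
  obtain ⟨_, h1, _⟩ := h
  have key : ∀ j : Fin 4, ((j.val : ℕ) : ZMod 2) = 0 →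
      (((Fin.castLE (by norm_num) (if j = 0 then 0 else 1 : Fin 2) : Fin 4).val : ℕ) : ZMod 2) =
        if 2 ≤ j.val then 1 else 0 := by decide
  exact key _ h1

/-- The data modulo fourth powers are unique. -/
theorem el_uniq {z z' : DD8} {t t' : 𝓞 K4} (h : Dj z.S z.T z.B) (h' : Dj z'.S z'.T z'.B) (ht : t ≠ 0)
    (ht' : t' ≠ 0) (he : z.el * t ^ 4 = z'.el * t' ^ 4) : z = z' := by
  have _ := ht'
  obtain ⟨x, y, c, hxy, hx, hy⟩ := UniqueFactorizationMonoid.exists_reduced_factors t ht t'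
  have hc : c ≠ 0 := by
    rintro rfl
    exact ht (by rw [← hx, zero_mul])
  have e1 : z.el * x ^ 4 = z'.el * y ^ 4 := by
    have e2 : c ^ 4 * (z.el * x ^ 4) = c ^ 4 * (z'.el * y ^ 4) := by
      rw [← hx, ← hy] at he
      linear_combination he
    exact mul_left_cancel₀ (pow_ne_zero 4 hc) e2
  have hux : IsUnit x := DE4_dvd (DE4_ff h') hxy e1
  have huy : IsUnit y := DE4_dvd (DE4_ff h) hxy.symm e1.symm
  rw [DE4_pow4 hux, DE4_pow4 huy, mul_one, mul_one] at e1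
  rw [DE4_el, DE4_el] at e1
  obtain ⟨a1, a2, a3, a4, a5⟩ := DenB.ff_inj h.st h.sb h.tb h'.st h'.sb h'.tb e1
  obtain ⟨k, j, S, T, B⟩ := z
  obtain ⟨k', j', S', T', B'⟩ := z'
  dsimp only at a1 a2 a3 a4 a5
  rw [a1, a2, a3, a4, a5]

theorem cX_of_sq (P : Finset Pg) {z z' : DD8} (h : Dj z.S z.T z.B) (h' : Dj z'.S z'.T z'.B)
    {y : 𝓞 K4} (hy : z.el * z'.el = y ^ 2) : cX P z = cX P z' := by
  have hz := (DE4_ff h).ne_zero
  have hz' := (DE4_ff h').ne_zero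
  have hy0 : y ≠ 0 := by
    rintro rfl
    rw [zero_pow two_ne_zero] at hy
    exact mul_ne_zero hz hz' hy
  obtain ⟨k, j, Y, s, hs, hys⟩ := exists_sf y hy0
  obtain ⟨t, ht, h1⟩ := RX.el_inv z'
  obtain ⟨u, hu, h2⟩ := el_mul (RX.dj_inv h') k j Y
  have e : z.el * t ^ 4 = (z'.inv.mul k j Y).el * (u * s) ^ 4 := by
    rw [← h1]
    rw [hys] at hy
    linear_combination z'.inv.el * hy + s ^ 4 * h2
  have hz2 := el_uniq h (dj_E (RX.dj_inv h') Y) ht (mul_ne_zero hu hs) e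
  rw [hz2, DE4_cX_mul, DE4_cX_inv]

theorem sq_of_cX {P : Finset Pg} {z z' : DD8} (h : Dj z.S z.T z.B) (h' : Dj z'.S z'.T z'.B)
    (hP : z.S ⊆ P ∧ z.T ⊆ P) (hP' : z'.S ⊆ P ∧ z'.T ⊆ P) (hc : cX P z = cX P z') :
    ∃ y : 𝓞 K4, z.el * z'.el = y ^ 2 := by
  have c0 : md z.k = md z'.k := congrFun hc (Sum.inl 0)
  have c1 : ((z.j.val : ℕ) : ZMod 2) = ((z'.j.val : ℕ) : ZMod 2) := congrFun hc (Sum.inl 1)
  have hST : z.S ∪ z.T = z'.S ∪ z'.T := by
    ext q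
    constructor
    · intro hq
      exact (mem_of_coB (union_subset hP.1 hP.2 hq) hc).1 hq
    · intro hq
      exact (mem_of_coB (union_subset hP'.1 hP'.2 hq) hc).2 hq
  have hD : DDq z.S * DDq z.T = DDq z'.S * DDq z'.T := by
    rw [← DDq_union h.st, ← DDq_union h'.st, hST]
  have hk : md (z.k + z'.k) = 0 := by
    rw [map_add, c0]
    have : ∀ x : ZMod 2, x + x = 0 := by decide
    exact this _
  obtain ⟨y, hy⟩ := sq_iO hk
  obtain ⟨n, hn⟩ := DE4_par c1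
  refine ⟨y * (lam ^ n * (DDq z.S * DDq z.T) * (DDq z.T * DDq z'.T * DDq z.B * DDq z'.B)), ?_⟩
  have h2 : (lam ^ n) ^ 2 = lam ^ z.j.val * lam ^ z'.j.val := by
    rw [← pow_mul, ← pow_add, hn]
    congr 1
    ring
  have h3 : iO ^ (z.k + z'.k).val = iO ^ z.k.val * iO ^ z'.k.val := by
    rw [pow_val_mul]
  unfold DD8.el dB cB
  rw [mul_pow, hy, h3, mul_pow, mul_pow, h2]
  linear_combination -(iO ^ z.k.val * iO ^ z'.k.val) * (lam ^ z.j.val * lam ^ z'.j.val) *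
    (DDq z.S * DDq z.T) * (DDq z.T * DDq z'.T * DDq z.B * DDq z'.B) ^ 2 * hD

/-- **The two class vectors are different** if `a` is no fourth power. -/
theorem sg_ne {P : Finset Pg} {a e0 : 𝓞 K4} (ha : a ≠ 0) (he : e0 ≠ 0) (h4 : ¬ ∃ y : K4, y ^ 4 = (a : K4))
    {z1 z2 : DD8} {t1 t2 : 𝓞 K4} (h1 : Dj z1.S z1.T z1.B) (h2 : Dj z2.S z2.T z2.B) (ht1 : t1 ≠ 0)
    (ht2 : t2 ≠ 0) (e1 : a * e0 = z1.el * t1 ^ 4) (e2 : a * e0 ^ 2 = z2.el * t2 ^ 4)
    (hP1 : z1.S ⊆ P ∧ z1.T ⊆ P ∧ z1.B ⊆ P) (hP2 : z2.S ⊆ P ∧ z2.T ⊆ P ∧ z2.B ⊆ P)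
    (hc : cX P z2 = 0) : cX P z1 + sX P z2 ≠ 0 := by
  have _ := ha
  have _ := he
  have _ := h2
  have _ := ht1
  intro h0
  have hSq : z2.Sq := by
    by_contra h
    exact cX_ne0 hP2 h hc
  obtain ⟨w, hw⟩ : ∃ w : DD8, w = ⟨z2.sk, Fin.castLE (by norm_num) z2.sj, z2.B, ∅, ∅⟩ := ⟨_, rfl⟩
  have hwd : Dj w.S w.T w.B := by
    rw [hw]
    exact ⟨disjoint_empty_right _, disjoint_empty_right _, disjoint_empty_right _⟩
  have hwe : w.el = Den4.ph z2.sk z2.sj (DDq z2.B) := by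
    rw [hw]
    unfold DD8.el dB cB Den4.ph
    have e1 : DDq (∅ : Finset Pg) = 1 := DDq_empty
    rw [e1]
    simp
  have hT : z2.T = ∅ := (Finset.union_eq_empty.1 hSq.2.2).2
  have hcw : cX P w = sX P z2 := by
    rw [hw]
    unfold cX E.sX kvB
    dsimp only
    rw [DE4_sk hSq, DE4_sj hSq, hT, union_comm]
  have hcz : cX P z1 = cX P w := by
    rw [hcw]
    have h2 : ∀ a b : ZMod 2, a + b = 0 → a = b := by decide
    funext i
    exact h2 _ _ (congrFun h0 i)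
  obtain ⟨y, hy⟩ := sq_of_cX h1 hwd ⟨hP1.1, hP1.2.1⟩ (by
    rw [hw]
    exact ⟨hP2.2.2, empty_subset _⟩) hcz
  have hz2 := el_sq hSq
  rw [← hwe] at hz2
  have hw0 := (DE4_ff hwd).ne_zero
  have e3 : (y * t1 ^ 2) ^ 4 = a * (w.el * t2) ^ 4 := by
    rw [hz2] at e2
    linear_combination (-(z1.el * w.el + y ^ 2) * t1 ^ 8) * hy -
      (w.el ^ 2 * (a * e0 + z1.el * t1 ^ 4)) * e1 + (a * w.el ^ 2) * e2
  apply h4
  refine ⟨((y * t1 ^ 2 : 𝓞 K4) : K4) / ((w.el * t2 : 𝓞 K4) : K4), ?_⟩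
  have hn : ((w.el * t2 : 𝓞 K4) : K4) ≠ 0 := RX.coe_ne (mul_ne_zero hw0 ht2)
  rw [div_pow, div_eq_iff (pow_ne_zero 4 hn)]
  exact_mod_cast congrArg (fun z : 𝓞 K4 => (z : K4)) e3

end

end Pool.Agent.Lib.MP_1a91b9_ntQT
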