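import Pool.Agent.Lib.MP_1a91b9_ntM.E.XAsm
import Pool.Agent.Lib.MP_1a91b9_ntQ.B.MainB

/-!
# Quartic stability, block DE

Leaf DE5: the exceptions: for fixed `k`, `j`, `T`, `B` and `β ≠ 0` at most one set `S` gives a square `β * dB k j S T B`: for two such sets
`dB k j S T B * dB k j S' T B` is a square up to squares, `DDq S * DDq S'` is a square in `K4`, so in `𝓞 K4`, and the prime elements of the
symmetric difference have the exponent `1` (`DDq_mul`: `DDq S * DDq S' = DDq (symmDiff S S') * DDq (S ∩ S') ^ 2`). `DSB.excD` : the finite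
exceptional sets for the unions `B' ∪ X` with a fixed `B'` disjoint from `X`.
-/

set_option autoImplicit false
set_option linter.unusedSectionVars false

namespace Pool.Agent.Lib.MP_1a91b9_ntQT

open Finset NumberField Pool.Agent.Lib.MP_1a91b9_ntH Pool.Agent.Lib.MP_1a91b9_ntQ
  Pool.Agent.Lib.MP_1a91b9_ntQ.Da Pool.Agent.Lib.MP_1a91b9_ntQ.M Pool.Agent.Lib.MP_1a91b9_ntM
  Pool.Agent.Lib.MP_1a91b9_ntM.E

noncomputable section

/-- if the product is a square the sets are equal -/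
private theorem DE5_sub {S S' : Finset Pg} {w : 𝓞 K4} (h : DDq S * DDq S' = w ^ 2) : S ⊆ S' := by
  intro q hq
  by_contra hq'
  have h1 : q.1 ∣ w := by
    refine q.prime.dvd_of_dvd_pow (n := 2) ?_
    rw [← h]
    exact (dvd_DDq.2 hq).mul_right _
  obtain ⟨v, hv⟩ := h1
  have h2 : DDq S = q.1 * DDq (S.erase q) := by
    rw [← DDq_insert (notMem_erase q S), insert_erase hq]
  have h3 : q.1 * (DDq (S.erase q) * DDq S') = q.1 * (q.1 * v ^ 2) := by
    rw [← mul_assoc, ← h2, h, hv]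
    ring
  have h4 := mul_left_cancel₀ q.prime.ne_zero h3
  have h5 : q.1 ∣ DDq (S.erase q) * DDq S' := ⟨_, h4⟩
  rcases q.prime.dvd_or_dvd h5 with h6 | h6
  · exact notMem_erase q S (dvd_DDq.1 h6)
  · exact hq' (dvd_DDq.1 h6)

/-- the square root of an integer is an integer -/
private theorem DE5_int {a : 𝓞 K4} {x : K4} (h : x ^ 2 = (a : K4)) : ∃ w : 𝓞 K4, a = w ^ 2 := by
  have h1 : IsIntegral ℤ x := by
    refine IsIntegral.of_pow (n := 2) two_pos ?_
    rw [h]
    exact RingOfIntegers.isIntegral_coe a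
  refine ⟨⟨x, h1⟩, ?_⟩
  apply RingOfIntegers.coe_injective
  rw [map_pow]
  exact h.symm

theorem exc_fin {β : K4} (hβ : β ≠ 0) (k : ZMod 4) (j : Fin 4) (T B : Finset Pg) :
    {S : Finset Pg | IsSquare (β * (dB k j S T B : K4))}.Finite := by
  refine Set.Subsingleton.finite ?_
  have key : ∀ {S S' : Finset Pg}, IsSquare (β * (dB k j S T B : K4)) →
      IsSquare (β * (dB k j S' T B : K4)) → S ⊆ S' := by
    intro S S' hS hS'
    obtain ⟨x, hx⟩ := hS
    obtain ⟨y, hy⟩ := hS'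
    obtain ⟨u, hu⟩ : ∃ u : 𝓞 K4, u = iO ^ k.val * lam ^ j.val * DDq T ^ 3 * DDq B ^ 2 := ⟨_, rfl⟩
    have hu0 : u ≠ 0 := by
      rw [hu]
      exact mul_ne_zero (mul_ne_zero (mul_ne_zero (pow_ne_zero _ iO_ne_zero') (pow_ne_zero _ lam_ne_zero))
        (pow_ne_zero _ (DDq_in4 T).ne_zero)) (pow_ne_zero _ (DDq_in4 B).ne_zero)
    have e : ∀ S : Finset Pg, dB k j S T B = u * DDq S := by
      intro S
      rw [hu]
      unfold dB cB
      ring
    have cm : ∀ a b : 𝓞 K4, ((a * b : 𝓞 K4) : K4) = (a : K4) * (b : K4) :=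
      fun a b => map_mul (algebraMap (𝓞 K4) K4) a b
    have hu1 : (u : K4) ≠ 0 := fun h => hu0 (RingOfIntegers.coe_injective (by
      rw [map_zero]
      exact h))
    have hbu : β * (u : K4) ≠ 0 := mul_ne_zero hβ hu1
    have h1 : (x * y / (β * (u : K4))) ^ 2 = ((DDq S * DDq S' : 𝓞 K4) : K4) := by
      rw [e, cm] at hx hy
      rw [div_pow, div_eq_iff (pow_ne_zero 2 hbu), cm]
      linear_combination (-(β * ((u : K4) * (DDq S' : K4)))) * hx - x * x * hy
    obtain ⟨w, hw⟩ := DE5_int h1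
    exact DE5_sub hw
  intro S hS S' hS'
  exact Subset.antisymm (key hS hS') (key hS' hS)

/-- Leaving out finitely many of the sets `B' ∪ X`. -/
theorem DSB.excD {m : ℕ} {P B' : Finset Pg} (hB : B' ⊆ P) {g : GB m P} {κ₀ : ℝ}
    {Q : Finset Pg → Prop} (h : DSB m P g κ₀ Q) {F : Set (Finset Pg)} (hF : F.Finite) :
    DSB m P g κ₀ fun X => Q X ∧ B' ∪ X ∉ F := by
  have hF' : {X : Finset Pg | Disjoint X P ∧ B' ∪ X ∈ F}.Finite := by
    refine (hF.image fun Y => Y \ B').subset ?_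
    rintro X ⟨hX1, hX2⟩
    refine ⟨B' ∪ X, hX2, ?_⟩
    exact union_sdiff_cancel_left (hX1.mono_right hB).symm
  refine (DSB.exc h hF').mono fun X hX _ hX2 => ⟨hX2.1, fun h3 => hX2.2 ⟨hX, h3⟩⟩

end

end Pool.Agent.Lib.MP_1a91b9_ntQT
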