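import Pool.Agent.Lib.MP_1a91b9_ntQT.TR5
import Pool.Agent.Lib.MP_1a91b9_ntQT.DE1
import Pool.Agent.Lib.MP_1a91b9_ntQT.DE3
import Pool.Agent.Lib.MP_1a91b9_ntQT.DE4
import Pool.Agent.Lib.MP_1a91b9_ntQT.DE5

/-!
# Quartic stability, block DE

Leaf DE6: the law for fixed `k`, `j`, `T`, `B`. `a = a0.el * s ^ 4` (`RX.exists_DD8`); `P` = `T ∪ B` and the primes of `a0`; `DSc_of_DSB` with
`C = T ∪ B`. For `B' ⊆ P` disjoint from `T ∪ B` let `e0 = dB k j B' T B`, `x_n = a0.el * e0 ^ n`, `z_n` = the data of `x_n` (`dat_of`; the primes of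
`z_n` divide `a0.el` or `e0`, so they are in `P`). `z1.el * z3.el` is a square (`x1 * x3 = (a0.el * e0 ^ 2) ^ 2`; the `t_i` are fourth powers: a square in `K4`
is a square in `𝓞 K4`): `cX_of_sq`; `sg_ne` for `a0.el` (no fourth power, as `a` is none). `dsQ`, `DSB.excD` with the union of the finite sets of
`exc_fin`. For `X` in the event: `d = dB k j (B' ∪ X) T B = e0 * DDq X`, `a0.el * d ^ n = x_n * DDq X ^ n`: `good_S`, `good_B`, `good_T`, and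
`a * d ^ n = (a0.el * d ^ n) * s ^ 4`: `WD4_pow4`.
-/

set_option autoImplicit false
set_option linter.unusedSectionVars false

namespace Pool.Agent.Lib.MP_1a91b9_ntQT

open Finset NumberField Pool.Agent.Lib.MP_1a91b9_ntH Pool.Agent.Lib.MP_1a91b9_ntQ
  Pool.Agent.Lib.MP_1a91b9_ntQ.Da Pool.Agent.Lib.MP_1a91b9_ntQ.M Pool.Agent.Lib.MP_1a91b9_ntM
  Pool.Agent.Lib.MP_1a91b9_ntM.E

noncomputable section

/-- **The property of `d`.** -/
structure Gq (a : 𝓞 K4) (Bf : Finset K4) (d : 𝓞 K4) : Prop where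
  c1 : Cn (a * d)
  c2 : Cn (a * d ^ 2)
  c3 : Cn (a * d ^ 3)
  ex : ∀ β ∈ Bf, ¬ IsSquare (β * (d : K4))

theorem dB_ne {k : ZMod 4} {j : Fin 4} {S T B : Finset Pg} : dB k j S T B ≠ 0 := by
  unfold dB cB
  exact mul_ne_zero (mul_ne_zero (isUnit_iO.pow _).ne_zero (pow_ne_zero _ lam_ne_zero))
    (mul_ne_zero (mul_ne_zero (DDq_in4 _).ne_zero (pow_ne_zero _ (DDq_in4 _).ne_zero))
      (pow_ne_zero _ (DDq_in4 _).ne_zero))

theorem mem_of_dvd_dB {k : ZMod 4} {j : Fin 4} {S T B : Finset Pg} {q : Pg}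
    (h : q.1 ∣ dB k j S T B) : q ∈ S ∪ T ∪ B := by
  by_contra hq
  refine Pool.Agent.Lib.MP_1a91b9_ntQ.C.C9.not_dvd_dB q.prime
    (Pool.Agent.Lib.MP_1a91b9_ntQ.C.not_dvd_lam4 q) (fun p hp => Pg.not_dvd ?_) h
  rintro rfl
  exact hq hp

theorem dB_addS {k : ZMod 4} {j : Fin 4} {S X T B : Finset Pg} (h : Disjoint S X) :
    dB k j (S ∪ X) T B = dB k j S T B * DDq X := by
  unfold dB cB
  rw [DDq_union h]
  ring

/-- **The law for fixed `k`, `j`, `T`, `B`.** -/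
theorem dsc_all {a : 𝓞 K4} (ha : a ≠ 0) (h4 : ¬ ∃ y : K4, y ^ 4 = (a : K4)) (Bf : Finset K4)
    (hB : ∀ β ∈ Bf, β ≠ 0) (k : ZMod 4) (j : Fin 4) {T B : Finset Pg} (hTB : Disjoint T B) {m : ℕ}
    (g : G4n m) {κ₀ : ℝ} (hκ : κ₀ < Da.cinf2 ^ 3) :
    DSc m (T ∪ B) g κ₀ fun S => Disjoint S (T ∪ B) → Gq a Bf (dB k j S T B) := by
  obtain ⟨za, s, hza, hs, hae⟩ := RX.exists_DD8 ha
  have ha0 : za.el ≠ 0 := dB_ne
  have h4a : ¬ ∃ y : K4, y ^ 4 = (za.el : K4) := by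
    rintro ⟨y, hy⟩
    refine h4 ⟨y * (s : K4), ?_⟩
    rw [mul_pow, hy, hae]
    push_cast
    rfl
  obtain ⟨P, hPdef⟩ : ∃ P : Finset Pg, P = T ∪ B ∪ (za.S ∪ za.T ∪ za.B) := ⟨_, rfl⟩
  have hTBP : T ∪ B ⊆ P := by
    rw [hPdef]
    exact subset_union_left
  have hzaP : za.S ∪ za.T ∪ za.B ⊆ P := by
    rw [hPdef]
    exact subset_union_right
  refine DSc_of_DSB hTBP g fun B' hB' hdB' g' => ?_
  obtain ⟨e0, he0⟩ : ∃ e0 : 𝓞 K4, e0 = dB k j B' T B := ⟨_, rfl⟩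
  have he0n : e0 ≠ 0 := by
    rw [he0]
    exact dB_ne
  have hxn : ∀ n : ℕ, za.el * e0 ^ n ≠ 0 := fun n => mul_ne_zero ha0 (pow_ne_zero n he0n)
  have hprm : ∀ (n : ℕ) (q : Pg), q.1 ∣ za.el * e0 ^ n → q ∈ P := by
    intro n q hq
    rcases q.prime.dvd_or_dvd hq with h | h
    · exact hzaP (mem_of_dvd_dB h)
    · have h1 := q.prime.dvd_of_dvd_pow h
      rw [he0] at h1
      have h2 := mem_of_dvd_dB h1
      rw [mem_union, mem_union] at h2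
      rcases h2 with (h2 | h2) | h2
      · exact hB' h2
      · exact hTBP (mem_union_left _ h2)
      · exact hTBP (mem_union_right _ h2)
  have hdat : ∀ n : ℕ, ∃ (z : DD8) (t : 𝓞 K4), Dj z.S z.T z.B ∧ t ≠ 0 ∧
      za.el * e0 ^ n = z.el * t ^ 4 ∧ (z.S ⊆ P ∧ z.T ⊆ P ∧ z.B ⊆ P) := by
    intro n
    obtain ⟨z, t, h1, h2, h3, h5⟩ := dat_of (hxn n)
    exact ⟨z, t, h1, h2, h3, fun q hq => hprm n q (h5 q (Or.inl hq)),
      fun q hq => hprm n q (h5 q (Or.inr (Or.inl hq))),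
      fun q hq => hprm n q (h5 q (Or.inr (Or.inr hq)))⟩
  obtain ⟨z1, t1, hd1, ht1, hx1, hP1⟩ := hdat 1
  obtain ⟨z2, t2, hd2, ht2, hx2, hP2⟩ := hdat 2
  obtain ⟨z3, t3, hd3, ht3, hx3, hP3⟩ := hdat 3
  have h13 : cX P z1 = cX P z3 := by
    have e1 : (z1.el * z3.el) * ((t1 * t3) ^ 2) ^ 2 = (za.el * e0 ^ 2) ^ 2 := by
      linear_combination -(za.el * e0 ^ 3) * hx1 - (z1.el * t1 ^ 4) * hx3
    have e2 : (t1 * t3) ^ 2 ∣ za.el * e0 ^ 2 := by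
      rw [← IsIntegrallyClosed.pow_dvd_pow_iff (n := 2) two_ne_zero, ← e1]
      exact dvd_mul_left _ _
    obtain ⟨y, hy⟩ := e2
    refine cX_of_sq P hd1 hd3 (y := y) ?_
    have e3 : ((t1 * t3) ^ 2) ^ 2 ≠ 0 := pow_ne_zero 2 (pow_ne_zero 2 (mul_ne_zero ht1 ht3))
    apply mul_right_cancel₀ e3
    rw [e1, hy]
    ring
  have hsg : cX P z2 = 0 → cX P z1 + sX P z2 ≠ 0 := by
    intro hc
    refine sg_ne (a := za.el) (e0 := e0) ha0 he0n h4a hd1 hd2 ht1 ht2 ?_ hx2 hP1 hP2 hc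
    rw [← hx1, pow_one]
  have hmain := dsQ hd1 hd2 hd3 hP1 hP2 hP3 h13 hsg m g' hκ
  obtain ⟨F, hF⟩ : ∃ F : Set (Finset Pg), F = ⋃ β ∈ (Bf : Set K4),
      {S : Finset Pg | IsSquare (β * (dB k j S T B : K4))} := ⟨_, rfl⟩
  have hFfin : F.Finite := by
    rw [hF]
    exact (Bf.finite_toSet).biUnion fun β hβ => exc_fin (hB β hβ) k j T B
  refine (DSB.excD hB' hmain hFfin).mono fun X hXP _ hX _ => ?_
  obtain ⟨⟨hne, hg1, hg2, hg3⟩, hXF⟩ := hX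
  have hXB' : Disjoint B' X := (disjoint_of_subset_right hB' hXP).symm
  have hd : dB k j (B' ∪ X) T B = e0 * DDq X := by
    rw [he0]
    exact dB_addS hXB'
  have c1 := good_S hd1 hP1 hXP hne ht1 hx1 hg1
  have c2 := good_B hd2 hP2 hXP ht2 hx2 hg2
  have c3 := good_T hd3 hP3 hXP hne ht3 hx3 hg3
  refine ⟨?_, ?_, ?_, ?_⟩
  · have e : a * dB k j (B' ∪ X) T B = za.el * e0 ^ 1 * DDq X * s ^ 4 := by
      rw [hd, hae]
      ring
    rw [e]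
    exact WD4_pow4 hs c1
  · have e : a * dB k j (B' ∪ X) T B ^ 2 = za.el * e0 ^ 2 * DDq X ^ 2 * s ^ 4 := by
      rw [hd, hae]
      ring
    rw [e]
    exact WD4_pow4 hs c2
  · have e : a * dB k j (B' ∪ X) T B ^ 3 = za.el * e0 ^ 3 * DDq X ^ 3 * s ^ 4 := by
      rw [hd, hae]
      ring
    rw [e]
    exact WD4_pow4 hs c3
  · intro β hβ hsq
    apply hXF
    rw [hF]
    exact Set.mem_biUnion (x := β) (by exact_mod_cast hβ) hsq

end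

end Pool.Agent.Lib.MP_1a91b9_ntQT
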