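import Pool.Agent.Lib.MP_1a91b9_ntQT.DE2
import Pool.Agent.Lib.MP_1a91b9_ntQT.DE6
import Pool.Agent.Lib.MP_1a91b9_ntQ.Q.Const4

/-!
# Quartic stability, block DE

Leaf DE7: the density over `K4`: `trC` with the level `2 * n` (`Q5.two_pow_dvd n`), `dsc_all`; `cinf2_form` (`ntQ/Q/Const4`); if
`c ^ 3 - ε < 0` the claim is clear (not needed, `trC` has no sign condition). `hu` for `q = lam` (`prime_lam`).
-/

set_option autoImplicit false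
set_option linter.unusedSectionVars false

namespace Pool.Agent.Lib.MP_1a91b9_ntQT

open Finset NumberField Pool.Agent.Lib.MP_1a91b9_ntH Pool.Agent.Lib.MP_1a91b9_ntQ
  Pool.Agent.Lib.MP_1a91b9_ntQ.Da Pool.Agent.Lib.MP_1a91b9_ntQ.M Pool.Agent.Lib.MP_1a91b9_ntM
  Pool.Agent.Lib.MP_1a91b9_ntM.E

noncomputable section

theorem main_K4 {a : 𝓞 K4} (ha : a ≠ 0) (h4 : ¬ ∃ y : K4, y ^ 4 = (a : K4)) (Bf : Finset K4)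
    (hB : ∀ β ∈ Bf, β ≠ 0) {n : ℕ} {M u : 𝓞 K4} (hM : M ∣ 2 ^ n)
    (hu : ∀ q : 𝓞 K4, Prime q → ¬ (q ^ 4 ∣ M ∧ q ^ 4 ∣ u)) (ε : ℝ) (hε : 0 < ε) :
    ∀ᶠ X : ℝ in Filter.atTop,
      (∏' i : ℕ, (1 + 1 / (2 : ℝ) ^ (i + 1))⁻¹) ^ 3 - ε ≤
      (Nat.card {x : 𝓞 K4 // (∀ z : 𝓞 K4, z ^ 4 ∣ x → IsUnit z) ∧ M ∣ x - u ∧
        |Algebra.norm ℤ x| ≤ X ∧ Gq a Bf x} : ℝ) /
        (Nat.card {x : 𝓞 K4 // (∀ z : 𝓞 K4, z ^ 4 ∣ x → IsUnit z) ∧ M ∣ x - u ∧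
          |Algebra.norm ℤ x| ≤ X} : ℝ) := by
  rw [cinf2_form]
  exact trC (2 * n) (hM.trans (Q5.two_pow_dvd n)) (hu lam prime_lam) (Da.cinf2 ^ 3 - ε / 2)
    (Da.cinf2 ^ 3 - ε) (by linarith)
    (fun k j S T B => Disjoint S (T ∪ B) → Gq a Bf (dB k j S T B))
    (fun k j T B hTB g => dsc_all ha h4 Bf hB k j hTB g (by linarith))
    (Gq a Bf)
    (fun k j S T B h1 h2 => h2 (disjoint_union_right.2 ⟨h1.st, h1.sb⟩))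

end

end Pool.Agent.Lib.MP_1a91b9_ntQT
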