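import Pool.Agent.Lib.MP_1a91b9_ntQT.DE7
import Pool.Agent.Lib.MP_1a91b9_ntW.J.Main4
import Pool.Agent.Lib.MP_1a91b9_ntM.E.Main8X
import Pool.Agent.Lib.MP_1a91b9_ntI.TrLs

/-!
# Quartic stability, block DE

Leaf DE8: the density over an abstract field `K`: `iso_K4` (`ntW/J/Main4`): `e : K4 ≃+* K`; transport of the counting functions as in `PropGE.tr`
(`ntW/J/TrK`, `norm_mapRingEquiv`), `a` in `𝓞 K4` with `a = -e⁻¹(A) ν⁴` (`ν` an integer different from `0`), `Bf` := the preimages of `BfK`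
and, for the squares, `β = 1`; `WD4 (a * d ^ n)` is isomorphic to `y² = x³ + e⁻¹(A) d ^ n x` (`WD4_powK`-like: `vcFun_bijective`,
`locPoly_iso`), and `RkZ` is transported from `K4` to `K` along `e`: make `K` a `K4`-algebra by `e` or use the lemmas of `ntW/J` (the L-series and
the points of `W.map e`: `MQG.tr` does this for `F = K` as a `K4`-algebra through `e`: `W` over `F = K` is not changed there; the same trick works
here: the base field of the statement `main_K4` can be any number field isomorphic to `K4` only through such a lemma).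
-/

set_option autoImplicit false
set_option linter.unusedSectionVars false

namespace Pool.Agent.Lib.MP_1a91b9_ntQT

open Finset NumberField Pool.Agent.Lib.MP_1a91b9_ntH Pool.Agent.Lib.MP_1a91b9_ntQ
  Pool.Agent.Lib.MP_1a91b9_ntQ.Da Pool.Agent.Lib.MP_1a91b9_ntQ.M Pool.Agent.Lib.MP_1a91b9_ntM
  Pool.Agent.Lib.MP_1a91b9_ntM.E

noncomputable section

open Pool.Agent.Lib.MP_1a91b9_ntW.J (RkZ)

private theorem DE8_fourth (b : K4) : ∃ (a ν : 𝓞 K4), ν ≠ 0 ∧ (a : K4) = b * (ν : K4) ^ 4 := by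
  obtain ⟨⟨x, y⟩, hxy⟩ := IsLocalization.surj (nonZeroDivisors (𝓞 K4)) b
  refine ⟨x * y ^ 3, y, nonZeroDivisors.ne_zero y.2, ?_⟩
  have h : b * (((y : 𝓞 K4) : 𝓞 K4) : K4) = ((x : 𝓞 K4) : K4) := hxy
  rw [oc_mul, oc_pow, ← h]
  ring

private theorem DE8_map {K : Type} [Field K] [NumberField K] (e : K4 ≃+* K) {W : WeierstrassCurve K4} {j : ℤ}
    (hj : Pool.Agent.Lib.MP_1a91b9_nuI.HasJ W j) : RkZ (W.map (e : K4 →+* K)) ↔ RkZ W := by
  have h1 : ∀ s, (W.map (e : K4 →+* K)).LSeries s = W.LSeries s :=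
    fun s => Pool.Agent.Lib.MP_1a91b9_ntI.ls_e_hasJ e hj s
  have h2 : Finite W.toAffine.Point ↔ Finite (W.map (e : K4 →+* K)).toAffine.Point :=
    (Equiv.ofBijective _ (Pool.Agent.Lib.MP_1a91b9_ntI.ptMap_bij e W)).finite_iff
  unfold RkZ
  rw [h2]
  simp only [h1]

private theorem DE8_crv {K : Type} [Field K] [NumberField K] (e : K4 ≃+* K) (b : K4) :
    RkZ (Pool.Agent.Lib.MP_1a91b9_ntL.crv 0 b) ↔ RkZ (⟨0, 0, 0, e b, 0⟩ : WeierstrassCurve K) := by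
  rw [← DE8_map e (Pool.Agent.Lib.MP_1a91b9_ntW.J.hasJ_crv4 b)]
  have h1 : (Pool.Agent.Lib.MP_1a91b9_ntL.crv 0 b).map (e : K4 →+* K) = ⟨0, 0, 0, e b, 0⟩ := by
    unfold Pool.Agent.Lib.MP_1a91b9_ntL.crv
    refine WeierstrassCurve.ext ?_ ?_ ?_ ?_ ?_
    · exact map_zero e
    · exact map_zero e
    · exact map_zero e
    · rfl
    · exact map_zero e
  rw [h1]

private theorem DE8_cn {D : 𝓞 K4} {b ν : K4} (hν : ν ≠ 0) (hD : -(D : K4) = b * ν ^ 4) :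
    Cn D ↔ RkZ (Pool.Agent.Lib.MP_1a91b9_ntL.crv 0 b) := by
  have h1 : Cn D ↔ RkZ (Pool.Agent.Lib.MP_1a91b9_ntL.crv 0 (-(D : K4))) := Iff.rfl
  rw [h1, hD]
  exact Pool.Agent.Lib.MP_1a91b9_ntW.J.c4_fourth b hν

private theorem DE8_pow {K : Type} [Field K] [NumberField K] (e : K4 ≃+* K) {A : K} {a ν : 𝓞 K4} (hν : ν ≠ 0)
    (ha : (a : K4) = -(e.symm A) * (ν : K4) ^ 4) (D x : 𝓞 K4) (n : ℕ) (hD : D = a * x ^ n) :
    Cn D ↔ RkZ (⟨0, 0, 0, A * ((RingOfIntegers.mapRingEquiv e x : 𝓞 K) : K) ^ n, 0⟩ : WeierstrassCurve K) := by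
  have h1 : -(D : K4) = (e.symm A * (x : K4) ^ n) * (ν : K4) ^ 4 := by
    rw [hD, oc_mul, oc_pow, ha]
    ring
  rw [DE8_cn (oc_ne hν) h1, DE8_crv e, map_mul, map_pow, e.apply_symm_apply, RingOfIntegers.mapRingEquiv_apply]

/-- **The density over `K`.** -/
theorem main_K (K : Type) [Field K] [NumberField K] (hK : Module.finrank ℚ K = 2)
    (hi : ∃ i : K, i ^ 2 = -1) {A : K} (hA : A ≠ 0) (h4 : ¬ ∃ y : K, y ^ 4 = -A) (Bf : Finset K)
    (hB : ∀ β ∈ Bf, β ≠ 0) {n : ℕ} {m u : 𝓞 K} (hm : m ∣ 2 ^ n)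
    (hu : ∀ q : 𝓞 K, Prime q → ¬ (q ^ 4 ∣ m ∧ q ^ 4 ∣ u)) (ε : ℝ) (hε : 0 < ε) :
    ∀ᶠ X : ℝ in Filter.atTop,
      (∏' i : ℕ, (1 + 1 / (2 : ℝ) ^ (i + 1))⁻¹) ^ 3 - ε ≤
      (Nat.card {x : 𝓞 K // (∀ z : 𝓞 K, z ^ 4 ∣ x → IsUnit z) ∧ m ∣ x - u ∧
        |Algebra.norm ℤ x| ≤ X ∧ RkZ (⟨0, 0, 0, A * x, 0⟩ : WeierstrassCurve K) ∧
        RkZ (⟨0, 0, 0, A * (x : K) ^ 2, 0⟩ : WeierstrassCurve K) ∧
        RkZ (⟨0, 0, 0, A * (x : K) ^ 3, 0⟩ : WeierstrassCurve K) ∧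
        ∀ β ∈ Bf, ¬ IsSquare (β * (x : K))} : ℝ) /
        (Nat.card {x : 𝓞 K // (∀ z : 𝓞 K, z ^ 4 ∣ x → IsUnit z) ∧ m ∣ x - u ∧
          |Algebra.norm ℤ x| ≤ X} : ℝ) := by
  classical
  obtain ⟨i, hi⟩ := hi
  obtain ⟨e⟩ := Pool.Agent.Lib.MP_1a91b9_ntW.J.iso_K4 hK hi
  obtain ⟨a, ν, hν, ha⟩ := DE8_fourth (-(e.symm A))
  have hA' : e.symm A ≠ 0 := by
    rw [Ne, map_eq_zero_iff _ e.symm.injective]
    exact hA
  have ha0 : a ≠ 0 := by
    intro h0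
    have h1 : (a : K4) = 0 := by
      rw [h0]
      exact map_zero (algebraMap (𝓞 K4) K4)
    rw [ha] at h1
    exact mul_ne_zero (neg_ne_zero.2 hA') (pow_ne_zero 4 (oc_ne hν)) h1
  have ha4 : ¬ ∃ y : K4, y ^ 4 = (a : K4) := by
    rintro ⟨y, hy⟩
    refine h4 ⟨e (y / (ν : K4)), ?_⟩
    rw [← map_pow, div_pow, hy, ha, mul_div_assoc, div_self (pow_ne_zero 4 (oc_ne hν)), mul_one, map_neg,
      e.apply_symm_apply]
  have hB' : ∀ β ∈ Bf.image e.symm, β ≠ 0 := by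
    intro β hβ
    obtain ⟨γ, hγ, rfl⟩ := Finset.mem_image.1 hβ
    rw [Ne, map_eq_zero_iff _ e.symm.injective]
    exact hB γ hγ
  have hM : (RingOfIntegers.mapRingEquiv e).symm m ∣ 2 ^ n := by
    have h2 := map_dvd (RingOfIntegers.mapRingEquiv e).symm hm
    rwa [map_pow, map_ofNat] at h2
  have hu' : ∀ q : 𝓞 K4, Prime q → ¬ (q ^ 4 ∣ (RingOfIntegers.mapRingEquiv e).symm m ∧
      q ^ 4 ∣ (RingOfIntegers.mapRingEquiv e).symm u) := by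
    rintro q hq ⟨h2, h3⟩
    refine hu (RingOfIntegers.mapRingEquiv e q) ?_ ⟨?_, ?_⟩
    · exact (MulEquiv.prime_iff (RingOfIntegers.mapRingEquiv e).toMulEquiv).2 hq
    · have h4 := map_dvd (RingOfIntegers.mapRingEquiv e) h2
      rwa [map_pow, RingEquiv.apply_symm_apply] at h4
    · have h4 := map_dvd (RingOfIntegers.mapRingEquiv e) h3
      rwa [map_pow, RingEquiv.apply_symm_apply] at h4
  have key : ∀ d : 𝓞 K4, ((∀ z : 𝓞 K4, z ^ 4 ∣ d → IsUnit z) ∧ (RingOfIntegers.mapRingEquiv e).symm m ∣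
      d - (RingOfIntegers.mapRingEquiv e).symm u) ↔
      ((∀ z : 𝓞 K, z ^ 4 ∣ RingOfIntegers.mapRingEquiv e d → IsUnit z) ∧
        m ∣ RingOfIntegers.mapRingEquiv e d - u) := by
    intro d
    refine and_congr ⟨fun h z hz => ?_, fun h z hz => ?_⟩ ⟨fun h => ?_, fun h => ?_⟩
    · have h2 := map_dvd (RingOfIntegers.mapRingEquiv e).symm hz
      rw [map_pow, RingEquiv.symm_apply_apply] at h2
      exact (MulEquiv.isUnit_map (RingOfIntegers.mapRingEquiv e).symm).1 (h _ h2)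
    · have h2 := map_dvd (RingOfIntegers.mapRingEquiv e) hz
      rw [map_pow] at h2
      exact (MulEquiv.isUnit_map (RingOfIntegers.mapRingEquiv e)).1 (h _ h2)
    · have h1 := map_dvd (RingOfIntegers.mapRingEquiv e) h
      rwa [map_sub, RingEquiv.apply_symm_apply, RingEquiv.apply_symm_apply] at h1
    · have h1 := map_dvd (RingOfIntegers.mapRingEquiv e).symm h
      rwa [map_sub, RingEquiv.symm_apply_apply] at h1
  have hno : ∀ d : 𝓞 K4, |Algebra.norm ℤ (RingOfIntegers.mapRingEquiv e d)| = |Algebra.norm ℤ d| := by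
    intro d
    rw [Pool.Agent.Lib.MP_1a91b9_ntW.J.norm_mapRingEquiv]
  have hG : ∀ d : 𝓞 K4, Gq a (Bf.image e.symm) d ↔
      (RkZ (⟨0, 0, 0, A * ((RingOfIntegers.mapRingEquiv e d : 𝓞 K) : K), 0⟩ : WeierstrassCurve K) ∧
        RkZ (⟨0, 0, 0, A * ((RingOfIntegers.mapRingEquiv e d : 𝓞 K) : K) ^ 2, 0⟩ : WeierstrassCurve K) ∧
        RkZ (⟨0, 0, 0, A * ((RingOfIntegers.mapRingEquiv e d : 𝓞 K) : K) ^ 3, 0⟩ : WeierstrassCurve K) ∧
        ∀ β ∈ Bf, ¬ IsSquare (β * ((RingOfIntegers.mapRingEquiv e d : 𝓞 K) : K))) := by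
    intro d
    have c1 := DE8_pow e hν ha (a * d) d 1 (by rw [pow_one])
    rw [pow_one] at c1
    have c2 := DE8_pow e hν ha (a * d ^ 2) d 2 rfl
    have c3 := DE8_pow e hν ha (a * d ^ 3) d 3 rfl
    have c4 : (∀ β ∈ Bf.image e.symm, ¬ IsSquare (β * (d : K4))) ↔
        ∀ β ∈ Bf, ¬ IsSquare (β * ((RingOfIntegers.mapRingEquiv e d : 𝓞 K) : K)) := by
      rw [RingOfIntegers.mapRingEquiv_apply]
      constructor
      · intro h β hβ hsq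
        refine h (e.symm β) (Finset.mem_image_of_mem _ hβ) ?_
        have h1 := hsq.map e.symm
        rwa [map_mul, e.symm_apply_apply] at h1
      · intro h β hβ hsq
        obtain ⟨γ, hγ, rfl⟩ := Finset.mem_image.1 hβ
        refine h γ hγ ?_
        have h1 := hsq.map e
        rwa [map_mul, e.apply_symm_apply] at h1
    rw [← c1, ← c2, ← c3, ← c4]
    exact ⟨fun h => ⟨h.c1, h.c2, h.c3, h.ex⟩, fun h => ⟨h.1, h.2.1, h.2.2.1, h.2.2.2⟩⟩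
  filter_upwards [main_K4 ha0 ha4 (Bf.image e.symm) hB' hM hu' ε hε] with X hX
  have h1 : Nat.card {d : 𝓞 K4 // (∀ z : 𝓞 K4, z ^ 4 ∣ d → IsUnit z) ∧ (RingOfIntegers.mapRingEquiv e).symm m ∣
      d - (RingOfIntegers.mapRingEquiv e).symm u ∧ |Algebra.norm ℤ d| ≤ X} =
      Nat.card {d : 𝓞 K // (∀ z : 𝓞 K, z ^ 4 ∣ d → IsUnit z) ∧ m ∣ d - u ∧ |Algebra.norm ℤ d| ≤ X} := by
    refine Nat.card_congr ((RingOfIntegers.mapRingEquiv e).toEquiv.subtypeEquiv fun d => ?_)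
    have h3 := key d
    have h4 := hno d
    constructor
    · rintro ⟨a1, a2, a3⟩
      obtain ⟨b1, b2⟩ := h3.1 ⟨a1, a2⟩
      exact ⟨b1, b2, by
        show ((|Algebra.norm ℤ (RingOfIntegers.mapRingEquiv e d)| : ℤ) : ℝ) ≤ X
        rw [h4]
        exact a3⟩
    · rintro ⟨a1, a2, a3⟩
      obtain ⟨b1, b2⟩ := h3.2 ⟨a1, a2⟩
      exact ⟨b1, b2, by
        rw [← h4]
        exact a3⟩
  have h2 : Nat.card {d : 𝓞 K4 // (∀ z : 𝓞 K4, z ^ 4 ∣ d → IsUnit z) ∧ (RingOfIntegers.mapRingEquiv e).symm m ∣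
      d - (RingOfIntegers.mapRingEquiv e).symm u ∧ |Algebra.norm ℤ d| ≤ X ∧ Gq a (Bf.image e.symm) d} =
      Nat.card {x : 𝓞 K // (∀ z : 𝓞 K, z ^ 4 ∣ x → IsUnit z) ∧ m ∣ x - u ∧
        |Algebra.norm ℤ x| ≤ X ∧ RkZ (⟨0, 0, 0, A * x, 0⟩ : WeierstrassCurve K) ∧
        RkZ (⟨0, 0, 0, A * (x : K) ^ 2, 0⟩ : WeierstrassCurve K) ∧
        RkZ (⟨0, 0, 0, A * (x : K) ^ 3, 0⟩ : WeierstrassCurve K) ∧
        ∀ β ∈ Bf, ¬ IsSquare (β * (x : K))} := by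
    refine Nat.card_congr ((RingOfIntegers.mapRingEquiv e).toEquiv.subtypeEquiv fun d => ?_)
    have h3 := key d
    have h4 := hno d
    constructor
    · rintro ⟨a1, a2, a3, a4⟩
      obtain ⟨b1, b2⟩ := h3.1 ⟨a1, a2⟩
      exact ⟨b1, b2, by
        show ((|Algebra.norm ℤ (RingOfIntegers.mapRingEquiv e d)| : ℤ) : ℝ) ≤ X
        rw [h4]
        exact a3, (hG d).1 a4⟩
    · rintro ⟨a1, a2, a3, a4⟩
      obtain ⟨b1, b2⟩ := h3.2 ⟨a1, a2⟩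
      exact ⟨b1, b2, by
        rw [← h4]
        exact a3, (hG d).2 a4⟩
  rw [h1, h2] at hX
  exact hX

end

end Pool.Agent.Lib.MP_1a91b9_ntQT
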