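import Pool.Agent.Lib.MP_1a91b9_ntQT.SY0
import Pool.Agent.Lib.MP_1a91b9_ntM.E.XExp

/-!
# Quartic stability, block DL

Leaf DL1: `densG`, copy of `densX` (`ntM/E/XDen`) with the finite index sets `I a` in the place of `Fin 3` (`ml_sy`, `ML.sum`,
`ML.smul`, `Finset.prod_univ_sum`, `Fintype.piFinset_univ`). The identity `hE` is only known for `B ≠ ∅`: the sums over
`SB ∅ C.cl γ X` with and without the term `B = ∅` differ by a constant, which is at most `ε X` for large `X`.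
`nX_iff`: `nX = 1` iff `kX = tX` (`kX_mul` of `ntM/E/XExp`: for `B ≠ ∅` in the class `kX = nX * tX`; `tX` is `1` or `2`).
-/

set_option autoImplicit false
set_option linter.unusedSectionVars false

namespace Pool.Agent.Lib.MP_1a91b9_ntQT

open Finset Filter Topology Pool.Agent.Lib.MP_1a91b9_ntH Pool.Agent.Lib.MP_1a91b9_ntQ
  Pool.Agent.Lib.MP_1a91b9_ntQ.Da Pool.Agent.Lib.MP_1a91b9_ntQ.M Pool.Agent.Lib.MP_1a91b9_ntM
  Pool.Agent.Lib.MP_1a91b9_ntM.E

noncomputable section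

variable {ι : Type} [DecidableEq ι] {κ : Type} [Fintype κ] [DecidableEq κ]

/-- The normalised size of the kernel for one system. -/
def nS (D : Dat2 ι κ) (ρ : (κ → ZMod 2) → ι → ZMod 2) (c σ : κ → ZMod 2) (S : Sy κ) (α : κ → ZMod 2)
    (B : Finset ι) : ℕ :=
  nX D ρ (fun _ : Unit => c) (fun _ => σ) (fun _ => S.P) (fun _ => S.R) α () B

open Classical in
theorem nS_iff {D : Dat2 ι κ} {ρ : (κ → ZMod 2) → ι → ZMod 2} (hρ : ρ 0 = 0) (c σ : κ → ZMod 2)
    (S : Sy κ) {α : κ → ZMod 2} {B : Finset ι} (hB : B ≠ ∅) (hα : ∀ j, ∑ q ∈ B, D.a q j = α j) :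
    nS D ρ c σ S α B = 1 ↔
      kW D c S.P S.R (rho D (ρ c) σ) ∅ B = if c = 0 ∧ Triv σ S.P S.R α then 2 else 1 := by
  have h := kX_mul (A := Unit) (D := D) (ρ := ρ) hρ (fun _ => c) (fun _ => σ) (fun _ => S.P)
    (fun _ => S.R) (α := α) () hB hα
  have hk : kX D ρ (fun _ : Unit => c) (fun _ => σ) (fun _ => S.P) (fun _ => S.R) () B =
      kW D c S.P S.R (rho D (ρ c) σ) ∅ B := rfl
  have ht : tX (fun _ : Unit => c) (fun _ => σ) (fun _ => S.P) (fun _ => S.R) α () =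
      if c = 0 ∧ Triv σ S.P S.R α then 2 else 1 := by
    unfold tX
    split_ifs <;> rfl
  have hn : nX D ρ (fun _ : Unit => c) (fun _ => σ) (fun _ => S.P) (fun _ => S.R) α () B =
      nS D ρ c σ S α B := rfl
  rw [hk, ht, hn] at h
  have h2 : 0 < if c = 0 ∧ Triv σ S.P S.R α then 2 else 1 := by split_ifs <;> norm_num
  rw [h]
  constructor
  · intro h3
    rw [h3, mul_one]
  · intro h3
    exact Nat.eq_of_mul_eq_mul_left h2 (h3.trans (mul_one _).symm)

theorem nS_zero {D : Dat2 ι κ} {ρ : (κ → ZMod 2) → ι → ZMod 2} (hρ : ρ 0 = 0) (σ : κ → ZMod 2)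
    (S : Sy κ) {α : κ → ZMod 2} {B : Finset ι} (hB : B ≠ ∅) (hα : ∀ j, ∑ q ∈ B, D.a q j = α j) :
    nS D ρ 0 σ S α B = 1 ↔ gdS D σ S α B := by
  rw [nS_iff hρ 0 σ S hB hα, hρ]
  have h1 : kW D 0 S.P S.R (rho D 0 σ) ∅ B = D.kB σ S.P S.R B := kW_zero D σ S.P S.R B
  have h1' : kW D 0 S.P S.R (rho D (0 : ι → ZMod 2) σ) ∅ B = D.kB σ S.P S.R B := h1
  rw [h1']
  unfold gdS
  by_cases h : Triv σ S.P S.R α
  · rw [if_pos ⟨rfl, h⟩, if_pos h]
  · rw [if_neg fun g => h g.2, if_neg h]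

open Classical in
/-- **The joint law for linear combinations of systems.** -/
theorem densG [PS ι] {D : Dat2 ι κ} {ρ : (κ → ZMod 2) → ι → ZMod 2} (hM : MVX D ρ)
    {A : Type} [Fintype A] [DecidableEq A] [Nonempty A] {cA σ : A → κ → ZMod 2}
    (hsg : ∀ a b, a ≠ b → cA a = cA b → σ a + σ b ≠ 0 ∧ σ a + σ b ≠ cA a)
    {I : A → Type} [∀ a, Fintype (I a)] [∀ a, DecidableEq (I a)] (S : ∀ a, I a → Sy κ)
    (hS : ∀ a i, (S a i).OK (cA a)) (w : ∀ a, I a → ℝ) {G : Type} [AddCommGroup G] [Fintype G]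
    (C : Cl2 D G) (γ : G) (Ev : A → Finset ι → Prop)
    (hE : ∀ a (B : Finset ι), B ≠ ∅ → ∑ q ∈ B, C.cl q = γ → (if Ev a B then (1 : ℝ) else 0) =
      ∑ i, w a i * (if nS D ρ (cA a) (σ a) (S a i) (fun j => C.A j γ) B = 1 then 1 else 0))
    {κ₀ : ℝ} (hκ : κ₀ < ∏ a, (cinf2 * ∑ i, w a i)) (ε : ℝ) (hε : 0 < ε) :
    ∃ X₀ : ℕ, ∀ X : ℕ, X₀ ≤ X → κ₀ * ((SB ∅ C.cl γ X).card : ℝ) - ε * X ≤
      (((SB ∅ C.cl γ X).filter fun B => B ≠ ∅ ∧ ∀ a, Ev a B).card : ℝ) := by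
  set J : (a : A) → I a → Finset ι → ℝ := fun a i B =>
    if nS D ρ (cA a) (σ a) (S a i) (fun j => C.A j γ) B = 1 then (1 : ℝ) else 0 with hJ
  have h1 : ∀ s : (∀ a, I a), ML (SB ∅ C.cl γ) (fun B => ∏ a, J a (s a) B)
      (cinf2 ^ Fintype.card A) := fun s =>
    (ml_sy hM hsg (fun a => S a (s a)) (fun a => hS a (s a)) C γ).congr
      (fun B => prod_congr rfl fun a _ => rfl) rfl
  have h2 : ML (SB ∅ C.cl γ)
      (fun B => ∑ s : (∀ a, I a), (∏ a, w a (s a)) * ∏ a, J a (s a) B)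
      (∑ s : (∀ a, I a), (∏ a, w a (s a)) * cinf2 ^ Fintype.card A) :=
    ML.sum univ fun s _ => (h1 s).smul _
  have h3 : ∀ B, ∑ s : (∀ a, I a), (∏ a, w a (s a)) * ∏ a, J a (s a) B =
      ∏ a, ∑ i, w a i * J a i B := by
    intro B
    rw [Finset.prod_univ_sum, Fintype.piFinset_univ]
    exact sum_congr rfl fun s _ => (prod_mul_distrib).symm
  have h4 : ∑ s : (∀ a, I a), (∏ a, w a (s a)) * cinf2 ^ Fintype.card A =
      ∏ a, (cinf2 * ∑ i, w a i) := by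
    rw [← sum_mul]
    have h5 : ∑ s : (∀ a, I a), ∏ a, w a (s a) = ∏ a, ∑ i, w a i := by
      rw [Finset.prod_univ_sum, Fintype.piFinset_univ]
    rw [h5, ← card_univ, ← prod_const, ← prod_mul_distrib]
    exact prod_congr rfl fun a _ => mul_comm _ _
  rw [h4] at h2
  set v := ∏ a, (cinf2 * ∑ i, w a i) with hv
  set f : Finset ι → ℝ := fun B => ∑ s : (∀ a, I a), (∏ a, w a (s a)) * ∏ a, J a (s a) B with hf
  obtain ⟨X0, h6⟩ := h2 (v - κ₀) (by linarith) (ε / 2) (by positivity)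
  obtain ⟨X1, hX1⟩ := exists_nat_ge (2 * |f ∅| / ε)
  refine ⟨max X0 X1, fun X hX => ?_⟩
  have h7 := (abs_le.1 (h6 X (le_trans (le_max_left _ _) hX))).1
  have h8 : |f ∅| ≤ ε / 2 * X := by
    have h9 : (2 * |f ∅| / ε) ≤ X := hX1.trans (by exact_mod_cast le_trans (le_max_right _ _) hX)
    rw [div_le_iff₀ hε] at h9
    linarith
  -- the sum over the nonempty sets
  have h10 : ∑ B ∈ SB ∅ C.cl γ X, f B ≤
      (((SB ∅ C.cl γ X).filter fun B => B ≠ ∅ ∧ ∀ a, Ev a B).card : ℝ) + |f ∅| := by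
    have e1 : ∀ B ∈ SB ∅ C.cl γ X, f B ≤ (if B ≠ ∅ ∧ ∀ a, Ev a B then (1 : ℝ) else 0) +
        (if B = ∅ then |f ∅| else 0) := by
      intro B hB
      by_cases hB0 : B = ∅
      · subst hB0
        rw [if_pos rfl, if_neg fun h => h.1 rfl, zero_add]
        exact le_abs_self _
      · rw [if_neg hB0, add_zero]
        have hB2 := (mem_SB.1 hB).2.2
        have e2 : f B = ∏ a, if Ev a B then (1 : ℝ) else 0 := by
          rw [hf]
          beta_reduce
          rw [h3 B]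
          exact prod_congr rfl fun a _ => (hE a B hB0 hB2).symm
        rw [e2]
        split_ifs with h
        · exact (prod_eq_one fun a _ => if_pos (h.2 a)).le
        · have h' : ∃ a, ¬ Ev a B := by
            by_contra h''
            push Not at h''
            exact h ⟨hB0, h''⟩
          obtain ⟨a, ha⟩ := h'
          exact (prod_eq_zero (mem_univ a) (if_neg ha)).le
    refine (sum_le_sum e1).trans ?_
    rw [sum_add_distrib]
    refine add_le_add (le_of_eq ?_) ?_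
    · rw [card_eq_sum_ones, sum_filter]
      push_cast
      rfl
    · rw [sum_ite_eq']
      split_ifs
      · exact le_rfl
      · exact abs_nonneg _
  have h11 : ∑ b ∈ SB ∅ C.cl γ X, (fun B => ∑ s : (∀ a, I a), (∏ a, w a (s a)) *
      ∏ a, J a (s a) B) b = ∑ B ∈ SB ∅ C.cl γ X, f B := rfl
  linarith

end

end Pool.Agent.Lib.MP_1a91b9_ntQT
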