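import Pool.Agent.Lib.MP_1a91b9_ntQT.SY5
import Pool.Agent.Lib.MP_1a91b9_ntQT.DL1

/-!
# Quartic stability, block DL

Leaf DL2: `dens3`: `densG` for `A = Fin 2`: `a = 0`: `cA = 0`, `σ = σ₁`, the pair of the systems `S1`, `S3` with the weights of
`sy_pair` (`nS_zero`); `a = 1`: `cA = c₂`, `σ = σ₂`, the system `S2` with the weight `1` (`nS_iff`). `cinf2 * cinf2 * cinf2 ≤
(cinf2 * ∑ w) * (cinf2 * 1)`, `cinf2_posX` (`ntM/E/XAsm`). `α j = C.A j γ = ∑ q ∈ B, D.a q j` by `sum_a_eq` (`ntM/E/TrS`).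
-/

set_option autoImplicit false
set_option linter.unusedSectionVars false

namespace Pool.Agent.Lib.MP_1a91b9_ntQT

open Finset Filter Topology Pool.Agent.Lib.MP_1a91b9_ntH Pool.Agent.Lib.MP_1a91b9_ntQ
  Pool.Agent.Lib.MP_1a91b9_ntQ.Da Pool.Agent.Lib.MP_1a91b9_ntQ.M Pool.Agent.Lib.MP_1a91b9_ntM
  Pool.Agent.Lib.MP_1a91b9_ntM.E

noncomputable section

variable {ι : Type} [DecidableEq ι] {κ : Type} [Fintype κ] [DecidableEq κ]

private theorem DL2_flt {α : Type} (s : Finset α) (p : α → Prop) (i : DecidablePred p) (a : α) :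
    a ∈ @Finset.filter α p i s ↔ a ∈ s ∧ p a := Finset.mem_filter

private theorem DL2_pos : 0 < cinf2 := by
  by_contra h
  rw [cinf2_eq] at h
  push Not at h
  have h1 : (1 : ℝ) ≤ 0 := le_of_tendsto' tendsto_prod2 fun n =>
    mul_nonpos_of_nonneg_of_nonpos (prod_nonneg fun i _ => by positivity) h
  linarith

open Classical in
/-- **The law for the three curves.** -/
theorem dens3 [PS ι] {D : Dat2 ι κ} (hs : D.Sym) {ρ : (κ → ZMod 2) → ι → ZMod 2} (hρ : ρ 0 = 0)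
    (hM : MVX D ρ) (σ₁ c₂ σ₂ : κ → ZMod 2) (hsg : c₂ = 0 → σ₁ + σ₂ ≠ 0) (S1 S2 S3 : Sy κ)
    (h1 : S1.OK 0) (h2 : S2.OK c₂) (h3 : S3.OK 0) {G : Type} [AddCommGroup G] [Fintype G]
    (C : Cl2 D G) (γ : G) {κ₀ : ℝ} (hκ : κ₀ < cinf2 ^ 3) (ε : ℝ) (hε : 0 < ε) :
    ∃ X₀ : ℕ, ∀ X : ℕ, X₀ ≤ X → κ₀ * ((SB ∅ C.cl γ X).card : ℝ) - ε * X ≤
      (((SB ∅ C.cl γ X).filter fun B => B ≠ ∅ ∧ gdS D σ₁ S1 (fun j => C.A j γ) B ∧
        gdS D σ₁ S3 (fun j => C.A j γ) B ∧ kW D c₂ S2.P S2.R (rho D (ρ c₂) σ₂) ∅ B =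
          if c₂ = 0 ∧ Triv σ₂ S2.P S2.R (fun j => C.A j γ) then 2 else 1).card : ℝ) := by
  have hc := DL2_pos
  obtain ⟨α, hα⟩ : ∃ α : κ → ZMod 2, α = fun j => C.A j γ := ⟨_, rfl⟩
  have hsum : ∀ B : Finset ι, ∑ q ∈ B, C.cl q = γ → ∀ j, ∑ q ∈ B, D.a q j = α j := by
    intro B hB j
    rw [hα, ← hB]
    show _ = C.A j (∑ q ∈ B, C.cl q)
    rw [map_sum]
    exact sum_congr rfl fun q _ => C.ha q j
  obtain ⟨n, S, w, hS, hw, hX⟩ := sy_pair hs σ₁ α S1 S3 h1 h3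
  have hn : 0 < n := by
    rcases Nat.eq_zero_or_pos n with h0 | h0
    · subst h0
      rw [Finset.univ_eq_empty, Finset.sum_empty] at hw
      exact absurd (lt_of_lt_of_le hc hw) (lt_irrefl _)
    · exact h0
  obtain ⟨i₀⟩ : Nonempty (Fin n) := ⟨⟨0, hn⟩⟩
  have hw1 : ∑ i : Fin n, (if i = i₀ then (1 : ℝ) else 0) = 1 := by
    rw [Finset.sum_ite_eq', if_pos (Finset.mem_univ _)]
  obtain ⟨X₀, hX₀⟩ := densG hM (A := Bool) (cA := fun a => cond a c₂ 0) (σ := fun a => cond a σ₂ σ₁)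
    (by
      intro a b hab hcc
      cases a <;> cases b
      · exact absurd rfl hab
      · have h4 : c₂ = 0 := hcc.symm
        exact ⟨hsg h4, hsg h4⟩
      · have h4 : c₂ = 0 := hcc
        refine ⟨?_, ?_⟩
        · show σ₂ + σ₁ ≠ 0
          rw [add_comm]
          exact hsg h4
        · show σ₂ + σ₁ ≠ c₂
          rw [add_comm, h4]
          exact hsg h4
      · exact absurd rfl hab)
    (I := fun _ => Fin n) (fun a i => cond a S2 (S i))
    (by
      intro a i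
      cases a
      · exact hS i
      · exact h2)
    (fun a i => cond a (if i = i₀ then 1 else 0) (w i)) C γ
    (fun a B => cond a (kW D c₂ S2.P S2.R (rho D (ρ c₂) σ₂) ∅ B =
          if c₂ = 0 ∧ Triv σ₂ S2.P S2.R (fun j => C.A j γ) then 2 else 1)
      (gdS D σ₁ S1 (fun j => C.A j γ) B ∧ gdS D σ₁ S3 (fun j => C.A j γ) B))
    (by
      intro a B hB hBγ
      cases a
      · rw [← hα]
        have h4 := hX B hB (hsum B hBγ)
        refine Eq.trans ?_ (h4.trans ?_)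
        · exact if_congr Iff.rfl rfl rfl
        · refine Finset.sum_congr rfl fun i _ => ?_
          refine congrArg (w i * ·) (if_congr ?_ rfl rfl)
          exact (nS_zero hρ σ₁ (S i) hB (hsum B hBγ)).symm
      · rw [← hα]
        have h4 := nS_iff hρ c₂ σ₂ S2 hB (hsum B hBγ)
        rw [Finset.sum_eq_single i₀]
        · show _ = (if i₀ = i₀ then (1 : ℝ) else 0) * _
          rw [if_pos rfl, one_mul]
          exact if_congr h4.symm rfl rfl
        · intro i _ hi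
          show (if i = i₀ then (1 : ℝ) else 0) * _ = 0
          rw [if_neg hi, zero_mul]
        · intro h5
          exact absurd (Finset.mem_univ _) h5)
    (κ₀ := κ₀) (by
      rw [Fintype.prod_bool]
      refine lt_of_lt_of_le hκ ?_
      show cinf2 ^ 3 ≤ (cinf2 * ∑ i : Fin n, (if i = i₀ then (1 : ℝ) else 0)) * (cinf2 * ∑ i, w i)
      rw [hw1]
      have h5 : cinf2 * cinf2 * cinf2 ≤ cinf2 * cinf2 * ∑ i, w i := mul_le_mul_of_nonneg_left hw (by positivity)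
      linarith [h5]) ε hε
  refine ⟨X₀, fun X hX' => (hX₀ X hX').trans (le_of_eq ?_)⟩
  refine congrArg (fun s : Finset (Finset ι) => (s.card : ℝ)) ?_
  ext B
  rw [DL2_flt, DL2_flt, Bool.forall_bool]
  refine and_congr_right fun _ => and_congr_right fun _ => ?_
  exact and_assoc

end

end Pool.Agent.Lib.MP_1a91b9_ntQT
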