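import Mathlib

/-!
# Quartic stability, block LA (the pencil theorem): definitions

The symplectic space `V κ = F₂ ^ κ × F₂ ^ κ` with the form `om`; `LL w`: the Lagrangian subspaces which contain
the vector `w`; `sp w`: the subspace generated by `w`.
-/

set_option autoImplicit false
set_option linter.unusedSectionVars false

namespace Pool.Agent.Lib.MP_1a91b9_ntQT.LA

open Finset

noncomputable section

/-- The space. -/
abbrev V (κ : Type) : Type := (κ → ZMod 2) × (κ → ZMod 2)

variable {κ : Type} [Fintype κ] [DecidableEq κ]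

/-- The form. -/
def om (p q : V κ) : ZMod 2 := ∑ j, (p.1 j * q.2 j + q.1 j * p.2 j)

theorem om_add_left (p p' q : V κ) : om (p + p') q = om p q + om p' q := by
  unfold om
  rw [← sum_add_distrib]
  refine sum_congr rfl fun j _ => ?_
  simp only [Prod.fst_add, Prod.snd_add, Pi.add_apply]
  ring

theorem om_symm (p q : V κ) : om p q = om q p := by
  unfold om
  exact sum_congr rfl fun j _ => by ring

theorem om_add_right (p q q' : V κ) : om p (q + q') = om p q + om p q' := by
  rw [om_symm, om_add_left, om_symm q, om_symm q']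

theorem om_smul_left (a : ZMod 2) (p q : V κ) : om (a • p) q = a * om p q := by
  unfold om
  rw [mul_sum]
  refine sum_congr rfl fun j _ => ?_
  simp only [Prod.smul_fst, Prod.smul_snd, Pi.smul_apply, smul_eq_mul]
  ring

theorem om_smul_right (a : ZMod 2) (p q : V κ) : om p (a • q) = a * om p q := by
  rw [om_symm, om_smul_left, om_symm]

theorem om_zero_left (q : V κ) : om 0 q = 0 := by
  unfold om
  refine sum_eq_zero fun j _ => ?_
  simp

theorem om_self (p : V κ) : om p p = 0 := by
  unfold om
  refine sum_eq_zero fun j _ => ?_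
  have h : ∀ x : ZMod 2, x + x = 0 := by decide
  exact h _

/-- The orthogonal subspace. -/
def perp (U : Submodule (ZMod 2) (V κ)) : Submodule (ZMod 2) (V κ) where
  carrier := {p | ∀ q ∈ U, om p q = 0}
  add_mem' := by
    intro a b ha hb q hq
    rw [om_add_left, ha q hq, hb q hq, add_zero]
  zero_mem' := fun q _ => om_zero_left q
  smul_mem' := by
    intro c a ha q hq
    rw [om_smul_left, ha q hq, mul_zero]

theorem mem_perp {U : Submodule (ZMod 2) (V κ)} {p : V κ} : p ∈ perp U ↔ ∀ q ∈ U, om p q = 0 :=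
  Iff.rfl

/-- Lagrangian subspaces. -/
def Lg (L : Submodule (ZMod 2) (V κ)) : Prop := perp L = L

/-- Isotropic subspaces. -/
def Iso (U : Submodule (ZMod 2) (V κ)) : Prop := U ≤ perp U

/-- The subspace generated by one vector. -/
def sp (w : V κ) : Submodule (ZMod 2) (V κ) := Submodule.span (ZMod 2) {w}

theorem mem_sp {w v : V κ} : v ∈ sp w ↔ v = 0 ∨ v = w := by
  unfold sp
  rw [Submodule.mem_span_singleton]
  constructor
  · rintro ⟨a, rfl⟩
    have h : ∀ a : ZMod 2, a = 0 ∨ a = 1 := by decide
    rcases h a with rfl | rfl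
    · exact Or.inl (zero_smul _ _)
    · exact Or.inr (one_smul _ _)
  · rintro (rfl | rfl)
    · exact ⟨0, zero_smul _ _⟩
    · exact ⟨1, one_smul _ _⟩

instance : Finite (Submodule (ZMod 2) (V κ)) :=
  Finite.of_injective (fun U => (U : Set (V κ))) SetLike.coe_injective

/-- The Lagrangian subspaces which contain `w`. -/
abbrev LL (w : V κ) : Type := {L : Submodule (ZMod 2) (V κ) // Lg L ∧ w ∈ L}

instance (w : V κ) : Fintype (LL w) := Fintype.ofFinite _

open Classical in
instance (w : V κ) : DecidableEq (LL w) := Classical.decEq _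

open Classical in
/-- The sum of `f` over the `Λ` with `Λ ⊓ T = A`. -/
def HA {w : V κ} (f : LL w → ℝ) (A T : Submodule (ZMod 2) (V κ)) : ℝ :=
  ∑ Λ : LL w, if Λ.1 ⊓ T = A then f Λ else 0

open Classical in
/-- The sum of `f` over the `Λ` which contain `S`. -/
def Psi {w : V κ} (f : LL w → ℝ) (S : Submodule (ZMod 2) (V κ)) : ℝ :=
  ∑ Λ : LL w, if S ≤ Λ.1 then f Λ else 0

/-- The numbers of the Moebius inversion; `k` is the codimension, `a` the dimension. -/
def hk (ψ : ℕ → ℝ) : ℕ → ℕ → ℝ
  | 0, a => ψ a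
  | k + 1, a => hk ψ k a - 2 ^ k * hk ψ k (a + 1)

open Classical in
/-- The indicator of `Λ ⊓ L = ⟨w⟩`. -/
def TT {w : V κ} (Λ L : LL w) : ℝ := if Λ.1 ⊓ L.1 = sp w then 1 else 0

/-- The horizontal subspace. -/
def hor (κ : Type) : Submodule (ZMod 2) (V κ) where
  carrier := {p | p.2 = 0}
  add_mem' := by
    intro a b ha hb
    show (a + b).2 = 0
    rw [Prod.snd_add, ha, hb, add_zero]
  zero_mem' := rfl
  smul_mem' := by
    intro c a ha
    show (c • a).2 = 0
    rw [Prod.smul_snd, ha, smul_zero]

/-- The subspace of the system with the border `P` and the corner `R`. -/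
def lag {W : Type} [Fintype W] (P : κ → W → ZMod 2) (R : Matrix W W (ZMod 2)) :
    Submodule (ZMod 2) (V κ) where
  carrier := {p | ∃ z : W → ZMod 2, (∀ j, p.2 j = ∑ e, P j e * z e) ∧
    ∀ e, ∑ j, P j e * p.1 j + ∑ f, R e f * z f = 0}
  add_mem' := by
    rintro a b ⟨z, h1, h2⟩ ⟨z', h1', h2'⟩
    refine ⟨z + z', fun j => ?_, fun e => ?_⟩
    · simp only [Prod.snd_add, Pi.add_apply, mul_add, sum_add_distrib]
      rw [h1, h1']
    · simp only [Prod.fst_add, Pi.add_apply, mul_add, sum_add_distrib]
      linear_combination h2 e + h2' e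
  zero_mem' := ⟨0, by simp, by simp⟩
  smul_mem' := by
    rintro c a ⟨z, h1, h2⟩
    refine ⟨c • z, fun j => ?_, fun e => ?_⟩
    · simp only [Prod.smul_snd, Pi.smul_apply, smul_eq_mul]
      rw [h1, mul_sum]
      exact sum_congr rfl fun e _ => by ring
    · have h3 := congrArg (c * ·) (h2 e)
      simp only [mul_add, mul_sum, mul_zero] at h3
      simp only [Prod.smul_fst, Pi.smul_apply, smul_eq_mul]
      rw [← h3]
      congr 1
      · exact sum_congr rfl fun j _ => by ring
      · exact sum_congr rfl fun j _ => by ring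

theorem mem_lag {W : Type} [Fintype W] {P : κ → W → ZMod 2} {R : Matrix W W (ZMod 2)} {p : V κ} :
    p ∈ lag P R ↔ ∃ z : W → ZMod 2, (∀ j, p.2 j = ∑ e, P j e * z e) ∧
      ∀ e, ∑ j, P j e * p.1 j + ∑ f, R e f * z f = 0 := Iff.rfl

end

end Pool.Agent.Lib.MP_1a91b9_ntQT.LA
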