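import Pool.Agent.Lib.MP_1a91b9_ntQT.LA0

/-!
# Quartic stability, block LA, leaf LA1

Basic facts. `om` is nondegenerate: `om p` for `p` in the standard basis gives the coordinates. So the map
`p ↦ om p` from `V κ` to its dual is bijective, `finrank U + finrank (perp U) = 2 n` (n = #κ): for example
`perp U` is the kernel of the surjective map `V κ → Module.Dual (ZMod 2) U`, or use `LinearMap.BilinForm` of Mathlib
(`LinearMap.BilinForm.finrank_orthogonal` for a nondegenerate reflexive form). The rest follows by inclusion and dimension.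
-/

set_option autoImplicit false
set_option linter.unusedSectionVars false

namespace Pool.Agent.Lib.MP_1a91b9_ntQT.LA

open Finset

noncomputable section

variable {κ : Type} [Fintype κ] [DecidableEq κ]

/-- The form as a bilinear form of Mathlib. -/
private def LA1_B (κ : Type) [Fintype κ] [DecidableEq κ] : LinearMap.BilinForm (ZMod 2) (V κ) :=
  LinearMap.mk₂ (ZMod 2) om om_add_left om_smul_left om_add_right om_smul_right

private theorem LA1_B_apply (p q : V κ) : LA1_B κ p q = om p q := rfl

private theorem LA1_nd {p : V κ} (h : ∀ q, om p q = 0) : p = 0 := by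
  refine Prod.ext (funext fun j => ?_) (funext fun j => ?_)
  · have h1 := h (0, Pi.single j 1)
    unfold om at h1
    rw [sum_eq_single j (fun i _ hij => by simp [hij])
      (fun hj => absurd (mem_univ j) hj)] at h1
    simpa using h1
  · have h1 := h (Pi.single j 1, 0)
    unfold om at h1
    rw [sum_eq_single j (fun i _ hij => by simp [hij])
      (fun hj => absurd (mem_univ j) hj)] at h1
    simpa using h1

private theorem LA1_ker : (LA1_B κ).ker = ⊥ := by
  rw [eq_bot_iff]
  intro p hp
  rw [LinearMap.mem_ker] at hp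
  rw [Submodule.mem_bot]
  refine LA1_nd fun q => ?_
  rw [← LA1_B_apply, hp]
  rfl

private theorem LA1_perp (U : Submodule (ZMod 2) (V κ)) : perp U = (LA1_B κ).orthogonal U := by
  ext p
  rw [mem_perp, LinearMap.BilinForm.mem_orthogonal_iff]
  refine forall_congr' fun q => forall_congr' fun _ => ?_
  rw [LA1_B_apply, om_symm]

theorem finrank_perp (U : Submodule (ZMod 2) (V κ)) :
    Module.finrank (ZMod 2) U + Module.finrank (ZMod 2) (perp U) = 2 * Fintype.card κ := by
  have h := LinearMap.BilinForm.finrank_add_finrank_orthogonal' (B := LA1_B κ) U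
  rw [LA1_ker, inf_bot_eq, finrank_bot, add_zero, ← LA1_perp, Module.finrank_prod,
    Module.finrank_fintype_fun_eq_card] at h
  omega

theorem perp_perp (U : Submodule (ZMod 2) (V κ)) : perp (perp U) = U := by
  have h1 := finrank_perp U
  have h2 := finrank_perp (perp U)
  refine (Submodule.eq_of_le_of_finrank_eq (fun p hp => ?_) (by omega)).symm
  intro q hq
  rw [om_symm]
  exact hq p hp

theorem perp_anti {U W : Submodule (ZMod 2) (V κ)} (h : U ≤ W) : perp W ≤ perp U := by
  exact fun p hp q hq => hp q (h hq)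

theorem perp_sup (U W : Submodule (ZMod 2) (V κ)) : perp (U ⊔ W) = perp U ⊓ perp W := by
  refine le_antisymm (le_inf (perp_anti le_sup_left) (perp_anti le_sup_right)) ?_
  rintro p ⟨h1, h2⟩ q hq
  obtain ⟨a, ha, b, hb, rfl⟩ := Submodule.mem_sup.1 hq
  rw [om_add_right, h1 a ha, h2 b hb, add_zero]

theorem perp_inf (U W : Submodule (ZMod 2) (V κ)) : perp (U ⊓ W) = perp U ⊔ perp W := by
  rw [← perp_perp (perp U ⊔ perp W), perp_sup, perp_perp, perp_perp]

theorem Lg.finrank {L : Submodule (ZMod 2) (V κ)} (h : Lg L) :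
    Module.finrank (ZMod 2) L = Fintype.card κ := by
  have h1 := finrank_perp L
  have h2 : perp L = L := h
  rw [h2] at h1
  omega

theorem Lg.of_iso {L : Submodule (ZMod 2) (V κ)} (h : Iso L)
    (h2 : Module.finrank (ZMod 2) L = Fintype.card κ) : Lg L := by
  have h1 := finrank_perp L
  exact (Submodule.eq_of_le_of_finrank_eq h (by omega)).symm

theorem Iso.finrank_le {U : Submodule (ZMod 2) (V κ)} (h : Iso U) :
    Module.finrank (ZMod 2) U ≤ Fintype.card κ := by
  have h1 := finrank_perp U
  have h2 := Submodule.finrank_mono (show U ≤ perp U from h)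
  omega

theorem Iso.mono {U W : Submodule (ZMod 2) (V κ)} (h : U ≤ W) (hW : Iso W) : Iso U := by
  exact le_trans h (le_trans hW (perp_anti h))

theorem Iso.sup_sp {U : Submodule (ZMod 2) (V κ)} (h : Iso U) {v : V κ} (hv : v ∈ perp U) :
    Iso (U ⊔ sp v) := by
  have h2 : sp v ≤ perp U := by
    intro x hx
    rcases mem_sp.1 hx with rfl | rfl
    · exact Submodule.zero_mem _
    · exact hv
  have h3 : U ≤ perp (sp v) := by
    rw [← perp_perp U]
    exact perp_anti h2
  have h4 : sp v ≤ perp (sp v) := by
    intro x hx y hy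
    rcases mem_sp.1 hx with rfl | rfl
    · exact om_zero_left _
    · rcases mem_sp.1 hy with rfl | rfl
      · rw [om_symm]
        exact om_zero_left _
      · exact om_self _
  show U ⊔ sp v ≤ perp (U ⊔ sp v)
  rw [perp_sup]
  exact le_inf (sup_le h h2) (sup_le h3 h4)

theorem finrank_sup_sp {U : Submodule (ZMod 2) (V κ)} {v : V κ} (hv : v ∉ U) :
    Module.finrank (ZMod 2) (U ⊔ sp v : Submodule (ZMod 2) (V κ)) = Module.finrank (ZMod 2) U + 1 := by
  have h0 : v ≠ 0 := fun h => hv (h ▸ Submodule.zero_mem U)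
  have h1 := Submodule.finrank_sup_add_finrank_inf_eq U (sp v)
  have h2 : U ⊓ sp v = ⊥ := by
    rw [eq_bot_iff]
    rintro x ⟨hx, hx2⟩
    rcases mem_sp.1 hx2 with rfl | rfl
    · exact Submodule.zero_mem _
    · exact absurd hx hv
  have h3 : Module.finrank (ZMod 2) (sp v) = 1 := finrank_span_singleton h0
  rw [h2, finrank_bot, h3] at h1
  omega

theorem mem_sup_sp {U : Submodule (ZMod 2) (V κ)} {v x : V κ} :
    x ∈ U ⊔ sp v ↔ x ∈ U ∨ x + v ∈ U := by
  have h2 : v + v = 0 := by
    have h : ∀ y : ZMod 2, y + y = 0 := by decide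
    refine Prod.ext (funext fun j => ?_) (funext fun j => ?_)
    · exact h _
    · exact h _
  constructor
  · intro hx
    obtain ⟨a, ha, b, hb, rfl⟩ := Submodule.mem_sup.1 hx
    rcases mem_sp.1 hb with rfl | rfl
    · exact Or.inl (by rwa [add_zero])
    · exact Or.inr (by rwa [add_assoc, h2, add_zero])
  · rintro (hx | hx)
    · exact Submodule.mem_sup_left hx
    · refine Submodule.mem_sup.2 ⟨x + v, hx, v, mem_sp.2 (Or.inr rfl), ?_⟩
      rw [add_assoc, h2, add_zero]

theorem natCard_eq (U : Submodule (ZMod 2) (V κ)) : Nat.card U = 2 ^ Module.finrank (ZMod 2) U := by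
  have h := Module.natCard_eq_pow_finrank (K := ZMod 2) (V := U)
  rw [h, Nat.card_zmod]

end

end Pool.Agent.Lib.MP_1a91b9_ntQT.LA
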