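import Pool.Agent.Lib.MP_1a91b9_ntQT.LA9

/-!
# Quartic stability, block LA, leaf LA10

Part (e3) of the page, the matrices. `lamM_lag`: `P` injective, `R` symmetric, `P^T u = 0`. Then
`LamM u M ⊓ lag P R = sp (u, 0)` iff `P^T M P + R` is nonsingular: a vector of the intersection is `(M y + ε u, y)`,
`y = P z` (then `y ⬝ u = z ⬝ P^T u = 0`), and `P^T (M y + ε u) + R z = (P^T M P + R) z = 0`. `card_PMP`: `P` has a left inverse
`Q` (`Q P = 1`), so `M ↦ P^T M P` is onto the symmetric matrices (`M = Q^T S Q`), all the fibres have the same number of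
elements: the proportion of the symmetric `M` with `P^T M P + R` nonsingular is that of the nonsingular symmetric
matrices of size `#W`.
-/

set_option autoImplicit false
set_option linter.unusedSectionVars false

namespace Pool.Agent.Lib.MP_1a91b9_ntQT.LA

open Finset

noncomputable section

variable {κ : Type} [Fintype κ] [DecidableEq κ]

theorem lamM_lag {W : Type} [Fintype W] [DecidableEq W] {P : κ → W → ZMod 2} {R : Matrix W W (ZMod 2)}
    (hP : ∀ z : W → ZMod 2, (∀ j, ∑ e, P j e * z e = 0) → z = 0) {u : κ → ZMod 2}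
    (hu : ∀ e, ∑ j, P j e * u j = 0) {M : Matrix κ κ (ZMod 2)} (hM : M.transpose = M) :
    LamM u M ⊓ lag P R = sp (u, 0) ↔
      (((Matrix.of P).transpose * M * Matrix.of P + R : Matrix W W (ZMod 2))).det ≠ 0 := by
  classical
  obtain ⟨N, hN⟩ : ∃ N : Matrix W W (ZMod 2), N = (Matrix.of P).transpose * M * Matrix.of P + R := ⟨_, rfl⟩
  rw [← hN]
  have hy : ∀ z : W → ZMod 2, ∑ j, (∑ e, P j e * z e) * u j = 0 := by
    intro z
    simp only [sum_mul]
    rw [sum_comm]
    refine sum_eq_zero fun e _ => ?_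
    have h1 : ∑ j, P j e * z e * u j = z e * ∑ j, P j e * u j := by
      rw [mul_sum]
      exact sum_congr rfl fun j _ => by ring
    rw [h1, hu, mul_zero]
  have hNz : ∀ (z : W → ZMod 2) (e : W), N.mulVec z e =
      ∑ j, P j e * M.mulVec (fun i => ∑ f, P i f * z f) j + ∑ f, R e f * z f := by
    intro z e
    rw [hN, Matrix.add_mulVec, ← Matrix.mulVec_mulVec, ← Matrix.mulVec_mulVec]
    rfl
  constructor
  · intro h hdet
    obtain ⟨z, hz0, hz⟩ := Matrix.exists_mulVec_eq_zero_iff.2 hdet
    apply hz0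
    obtain ⟨y, hyd⟩ : ∃ y : κ → ZMod 2, y = fun j => ∑ e, P j e * z e := ⟨_, rfl⟩
    have h1 : ((M.mulVec y, y) : V κ) ∈ LamM u M ⊓ lag P R := by
      refine ⟨mem_LamM.2 ⟨?_, Or.inl rfl⟩, mem_lag.2 ⟨z, fun j => ?_, fun e => ?_⟩⟩
      · rw [hyd]
        exact hy z
      · rw [hyd]
      · have h2 := hNz z e
        rw [hz, Pi.zero_apply, ← hyd] at h2
        exact h2.symm
    rw [h, mem_sp] at h1
    have h2 : y = 0 := by
      rcases h1 with h1 | h1
      · exact congrArg Prod.snd h1
      · exact congrArg Prod.snd h1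
    refine hP z fun j => ?_
    have h3 := congrFun h2 j
    rw [hyd] at h3
    exact h3
  · intro hdet
    have hinj : ∀ z : W → ZMod 2, N.mulVec z = 0 → z = 0 := by
      intro z hz
      by_contra h0
      exact hdet (Matrix.exists_mulVec_eq_zero_iff.1 ⟨z, h0, hz⟩)
    apply le_antisymm
    · rintro p ⟨hp1, hp2⟩
      obtain ⟨h1, h2⟩ := mem_LamM.1 hp1
      obtain ⟨z, h3, h4⟩ := mem_lag.1 hp2
      have h5 : p.2 = fun j => ∑ e, P j e * z e := funext h3
      have h6 : N.mulVec z = 0 := by
        funext e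
        rw [hNz, ← h5, Pi.zero_apply, ← h4 e]
        congr 1
        rcases h2 with h2 | h2
        · rw [h2]
        · rw [h2]
          simp only [Pi.add_apply, mul_add, sum_add_distrib, hu, add_zero]
      have h7 := hinj z h6
      have h8 : p.2 = 0 := by
        rw [h5, h7]
        funext j
        simp
      rw [mem_sp]
      rcases h2 with h2 | h2
      · left
        rw [h8, Matrix.mulVec_zero] at h2
        exact Prod.ext h2 h8
      · right
        rw [h8, Matrix.mulVec_zero, zero_add] at h2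
        exact Prod.ext h2 h8
    · intro p hp
      rw [mem_sp] at hp
      rcases hp with rfl | rfl
      · exact Submodule.zero_mem _
      · refine ⟨mem_LamM.2 ⟨?_, Or.inr ?_⟩, mem_lag.2 ⟨0, fun j => ?_, fun e => ?_⟩⟩
        · simp
        · show u = M.mulVec 0 + u
          rw [Matrix.mulVec_zero, zero_add]
        · simp
        · show ∑ j, P j e * u j + ∑ f, R e f * (0 : W → ZMod 2) f = 0
          rw [hu, zero_add]
          simp

open Classical in
theorem card_PMP {W : Type} [Fintype W] [DecidableEq W] {P : κ → W → ZMod 2} {R : Matrix W W (ZMod 2)}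
    (hP : ∀ z : W → ZMod 2, (∀ j, ∑ e, P j e * z e = 0) → z = 0) (hR : R.transpose = R) :
    (univ.filter fun M : Matrix κ κ (ZMod 2) => M.transpose = M ∧
        ((Matrix.of P).transpose * M * Matrix.of P + R : Matrix W W (ZMod 2)).det ≠ 0).card *
      (univ.filter fun M : Matrix W W (ZMod 2) => M.transpose = M).card =
    (univ.filter fun M : Matrix κ κ (ZMod 2) => M.transpose = M).card *
      (univ.filter fun M : Matrix W W (ZMod 2) => M.transpose = M ∧ M.det ≠ 0).card := by
  obtain ⟨Q, hQ⟩ : ∃ Q : Matrix W κ (ZMod 2), Q * Matrix.of P = 1 := by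
    have hinj : LinearMap.ker (Matrix.toLin' (Matrix.of P)) = ⊥ := by
      rw [LinearMap.ker_eq_bot']
      intro z hz
      exact hP z fun j => congrFun hz j
    obtain ⟨g, hg⟩ := LinearMap.exists_leftInverse_of_injective _ hinj
    refine ⟨LinearMap.toMatrix' g, ?_⟩
    have h1 : LinearMap.toMatrix' g * LinearMap.toMatrix' (Matrix.toLin' (Matrix.of P)) = 1 := by
      rw [← LinearMap.toMatrix'_comp, hg, LinearMap.toMatrix'_id]
    rwa [LinearMap.toMatrix'_toLin'] at h1
  obtain ⟨φ, hφ⟩ : ∃ φ : Matrix κ κ (ZMod 2) → Matrix W W (ZMod 2),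
      ∀ M, φ M = (Matrix.of P).transpose * M * Matrix.of P + R := ⟨_, fun _ => rfl⟩
  obtain ⟨T, hT⟩ : ∃ T : Matrix κ κ (ZMod 2) × Matrix W W (ZMod 2) → Matrix κ κ (ZMod 2) × Matrix W W (ZMod 2),
      ∀ p, T p = (p.1 + Q.transpose * (p.2 - φ p.1) * Q, φ p.1) := ⟨_, fun _ => rfl⟩
  have h0 : ∀ X : Matrix W W (ZMod 2),
      (Matrix.of P).transpose * (Q.transpose * X * Q) * Matrix.of P = X := by
    intro X
    have h1 : (Matrix.of P).transpose * (Q.transpose * X * Q) * Matrix.of P =
        (Q * Matrix.of P).transpose * X * (Q * Matrix.of P) := by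
      rw [Matrix.transpose_mul]
      simp only [Matrix.mul_assoc]
    rw [h1, hQ, Matrix.transpose_one, Matrix.one_mul, Matrix.mul_one]
  have h1 : ∀ (M : Matrix κ κ (ZMod 2)) (S : Matrix W W (ZMod 2)),
      φ (M + Q.transpose * (S - φ M) * Q) = S := by
    intro M S
    rw [hφ, Matrix.mul_add, Matrix.add_mul, h0, hφ M]
    abel
  have h2 : ∀ p, T (T p) = p := by
    intro p
    rw [hT (T p), hT p]
    refine Prod.ext ?_ ?_
    · show p.1 + Q.transpose * (p.2 - φ p.1) * Q + Q.transpose * (φ p.1 -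
        φ (p.1 + Q.transpose * (p.2 - φ p.1) * Q)) * Q = p.1
      rw [h1, add_assoc, ← Matrix.add_mul, ← Matrix.mul_add, sub_add_sub_cancel, sub_self, Matrix.mul_zero,
        Matrix.zero_mul, add_zero]
    · exact h1 p.1 p.2
  have h3 : ∀ M : Matrix κ κ (ZMod 2), M.transpose = M → (φ M).transpose = φ M := by
    intro M hM
    rw [hφ, Matrix.transpose_add, Matrix.transpose_mul, Matrix.transpose_mul, Matrix.transpose_transpose, hM, hR,
      Matrix.mul_assoc]
  have h4 : ∀ (M : Matrix κ κ (ZMod 2)) (S : Matrix W W (ZMod 2)), M.transpose = M → S.transpose = S →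
      (M + Q.transpose * (S - φ M) * Q).transpose = M + Q.transpose * (S - φ M) * Q := by
    intro M S hM hS
    rw [Matrix.transpose_add, Matrix.transpose_mul, Matrix.transpose_mul, Matrix.transpose_transpose,
      Matrix.transpose_sub, hM, hS, h3 M hM, Matrix.mul_assoc]
  simp only [← hφ]
  rw [← card_product, ← card_product]
  refine card_bij' (fun p _ => T p) (fun p _ => T p) ?_ ?_ (fun p _ => h2 p) (fun p _ => h2 p)
  · intro p hp
    rw [mem_product, mem_filter, mem_filter] at hp
    rw [mem_product, mem_filter, mem_filter, hT]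
    exact ⟨⟨mem_univ _, h4 _ _ hp.1.2.1 hp.2.2⟩, mem_univ _, h3 _ hp.1.2.1, hp.1.2.2⟩
  · intro p hp
    rw [mem_product, mem_filter, mem_filter] at hp
    rw [mem_product, mem_filter, mem_filter, hT]
    refine ⟨⟨mem_univ _, h4 _ _ hp.1.2 hp.2.2.1, ?_⟩, mem_univ _, h3 _ hp.1.2⟩
    show (φ (p.1 + Q.transpose * (p.2 - φ p.1) * Q)).det ≠ 0
    rw [h1]
    exact hp.2.2.2

end

end Pool.Agent.Lib.MP_1a91b9_ntQT.LA
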