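import Mathlib

/-!
# Quartic stability, block LA, leaf LA11

Part (e4) of the page: the number of the nonsingular symmetric matrices over `F₂`. `nsy s` counts them,
`#symmetric = 2 ^ (s (s + 1) / 2)`. Recursion (only this inequality): `nsy (s + 2) ≥ 2 ^ (s + 1) nsy (s + 1) +
(2 ^ (s + 1) - 1) 2 ^ (s + 1) nsy s`. First term: the matrices `[1, b; b^T, S + b^T b]`, `S` nonsingular symmetric of size
`s + 1`, `b` arbitrary (the determinant is `det S`: Schur complement, `Matrix.det_fromBlocks₁₁`). Second term: entry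
`(0, 0)` zero, `b ≠ 0`: det of `[0, b; b^T, S]`; for each `b ≠ 0` there is an invertible `C` of size `s + 1` with `b C = e_0`; the
congruence with `diag (1, C)` is a bijection of the symmetric matrices with the entry 0 and the row `b` with those with the row
`e_0`; for `[0, 1, 0; 1, x, c; 0, c^T, S']` the determinant is `det S'` (over `F₂`; expand along the first row and column), so there are
`2 ^ (s + 1) nsy s` nonsingular ones for every `b ≠ 0` (`x` and `c` are arbitrary).
-/

set_option autoImplicit false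
set_option linter.unusedSectionVars false

namespace Pool.Agent.Lib.MP_1a91b9_ntQT.LA

open Finset

noncomputable section

variable {κ : Type} [Fintype κ] [DecidableEq κ]

open Classical in
/-- The number of the nonsingular symmetric matrices. -/
def nsy (s : ℕ) : ℕ := (univ.filter fun M : Matrix (Fin s) (Fin s) (ZMod 2) =>
  M.transpose = M ∧ M.det ≠ 0).card

/-- The symmetric matrix with the corner `a`, the border `b`, and `S`. -/
private def LA11_bd {n : ℕ} (a : ZMod 2) (b : Fin n → ZMod 2) (S : Matrix (Fin n) (Fin n) (ZMod 2)) :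
    Matrix (Fin (n + 1)) (Fin (n + 1)) (ZMod 2) :=
  fun i j => Fin.cases (motive := fun _ => ZMod 2) (Fin.cases (motive := fun _ => ZMod 2) a b j)
    (fun i' => Fin.cases (motive := fun _ => ZMod 2) (b i') (fun j' => S i' j') j) i

private theorem LA11_00 {n : ℕ} (a : ZMod 2) (b : Fin n → ZMod 2) (S : Matrix (Fin n) (Fin n) (ZMod 2)) :
    LA11_bd a b S 0 0 = a := rfl

private theorem LA11_0s {n : ℕ} (a : ZMod 2) (b : Fin n → ZMod 2) (S : Matrix (Fin n) (Fin n) (ZMod 2)) (j : Fin n) :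
    LA11_bd a b S 0 j.succ = b j := rfl

private theorem LA11_s0 {n : ℕ} (a : ZMod 2) (b : Fin n → ZMod 2) (S : Matrix (Fin n) (Fin n) (ZMod 2)) (i : Fin n) :
    LA11_bd a b S i.succ 0 = b i := rfl

private theorem LA11_ss {n : ℕ} (a : ZMod 2) (b : Fin n → ZMod 2) (S : Matrix (Fin n) (Fin n) (ZMod 2)) (i j : Fin n) :
    LA11_bd a b S i.succ j.succ = S i j := rfl

private theorem LA11_inj {n : ℕ} {a a' : ZMod 2} {b b' : Fin n → ZMod 2} {S S' : Matrix (Fin n) (Fin n) (ZMod 2)}
    (h : LA11_bd a b S = LA11_bd a' b' S') : a = a' ∧ b = b' ∧ S = S' := by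
  refine ⟨?_, ?_, ?_⟩
  · exact congrFun (congrFun h 0) 0
  · funext j
    exact congrFun (congrFun h 0) j.succ
  · funext i j
    exact congrFun (congrFun h i.succ) j.succ

private theorem LA11_tr {n : ℕ} (a : ZMod 2) (b : Fin n → ZMod 2) {S : Matrix (Fin n) (Fin n) (ZMod 2)}
    (hS : S.transpose = S) : (LA11_bd a b S).transpose = LA11_bd a b S := by
  funext i j
  rw [Matrix.transpose_apply]
  refine Fin.cases ?_ (fun i' => ?_) i
  · refine Fin.cases ?_ (fun j' => ?_) j
    · rfl
    · rw [LA11_s0, LA11_0s]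
  · refine Fin.cases ?_ (fun j' => ?_) j
    · rw [LA11_s0, LA11_0s]
    · rw [LA11_ss, LA11_ss]
      exact congrFun (congrFun hS i') j'

private theorem LA11_surj {n : ℕ} {M : Matrix (Fin (n + 1)) (Fin (n + 1)) (ZMod 2)} (hM : M.transpose = M) :
    LA11_bd (M 0 0) (fun j => M 0 j.succ) (fun i j => M i.succ j.succ) = M := by
  funext i j
  refine Fin.cases ?_ (fun i' => ?_) i
  · refine Fin.cases ?_ (fun j' => ?_) j
    · rfl
    · rfl
  · refine Fin.cases ?_ (fun j' => ?_) j
    · rw [LA11_s0]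
      exact congrFun (congrFun hM i'.succ) 0
    · rfl

private theorem LA11_mv0 {n : ℕ} (a : ZMod 2) (b : Fin n → ZMod 2) (S : Matrix (Fin n) (Fin n) (ZMod 2))
    (v : Fin (n + 1) → ZMod 2) : (LA11_bd a b S).mulVec v 0 = a * v 0 + ∑ j, b j * v j.succ := by
  show ∑ j, LA11_bd a b S 0 j * v j = _
  rw [Fin.sum_univ_succ]
  rfl

private theorem LA11_mvs {n : ℕ} (a : ZMod 2) (b : Fin n → ZMod 2) (S : Matrix (Fin n) (Fin n) (ZMod 2))
    (v : Fin (n + 1) → ZMod 2) (i : Fin n) :
    (LA11_bd a b S).mulVec v i.succ = b i * v 0 + S.mulVec (fun j => v j.succ) i := by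
  show ∑ j, LA11_bd a b S i.succ j * v j = _
  rw [Fin.sum_univ_succ]
  rfl

private theorem LA11_det {n : ℕ} {M : Matrix (Fin n) (Fin n) (ZMod 2)} :
    M.det ≠ 0 ↔ ∀ v : Fin n → ZMod 2, M.mulVec v = 0 → v = 0 := by
  rw [Ne, ← Matrix.exists_mulVec_eq_zero_iff]
  constructor
  · intro h v hv
    by_contra h0
    exact h ⟨v, h0, hv⟩
  · rintro h ⟨v, h0, hv⟩
    exact h0 (h v hv)

private theorem LA11_two (x : ZMod 2) : x + x = 0 := by
  revert x
  decide

private theorem LA11_card {α : Type} [Fintype α] (p : α → Prop) [DecidablePred p] :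
    (univ.filter p).card = Nat.card {x // p x} := by
  rw [Nat.card_eq_fintype_card, Fintype.card_subtype]

/-- nonsingular, first kind -/
private theorem LA11_one {n : ℕ} (b : Fin n → ZMod 2) {S : Matrix (Fin n) (Fin n) (ZMod 2)} (hS : S.det ≠ 0) :
    (LA11_bd 1 b (fun i j => S i j + b i * b j)).det ≠ 0 := by
  rw [LA11_det] at hS ⊢
  intro v hv
  have h0 := congrFun hv 0
  rw [LA11_mv0, one_mul] at h0
  have hs : S.mulVec (fun j => v j.succ) = 0 := by
    funext i
    have h1 := congrFun hv i.succ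
    rw [LA11_mvs] at h1
    have h2 : Matrix.mulVec (fun i j => S i j + b i * b j) (fun j => v j.succ) i =
        S.mulVec (fun j => v j.succ) i + b i * ∑ j, b j * v j.succ := by
      show ∑ j, (S i j + b i * b j) * v j.succ = ∑ j, S i j * v j.succ + b i * ∑ j, b j * v j.succ
      rw [mul_sum, ← sum_add_distrib]
      exact sum_congr rfl fun j _ => by ring
    rw [h2] at h1
    show S.mulVec (fun j => v j.succ) i = 0
    have h0' : v 0 + ∑ j, b j * v j.succ = 0 := h0
    have h1' : b i * v 0 + (S.mulVec (fun j => v j.succ) i + b i * ∑ j, b j * v j.succ) = 0 := h1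
    linear_combination h1' - b i * h0'
  have hw := hS _ hs
  have hw' : ∀ j : Fin n, v j.succ = 0 := fun j => congrFun hw j
  have h0' : v 0 + ∑ j, b j * v j.succ = 0 := h0
  rw [sum_eq_zero (fun j _ => by rw [hw', mul_zero]), add_zero] at h0'
  funext i
  refine Fin.cases ?_ (fun i' => ?_) i
  · exact h0'
  · exact hw' i'

/-- nonsingular, second kind -/
private theorem LA11_zero {n : ℕ} {b : Fin (n + 1) → ZMod 2} {A : Matrix (Fin (n + 1)) (Fin (n + 1)) (ZMod 2)}
    (hA : IsUnit A.det) (hb : ∀ j, A 0 j = b j) (x : ZMod 2) (c : Fin n → ZMod 2)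
    {S : Matrix (Fin n) (Fin n) (ZMod 2)} (hS : S.det ≠ 0) :
    (LA11_bd 0 b (A.transpose * LA11_bd x c S * A)).det ≠ 0 := by
  rw [LA11_det] at hS ⊢
  intro v hv
  obtain ⟨w, hw⟩ : ∃ w : Fin (n + 1) → ZMod 2, w = fun j => v j.succ := ⟨_, rfl⟩
  obtain ⟨w', hw'⟩ : ∃ w' : Fin (n + 1) → ZMod 2, w' = A.mulVec w := ⟨_, rfl⟩
  have h0 := congrFun hv 0
  rw [LA11_mv0, zero_mul, zero_add] at h0
  have h0' : w' 0 = 0 := by
    rw [hw', hw]
    show ∑ j, A 0 j * v j.succ = 0
    rw [← show ∑ j, b j * v j.succ = 0 from h0]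
    exact sum_congr rfl fun j _ => by rw [hb]
  have h1 : A.transpose.mulVec (fun i => (if i = 0 then v 0 else 0) + (LA11_bd x c S).mulVec w' i) = 0 := by
    funext i
    have h2 := congrFun hv i.succ
    rw [LA11_mvs, ← hw, ← Matrix.mulVec_mulVec, ← Matrix.mulVec_mulVec, ← hw'] at h2
    show ∑ j, A.transpose i j * ((if j = 0 then v 0 else 0) + (LA11_bd x c S).mulVec w' j) = 0
    have h3 : ∑ j, A.transpose i j * ((if j = 0 then v 0 else 0) + (LA11_bd x c S).mulVec w' j) =
        b i * v 0 + A.transpose.mulVec ((LA11_bd x c S).mulVec w') i := by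
      have h4 : A.transpose.mulVec ((LA11_bd x c S).mulVec w') i = ∑ j, A.transpose i j * (LA11_bd x c S).mulVec w' j := rfl
      rw [h4]
      simp only [mul_add, sum_add_distrib]
      congr 1
      rw [sum_eq_single (0 : Fin (n + 1))]
      · rw [if_pos rfl, Matrix.transpose_apply, hb]
      · intro j _ hj
        rw [if_neg hj, mul_zero]
      · intro h
        exact absurd (mem_univ _) h
    rw [h3]
    exact h2
  have hAt : A.transpose.det ≠ 0 := by
    rw [Matrix.det_transpose]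
    exact hA.ne_zero
  have h5 := LA11_det.1 hAt _ h1
  have h6 := congrFun h5 0
  have h7 : S.mulVec (fun j => w' j.succ) = 0 := by
    funext i
    have h8 := congrFun h5 i.succ
    have h9 : (if i.succ = 0 then v 0 else 0) + (LA11_bd x c S).mulVec w' i.succ = 0 := h8
    rw [if_neg (Fin.succ_ne_zero i), zero_add, LA11_mvs, h0', mul_zero, zero_add] at h9
    exact h9
  have h8 := hS _ h7
  have h9 : w' = 0 := by
    funext i
    refine Fin.cases ?_ (fun i' => ?_) i
    · exact h0'
    · exact congrFun h8 i'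
  have h10 : v 0 = 0 := by
    have h11 : (if (0 : Fin (n + 1)) = 0 then v 0 else 0) + (LA11_bd x c S).mulVec w' 0 = 0 := h6
    rw [if_pos rfl, h9, Matrix.mulVec_zero] at h11
    rw [← h11]
    exact (add_zero _).symm
  have h12 : w = 0 := LA11_det.1 hA.ne_zero w (by rw [← hw', h9])
  funext i
  refine Fin.cases ?_ (fun i' => ?_) i
  · exact h10
  · have h13 := congrFun h12 i'
    rw [hw] at h13
    exact h13

/-- an invertible matrix with the first row `b` -/
private theorem LA11_ex {n : ℕ} (b : Fin (n + 1) → ZMod 2) (hb : b ≠ 0) :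
    ∃ A : Matrix (Fin (n + 1)) (Fin (n + 1)) (ZMod 2), IsUnit A.det ∧ ∀ j, A 0 j = b j := by
  obtain ⟨j0, hj0⟩ : ∃ j0, b j0 ≠ 0 := by
    by_contra h
    push Not at h
    exact hb (funext h)
  refine ⟨(Matrix.updateRow (1 : Matrix (Fin (n + 1)) (Fin (n + 1)) (ZMod 2)) j0 b).submatrix (Equiv.swap 0 j0) id, ?_, ?_⟩
  · have h1 : (Matrix.updateRow (1 : Matrix (Fin (n + 1)) (Fin (n + 1)) (ZMod 2)) j0 b).det = b j0 := by
      have h2 : b = ∑ k, b k • (1 : Matrix (Fin (n + 1)) (Fin (n + 1)) (ZMod 2)) k := by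
        funext j
        rw [Finset.sum_apply, sum_eq_single j]
        · rw [Pi.smul_apply, Matrix.one_apply_eq, smul_eq_mul, mul_one]
        · intro k _ hk
          rw [Pi.smul_apply, Matrix.one_apply_ne hk, smul_zero]
        · intro h
          exact absurd (mem_univ _) h
      have h3 := Matrix.det_updateRow_sum (1 : Matrix (Fin (n + 1)) (Fin (n + 1)) (ZMod 2)) j0 b
      rw [← h2, Matrix.det_one, smul_eq_mul, mul_one] at h3
      exact h3
    rw [isUnit_iff_ne_zero, Matrix.det_permute, h1]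
    refine mul_ne_zero ?_ hj0
    rcases Int.units_eq_one_or (Equiv.Perm.sign (Equiv.swap 0 j0)) with h | h
    · rw [h]
      simp
    · rw [h]
      simp
  · intro j
    rw [Matrix.submatrix_apply, Equiv.swap_apply_left, id, Matrix.updateRow_self]

open Classical in
theorem card_sy (s : ℕ) : (univ.filter fun M : Matrix (Fin s) (Fin s) (ZMod 2) =>
    M.transpose = M).card = 2 ^ (s * (s + 1) / 2) := by
  classical
  rw [LA11_card]
  induction s with
  | zero =>
    have h : Nat.card {M : Matrix (Fin 0) (Fin 0) (ZMod 2) // M.transpose = M} = 1 := by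
      have : Unique {M : Matrix (Fin 0) (Fin 0) (ZMod 2) // M.transpose = M} :=
        ⟨⟨⟨0, Matrix.transpose_zero⟩⟩, fun M => Subtype.ext (by ext i; exact i.elim0)⟩
      exact Nat.card_unique
    rw [h]
    rfl
  | succ s ih =>
    have e : {M : Matrix (Fin (s + 1)) (Fin (s + 1)) (ZMod 2) // M.transpose = M} ≃
        ZMod 2 × (Fin s → ZMod 2) × {M : Matrix (Fin s) (Fin s) (ZMod 2) // M.transpose = M} :=
      { toFun := fun M => (M.1 0 0, fun j => M.1 0 j.succ, ⟨fun i j => M.1 i.succ j.succ, by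
          funext i j
          exact congrFun (congrFun M.2 i.succ) j.succ⟩)
        invFun := fun z => ⟨LA11_bd z.1 z.2.1 z.2.2.1, LA11_tr _ _ z.2.2.2⟩
        left_inv := fun M => Subtype.ext (LA11_surj M.2)
        right_inv := fun z => rfl }
    rw [Nat.card_congr e, Nat.card_prod, Nat.card_prod, ih, Nat.card_zmod, Nat.card_fun, Nat.card_zmod, Nat.card_eq_fintype_card, Fintype.card_fin]
    have h1 : (s + 1) * (s + 1 + 1) / 2 = 1 + (s + s * (s + 1) / 2) := by
      have h2 : (s + 1) * (s + 1 + 1) = s * (s + 1) + (s + 1) * 2 := by ring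
      rw [h2, Nat.add_mul_div_right _ _ (by norm_num)]
      ring
    rw [h1, pow_add, pow_add, pow_one]

theorem nsy_zero : nsy 0 = 1 := by
  classical
  unfold nsy
  rw [LA11_card]
  have : Unique {M : Matrix (Fin 0) (Fin 0) (ZMod 2) // M.transpose = M ∧ M.det ≠ 0} :=
    ⟨⟨⟨0, Matrix.transpose_zero, by rw [Matrix.det_isEmpty]; exact one_ne_zero⟩⟩, fun M => Subtype.ext (by ext i; exact i.elim0)⟩
  exact Nat.card_unique

theorem nsy_one : nsy 1 = 1 := by
  classical
  unfold nsy
  rw [LA11_card]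
  have h : ∀ x : ZMod 2, x ≠ 0 → x = 1 := by decide
  have : Unique {M : Matrix (Fin 1) (Fin 1) (ZMod 2) // M.transpose = M ∧ M.det ≠ 0} :=
    ⟨⟨⟨1, Matrix.transpose_one, by rw [Matrix.det_one]; exact one_ne_zero⟩⟩, fun M => Subtype.ext (by
      have h1 := M.2.2
      rw [Matrix.det_fin_one] at h1
      ext i j
      rw [Subsingleton.elim i 0, Subsingleton.elim j 0]
      exact h _ h1)⟩
  exact Nat.card_unique

theorem nsy_rec (s : ℕ) : 2 ^ (s + 1) * nsy (s + 1) + (2 ^ (s + 1) - 1) * 2 ^ (s + 1) * nsy s ≤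
    nsy (s + 2) := by
  classical
  have hN : ∀ n : ℕ, nsy n = Nat.card {M : Matrix (Fin n) (Fin n) (ZMod 2) // M.transpose = M ∧ M.det ≠ 0} := by
    intro n
    unfold nsy
    rw [LA11_card]
  have hex : ∀ b : {b : Fin (s + 1) → ZMod 2 // b ≠ 0}, ∃ A : Matrix (Fin (s + 1)) (Fin (s + 1)) (ZMod 2),
      IsUnit A.det ∧ ∀ j, A 0 j = b.1 j := fun b => LA11_ex b.1 b.2
  choose A hA hA0 using hex
  obtain ⟨f1, hf1⟩ : ∃ f1 : (Fin (s + 1) → ZMod 2) × {M : Matrix (Fin (s + 1)) (Fin (s + 1)) (ZMod 2) // M.transpose = M ∧ M.det ≠ 0} →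
      {M : Matrix (Fin (s + 2)) (Fin (s + 2)) (ZMod 2) // M.transpose = M ∧ M.det ≠ 0},
      ∀ z, (f1 z).1 = LA11_bd 1 z.1 (fun i j => z.2.1 i j + z.1 i * z.1 j) :=
    ⟨fun z => ⟨LA11_bd 1 z.1 (fun i j => z.2.1 i j + z.1 i * z.1 j), LA11_tr _ _ (by
      funext i j
      show z.2.1 j i + z.1 j * z.1 i = z.2.1 i j + z.1 i * z.1 j
      have h1 : z.2.1 j i = z.2.1 i j := congrFun (congrFun z.2.2.1 i) j
      rw [h1, mul_comm (z.1 j)]), LA11_one z.1 z.2.2.2⟩, fun z => rfl⟩
  obtain ⟨f2, hf2⟩ : ∃ f2 : {b : Fin (s + 1) → ZMod 2 // b ≠ 0} × (ZMod 2 × (Fin s → ZMod 2)) × {M : Matrix (Fin s) (Fin s) (ZMod 2) // M.transpose = M ∧ M.det ≠ 0} →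
      {M : Matrix (Fin (s + 2)) (Fin (s + 2)) (ZMod 2) // M.transpose = M ∧ M.det ≠ 0},
      ∀ z, (f2 z).1 = LA11_bd 0 z.1.1 ((A z.1).transpose * LA11_bd z.2.1.1 z.2.1.2 z.2.2.1 * A z.1) :=
    ⟨fun z => ⟨LA11_bd 0 z.1.1 ((A z.1).transpose * LA11_bd z.2.1.1 z.2.1.2 z.2.2.1 * A z.1), LA11_tr _ _ (by
      rw [Matrix.transpose_mul, Matrix.transpose_mul, Matrix.transpose_transpose, LA11_tr _ _ z.2.2.2.1, Matrix.mul_assoc]),
      LA11_zero (hA z.1) (hA0 z.1) z.2.1.1 z.2.1.2 z.2.2.2.2⟩, fun z => rfl⟩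
  have hinj : Function.Injective (Sum.elim f1 f2) := by
    rintro (⟨b, S⟩ | ⟨b, ⟨x, c⟩, S⟩) (⟨b', S'⟩ | ⟨b', ⟨x', c'⟩, S'⟩) h
    · have h1 := congrArg Subtype.val h
      simp only [Sum.elim_inl, hf1] at h1
      obtain ⟨_, h2, h3⟩ := LA11_inj h1
      subst h2
      have h4 : S = S' := by
        apply Subtype.ext
        funext i j
        have h5 := congrFun (congrFun h3 i) j
        exact add_right_cancel h5
      rw [h4]
    · exfalso
      have h1 := congrArg Subtype.val h
      simp only [Sum.elim_inl, Sum.elim_inr, hf1, hf2] at h1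
      exact one_ne_zero (LA11_inj h1).1
    · exfalso
      have h1 := congrArg Subtype.val h
      simp only [Sum.elim_inl, Sum.elim_inr, hf1, hf2] at h1
      exact one_ne_zero (LA11_inj h1).1.symm
    · have h1 := congrArg Subtype.val h
      simp only [Sum.elim_inr, hf2] at h1
      obtain ⟨_, h2, h3⟩ := LA11_inj h1
      have h4 : b = b' := Subtype.ext h2
      subst h4
      have h5 : LA11_bd x c S.1 = LA11_bd x' c' S'.1 := by
        have h6 := hA b
        have h7 : IsUnit (A b).transpose.det := by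
          rw [Matrix.det_transpose]
          exact h6
        have h8 := congrArg (fun M => M * (A b)⁻¹) h3
        simp only [Matrix.mul_nonsing_inv_cancel_right _ _ h6] at h8
        have h9 := congrArg (fun M => ((A b).transpose)⁻¹ * M) h8
        simp only [Matrix.nonsing_inv_mul_cancel_left _ _ h7] at h9
        exact h9
      obtain ⟨h10, h11, h12⟩ := LA11_inj h5
      rw [h10, h11, Subtype.ext h12]
  have hle := Nat.card_le_card_of_injective _ hinj
  rw [Nat.card_sum, Nat.card_prod, Nat.card_prod, Nat.card_prod, Nat.card_prod, ← hN, ← hN, ← hN, Nat.card_fun, Nat.card_fun, Nat.card_zmod,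
    Nat.card_eq_fintype_card (α := Fin (s + 1)), Nat.card_eq_fintype_card (α := Fin s), Fintype.card_fin, Fintype.card_fin] at hle
  have hc : Nat.card {b : Fin (s + 1) → ZMod 2 // b ≠ 0} = 2 ^ (s + 1) - 1 := by
    rw [Nat.card_eq_fintype_card, Fintype.card_subtype_compl, Fintype.card_subtype_eq]
    rw [Fintype.card_fun, ZMod.card, Fintype.card_fin]
  rw [hc] at hle
  refine le_trans (le_of_eq ?_) hle
  rw [pow_succ 2 s]
  ring

end

end Pool.Agent.Lib.MP_1a91b9_ntQT.LA
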