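import Pool.Agent.Lib.MP_1a91b9_ntQT.LA11
import Pool.Agent.Lib.MP_1a91b9_ntQ.D.Lim2

/-!
# Quartic stability, block LA, leaf LA12

Part (e4), the numbers. `p s = nsy s / 2 ^ (s (s + 1) / 2)`: `p (s + 2) ≥ 1/2 p (s + 1) + 1/2 (1 - 2 ^ (-(s+1))) p s` (divide `nsy_rec` by
`2 ^ ((s+2)(s+3)/2)`). With `q m = ∏ i < m, (1 - 2 ^ (-(2 i + 1)))`: `p (2 m) ≥ q m` and `p (2 m + 1) ≥ q (m + 1)` by induction (`p 0 = 1`,
`p 1 = 1/2 = q 1`; check: `1/2 q (m+1) + 1/2 (1 - 2 ^ (-(2m+1))) q m = q (m + 1)` and `1/2 q (m+1) + 1/2 (1 - 2 ^ (-(2m+2))) q (m+1) =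
q (m + 2)`... (`1 - 2 ^ (-(2m+3)) = 1/2 + 1/2 (1 - 2 ^ (-(2m+2)))`)). By definition `cinf2 = ∏' i, (1 - (1/2) ^ (2 i + 1))` (ntQ/D/Lim2), so `cinf2 ≤ q m` for every `m`
(the partial products decrease to the infinite product; the summability / multipliability facts are in Lim2).
-/

set_option autoImplicit false
set_option linter.unusedSectionVars false

namespace Pool.Agent.Lib.MP_1a91b9_ntQT.LA

open Finset

noncomputable section

variable {κ : Type} [Fintype κ] [DecidableEq κ]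

private def la12q (m : ℕ) : ℝ := ∏ i ∈ range m, (1 - (1 / 2 : ℝ) ^ (2 * i + 1))

private def la12p (s : ℕ) : ℝ := (nsy s : ℝ) / 2 ^ (s * (s + 1) / 2)

private theorem la12_T (s : ℕ) : (s + 1) * (s + 1 + 1) / 2 = s * (s + 1) / 2 + (s + 1) := by
  have h : (s + 1) * (s + 1 + 1) = s * (s + 1) + 2 * (s + 1) := by ring
  rw [h, Nat.add_mul_div_left _ _ (by norm_num)]

private theorem la12_fac (n : ℕ) : 0 ≤ 1 - (1 / 2 : ℝ) ^ n := by
  have : (1 / 2 : ℝ) ^ n ≤ 1 := pow_le_one₀ (by norm_num) (by norm_num)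
  linarith

private theorem la12_q_succ (m : ℕ) : la12q (m + 1) = la12q m * (1 - (1 / 2 : ℝ) ^ (2 * m + 1)) := by
  rw [la12q, prod_range_succ, ← la12q]

private theorem la12_q_nonneg (m : ℕ) : 0 ≤ la12q m := prod_nonneg fun _ _ => la12_fac _

private theorem la12_q_anti : Antitone la12q := by
  refine antitone_nat_of_succ_le fun m => ?_
  rw [la12_q_succ]
  have h1 : 1 - (1 / 2 : ℝ) ^ (2 * m + 1) ≤ 1 := by
    have : 0 ≤ (1 / 2 : ℝ) ^ (2 * m + 1) := by positivity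
    linarith
  exact mul_le_of_le_one_right (la12_q_nonneg m) h1

private theorem la12_cinf2_le (m : ℕ) : Pool.Agent.Lib.MP_1a91b9_ntQ.Da.cinf2 ≤ la12q m := by
  have hs2 : Summable fun i : ℕ => (1 / 2 : ℝ) ^ (2 * i + 1) := by
    have h1 : Summable fun i : ℕ => (1 / 2 : ℝ) * (1 / 4) ^ i :=
      (summable_geometric_of_lt_one (by norm_num) (by norm_num)).mul_left _
    refine h1.congr fun i => ?_
    rw [pow_succ, pow_mul]
    norm_num
    ring
  have hsC : Multipliable fun i : ℕ => (1 - (1 / 2 : ℝ) ^ (2 * i + 1)) := by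
    have := Real.multipliable_one_add_of_summable
      (f := fun i : ℕ => -(1 / 2 : ℝ) ^ (2 * i + 1)) hs2.neg
    exact this.congr fun i => (sub_eq_add_neg _ _).symm
  have hC := hsC.hasProd.tendsto_prod_nat
  refine le_of_tendsto hC ?_
  filter_upwards [Filter.eventually_ge_atTop m] with n hn
  exact la12_q_anti hn

private theorem la12_rec (s : ℕ) :
    1 / 2 * la12p (s + 1) + 1 / 2 * (1 - (1 / 2 : ℝ) ^ (s + 1)) * la12p s ≤ la12p (s + 2) := by
  have h := nsy_rec s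
  have h' : (2 : ℝ) ^ (s + 1) * nsy (s + 1) + ((2 : ℝ) ^ (s + 1) - 1) * 2 ^ (s + 1) * nsy s ≤
      nsy (s + 2) := by
    have h2 : ((2 ^ (s + 1) - 1 : ℕ) : ℝ) = (2 : ℝ) ^ (s + 1) - 1 := by
      rw [Nat.cast_sub Nat.one_le_two_pow]
      push_cast
      rfl
    have h3 : ((2 ^ (s + 1) * nsy (s + 1) + (2 ^ (s + 1) - 1) * 2 ^ (s + 1) * nsy s : ℕ) : ℝ) ≤
        (nsy (s + 2) : ℝ) := by exact_mod_cast h
    rw [Nat.cast_add, Nat.cast_mul, Nat.cast_mul, Nat.cast_mul, h2] at h3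
    push_cast at h3
    exact h3
  have e1 : (s + 1) * (s + 1 + 1) / 2 = s * (s + 1) / 2 + (s + 1) := la12_T s
  have e2 : (s + 2) * (s + 2 + 1) / 2 = s * (s + 1) / 2 + (s + 1) + (s + 1 + 1) := by
    rw [← e1]
    exact la12_T (s + 1)
  have ha : (0 : ℝ) < 2 ^ (s * (s + 1) / 2) := by positivity
  have hb : (0 : ℝ) < 2 ^ (s + 1) := by positivity
  have eb : (1 / 2 : ℝ) ^ (s + 1) = 1 / 2 ^ (s + 1) := by rw [one_div_pow]
  have p0 : la12p s = (nsy s : ℝ) / 2 ^ (s * (s + 1) / 2) := rfl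
  have p1 : la12p (s + 1) = (nsy (s + 1) : ℝ) / (2 ^ (s * (s + 1) / 2) * 2 ^ (s + 1)) := by
    rw [la12p, e1, pow_add]
  have p2 : la12p (s + 2) = (nsy (s + 2) : ℝ) / (2 ^ (s * (s + 1) / 2) * 2 ^ (s + 1) *
      (2 ^ (s + 1) * 2)) := by
    rw [la12p, e2, pow_add, pow_add, pow_succ 2 (s + 1)]
  rw [p0, p1, p2, eb]
  generalize (2 : ℝ) ^ (s * (s + 1) / 2) = a at *
  generalize (2 : ℝ) ^ (s + 1) = b at *
  generalize (nsy s : ℝ) = N0 at *
  generalize (nsy (s + 1) : ℝ) = N1 at *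
  generalize (nsy (s + 2) : ℝ) = N2 at *
  rw [le_div_iff₀ (by positivity)]
  have : (1 / 2 * (N1 / (a * b)) + 1 / 2 * (1 - 1 / b) * (N0 / a)) * (a * b * (b * 2)) =
      b * N1 + (b - 1) * b * N0 := by
    field_simp
  rw [this]
  exact h'

private theorem la12_ind (m : ℕ) : la12q m ≤ la12p (2 * m) ∧ la12q (m + 1) ≤ la12p (2 * m + 1) := by
  induction m with
  | zero =>
    constructor
    · simp [la12q, la12p, nsy_zero]
    · simp [la12q, la12p, nsy_one]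
      norm_num
  | succ m ih =>
    obtain ⟨i0, i1⟩ := ih
    have r1 := la12_rec (2 * m)
    have f1 := la12_fac (2 * m + 1)
    have f2 := la12_fac (2 * m + 1 + 1)
    have q1 := la12_q_succ m
    have q2 := la12_q_succ (m + 1)
    have k1 : la12q (m + 1) ≤ la12p (2 * m + 2) := by
      have h1 : (1 - (1 / 2 : ℝ) ^ (2 * m + 1)) * la12q m ≤
          (1 - (1 / 2 : ℝ) ^ (2 * m + 1)) * la12p (2 * m) := mul_le_mul_of_nonneg_left i0 f1
      linarith
    have k2 : la12q (m + 1 + 1) ≤ la12p (2 * m + 3) := by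
      have r2 := la12_rec (2 * m + 1)
      have h1 : (1 - (1 / 2 : ℝ) ^ (2 * m + 1 + 1)) * la12q (m + 1) ≤
          (1 - (1 / 2 : ℝ) ^ (2 * m + 1 + 1)) * la12p (2 * m + 1) :=
        mul_le_mul_of_nonneg_left i1 f2
      have e : (1 / 2 : ℝ) ^ (2 * (m + 1) + 1) = 1 / 2 * (1 / 2 : ℝ) ^ (2 * m + 1 + 1) := by
        rw [show 2 * (m + 1) + 1 = (2 * m + 1 + 1) + 1 by ring, pow_succ']
      rw [e] at q2
      have e3 : la12p (2 * m + 1 + 2) = la12p (2 * m + 3) := rfl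
      have e4 : la12p (2 * m + 1 + 1) = la12p (2 * m + 2) := rfl
      rw [e3, e4] at r2
      rw [q2]
      linarith
    exact ⟨k1, k2⟩

theorem nsy_ge (s : ℕ) : Pool.Agent.Lib.MP_1a91b9_ntQ.Da.cinf2 * 2 ^ (s * (s + 1) / 2) ≤ (nsy s : ℝ) := by
  have key : Pool.Agent.Lib.MP_1a91b9_ntQ.Da.cinf2 ≤ la12p s := by
    rcases Nat.even_or_odd' s with ⟨m, rfl | rfl⟩
    · exact (la12_cinf2_le m).trans (la12_ind m).1
    · exact (la12_cinf2_le (m + 1)).trans (la12_ind m).2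
  rw [la12p, le_div_iff₀ (by positivity)] at key
  exact key

end

end Pool.Agent.Lib.MP_1a91b9_ntQT.LA
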