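import Pool.Agent.Lib.MP_1a91b9_ntQT.LA8
import Pool.Agent.Lib.MP_1a91b9_ntQT.LA10
import Pool.Agent.Lib.MP_1a91b9_ntQT.LA12

/-!
# Quartic stability, block LA, leaf LA13

The assembly. `exists_sys`: every Lagrangian is `lag P R` with `P` injective and `R` symmetric, `W = Fin s`: `Y` = the image of `L`
under `p ↦ p.2`, `P` = a basis of `Y` (columns), `R e f = ∑ j, P j e * u j` for any `u` with `(u, P f) ∈ L`; conversely `lag_ok`: these
spaces are Lagrangian. `card_both`: by `exists_aut` for `L1` all is transported (`Φ` maps `LL w` to `LL (Φ w)`, `Φ w = (u, 0)` since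
`w ∈ L1`) to `L1 = hor`, where `LamM_ok`, `exists_LamM`, `LamM_fibre`, `lamM_lag`, `card_PMP` and `nsy_ge` (`W = Fin s`) give it (for
`L3 = lag P R` which contains `(u, 0)`: `P^T u = 0`, since `(u, 0) = (u, P 0)`). `pencil`: `exists_wt` for the product,
sum over `Λ` with `card_opp`, `card_opp_pos`.
-/

set_option autoImplicit false
set_option linter.unusedSectionVars false

namespace Pool.Agent.Lib.MP_1a91b9_ntQT.LA

open Finset

noncomputable section

variable {κ : Type} [Fintype κ] [DecidableEq κ]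

/-- A left inverse of `P`. -/
private theorem LA13_left {W : Type} [Fintype W] [DecidableEq W] {P : κ → W → ZMod 2}
    (hP : ∀ z : W → ZMod 2, (∀ j, ∑ e, P j e * z e = 0) → z = 0) (y : W → ZMod 2) :
    ∃ u : κ → ZMod 2, ∀ e, ∑ j, P j e * u j = y e := by
  set f : (W → ZMod 2) →ₗ[ZMod 2] (κ → ZMod 2) := (Matrix.of P).mulVecLin with hf
  have hfa : ∀ z j, f z j = ∑ e, P j e * z e := fun z j => rfl
  have hk : LinearMap.ker f = ⊥ := by
    rw [LinearMap.ker_eq_bot']
    intro z hz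
    exact hP z fun j => by rw [← hfa, hz]; rfl
  obtain ⟨g, hg⟩ := f.exists_leftInverse_of_injective hk
  have hg' : ∀ z, g (f z) = z := fun z => by
    rw [← LinearMap.comp_apply, hg]; rfl
  set y' : (W → ZMod 2) →ₗ[ZMod 2] ZMod 2 :=
    { toFun := fun z => ∑ e, y e * z e
      map_add' := fun a b => by simp only [Pi.add_apply, mul_add, sum_add_distrib]
      map_smul' := fun c a => by
        simp only [Pi.smul_apply, smul_eq_mul, RingHom.id_apply, mul_sum]
        exact sum_congr rfl fun e _ => by ring } with hy'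
  refine ⟨fun j => y' (g (Pi.single j 1)), fun e => ?_⟩
  have h1 : ∑ j, P j e * y' (g (Pi.single j 1)) = y' (g (∑ j, P j e • Pi.single j 1)) := by
    rw [map_sum, map_sum]
    exact sum_congr rfl fun j _ => by rw [map_smul, map_smul, smul_eq_mul]
  have h2 : (∑ j, P j e • Pi.single j (1 : ZMod 2) : κ → ZMod 2) = f (Pi.single e 1) := by
    funext j
    rw [hfa, Finset.sum_apply, sum_eq_single j, sum_eq_single e]
    · simp
    · intro b _ hb
      simp [hb]
    · intro h
      exact absurd (mem_univ _) h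
    · intro b _ hb
      simp [hb.symm]
    · intro h
      exact absurd (mem_univ _) h
  rw [h1, h2, hg']
  show ∑ e', y e' * (Pi.single e 1 : W → ZMod 2) e' = y e
  rw [sum_eq_single e]
  · simp
  · intro b _ hb
    simp [hb]
  · intro h
    exact absurd (mem_univ _) h

private theorem LA13_two (x : ZMod 2) : x + x = 0 := by
  revert x; decide

private theorem LA13_eq_of_add {x y : ZMod 2} (h : x + y = 0) : x = y := by
  revert x y; decide

/-- The space is isotropic. -/
private theorem LA13_iso {W : Type} [Fintype W] [DecidableEq W] {P : κ → W → ZMod 2}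
    {R : Matrix W W (ZMod 2)} (hR : ∀ e f, R e f = R f e) {p q : V κ} (hp : p ∈ lag P R)
    (hq : q ∈ lag P R) : om p q = 0 := by
  obtain ⟨z, h1, h2⟩ := mem_lag.1 hp
  obtain ⟨z', h1', h2'⟩ := mem_lag.1 hq
  have hA : ∑ j, p.1 j * q.2 j = ∑ e, z' e * ∑ f, R e f * z f := by
    have : ∑ j, p.1 j * q.2 j = ∑ e, z' e * ∑ j, P j e * p.1 j := by
      simp only [h1', mul_sum]
      rw [sum_comm]
      exact sum_congr rfl fun e _ => sum_congr rfl fun j _ => by ring
    rw [this]
    refine sum_congr rfl fun e _ => ?_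
    rw [LA13_eq_of_add (h2 e)]
  have hB : ∑ j, q.1 j * p.2 j = ∑ e, z e * ∑ f, R e f * z' f := by
    have : ∑ j, q.1 j * p.2 j = ∑ e, z e * ∑ j, P j e * q.1 j := by
      simp only [h1, mul_sum]
      rw [sum_comm]
      exact sum_congr rfl fun e _ => sum_congr rfl fun j _ => by ring
    rw [this]
    refine sum_congr rfl fun e _ => ?_
    rw [LA13_eq_of_add (h2' e)]
  have hC : ∑ e, z e * ∑ f, R e f * z' f = ∑ e, z' e * ∑ f, R e f * z f := by
    simp only [mul_sum]
    rw [sum_comm]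
    exact sum_congr rfl fun e _ => sum_congr rfl fun f _ => by rw [hR e f]; ring
  unfold om
  rw [sum_add_distrib, hA, hB, hC]
  exact LA13_two _

theorem lag_ok {W : Type} [Fintype W] [DecidableEq W] {P : κ → W → ZMod 2} {R : Matrix W W (ZMod 2)}
    (hP : ∀ z : W → ZMod 2, (∀ j, ∑ e, P j e * z e = 0) → z = 0) (hR : ∀ e f, R e f = R f e) :
    Lg (lag P R) := by
  refine Lg.of_iso (fun p hp => mem_perp.2 fun q hq => LA13_iso hR hp hq) ?_
  -- the surjection `(u, z) ↦ P^T u + R z`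
  set F : ((κ → ZMod 2) × (W → ZMod 2)) →ₗ[ZMod 2] (W → ZMod 2) :=
    { toFun := fun x => fun e => ∑ j, P j e * x.1 j + ∑ f, R e f * x.2 f
      map_add' := fun a b => by
        funext e
        simp only [Prod.fst_add, Prod.snd_add, Pi.add_apply, mul_add, sum_add_distrib]
        ring
      map_smul' := fun c a => by
        funext e
        simp only [Prod.smul_fst, Prod.smul_snd, Pi.smul_apply, smul_eq_mul, RingHom.id_apply,
          mul_add, mul_sum]
        congr 1
        · exact sum_congr rfl fun j _ => by ring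
        · exact sum_congr rfl fun j _ => by ring } with hF
  have hFa : ∀ x e, F x e = ∑ j, P j e * x.1 j + ∑ f, R e f * x.2 f := fun x e => rfl
  have hsurj : LinearMap.range F = ⊤ := by
    rw [LinearMap.range_eq_top]
    intro y
    obtain ⟨u, hu⟩ := LA13_left hP y
    refine ⟨(u, 0), ?_⟩
    funext e
    rw [hFa, hu e]
    simp
  have hdim := F.finrank_range_add_finrank_ker
  rw [hsurj, finrank_top, Module.finrank_fintype_fun_eq_card, Module.finrank_prod,
    Module.finrank_fintype_fun_eq_card, Module.finrank_fintype_fun_eq_card] at hdim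
  -- the injection `(u, z) ↦ (u, P z)`
  set G : ((κ → ZMod 2) × (W → ZMod 2)) →ₗ[ZMod 2] V κ :=
    { toFun := fun x => (x.1, fun j => ∑ e, P j e * x.2 e)
      map_add' := fun a b => by
        refine Prod.ext rfl ?_
        funext j
        simp only [Prod.snd_add, Pi.add_apply, mul_add, sum_add_distrib]
      map_smul' := fun c a => by
        refine Prod.ext rfl ?_
        funext j
        simp only [Prod.smul_snd, Pi.smul_apply, smul_eq_mul, RingHom.id_apply, mul_sum]
        exact sum_congr rfl fun e _ => by ring } with hG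
  have hGinj : Function.Injective G := by
    rw [← LinearMap.ker_eq_bot, LinearMap.ker_eq_bot']
    intro x hx
    have h1 : x.1 = 0 := congrArg Prod.fst hx
    have h2 : ∀ j, ∑ e, P j e * x.2 e = 0 := fun j => congrFun (congrArg Prod.snd hx) j
    exact Prod.ext h1 (hP x.2 h2)
  have hmap : lag P R = (LinearMap.ker F).map G := by
    ext p
    rw [mem_lag, Submodule.mem_map]
    constructor
    · rintro ⟨z, h1, h2⟩
      refine ⟨(p.1, z), ?_, ?_⟩
      · rw [LinearMap.mem_ker]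
        funext e
        exact h2 e
      · refine Prod.ext rfl ?_
        funext j
        exact (h1 j).symm
    · rintro ⟨x, hx, rfl⟩
      refine ⟨x.2, fun j => rfl, fun e => ?_⟩
      rw [LinearMap.mem_ker] at hx
      exact congrFun hx e
  rw [hmap, ← (Submodule.equivMapOfInjective G hGinj _).finrank_eq]
  omega

theorem exists_sys {L : Submodule (ZMod 2) (V κ)} (hL : Lg L) : ∃ (s : ℕ) (P : κ → Fin s → ZMod 2)
    (R : Matrix (Fin s) (Fin s) (ZMod 2)),
    (∀ z : Fin s → ZMod 2, (∀ j, ∑ e, P j e * z e = 0) → z = 0) ∧ (∀ e f, R e f = R f e) ∧ L = lag P R := by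
  set Y : Submodule (ZMod 2) (κ → ZMod 2) := L.map (LinearMap.snd (ZMod 2) _ _) with hY
  set b := Module.finBasis (ZMod 2) Y with hb
  have hu : ∀ e, ∃ p : V κ, p ∈ L ∧ p.2 = (b e : κ → ZMod 2) := fun e => by
    obtain ⟨p, hp, hp2⟩ := Submodule.mem_map.1 (b e).2
    exact ⟨p, hp, hp2⟩
  choose p hpL hp2 using hu
  have hiso : ∀ x ∈ L, ∀ y ∈ L, om x y = 0 := fun x hx y hy => by
    have : x ∈ perp L := by rw [show perp L = L from hL]; exact hx
    exact mem_perp.1 this y hy
  set P : κ → Fin (Module.finrank (ZMod 2) Y) → ZMod 2 := fun j e => (b e : κ → ZMod 2) j with hPd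
  set R : Matrix (Fin (Module.finrank (ZMod 2) Y)) (Fin (Module.finrank (ZMod 2) Y)) (ZMod 2) :=
    fun e f => ∑ j, P j e * (p f).1 j with hRd
  have hP : ∀ z : Fin (Module.finrank (ZMod 2) Y) → ZMod 2, (∀ j, ∑ e, P j e * z e = 0) → z = 0 := by
    intro z hz
    have h1 : ∑ e, z e • b e = 0 := by
      apply Subtype.ext
      rw [AddSubmonoidClass.coe_finsetSum]
      funext j
      rw [Finset.sum_apply]
      simp only [SetLike.val_smul, Pi.smul_apply, smul_eq_mul]
      refine Eq.trans (sum_congr rfl fun e _ => mul_comm _ _) (hz j)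
    funext e
    exact (Fintype.linearIndependent_iff.1 b.linearIndependent) z h1 e
  have hR : ∀ e f, R e f = R f e := by
    intro e f
    have h := hiso _ (hpL e) _ (hpL f)
    unfold om at h
    rw [sum_add_distrib, hp2, hp2] at h
    have h' := LA13_eq_of_add h
    show ∑ j, P j e * (p f).1 j = ∑ j, P j f * (p e).1 j
    calc ∑ j, P j e * (p f).1 j = ∑ j, (p f).1 j * (b e : κ → ZMod 2) j :=
          sum_congr rfl fun j _ => mul_comm _ _
      _ = ∑ j, (p e).1 j * (b f : κ → ZMod 2) j := h'.symm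
      _ = ∑ j, P j f * (p e).1 j := sum_congr rfl fun j _ => mul_comm _ _
  have hle : L ≤ lag P R := by
    intro x hx
    have hxY : x.2 ∈ Y := Submodule.mem_map.2 ⟨x, hx, rfl⟩
    set z := b.repr ⟨x.2, hxY⟩ with hz
    have h1 : ∀ j, x.2 j = ∑ e, P j e * z e := by
      intro j
      have h2 := b.sum_repr ⟨x.2, hxY⟩
      have h3 := congrArg (fun y : Y => (y : κ → ZMod 2) j) h2
      simp only [AddSubmonoidClass.coe_finsetSum, Finset.sum_apply, SetLike.val_smul,
        Pi.smul_apply, smul_eq_mul] at h3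
      rw [← h3]
      exact sum_congr rfl fun e _ => mul_comm _ _
    refine mem_lag.2 ⟨z, h1, fun e => ?_⟩
    have h4 := hiso _ hx _ (hpL e)
    unfold om at h4
    rw [sum_add_distrib, hp2] at h4
    have h5 : ∑ j, x.1 j * (b e : κ → ZMod 2) j = ∑ j, P j e * x.1 j :=
      sum_congr rfl fun j _ => mul_comm _ _
    have h6 : ∑ j, (p e).1 j * x.2 j = ∑ f, R e f * z f := by
      simp only [h1, mul_sum]
      rw [sum_comm]
      refine sum_congr rfl fun f _ => ?_
      rw [hR e f]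
      show _ = (∑ j, P j f * (p e).1 j) * z f
      rw [sum_mul]
      exact sum_congr rfl fun j _ => by ring
    rw [← h5, ← h6]
    exact h4
  refine ⟨_, P, R, hP, hR, le_antisymm hle ?_⟩
  have h7 := perp_anti hle
  rw [show perp L = L from hL, show perp (lag P R) = lag P R from lag_ok hP hR] at h7
  exact h7

open Classical in
/-- The sums over the opposite spaces as sums over the symmetric matrices. -/
private theorem LA13_sum {u : κ → ZMod 2} {G : ℕ}
    (hfib : ∀ M : Matrix κ κ (ZMod 2), M.transpose = M →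
      (univ.filter fun M' : Matrix κ κ (ZMod 2) => M'.transpose = M' ∧ LamM u M' = LamM u M).card = G)
    (L1 : LL ((u, 0) : V κ)) (h1 : L1.1 = hor κ) (g : Submodule (ZMod 2) (V κ) → ℝ) :
    (∑ Λ : LL ((u, 0) : V κ), TT Λ L1 * g Λ.1) * (G : ℝ) =
      ∑ M ∈ univ.filter (fun M : Matrix κ κ (ZMod 2) => M.transpose = M), g (LamM u M) := by
  have hR : ∀ M ∈ univ.filter (fun M : Matrix κ κ (ZMod 2) => M.transpose = M), g (LamM u M) =
      ∑ Λ : LL ((u, 0) : V κ), if LamM u M = Λ.1 then g Λ.1 else 0 := by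
    intro M hM
    have hM' : M.transpose = M := (mem_filter.1 hM).2
    have hok := LamM_ok u hM'
    rw [sum_eq_single (⟨LamM u M, hok.1, hok.2.1⟩ : LL ((u, 0) : V κ))]
    · rw [if_pos rfl]
    · intro Λ _ hne
      rw [if_neg]
      intro h
      exact hne (Subtype.ext h.symm)
    · intro h
      exact absurd (mem_univ _) h
  rw [sum_congr rfl hR, sum_comm, sum_mul]
  refine sum_congr rfl fun Λ _ => ?_
  rw [← sum_filter, sum_const, filter_filter]
  unfold TT
  rw [h1]
  by_cases h : Λ.1 ⊓ hor κ = sp (u, 0)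
  · rw [if_pos h]
    obtain ⟨M0, hM0, hM0'⟩ := exists_LamM Λ h
    have hc := hfib M0 hM0
    rw [hM0'] at hc
    rw [hc, nsmul_eq_mul]
    ring
  · rw [if_neg h]
    have hc : (univ.filter fun M' : Matrix κ κ (ZMod 2) => M'.transpose = M' ∧ LamM u M' = Λ.1) = ∅ := by
      rw [filter_eq_empty_iff]
      rintro M _ ⟨hM, hM'⟩
      apply h
      rw [← hM']
      exact (LamM_ok u hM).2.2
    rw [hc, card_empty, zero_smul]
    ring

open Classical in
/-- The case of the horizontal space. -/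
private theorem LA13_hor {u : κ → ZMod 2} (L1 L3 : LL ((u, 0) : V κ)) (h1 : L1.1 = hor κ) :
    Pool.Agent.Lib.MP_1a91b9_ntQ.Da.cinf2 *
      ∑ Λ : LL ((u, 0) : V κ), TT Λ L1 ≤ ∑ Λ : LL ((u, 0) : V κ), TT Λ L1 * TT Λ L3 := by
  obtain ⟨s, P, R, hP, hR, h3⟩ := exists_sys L3.2.1
  obtain ⟨G, hG, hfib⟩ := LamM_fibre u
  have hu : ∀ e, ∑ j, P j e * u j = 0 := by
    have h4 : ((u, 0) : V κ) ∈ lag P R := h3 ▸ L3.2.2
    obtain ⟨z, hz1, hz2⟩ := mem_lag.1 h4
    have hz : z = 0 := hP z fun j => (hz1 j).symm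
    intro e
    have h5 := hz2 e
    rw [hz] at h5
    simpa using h5
  have hRt : R.transpose = R := by
    ext e f
    exact hR f e
  have e1 := LA13_sum hfib L1 h1 (fun _ => 1)
  have e2 := LA13_sum hfib L1 h1 (fun Λ => if Λ ⊓ L3.1 = sp (u, 0) then 1 else 0)
  have e3 := card_PMP (κ := κ) hP hRt
  rw [card_sy] at e3
  simp only [mul_one, sum_const, nsmul_eq_mul] at e1
  rw [← sum_filter, sum_const, filter_filter, nsmul_eq_mul, mul_one] at e2
  have e4 : (univ.filter fun M : Matrix κ κ (ZMod 2) => M.transpose = M ∧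
      LamM u M ⊓ L3.1 = sp (u, 0)) = (univ.filter fun M : Matrix κ κ (ZMod 2) => M.transpose = M ∧
        ((Matrix.of P).transpose * M * Matrix.of P + R : Matrix (Fin s) (Fin s) (ZMod 2)).det ≠ 0) := by
    refine filter_congr fun M _ => ?_
    refine and_congr_right fun hM => ?_
    rw [h3]
    exact lamM_lag hP hu hM
  rw [e4] at e2
  have e5 : (((univ.filter fun M : Matrix κ κ (ZMod 2) => M.transpose = M ∧
        ((Matrix.of P).transpose * M * Matrix.of P + R : Matrix (Fin s) (Fin s) (ZMod 2)).det ≠ 0).card : ℕ) : ℝ)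
      * 2 ^ (s * (s + 1) / 2) = (((univ.filter fun M : Matrix κ κ (ZMod 2) => M.transpose = M).card : ℕ) : ℝ) *
        (nsy s : ℝ) := by
    have := congrArg (Nat.cast : ℕ → ℝ) e3
    push_cast at this
    exact this
  rw [← e2, ← e1] at e5
  have e6 := nsy_ge s
  have hGpos : (0 : ℝ) < (G : ℝ) := by exact_mod_cast hG
  have hN : 0 ≤ ∑ Λ : LL ((u, 0) : V κ), TT Λ L1 := sum_nonneg fun Λ _ => by
    unfold TT
    split_ifs <;> norm_num
  have hT : ∀ Λ : LL ((u, 0) : V κ), TT Λ L3 = if Λ.1 ⊓ L3.1 = sp (u, 0) then 1 else 0 := fun _ => rfl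
  simp only [hT]
  set N := ∑ Λ : LL ((u, 0) : V κ), TT Λ L1 with hNd
  set T := ∑ Λ : LL ((u, 0) : V κ), TT Λ L1 * (if Λ.1 ⊓ L3.1 = sp (u, 0) then 1 else 0) with hTd
  have h2 : (0 : ℝ) < 2 ^ (s * (s + 1) / 2) := by positivity
  have h7 : Pool.Agent.Lib.MP_1a91b9_ntQ.Da.cinf2 * N * ((G : ℝ) * 2 ^ (s * (s + 1) / 2)) ≤
      T * ((G : ℝ) * 2 ^ (s * (s + 1) / 2)) := by
    calc Pool.Agent.Lib.MP_1a91b9_ntQ.Da.cinf2 * N * ((G : ℝ) * 2 ^ (s * (s + 1) / 2))
        = (N * G) * (Pool.Agent.Lib.MP_1a91b9_ntQ.Da.cinf2 * 2 ^ (s * (s + 1) / 2)) := by ring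
      _ ≤ (N * G) * (nsy s : ℝ) := mul_le_mul_of_nonneg_left e6 (mul_nonneg hN hGpos.le)
      _ = T * G * 2 ^ (s * (s + 1) / 2) := e5.symm
      _ = T * ((G : ℝ) * 2 ^ (s * (s + 1) / 2)) := by ring
  exact le_of_mul_le_mul_right h7 (mul_pos hGpos h2)

/-- Transport of a Lagrangian space. -/
private theorem LA13_map {Φ : V κ ≃ₗ[ZMod 2] V κ} (hΦ : ∀ p q, om (Φ p) (Φ q) = om p q)
    {L : Submodule (ZMod 2) (V κ)} (hL : Lg L) : Lg (L.map (Φ : V κ →ₗ[ZMod 2] V κ)) := by
  unfold Lg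
  ext p
  rw [mem_perp, Submodule.mem_map_equiv]
  have h1 : Φ.symm p ∈ L ↔ Φ.symm p ∈ perp L := by rw [show perp L = L from hL]
  rw [h1, mem_perp]
  constructor
  · intro h q hq
    have h2 := h (Φ q) (Submodule.mem_map_of_mem hq)
    rw [← hΦ, LinearEquiv.apply_symm_apply]
    exact h2
  · intro h q hq
    rw [Submodule.mem_map_equiv] at hq
    have h2 := h _ hq
    rw [← hΦ, LinearEquiv.apply_symm_apply, LinearEquiv.apply_symm_apply] at h2
    exact h2

/-- The transport of the Lagrangian spaces. -/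
private def LA13_equiv {Φ : V κ ≃ₗ[ZMod 2] V κ} (hΦ : ∀ p q, om (Φ p) (Φ q) = om p q) (w : V κ) :
    LL w ≃ LL (Φ w) where
  toFun L := ⟨L.1.map (Φ : V κ →ₗ[ZMod 2] V κ), LA13_map hΦ L.2.1, Submodule.mem_map_of_mem L.2.2⟩
  invFun L := ⟨L.1.map (Φ.symm : V κ →ₗ[ZMod 2] V κ),
    LA13_map (Φ := Φ.symm) (fun p q => by
      rw [← hΦ, LinearEquiv.apply_symm_apply, LinearEquiv.apply_symm_apply]) L.2.1, by
      rw [Submodule.mem_map_equiv]
      exact L.2.2⟩
  left_inv L := by
    apply Subtype.ext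
    ext x
    rw [Submodule.mem_map_equiv, Submodule.mem_map_equiv]
    simp
  right_inv L := by
    apply Subtype.ext
    ext x
    rw [Submodule.mem_map_equiv, Submodule.mem_map_equiv]
    simp

private theorem LA13_equiv_val {Φ : V κ ≃ₗ[ZMod 2] V κ} (hΦ : ∀ p q, om (Φ p) (Φ q) = om p q)
    (w : V κ) (L : LL w) : (LA13_equiv hΦ w L).1 = L.1.map (Φ : V κ →ₗ[ZMod 2] V κ) := rfl

private theorem LA13_TT {Φ : V κ ≃ₗ[ZMod 2] V κ} (hΦ : ∀ p q, om (Φ p) (Φ q) = om p q)
    (w : V κ) (Λ L : LL w) : TT (LA13_equiv hΦ w Λ) (LA13_equiv hΦ w L) = TT Λ L := by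
  unfold TT
  rw [LA13_equiv_val, LA13_equiv_val]
  have h1 : Λ.1.map (Φ : V κ →ₗ[ZMod 2] V κ) ⊓ L.1.map (Φ : V κ →ₗ[ZMod 2] V κ) = sp (Φ w) ↔
      Λ.1 ⊓ L.1 = sp w := by
    have h2 : sp (Φ w) = (sp w).map (Φ : V κ →ₗ[ZMod 2] V κ) := by
      unfold sp
      rw [Submodule.map_span, Set.image_singleton]
      rfl
    rw [h2, ← Submodule.map_inf _ Φ.injective]
    exact (Submodule.map_injective_of_injective (f := (Φ : V κ →ₗ[ZMod 2] V κ)) Φ.injective).eq_iff
  by_cases h : Λ.1 ⊓ L.1 = sp w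
  · rw [if_pos h, if_pos (h1.2 h)]
  · rw [if_neg h, if_neg (fun h3 => h (h1.1 h3))]

/-- The case of the horizontal space, with a vector in it. -/
private theorem LA13_hor' {w : V κ} (hw : w.2 = 0) (L1 L3 : LL w) (h1 : L1.1 = hor κ) :
    Pool.Agent.Lib.MP_1a91b9_ntQ.Da.cinf2 * ∑ Λ : LL w, TT Λ L1 ≤ ∑ Λ : LL w, TT Λ L1 * TT Λ L3 := by
  obtain ⟨u, v⟩ := w
  obtain rfl : v = 0 := hw
  exact LA13_hor L1 L3 h1

theorem card_both {w : V κ} (L1 L3 : LL w) : Pool.Agent.Lib.MP_1a91b9_ntQ.Da.cinf2 *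
    ∑ Λ : LL w, TT Λ L1 ≤ ∑ Λ : LL w, TT Λ L1 * TT Λ L3 := by
  obtain ⟨Φ, hΦ, hL⟩ := exists_aut L1.2.1
  have hw : (Φ w).2 = 0 := by
    have h1 : Φ w ∈ hor κ := by
      rw [← hL]
      exact Submodule.mem_map_of_mem L1.2.2
    exact h1
  have h := LA13_hor' hw (LA13_equiv hΦ w L1) (LA13_equiv hΦ w L3) hL
  rw [← Equiv.sum_comp (LA13_equiv hΦ w), ← Equiv.sum_comp (LA13_equiv hΦ w)] at h
  simp only [LA13_TT] at h
  exact h

/-- **The pencil theorem.** -/
theorem pencil {w : V κ} (L1 L3 : LL w) : ∃ c : LL w → ℝ,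
    (∀ Λ : LL w, TT Λ L1 * TT Λ L3 = ∑ L : LL w, c L * TT Λ L) ∧
      Pool.Agent.Lib.MP_1a91b9_ntQ.Da.cinf2 ≤ ∑ L : LL w, c L := by
  obtain ⟨c, hc⟩ := exists_wt (fun Λ : LL w => TT Λ L1 * TT Λ L3)
  refine ⟨c, hc, ?_⟩
  have h1 := card_both L1 L3
  have h2 : ∑ Λ : LL w, TT Λ L1 * TT Λ L3 = (∑ L : LL w, c L) * ∑ Λ : LL w, TT Λ L1 := by
    rw [sum_congr rfl fun Λ _ => hc Λ, sum_comm, sum_mul]
    refine sum_congr rfl fun L _ => ?_
    rw [← mul_sum, card_opp L L1]
  rw [h2] at h1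
  exact le_of_mul_le_mul_right h1 (card_opp_pos L1)

end

end Pool.Agent.Lib.MP_1a91b9_ntQT.LA
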