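import Pool.Agent.Lib.MP_1a91b9_ntQT.LA1

/-!
# Quartic stability, block LA, leaf LA2

The number of the vectors `v` in `perp U` outside of `U` with `Λ ⊓ (U ⊔ sp v) = sp w`. Put
`A = (Λ ⊓ perp U) ⊔ U`. For `Λ ⊓ U = sp w`: (1) for `v ∈ perp U`, `v ∉ U`: `Λ ⊓ (U ⊔ sp v) = sp w` iff `v ∉ A` (a vector of
`Λ ⊓ (U ⊔ sp v)` outside of `U` is `u + v` with `u ∈ U`, it is in `perp U` since U is isotropic; `sp w ≤ U`). (2)
`finrank A = n`: `finrank (Λ ⊓ perp U) = finrank (perp (Λ ⊔ U)) = 2 n - (n + finrank U - finrank (Λ ⊓ U))` and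
`(Λ ⊓ perp U) ⊓ U = Λ ⊓ U`; so `finrank A = (n - finrank U + r) + finrank U - r = n`. `A ≤ perp U`. So the number is
`2 ^ (2 n - finrank U) - 2 ^ n`. The second statement: if `Λ ⊓ (U ⊔ sp v) = sp w` then `Λ ⊓ U ≤ sp w`, and `w` is in both.
-/

set_option autoImplicit false
set_option linter.unusedSectionVars false

namespace Pool.Agent.Lib.MP_1a91b9_ntQT.LA

open Finset

noncomputable section

variable {κ : Type} [Fintype κ] [DecidableEq κ]

private theorem LA2_sp_le {w : V κ} {W : Submodule (ZMod 2) (V κ)} (h : w ∈ W) : sp w ≤ W := by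
  unfold sp
  rw [Submodule.span_singleton_le_iff_mem]
  exact h

private theorem LA2_add_self (v : V κ) : v + v = 0 := by
  have h : ∀ x : ZMod 2, x + x = 0 := by decide
  exact Prod.ext (funext fun j => h _) (funext fun j => h _)

open Classical in
private theorem LA2_card (W : Submodule (ZMod 2) (V κ)) :
    (univ.filter fun v : V κ => v ∈ W).card = 2 ^ Module.finrank (ZMod 2) W := by
  rw [← natCard_eq]
  exact (Nat.subtype_card _ fun x => by rw [mem_filter]; exact ⟨fun h => h.2, fun h => ⟨mem_univ _, h⟩⟩).symm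

open Classical in
theorem card_ext {w : V κ} (Λ : LL w) {U : Submodule (ZMod 2) (V κ)} (hU : Iso U) (hw : w ∈ U)
    (h : Λ.1 ⊓ U = sp w) :
    (((univ.filter fun v : V κ => (v ∈ perp U ∧ v ∉ U) ∧ Λ.1 ⊓ (U ⊔ sp v) = sp w).card : ℕ) : ℝ) =
      2 ^ (2 * Fintype.card κ - Module.finrank (ZMod 2) U) - 2 ^ Fintype.card κ := by
  have hL : perp Λ.1 = Λ.1 := Λ.2.1
  have hwL : w ∈ Λ.1 := Λ.2.2
  obtain ⟨A, hA⟩ : ∃ A : Submodule (ZMod 2) (V κ), A = (Λ.1 ⊓ perp U) ⊔ U := ⟨_, rfl⟩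
  have hUA : U ≤ A := hA ▸ le_sup_right
  have hAp : A ≤ perp U := hA ▸ sup_le inf_le_right hU
  have hiff : ∀ v : V κ, ((v ∈ perp U ∧ v ∉ U) ∧ Λ.1 ⊓ (U ⊔ sp v) = sp w) ↔ v ∈ perp U ∧ v ∉ A := by
    intro v
    constructor
    · rintro ⟨⟨hv, hvU⟩, he⟩
      refine ⟨hv, fun hvA => hvU ?_⟩
      rw [hA] at hvA
      obtain ⟨l, hl, u, hu, rfl⟩ := Submodule.mem_sup.1 hvA
      have h1 : l ∈ Λ.1 ⊓ (U ⊔ sp (l + u)) := by
        refine ⟨hl.1, mem_sup_sp.2 (Or.inr ?_)⟩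
        rw [← add_assoc, LA2_add_self, zero_add]
        exact hu
      rw [he] at h1
      exact U.add_mem (LA2_sp_le hw h1) hu
    · rintro ⟨hv, hvA⟩
      refine ⟨⟨hv, fun hvU => hvA (hUA hvU)⟩, le_antisymm ?_ ?_⟩
      · rintro x ⟨hxL, hx⟩
        rcases mem_sup_sp.1 hx with hxU | hxU
        · rw [← h]
          exact ⟨hxL, hxU⟩
        · exfalso
          apply hvA
          have hxp : x ∈ perp U := by
            have h2 : x = (x + v) + v := by rw [add_assoc, LA2_add_self, add_zero]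
            rw [h2]
            exact (perp U).add_mem (hU hxU) hv
          have h3 : v = x + (x + v) := by rw [← add_assoc, LA2_add_self, zero_add]
          rw [hA, h3]
          exact Submodule.add_mem_sup ⟨hxL, hxp⟩ hxU
      · exact le_inf (LA2_sp_le hwL) ((LA2_sp_le hw).trans le_sup_left)
  have hf : Module.finrank (ZMod 2) A = Fintype.card κ := by
    have e1 := finrank_perp (Λ.1 ⊔ U)
    rw [perp_sup, hL] at e1
    have e2 := Submodule.finrank_sup_add_finrank_inf_eq Λ.1 U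
    have e3 := Submodule.finrank_sup_add_finrank_inf_eq (Λ.1 ⊓ perp U) U
    have e4 : Λ.1 ⊓ perp U ⊓ U = Λ.1 ⊓ U := by rw [inf_assoc, inf_eq_right.2 hU]
    have e5 := Λ.2.1.finrank
    rw [e4, ← hA] at e3
    omega
  have hset : (univ.filter fun v : V κ => (v ∈ perp U ∧ v ∉ U) ∧ Λ.1 ⊓ (U ⊔ sp v) = sp w) =
      (univ.filter fun v : V κ => v ∈ perp U) \ (univ.filter fun v : V κ => v ∈ A) := by
    ext v
    rw [mem_filter, mem_sdiff, mem_filter, mem_filter, hiff v]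
    constructor
    · rintro ⟨h1, h2, h3⟩
      exact ⟨⟨h1, h2⟩, fun h4 => h3 h4.2⟩
    · rintro ⟨⟨h1, h2⟩, h3⟩
      exact ⟨h1, h2, fun h4 => h3 ⟨h1, h4⟩⟩
  have hsub : (univ.filter fun v : V κ => v ∈ A) ⊆ univ.filter fun v : V κ => v ∈ perp U := by
    intro v hv
    rw [mem_filter] at hv ⊢
    exact ⟨hv.1, hAp hv.2⟩
  have hp : Module.finrank (ZMod 2) (perp U) = 2 * Fintype.card κ - Module.finrank (ZMod 2) U := by
    have := finrank_perp U
    omega
  have hle := card_le_card hsub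
  have hc := card_sdiff_add_card_eq_card hsub
  rw [LA2_card, LA2_card, hf, hp] at hc
  rw [hset]
  have hc2 : ((((univ.filter fun v : V κ => v ∈ perp U) \ (univ.filter fun v : V κ => v ∈ A)).card : ℕ) : ℝ) +
      2 ^ Fintype.card κ = 2 ^ (2 * Fintype.card κ - Module.finrank (ZMod 2) U) := by
    exact_mod_cast hc
  linarith

theorem inf_of_ext {w : V κ} (Λ : LL w) {U : Submodule (ZMod 2) (V κ)} (hw : w ∈ U) {v : V κ}
    (h : Λ.1 ⊓ (U ⊔ sp v) = sp w) : Λ.1 ⊓ U = sp w := by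
  refine le_antisymm ?_ (le_inf (LA2_sp_le Λ.2.2) (LA2_sp_le hw))
  rw [← h]
  exact inf_le_inf_left _ le_sup_left

end

end Pool.Agent.Lib.MP_1a91b9_ntQT.LA
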