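import Pool.Agent.Lib.MP_1a91b9_ntQT.LA2

/-!
# Quartic stability, block LA, leaf LA3

Part (a) of the page. Downward induction on `finrank U` (strong induction on `n - finrank U`). If `finrank U = n` then `U` is
Lagrangian (`Lg.of_iso`), an element of `LL w`. Otherwise by `card_ext` and `inf_of_ext`, exchanging the sums,
`∑ v ∈ perp U \ U, HA f (sp w) (U ⊔ sp v) = (2 ^ (2 n - finrank U) - 2 ^ n) * HA f (sp w) U`, and the left hand side is zero
by induction (`Iso.sup_sp`, `finrank_sup_sp`); the number is not zero.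
-/

set_option autoImplicit false
set_option linter.unusedSectionVars false

namespace Pool.Agent.Lib.MP_1a91b9_ntQT.LA

open Finset

noncomputable section

variable {κ : Type} [Fintype κ] [DecidableEq κ]

theorem hA_zero {w : V κ} {f : LL w → ℝ} (h : ∀ L : LL w, HA f (sp w) L.1 = 0)
    (U : Submodule (ZMod 2) (V κ)) (hU : Iso U) (hw : w ∈ U) : HA f (sp w) U = 0 := by
  classical
  obtain ⟨k, hk⟩ : ∃ k, Fintype.card κ - Module.finrank (ZMod 2) U = k := ⟨_, rfl⟩
  induction k generalizing U with
  | zero =>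
    have h1 := Iso.finrank_le hU
    exact h ⟨U, Lg.of_iso hU (by omega), hw⟩
  | succ k ih =>
    have h1 : ∑ v ∈ univ.filter (fun v : V κ => v ∈ perp U ∧ v ∉ U),
        HA f (sp w) (U ⊔ sp v) = 0 := by
      refine sum_eq_zero fun v hv => ?_
      rw [mem_filter] at hv
      refine ih (U ⊔ sp v) (Iso.sup_sp hU hv.2.1) (Submodule.mem_sup_left hw) ?_
      rw [finrank_sup_sp hv.2.2]
      omega
    have h2 : ∑ v ∈ univ.filter (fun v : V κ => v ∈ perp U ∧ v ∉ U), HA f (sp w) (U ⊔ sp v) =
        (2 ^ (2 * Fintype.card κ - Module.finrank (ZMod 2) U) - 2 ^ Fintype.card κ) *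
          HA f (sp w) U := by
      unfold HA
      rw [sum_comm, mul_sum]
      refine sum_congr rfl fun Λ _ => ?_
      by_cases hΛ : Λ.1 ⊓ U = sp w
      · rw [if_pos hΛ, ← card_ext Λ hU hw hΛ, ← sum_filter, filter_filter, sum_const,
          nsmul_eq_mul]
      · rw [if_neg hΛ, mul_zero]
        exact sum_eq_zero fun v _ => if_neg fun h3 => hΛ (inf_of_ext Λ hw h3)
    have h4 : (2 ^ (2 * Fintype.card κ - Module.finrank (ZMod 2) U) -
        2 ^ Fintype.card κ : ℝ) ≠ 0 := by
      have h5 : (2 : ℝ) ^ Fintype.card κ <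
          2 ^ (2 * Fintype.card κ - Module.finrank (ZMod 2) U) :=
        pow_lt_pow_right₀ (by norm_num) (by omega)
      exact (sub_pos.2 h5).ne'
    rw [h1] at h2
    rcases mul_eq_zero.1 h2.symm with h3 | h3
    · exact absurd h3 h4
    · exact h3

end

end Pool.Agent.Lib.MP_1a91b9_ntQT.LA
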