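import Pool.Agent.Lib.MP_1a91b9_ntQT.LA1

/-!
# Quartic stability, block LA, leaf LA4

The general Moebius lemma, part (b) of the page, induction on `k`, for all `A`, `T`. `k = 0`: `A = T`, and `Λ ⊓ T = T` iff `T ≤ Λ`.
`k + 1`: there are `T'` with `A ≤ T' ≤ T`, `finrank T' = finrank A + k` and `v ∈ T`, `v ∉ T'`, `T = T' ⊔ sp v`. For every `Λ`:
`Λ ⊓ T' = A` iff `Λ ⊓ T = A` or `Λ ⊓ T` is one of the spaces `A ⊔ sp (v + t)`, `t ∈ T'` (if `Λ ⊓ T' = A` and `Λ ⊓ T ≠ A` then
`Λ ⊓ T` contains a vector `v + t`, and it is `A ⊔ sp (v + t)`); the cases exclude each other. `A ⊔ sp (v + t) =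
A ⊔ sp (v + t')` iff `t + t' ∈ A`, so there are `2 ^ k` different spaces `B` of this form (the image of `T'`, all the fibres have
`#A` elements), each with `finrank B = finrank A + 1`, `B ≤ T`. So `HA f A T' = HA f A T + ∑ B, HA f B T`; by
induction `HA f A T' = hk ψ k (finrank A)` and `HA f B T = hk ψ k (finrank A + 1)`.
-/

set_option autoImplicit false
set_option linter.unusedSectionVars false

namespace Pool.Agent.Lib.MP_1a91b9_ntQT.LA

open Finset

noncomputable section

variable {κ : Type} [Fintype κ] [DecidableEq κ]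

private theorem LA4_exists {A T : Submodule (ZMod 2) (V κ)} (hAT : A ≤ T) (k : ℕ)
    (h : Module.finrank (ZMod 2) T = Module.finrank (ZMod 2) A + k) (j : ℕ) (hj : j ≤ k) :
    ∃ S : Submodule (ZMod 2) (V κ), A ≤ S ∧ S ≤ T ∧
      Module.finrank (ZMod 2) S = Module.finrank (ZMod 2) A + j := by
  induction j with
  | zero => exact ⟨A, le_rfl, hAT, rfl⟩
  | succ j ih =>
    obtain ⟨S, h1, h2, h3⟩ := ih (by omega)
    have hne : S ≠ T := by
      rintro rfl
      omega
    obtain ⟨v, hvT, hvS⟩ := SetLike.exists_of_lt (lt_of_le_of_ne h2 hne)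
    refine ⟨S ⊔ sp v, h1.trans le_sup_left, sup_le h2 ?_, ?_⟩
    · unfold sp
      rw [Submodule.span_singleton_le_iff_mem]
      exact hvT
    · rw [finrank_sup_sp hvS, h3]
      omega

private theorem LA4_add_self (x : V κ) : x + x = 0 := ZModModule.add_self x

private theorem LA4_eq_iff {A T' : Submodule (ZMod 2) (V κ)} (hA : A ≤ T') {v : V κ} (hv : v ∉ T')
    {t₀ t : V κ} (h0 : t₀ ∈ T') (ht : t ∈ T') :
    A ⊔ sp (v + t₀) = A ⊔ sp (v + t) ↔ t + t₀ ∈ A := by
  have key : ∀ s s' : V κ, s ∈ T' → s + s' ∈ A → A ⊔ sp (v + s) ≤ A ⊔ sp (v + s') := by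
    intro s s' hs h
    refine sup_le le_sup_left ?_
    unfold sp
    rw [Submodule.span_singleton_le_iff_mem]
    refine mem_sup_sp.2 (Or.inr ?_)
    have e : v + s + (v + s') = s + s' := by
      have := LA4_add_self v
      calc v + s + (v + s') = (v + v) + (s + s') := by abel
        _ = s + s' := by rw [this, zero_add]
    rw [e]
    exact h
  constructor
  · intro h
    have h1 : v + t ∈ A ⊔ sp (v + t₀) := by
      rw [h]
      exact mem_sup_sp.2 (Or.inr (by rw [LA4_add_self]; exact A.zero_mem))
    rcases mem_sup_sp.1 h1 with h2 | h2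
    · exfalso
      apply hv
      have h3 := T'.add_mem (hA h2) ht
      rwa [add_assoc, LA4_add_self, add_zero] at h3
    · have e : v + t + (v + t₀) = t + t₀ := by
        have := LA4_add_self v
        calc v + t + (v + t₀) = (v + v) + (t + t₀) := by abel
          _ = t + t₀ := by rw [this, zero_add]
      rw [e] at h2
      exact h2
  · intro h
    refine le_antisymm (key t₀ t h0 ?_) (key t t₀ ht h)
    rw [add_comm]
    exact h

open Classical in
private theorem LA4_count {A T' : Submodule (ZMod 2) (V κ)} (hA : A ≤ T') {t₀ : V κ}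
    (h0 : t₀ ∈ T') [Fintype T'] :
    ∑ t : T', (if (t : V κ) + t₀ ∈ A then (1 : ℝ) else 0) = (Nat.card A : ℝ) := by
  rw [Finset.sum_boole]
  have e : {t : T' // (t : V κ) + t₀ ∈ A} ≃ A :=
    { toFun := fun t => ⟨(t.1 : V κ) + t₀, t.2⟩
      invFun := fun a => ⟨⟨(a : V κ) + t₀, T'.add_mem (hA a.2) h0⟩, by
        show (a : V κ) + t₀ + t₀ ∈ A
        rw [add_assoc, LA4_add_self, add_zero]
        exact a.2⟩
      left_inv := by
        intro t
        apply Subtype.ext
        apply Subtype.ext
        show (t.1 : V κ) + t₀ + t₀ = t.1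
        rw [add_assoc, LA4_add_self, add_zero]
      right_inv := by
        intro a
        apply Subtype.ext
        show (a : V κ) + t₀ + t₀ = a
        rw [add_assoc, LA4_add_self, add_zero] }
  rw [← Nat.card_congr e, Nat.card_eq_fintype_card, Fintype.card_subtype]

open Classical in
private theorem LA4_point {A T T' L : Submodule (ZMod 2) (V κ)} (hA : A ≤ T') {v : V κ}
    (hv : v ∉ T') (hT : T = T' ⊔ sp v) [Fintype T'] :
    ∑ t : T', (if L ⊓ T = A ⊔ sp (v + (t : V κ)) then (1 : ℝ) else 0) =
      (Nat.card A : ℝ) * ((if L ⊓ T' = A then 1 else 0) - (if L ⊓ T = A then 1 else 0)) := by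
  have hT'T : T' ≤ T := by
    rw [hT]
    exact le_sup_left
  have hne : ∀ t : T', A ≠ A ⊔ sp (v + (t : V κ)) := by
    intro t h
    have h1 : v + (t : V κ) ∈ A := by
      rw [h]
      exact mem_sup_sp.2 (Or.inr (by rw [LA4_add_self]; exact A.zero_mem))
    apply hv
    have h3 := T'.add_mem (hA h1) t.2
    rwa [add_assoc, LA4_add_self, add_zero] at h3
  have hvt : ∀ t : T', v + (t : V κ) ∉ T' := by
    intro t h
    apply hv
    have h3 := T'.add_mem h t.2
    rwa [add_assoc, LA4_add_self, add_zero] at h3
  by_cases h1 : L ⊓ T' = A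
  · by_cases h2 : L ⊓ T = A
    · rw [if_pos h1, if_pos h2, sub_self, mul_zero]
      refine sum_eq_zero fun t _ => ?_
      rw [if_neg]
      rw [h2]
      exact hne t
    · rw [if_pos h1, if_neg h2, sub_zero, mul_one]
      have hAL : A ≤ L := by
        rw [← h1]
        exact inf_le_left
      have hlt : A < L ⊓ T := lt_of_le_of_ne (le_inf hAL (hA.trans hT'T)) (Ne.symm h2)
      obtain ⟨u, hu, huA⟩ := SetLike.exists_of_lt hlt
      obtain ⟨huL, huT⟩ := Submodule.mem_inf.1 hu
      have huT' : u ∉ T' := by
        intro h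
        apply huA
        rw [← h1]
        exact Submodule.mem_inf.2 ⟨huL, h⟩
      have huv : u + v ∈ T' := by
        rw [hT] at huT
        rcases mem_sup_sp.1 huT with h | h
        · exact absurd h huT'
        · exact h
      have eu : v + (u + v) = u := by
        rw [add_comm u v, ← add_assoc, LA4_add_self, zero_add]
      have hLT : L ⊓ T = A ⊔ sp (v + (u + v)) := by
        rw [eu]
        refine le_antisymm ?_ ?_
        · intro x hx
          obtain ⟨hxL, hxT⟩ := Submodule.mem_inf.1 hx
          rw [hT] at hxT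
          refine mem_sup_sp.2 ?_
          rcases mem_sup_sp.1 hxT with h | h
          · left
            rw [← h1]
            exact Submodule.mem_inf.2 ⟨hxL, h⟩
          · right
            rw [← h1]
            refine Submodule.mem_inf.2 ⟨L.add_mem hxL huL, ?_⟩
            have h3 := T'.add_mem h huv
            have e3 : x + v + (u + v) = x + u := by
              calc x + v + (u + v) = x + u + (v + v) := by abel
                _ = x + u := by rw [LA4_add_self, add_zero]
            rw [e3] at h3
            exact h3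
        · refine sup_le hlt.le ?_
          unfold sp
          rw [Submodule.span_singleton_le_iff_mem]
          exact hu
      rw [hLT, ← LA4_count hA huv]
      refine sum_congr rfl fun t _ => ?_
      have := LA4_eq_iff hA hv huv t.2
      by_cases h4 : (t : V κ) + (u + v) ∈ A
      · rw [if_pos h4, if_pos (this.2 h4)]
      · rw [if_neg h4, if_neg (fun h => h4 (this.1 h))]
  · have h2 : L ⊓ T ≠ A := by
      intro h
      apply h1
      refine le_antisymm ?_ ?_
      · rw [← h]
        exact inf_le_inf_left _ hT'T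
      · refine le_inf ?_ hA
        rw [← h]
        exact inf_le_left
    rw [if_neg h1, if_neg h2, sub_self, mul_zero]
    refine sum_eq_zero fun t _ => ?_
    rw [if_neg]
    intro h
    apply h1
    refine le_antisymm ?_ ?_
    · intro x hx
      obtain ⟨hxL, hxT⟩ := Submodule.mem_inf.1 hx
      have hx2 : x ∈ A ⊔ sp (v + (t : V κ)) := by
        rw [← h]
        exact Submodule.mem_inf.2 ⟨hxL, hT'T hxT⟩
      rcases mem_sup_sp.1 hx2 with h5 | h5
      · exact h5
      · exfalso
        apply hvt t
        have h6 := T'.add_mem (hA h5) hxT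
        have e6 : x + (v + (t : V κ)) + x = v + (t : V κ) := by
          calc x + (v + (t : V κ)) + x = v + (t : V κ) + (x + x) := by abel
            _ = v + (t : V κ) := by rw [LA4_add_self, add_zero]
        rw [e6] at h6
        exact h6
    · refine le_inf ?_ hA
      have h7 : A ≤ L ⊓ T := by
        rw [h]
        exact le_sup_left
      exact h7.trans inf_le_left

theorem hA_eq {w : V κ} {f : LL w → ℝ} {ψ : ℕ → ℝ} (k : ℕ) :
    ∀ A T : Submodule (ZMod 2) (V κ), A ≤ T →
      Module.finrank (ZMod 2) T = Module.finrank (ZMod 2) A + k →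
      (∀ S, A ≤ S → S ≤ T → Psi f S = ψ (Module.finrank (ZMod 2) S)) →
      HA f A T = hk ψ k (Module.finrank (ZMod 2) A) := by
  classical
  induction k with
  | zero =>
    intro A T hAT hfr hψ
    have hA : A = T := Submodule.eq_of_le_of_finrank_eq hAT (by rw [hfr, add_zero])
    subst hA
    show HA f A A = ψ (Module.finrank (ZMod 2) A)
    rw [← hψ A le_rfl le_rfl]
    unfold HA Psi
    refine sum_congr rfl fun Λ _ => ?_
    by_cases h : A ≤ Λ.1
    · rw [if_pos h, if_pos (inf_eq_right.2 h)]
    · rw [if_neg h, if_neg (fun h2 => h (inf_eq_right.1 h2))]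
  | succ k ih =>
    intro A T hAT hfr hψ
    obtain ⟨T', hAT', hT'T, hfr'⟩ := LA4_exists hAT (k + 1) hfr k (by omega)
    have hne : T' ≠ T := by
      rintro rfl
      omega
    obtain ⟨v, hvT, hvT'⟩ := SetLike.exists_of_lt (lt_of_le_of_ne hT'T hne)
    have hspv : T' ⊔ sp v ≤ T := by
      refine sup_le hT'T ?_
      unfold sp
      rw [Submodule.span_singleton_le_iff_mem]
      exact hvT
    have hT : T' ⊔ sp v = T := by
      refine Submodule.eq_of_le_of_finrank_eq hspv ?_
      rw [finrank_sup_sp hvT', hfr', hfr]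
      omega
    have e1 : HA f A T' = hk ψ k (Module.finrank (ZMod 2) A) :=
      ih A T' hAT' hfr' (fun S hS1 hS2 => hψ S hS1 (hS2.trans hT'T))
    have hvt : ∀ t : T', v + (t : V κ) ∉ T' := by
      intro t h
      apply hvT'
      have h3 := T'.add_mem h t.2
      rwa [add_assoc, LA4_add_self, add_zero] at h3
    have e2 : ∀ t : T', HA f (A ⊔ sp (v + (t : V κ))) T =
        hk ψ k (Module.finrank (ZMod 2) A + 1) := by
      intro t
      have hfB : Module.finrank (ZMod 2) (A ⊔ sp (v + (t : V κ)) : Submodule (ZMod 2) (V κ)) =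
          Module.finrank (ZMod 2) A + 1 := finrank_sup_sp (fun h => hvt t (hAT' h))
      have hBT : A ⊔ sp (v + (t : V κ)) ≤ T := by
        refine sup_le hAT ?_
        unfold sp
        rw [Submodule.span_singleton_le_iff_mem]
        exact T.add_mem hvT (hT'T t.2)
      have h := ih (A ⊔ sp (v + (t : V κ))) T hBT (by rw [hfB, hfr]; omega)
        (fun S hS1 hS2 => hψ S (le_sup_left.trans hS1) hS2)
      rw [h, hfB]
    have : Fintype T' := Fintype.ofFinite _
    have e3 : ∑ t : T', HA f (A ⊔ sp (v + (t : V κ))) T =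
        (Nat.card A : ℝ) * (HA f A T' - HA f A T) := by
      unfold HA
      rw [sum_comm, ← sum_sub_distrib, mul_sum]
      refine sum_congr rfl fun Λ _ => ?_
      have h := LA4_point (L := Λ.1) hAT' hvT' hT.symm
      have h1 : ∑ t : T', (if Λ.1 ⊓ T = A ⊔ sp (v + (t : V κ)) then f Λ else 0) =
          f Λ * ∑ t : T', (if Λ.1 ⊓ T = A ⊔ sp (v + (t : V κ)) then (1 : ℝ) else 0) := by
        rw [mul_sum]
        refine sum_congr rfl fun t _ => ?_
        rw [mul_ite, mul_one, mul_zero]
      rw [h1, h]
      by_cases h5 : Λ.1 ⊓ T' = A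
      · by_cases h6 : Λ.1 ⊓ T = A
        · simp only [if_pos h5, if_pos h6]
          ring
        · simp only [if_pos h5, if_neg h6]
          ring
      · by_cases h6 : Λ.1 ⊓ T = A
        · simp only [if_neg h5, if_pos h6]
          ring
        · simp only [if_neg h5, if_neg h6]
          ring
    rw [sum_congr rfl (fun t _ => e2 t), sum_const, card_univ, nsmul_eq_mul,
      ← Nat.card_eq_fintype_card, natCard_eq, natCard_eq, hfr', e1, pow_add] at e3
    push_cast at e3
    have hpos : (0 : ℝ) < 2 ^ Module.finrank (ZMod 2) A := by positivity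
    show HA f A T = hk ψ k (Module.finrank (ZMod 2) A) -
      2 ^ k * hk ψ k (Module.finrank (ZMod 2) A + 1)
    rw [mul_assoc] at e3
    have e4 := mul_left_cancel₀ hpos.ne' e3
    linarith

end

end Pool.Agent.Lib.MP_1a91b9_ntQT.LA
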