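import Pool.Agent.Lib.MP_1a91b9_ntQT.LA0

/-!
# Quartic stability, block LA, leaf LA5

The closed form of `hk`: induction on `k`, for all `a`. If all `ψ j`, `a ≤ j ≤ a + k`, are zero then `hk ψ k a = 0`. If `ψ j = 0`
for `a ≤ j < a + k` then `hk ψ k a = (-1) ^ k 2 ^ (k (k - 1) / 2) ψ (a + k)`: `hk ψ (k+1) a = hk ψ k a - 2 ^ k hk ψ k (a+1)`, the
first term is zero. Only the existence of a nonzero factor is used.
-/

set_option autoImplicit false
set_option linter.unusedSectionVars false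

namespace Pool.Agent.Lib.MP_1a91b9_ntQT.LA

open Finset

noncomputable section

variable {κ : Type} [Fintype κ] [DecidableEq κ]

theorem hk_closed (k a : ℕ) : ∃ m : ℝ, m ≠ 0 ∧ ∀ ψ : ℕ → ℝ, (∀ j, a ≤ j → j < a + k → ψ j = 0) →
    hk ψ k a = m * ψ (a + k) := by
  induction k generalizing a with
  | zero =>
    refine ⟨1, one_ne_zero, fun ψ _ => ?_⟩
    rw [one_mul, hk, add_zero]
  | succ k ih =>
    obtain ⟨m₁, -, h₁⟩ := ih a
    obtain ⟨m₂, hm₂, h₂⟩ := ih (a + 1)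
    refine ⟨-(2 ^ k * m₂), neg_ne_zero.2 (mul_ne_zero (by positivity) hm₂), fun ψ hψ => ?_⟩
    have e₁ : hk ψ k a = 0 := by
      rw [h₁ ψ fun j hj hj' => hψ j hj (by omega), hψ (a + k) (by omega) (by omega), mul_zero]
    have e₂ : hk ψ k (a + 1) = m₂ * ψ (a + 1 + k) :=
      h₂ ψ fun j hj hj' => hψ j (by omega) (by omega)
    have e₃ : a + 1 + k = a + (k + 1) := by omega
    rw [hk, e₁, e₂, e₃]
    ring

end

end Pool.Agent.Lib.MP_1a91b9_ntQT.LA
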