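import Pool.Agent.Lib.MP_1a91b9_ntQT.LA3
import Pool.Agent.Lib.MP_1a91b9_ntQT.LA4
import Pool.Agent.Lib.MP_1a91b9_ntQT.LA5

/-!
# Quartic stability, block LA, leaf LA6

Part (c) of the page. If all `HA f (sp w) L = 0`, `L ∈ LL w`, then by `hA_zero` `HA f (sp w) U = 0` for all isotropic `U` containing
`w`. Then `Psi f T = 0` for all isotropic `T` containing `w`, by strong induction on `finrank T`: with `A = sp w`,
`ψ j = if j = finrank T then Psi f T else 0` in `hA_eq` and `hk_closed` (for `sp w ≤ S ≤ T`: `Psi f S = 0` if `S ≠ T`, that is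
`finrank S < finrank T`). For `T = L` Lagrangian: `L ≤ Λ` iff `Λ = L`, so `f L = 0`. So the matrix `TT` (symmetric) is
injective, hence surjective: `exists_wt`.
-/

set_option autoImplicit false
set_option linter.unusedSectionVars false

namespace Pool.Agent.Lib.MP_1a91b9_ntQT.LA

open Finset

noncomputable section

variable {κ : Type} [Fintype κ] [DecidableEq κ]

theorem eq_zero_of_TT {w : V κ} {f : LL w → ℝ} (h : ∀ L : LL w, ∑ Λ : LL w, f Λ * TT Λ L = 0) :
    f = 0 := by
  have h1 : ∀ L : LL w, HA f (sp w) L.1 = 0 := by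
    intro L
    rw [← h L]
    unfold HA TT
    refine sum_congr rfl fun Λ _ => ?_
    by_cases h2 : Λ.1 ⊓ L.1 = sp w
    · rw [if_pos h2, if_pos h2, mul_one]
    · rw [if_neg h2, if_neg h2, mul_zero]
  have h2 : ∀ (n : ℕ) (T : Submodule (ZMod 2) (V κ)), Module.finrank (ZMod 2) T = n → Iso T → w ∈ T →
      Psi f T = 0 := by
    intro n
    induction n using Nat.strong_induction_on with
    | _ n ih =>
      intro T hn hT hw
      have hA : sp w ≤ T := by
        intro v hv
        rcases mem_sp.1 hv with rfl | rfl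
        · exact T.zero_mem
        · exact hw
      have hfr : Module.finrank (ZMod 2) (sp w) ≤ Module.finrank (ZMod 2) T := Submodule.finrank_mono hA
      obtain ⟨k, hk'⟩ := Nat.exists_eq_add_of_le hfr
      obtain ⟨m, hm, hm'⟩ := hk_closed k (Module.finrank (ZMod 2) (sp w))
      obtain ⟨ψ, hψ⟩ : ∃ ψ : ℕ → ℝ, ψ = fun j => if j = Module.finrank (ZMod 2) T then Psi f T else 0 := ⟨_, rfl⟩
      have g1 : HA f (sp w) T = hk ψ k (Module.finrank (ZMod 2) (sp w)) := by
        refine hA_eq k (sp w) T hA hk' fun S hS hS' => ?_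
        rw [hψ]
        by_cases g : Module.finrank (ZMod 2) S = Module.finrank (ZMod 2) T
        · have g' : S = T := Submodule.eq_of_le_of_finrank_eq hS' g
          subst g'
          exact (if_pos rfl).symm
        · have g' : Module.finrank (ZMod 2) S ≤ Module.finrank (ZMod 2) T := Submodule.finrank_mono hS'
          show Psi f S = if Module.finrank (ZMod 2) S = Module.finrank (ZMod 2) T then Psi f T else 0
          rw [if_neg g]
          exact ih _ (by omega) S rfl (Iso.mono hS' hT) (hS (mem_sp.2 (Or.inr rfl)))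
      rw [hA_zero h1 T hT hw, hm' ψ, ← hk', hψ] at g1
      · have g2 : (0 : ℝ) = m * (if Module.finrank (ZMod 2) T = Module.finrank (ZMod 2) T then Psi f T else 0) := g1
        rw [if_pos rfl] at g2
        rcases mul_eq_zero.1 g2.symm with g3 | g3
        · exact absurd g3 hm
        · exact g3
      · intro j _ hj
        rw [hψ]
        exact if_neg (by omega)
  funext L
  have h3 := h2 _ L.1 rfl (le_of_eq L.2.1.symm) L.2.2
  unfold Psi at h3
  rw [sum_eq_single L] at h3
  · rw [if_pos le_rfl] at h3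
    exact h3
  · intro Λ _ hΛ
    refine if_neg fun hle => hΛ (Subtype.ext ?_)
    have g1 := perp_anti hle
    rw [show perp Λ.1 = Λ.1 from Λ.2.1, show perp L.1 = L.1 from L.2.1] at g1
    exact le_antisymm g1 hle
  · intro hL
    exact absurd (mem_univ L) hL

theorem TT_symm {w : V κ} (Λ L : LL w) : TT Λ L = TT L Λ := by
  unfold TT
  rw [inf_comm]

theorem exists_wt {w : V κ} (t : LL w → ℝ) :
    ∃ c : LL w → ℝ, ∀ Λ : LL w, t Λ = ∑ L : LL w, c L * TT Λ L := by
  obtain ⟨φ, hφ⟩ : ∃ φ : (LL w → ℝ) →ₗ[ℝ] (LL w → ℝ), ∀ c Λ, φ c Λ = ∑ L : LL w, c L * TT Λ L :=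
    ⟨{ toFun := fun c Λ => ∑ L : LL w, c L * TT Λ L
       map_add' := fun a b => by
        funext Λ
        show ∑ L : LL w, (a L + b L) * TT Λ L = ∑ L : LL w, a L * TT Λ L + ∑ L : LL w, b L * TT Λ L
        rw [← sum_add_distrib]
        exact sum_congr rfl fun L _ => by ring
       map_smul' := fun a b => by
        funext Λ
        show ∑ L : LL w, (a * b L) * TT Λ L = a * ∑ L : LL w, b L * TT Λ L
        rw [mul_sum]
        exact sum_congr rfl fun L _ => by ring }, fun _ _ => rfl⟩
  have hinj : Function.Injective φ := by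
    rw [injective_iff_map_eq_zero]
    intro c hc
    refine eq_zero_of_TT fun L => ?_
    have h1 := congrFun hc L
    rw [hφ] at h1
    rw [← show _ = (0 : ℝ) from h1]
    exact sum_congr rfl fun Λ _ => by rw [TT_symm]
  obtain ⟨c, hc⟩ := (LinearMap.injective_iff_surjective.1 hinj) t
  exact ⟨c, fun Λ => by rw [← hφ, hc]⟩

end

end Pool.Agent.Lib.MP_1a91b9_ntQT.LA
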