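import Pool.Agent.Lib.MP_1a91b9_ntQT.LA6

/-!
# Quartic stability, block LA, leaf LA7

Part (d) of the page. `card_above`: the number of the `Λ` in `LL w` which contain the isotropic space `U` (`w ∈ U`)
depends only on `finrank U`: induction on `n - finrank U`; if `finrank U = n` the number is 1. Otherwise count the pairs
`(Λ, v)`, `U ≤ Λ`, `v ∈ Λ`, `v ∉ U` (then `v ∈ perp U`, `U ⊔ sp v` isotropic): `(2 ^ n - 2 ^ finrank U) g(U) =
∑ v ∈ perp U \ U, g(U ⊔ sp v)`, and all the terms on the right are equal by induction, their number is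
`2 ^ (2 n - finrank U) - 2 ^ finrank U`. `card_opp`: `hA_eq` for `f = 1`, `A = sp w`, `T = L`: the number of the `Λ` with
`Λ ⊓ L = sp w` does not depend on `L` (`ψ j` = the number of `card_above` for `finrank = j`; define `ψ` by choice). It is
positive: otherwise `TT = 0`, and `exists_wt` fails for `t = 1` (`LL w` is not empty since it contains `L`).
-/

set_option autoImplicit false
set_option linter.unusedSectionVars false

namespace Pool.Agent.Lib.MP_1a91b9_ntQT.LA

open Finset

noncomputable section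

variable {κ : Type} [Fintype κ] [DecidableEq κ]

private theorem LA7_filter (A : Submodule (ZMod 2) (V κ)) [DecidablePred fun v : V κ => v ∈ A] :
    (univ.filter fun v : V κ => v ∈ A).card = 2 ^ Module.finrank (ZMod 2) A := by
  classical
  rw [← natCard_eq A, Nat.card_eq_fintype_card, ← Fintype.card_subtype]

open Classical in
private theorem LA7_diff {A B : Submodule (ZMod 2) (V κ)} (h : A ≤ B) :
    (univ.filter fun v : V κ => v ∈ B ∧ v ∉ A).card + 2 ^ Module.finrank (ZMod 2) A =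
      2 ^ Module.finrank (ZMod 2) B := by
  rw [← LA7_filter A, ← LA7_filter B, ← card_union_of_disjoint]
  · congr 1
    ext v
    simp only [mem_union, mem_filter, mem_univ, true_and]
    constructor
    · rintro (h1 | h1)
      · exact h1.1
      · exact h h1
    · intro h1
      by_cases h2 : v ∈ A
      · exact Or.inr h2
      · exact Or.inl ⟨h1, h2⟩
  · rw [disjoint_left]
    intro v h1 h2
    simp only [mem_filter, mem_univ, true_and] at h1 h2
    exact h1.2 h2

open Classical in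
private theorem LA7_num {w : V κ} (U : Submodule (ZMod 2) (V κ)) :
    Nat.card {Λ : LL w // U ≤ Λ.1} = (univ.filter fun Λ : LL w => U ≤ Λ.1).card := by
  rw [Nat.card_eq_fintype_card, ← Fintype.card_subtype]

private theorem LA7_top {w : V κ} {U : Submodule (ZMod 2) (V κ)} (hU : Iso U) (hw : w ∈ U)
    (h : Module.finrank (ZMod 2) U = Fintype.card κ) : Nat.card {Λ : LL w // U ≤ Λ.1} = 1 := by
  rw [Nat.card_eq_one_iff_unique]
  refine ⟨⟨fun a b => ?_⟩, ⟨⟨⟨U, Lg.of_iso hU h, hw⟩, le_refl U⟩⟩⟩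
  have h1 : ∀ a : {Λ : LL w // U ≤ Λ.1}, U = a.1.1 := by
    intro a
    refine Submodule.eq_of_le_of_finrank_eq a.2 ?_
    rw [h, Lg.finrank a.1.2.1]
  exact Subtype.ext (Subtype.ext ((h1 a).symm.trans (h1 b)))

private theorem LA7_le {w : V κ} {U : Submodule (ZMod 2) (V κ)} {Λ : LL w} (h : U ≤ Λ.1) : Λ.1 ≤ perp U := by
  have h1 := perp_anti h
  rwa [Λ.2.1] at h1

open Classical in
private theorem LA7_count {w : V κ} (U : Submodule (ZMod 2) (V κ)) :
    ∑ v ∈ univ.filter (fun v : V κ => v ∈ perp U ∧ v ∉ U), Nat.card {Λ : LL w // U ⊔ sp v ≤ Λ.1} +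
      2 ^ Module.finrank (ZMod 2) U * Nat.card {Λ : LL w // U ≤ Λ.1} =
      2 ^ Fintype.card κ * Nat.card {Λ : LL w // U ≤ Λ.1} := by
  have h1 : ∑ v ∈ univ.filter (fun v : V κ => v ∈ perp U ∧ v ∉ U), Nat.card {Λ : LL w // U ⊔ sp v ≤ Λ.1} =
      ∑ Λ ∈ univ.filter (fun Λ : LL w => U ≤ Λ.1), (univ.filter fun v : V κ => v ∈ Λ.1 ∧ v ∉ U).card := by
    have h2 := sum_card_bipartiteAbove_eq_sum_card_bipartiteBelow
      (s := univ.filter (fun v : V κ => v ∈ perp U ∧ v ∉ U)) (t := univ.filter (fun Λ : LL w => U ≤ Λ.1))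
      (fun v Λ => v ∈ Λ.1)
    refine Eq.trans (sum_congr rfl fun v _ => ?_) (h2.trans (sum_congr rfl fun Λ hΛ => ?_))
    · rw [LA7_num]
      congr 1
      ext Λ
      simp only [bipartiteAbove, mem_filter, mem_univ, true_and, sup_le_iff]
      refine and_congr_right fun _ => ?_
      unfold sp
      rw [Submodule.span_singleton_le_iff_mem]
    · congr 1
      ext v
      simp only [mem_filter, mem_univ, true_and] at hΛ
      simp only [bipartiteBelow, mem_filter, mem_univ, true_and]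
      constructor
      · rintro ⟨⟨_, h4⟩, h5⟩
        exact ⟨h5, h4⟩
      · rintro ⟨h4, h5⟩
        exact ⟨⟨LA7_le hΛ h4, h5⟩, h4⟩
  have h3 : ∀ Λ ∈ univ.filter (fun Λ : LL w => U ≤ Λ.1),
      (univ.filter fun v : V κ => v ∈ Λ.1 ∧ v ∉ U).card + 2 ^ Module.finrank (ZMod 2) U = 2 ^ Fintype.card κ := by
    intro Λ hΛ
    simp only [mem_filter, mem_univ, true_and] at hΛ
    rw [LA7_diff hΛ, Lg.finrank Λ.2.1]
  rw [h1, LA7_num U]
  have h4 := sum_congr rfl h3
  rw [sum_add_distrib, sum_const, sum_const, smul_eq_mul, smul_eq_mul] at h4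
  rw [mul_comm (2 ^ _), h4, mul_comm]

open Classical in
private theorem LA7_rec {w : V κ} (m : ℕ) : ∀ U U' : Submodule (ZMod 2) (V κ), Iso U → Iso U' → w ∈ U → w ∈ U' →
    Module.finrank (ZMod 2) U = Module.finrank (ZMod 2) U' → Module.finrank (ZMod 2) U + m = Fintype.card κ →
    Nat.card {Λ : LL w // U ≤ Λ.1} = Nat.card {Λ : LL w // U' ≤ Λ.1} := by
  induction m with
  | zero =>
    intro U U' hU hU' hw hw' h hm
    rw [LA7_top hU hw hm, LA7_top hU' hw' (h ▸ hm)]
  | succ m ih =>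
    intro U U' hU hU' hw hw' h hm
    have e1 := LA7_count (w := w) U
    have e2 := LA7_count (w := w) U'
    have hUp : U ≤ perp U := hU
    have hUp' : U' ≤ perp U' := hU'
    have c1 := LA7_diff hUp
    have c2 := LA7_diff hUp'
    have p1 := finrank_perp U
    have p2 := finrank_perp U'
    have hcard : (univ.filter fun v : V κ => v ∈ perp U ∧ v ∉ U).card =
        (univ.filter fun v : V κ => v ∈ perp U' ∧ v ∉ U').card := by
      have p3 : Module.finrank (ZMod 2) (perp U) = Module.finrank (ZMod 2) (perp U') := by omega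
      rw [h, p3, ← c2] at c1
      exact Nat.add_right_cancel c1
    have hsum : ∑ v ∈ univ.filter (fun v : V κ => v ∈ perp U ∧ v ∉ U), Nat.card {Λ : LL w // U ⊔ sp v ≤ Λ.1} =
        ∑ v ∈ univ.filter (fun v : V κ => v ∈ perp U' ∧ v ∉ U'), Nat.card {Λ : LL w // U' ⊔ sp v ≤ Λ.1} := by
      rcases (univ.filter fun v : V κ => v ∈ perp U' ∧ v ∉ U').eq_empty_or_nonempty with h0 | ⟨v0, h0⟩
      · have h1 : (univ.filter fun v : V κ => v ∈ perp U ∧ v ∉ U) = ∅ := by
          rw [← card_eq_zero, hcard, h0, card_empty]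
        rw [h0, h1, sum_empty, sum_empty]
      · simp only [mem_filter, mem_univ, true_and] at h0
        have i0 : Iso (U' ⊔ sp v0) := hU'.sup_sp h0.1
        have r0 := finrank_sup_sp h0.2
        have w0 : w ∈ U' ⊔ sp v0 := le_sup_left (a := U') hw'
        rw [sum_const_nat (m := Nat.card {Λ : LL w // U' ⊔ sp v0 ≤ Λ.1}),
          sum_const_nat (m := Nat.card {Λ : LL w // U' ⊔ sp v0 ≤ Λ.1}), hcard]
        · intro v hv
          simp only [mem_filter, mem_univ, true_and] at hv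
          have r1 := finrank_sup_sp hv.2
          exact ih _ _ (hU'.sup_sp hv.1) i0 (le_sup_left (a := U') hw') w0 (by omega) (by omega)
        · intro v hv
          simp only [mem_filter, mem_univ, true_and] at hv
          have r1 := finrank_sup_sp hv.2
          exact ih _ _ (hU.sup_sp hv.1) i0 (le_sup_left (a := U) hw) w0 (by omega) (by omega)
    have hlt : 2 ^ Module.finrank (ZMod 2) U < 2 ^ Fintype.card κ := Nat.pow_lt_pow_right (by norm_num) (by omega)
    rw [hsum] at e1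
    rw [← h] at e2
    obtain ⟨k, hk⟩ := Nat.exists_eq_add_of_lt hlt
    rw [hk] at e1 e2
    have e3 : (k + 1) * Nat.card {Λ : LL w // U ≤ Λ.1} = (k + 1) * Nat.card {Λ : LL w // U' ≤ Λ.1} := by
      linarith
    exact Nat.eq_of_mul_eq_mul_left (Nat.succ_pos k) e3

theorem card_above {w : V κ} {U U' : Submodule (ZMod 2) (V κ)} (hU : Iso U) (hU' : Iso U') (hw : w ∈ U)
    (hw' : w ∈ U') (h : Module.finrank (ZMod 2) U = Module.finrank (ZMod 2) U') :
    Nat.card {Λ : LL w // U ≤ Λ.1} = Nat.card {Λ : LL w // U' ≤ Λ.1} := by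
  refine LA7_rec (Fintype.card κ - Module.finrank (ZMod 2) U) U U' hU hU' hw hw' h ?_
  have h1 := Iso.finrank_le hU
  omega

open Classical in
private theorem LA7_psi {w : V κ} : ∃ ψ : ℕ → ℝ, ∀ S : Submodule (ZMod 2) (V κ), Iso S → w ∈ S →
    Psi (w := w) (fun _ => 1) S = ψ (Module.finrank (ZMod 2) S) := by
  have h : ∀ j : ℕ, ∃ r : ℝ, ∀ S : Submodule (ZMod 2) (V κ), Iso S → w ∈ S → Module.finrank (ZMod 2) S = j →
      Psi (w := w) (fun _ => 1) S = r := by
    intro j
    by_cases hj : ∃ S : Submodule (ZMod 2) (V κ), Iso S ∧ w ∈ S ∧ Module.finrank (ZMod 2) S = j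
    · obtain ⟨S0, h0, h1, h2⟩ := hj
      refine ⟨Psi (w := w) (fun _ => 1) S0, fun S g0 g1 g2 => ?_⟩
      have h3 := card_above g0 h0 g1 h1 (g2.trans h2.symm)
      rw [LA7_num, LA7_num] at h3
      unfold Psi
      rw [← natCast_card_filter, ← natCast_card_filter, h3]
    · refine ⟨0, fun S g0 g1 g2 => ?_⟩
      exact absurd ⟨S, g0, g1, g2⟩ hj
  choose ψ hψ using h
  exact ⟨ψ, fun S g0 g1 => hψ _ S g0 g1 rfl⟩

private theorem LA7_HA {w : V κ} (L : LL w) : ∑ Λ : LL w, TT Λ L = HA (w := w) (fun _ => 1) (sp w) L.1 := rfl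

private theorem LA7_nonneg {w : V κ} (Λ L : LL w) : 0 ≤ TT Λ L := by
  unfold TT
  split_ifs
  · exact zero_le_one
  · exact le_refl _

theorem card_opp {w : V κ} (L L' : LL w) : ∑ Λ : LL w, TT Λ L = ∑ Λ : LL w, TT Λ L' := by
  obtain ⟨ψ, hψ⟩ := LA7_psi (w := w)
  have key : ∀ L : LL w, ∑ Λ : LL w, TT Λ L =
      hk ψ (Fintype.card κ - Module.finrank (ZMod 2) (sp w)) (Module.finrank (ZMod 2) (sp w)) := by
    intro L
    have h1 : sp w ≤ L.1 := by
      unfold sp
      rw [Submodule.span_singleton_le_iff_mem]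
      exact L.2.2
    have h2 := Submodule.finrank_mono h1
    have h3 := Lg.finrank L.2.1
    have h4 : Iso L.1 := le_of_eq L.2.1.symm
    rw [LA7_HA L]
    refine hA_eq _ _ _ h1 (by omega) ?_
    intro S hS1 hS2
    refine hψ S (Iso.mono hS2 h4) (hS1 ?_)
    exact mem_sp.2 (Or.inr rfl)
  rw [key L, key L']

theorem card_opp_pos {w : V κ} (L : LL w) : 0 < ∑ Λ : LL w, TT Λ L := by
  have h0 : 0 ≤ ∑ Λ : LL w, TT Λ L := sum_nonneg fun Λ _ => LA7_nonneg Λ L
  rcases h0.lt_or_eq with h | h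
  · exact h
  · exfalso
    have h1 : ∀ Λ L' : LL w, TT Λ L' = 0 := by
      intro Λ L'
      have h2 : ∑ Λ : LL w, TT Λ L' = 0 := by
        rw [card_opp L' L, ← h]
      exact (sum_eq_zero_iff_of_nonneg fun Λ _ => LA7_nonneg Λ L').1 h2 Λ (mem_univ _)
    obtain ⟨c, hc⟩ := exists_wt (w := w) (fun _ => 1)
    have h3 := hc L
    simp only [h1, mul_zero, sum_const_zero] at h3
    exact one_ne_zero h3

end

end Pool.Agent.Lib.MP_1a91b9_ntQT.LA
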