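import Pool.Agent.Lib.MP_1a91b9_ntQT.LA7

/-!
# Quartic stability, block LA, leaf LA8

Part (e1) of the page. By `card_opp_pos` for `w = 0` there is a Lagrangian `M` with `M ⊓ L = ⊥`. The form `om` is a
perfect pairing of `L` and `M` (if `om p q = 0` for all `q ∈ M` then `p ∈ perp M = M`). Take a basis `b` of `L`, indexed by `κ`
(`Lg.finrank`), and the dual basis `b'` of `M`, `om (b i) (b' j) = if i = j then 1 else 0`. `Φ` maps
`∑ x i • b i + ∑ y i • b' i` to `(x, y)`.
-/

set_option autoImplicit false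
set_option linter.unusedSectionVars false

namespace Pool.Agent.Lib.MP_1a91b9_ntQT.LA

open Finset

noncomputable section

variable {κ : Type} [Fintype κ] [DecidableEq κ]

private def LA8_om (q : V κ) : V κ →ₗ[ZMod 2] ZMod 2 where
  toFun p := om p q
  map_add' p p' := om_add_left p p' q
  map_smul' a p := om_smul_left a p q

private def LA8_F {L : Submodule (ZMod 2) (V κ)} (b : Module.Basis κ (ZMod 2) L) (π : V κ →ₗ[ZMod 2] L) :
    V κ →ₗ[ZMod 2] V κ where
  toFun x := (fun i => b.repr (π x) i, fun i => om (b i : V κ) x)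
  map_add' x y := by
    refine Prod.ext (funext fun i => ?_) (funext fun i => ?_)
    · change b.repr (π (x + y)) i = b.repr (π x) i + b.repr (π y) i
      rw [map_add, map_add, Finsupp.add_apply]
    · exact om_add_right _ _ _
  map_smul' a x := by
    refine Prod.ext (funext fun i => ?_) (funext fun i => ?_)
    · change b.repr (π (a • x)) i = a • b.repr (π x) i
      rw [map_smul, map_smul, Finsupp.smul_apply]
    · exact om_smul_right _ _ _

private theorem LA8_expand {L : Submodule (ZMod 2) (V κ)} (b : Module.Basis κ (ZMod 2) L) (p : L) (y : V κ) :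
    ∑ i, b.repr p i * om (b i : V κ) y = om (p : V κ) y := by
  have h1 : (p : V κ) = ∑ i, b.repr p i • (b i : V κ) := by
    have h2 := congrArg (fun z : L => (z : V κ)) (b.sum_repr p)
    beta_reduce at h2
    rw [← h2, Submodule.coe_sum]
    rfl
  have h3 : om (p : V κ) y = LA8_om y (p : V κ) := rfl
  rw [h3, h1, map_sum]
  refine Finset.sum_congr rfl fun i _ => ?_
  rw [map_smul]
  rfl

private theorem LA8_nd (x : V κ) (h : ∀ y : V κ, om x y = 0) : x = 0 := by
  have h1 := finrank_perp (κ := κ) ⊤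
  have h2 : Module.finrank (ZMod 2) (V κ) = 2 * Fintype.card κ := by
    rw [Module.finrank_prod, Module.finrank_fintype_fun_eq_card, two_mul]
  rw [finrank_top, h2] at h1
  have h3 : Module.finrank (ZMod 2) (perp (⊤ : Submodule (ZMod 2) (V κ))) = 0 := by omega
  have h4 := Submodule.finrank_eq_zero.1 h3
  have h5 : x ∈ perp (⊤ : Submodule (ZMod 2) (V κ)) := fun y _ => h y
  rw [h4] at h5
  exact (Submodule.mem_bot _).1 h5

theorem exists_aut {L : Submodule (ZMod 2) (V κ)} (hL : Lg L) : ∃ Φ : V κ ≃ₗ[ZMod 2] V κ,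
    (∀ p q, om (Φ p) (Φ q) = om p q) ∧ L.map (Φ : V κ →ₗ[ZMod 2] V κ) = hor κ := by
  obtain ⟨M, hM, hML⟩ : ∃ M : Submodule (ZMod 2) (V κ), Lg M ∧ M ⊓ L = ⊥ := by
    have h1 := card_opp_pos (w := (0 : V κ)) ⟨L, hL, L.zero_mem⟩
    obtain ⟨Λ, -, hΛ⟩ := Finset.exists_ne_zero_of_sum_ne_zero h1.ne'
    refine ⟨Λ.1, Λ.2.1, ?_⟩
    unfold TT at hΛ
    by_cases h2 : Λ.1 ⊓ L = sp (0 : V κ)
    · rw [h2]
      unfold sp
      exact Submodule.span_zero_singleton (ZMod 2)
    · exact absurd (if_neg h2) hΛ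
  have hV : Module.finrank (ZMod 2) (V κ) = 2 * Fintype.card κ := by
    rw [Module.finrank_prod, Module.finrank_fintype_fun_eq_card, two_mul]
  have hLM : L ⊓ M = ⊥ := by rw [inf_comm]; exact hML
  have hsup : L ⊔ M = ⊤ := by
    apply Submodule.eq_top_of_finrank_eq
    have h1 := Submodule.finrank_sup_add_finrank_inf_eq L M
    rw [hLM, finrank_bot, add_zero, hL.finrank, hM.finrank] at h1
    rw [h1, hV, two_mul]
  have hc : IsCompl L M := ⟨disjoint_iff.2 hLM, codisjoint_iff.2 hsup⟩
  let b : Module.Basis κ (ZMod 2) L :=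
    (Module.finBasisOfFinrankEq (ZMod 2) L hL.finrank).reindex (Fintype.equivFin κ).symm
  have hdec : ∀ x : V κ, ∃ p : L, ∃ q ∈ M, x = p + q ∧ L.projectionOnto M hc x = p := by
    intro x
    have hx : x ∈ L ⊔ M := by rw [hsup]; exact Submodule.mem_top
    obtain ⟨p, hp, q, hq, rfl⟩ := Submodule.mem_sup.1 hx
    refine ⟨⟨p, hp⟩, q, hq, rfl, ?_⟩
    rw [map_add, Submodule.projectionOnto_apply_of_mem_right hc hq, add_zero]
    exact Submodule.projectionOnto_apply_left hc (⟨p, hp⟩ : L)
  have hisoL : ∀ p ∈ L, ∀ p' ∈ L, om p p' = 0 := by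
    intro p hp p' hp'
    rw [← hL] at hp
    exact hp p' hp'
  have hisoM : ∀ p ∈ M, ∀ p' ∈ M, om p p' = 0 := by
    intro p hp p' hp'
    rw [← hM] at hp
    exact hp p' hp'
  have hom : ∀ x y : V κ, om (LA8_F b (L.projectionOnto M hc) x) (LA8_F b (L.projectionOnto M hc) y) = om x y := by
    intro x y
    obtain ⟨p, q, hq, hx, hpx⟩ := hdec x
    obtain ⟨p', q', hq', hy, hpy⟩ := hdec y
    have h1 : om (LA8_F b (L.projectionOnto M hc) x) (LA8_F b (L.projectionOnto M hc) y) =
        ∑ j, (b.repr (L.projectionOnto M hc x) j * om (b j : V κ) y +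
          b.repr (L.projectionOnto M hc y) j * om (b j : V κ) x) := rfl
    rw [h1, hpx, hpy, Finset.sum_add_distrib, LA8_expand, LA8_expand, hx, hy, om_add_right, om_add_right,
      om_add_left, om_add_right, om_add_right, hisoL _ p.2 _ p'.2, hisoL _ p'.2 _ p.2, hisoM _ hq _ hq',
      om_symm (p' : V κ) q]
    ring
  have hinj : Function.Injective (LA8_F b (L.projectionOnto M hc)) := by
    rw [injective_iff_map_eq_zero]
    intro x hx
    refine LA8_nd x fun y => ?_
    rw [← hom x y, hx, om_zero_left]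
  refine ⟨LinearEquiv.ofInjectiveEndo _ hinj, hom, ?_⟩
  have hfst : ∀ x : L, LA8_F b (L.projectionOnto M hc) (x : V κ) = (fun i => b.repr x i, 0) := by
    intro x
    refine Prod.ext (funext fun i => ?_) (funext fun i => ?_)
    · change b.repr (L.projectionOnto M hc (x : V κ)) i = b.repr x i
      rw [Submodule.projectionOnto_apply_left]
    · exact hisoL _ (b i).2 _ x.2
  ext z
  constructor
  · rintro ⟨x, hx, rfl⟩
    have h1 := hfst ⟨x, hx⟩
    change (LA8_F b (L.projectionOnto M hc) x).2 = 0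
    rw [h1]
  · intro hz
    have hz' : z.2 = 0 := hz
    refine ⟨(b.equivFun.symm z.1 : L), (b.equivFun.symm z.1).2, ?_⟩
    change LA8_F b (L.projectionOnto M hc) ((b.equivFun.symm z.1 : L) : V κ) = z
    rw [hfst]
    refine Prod.ext (funext fun i => ?_) hz'.symm
    change b.equivFun (b.equivFun.symm z.1) i = z.1 i
    rw [LinearEquiv.apply_symm_apply]

end

end Pool.Agent.Lib.MP_1a91b9_ntQT.LA
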