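import Pool.Agent.Lib.MP_1a91b9_ntQT.LA7

/-!
# Quartic stability, block LA, leaf LA9

Part (e2) of the page, the horizontal space. `LamM u M`: the space generated by `(u, 0)` and the `(M y, y)` with
`∑ y j u j = 0`. For `M` symmetric it is Lagrangian (isotropic; dimension: if `u = 0` it is the graph, dimension `n`; if `u ≠ 0`
it is `1 + (n - 1)`; or directly `perp = self`), contains `(u, 0)`, and `LamM u M ⊓ hor = sp (u, 0)`. Every `Λ` in
`LL (u, 0)` with `Λ ⊓ hor = sp (u, 0)` is of this form: the projection `p ↦ p.2` maps `Λ` onto the space `Y` of the `y` with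
`∑ y j u j = 0` (in `Y` since `om (p, (u, 0)) = 0`, onto by dimension), so `Λ` gives a linear map `g : Y → (κ → ZMod 2)`
(a section) with `g y ⬝ y' + g y' ⬝ y = 0` on `Y`; there is a symmetric matrix `M` with `M y - g y ∈ {0, u}` for `y ∈ Y`
(if `u = 0`: `M = g`; if `u j0 = 1`: the basis `e j + u j • e j0`, `j ≠ j0`, of `Y`; put the symmetric form
`B y y' = g y ⬝ y'` of `Y` at the places `j, j' ≠ j0`, `M j j' = B (e j + u j e j0) (e j' + u j' e j0)`, row and column `j0` zero; then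
`M y - g y` is orthogonal to `Y`, hence in `{0, u}`). The fibres: `LamM u M = LamM u M'` iff `M - M'` is in the additive
group `{N symmetric | ∀ y ∈ Y, N y ∈ {0, u}}`, so all the fibres have the same number `G` of elements.
-/

set_option autoImplicit false
set_option linter.unusedSectionVars false

namespace Pool.Agent.Lib.MP_1a91b9_ntQT.LA

open Finset

noncomputable section

variable {κ : Type} [Fintype κ] [DecidableEq κ]

/-- The space generated by `(u, 0)` and the `(M y, y)`, `y ⬝ u = 0`. -/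
def LamM (u : κ → ZMod 2) (M : Matrix κ κ (ZMod 2)) : Submodule (ZMod 2) (V κ) :=
  sp (u, 0) ⊔ Submodule.span (ZMod 2) {p | ∃ y : κ → ZMod 2, ∑ j, y j * u j = 0 ∧ p = (M.mulVec y, y)}

private theorem LA9_two {a b : ZMod 2} (h : a + b = 0) : a = b := by
  have h3 : ∀ a b : ZMod 2, a + b = 0 → a = b := by decide
  exact h3 _ _ h

private theorem LA9_move {x u y : κ → ZMod 2} : x + u = y ↔ x = y + u := by
  constructor
  · rintro rfl
    rw [add_assoc, ZModModule.add_self, add_zero]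
  · rintro rfl
    rw [add_assoc, ZModModule.add_self, add_zero]

private theorem LA9_om (p q : V κ) : om p q = p.1 ⬝ᵥ q.2 + q.1 ⬝ᵥ p.2 := by
  unfold om dotProduct
  rw [sum_add_distrib]

private theorem LA9_sym {M : Matrix κ κ (ZMod 2)} (hM : M.transpose = M) (y z : κ → ZMod 2) :
    M.mulVec y ⬝ᵥ z = M.mulVec z ⬝ᵥ y := by
  rw [dotProduct_comm (M.mulVec z) y, Matrix.dotProduct_mulVec, ← Matrix.vecMul_transpose, hM]

private theorem LA9_span {u : κ → ZMod 2} {M : Matrix κ κ (ZMod 2)} {p : V κ} :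
    p ∈ Submodule.span (ZMod 2) {p : V κ | ∃ y : κ → ZMod 2, ∑ j, y j * u j = 0 ∧ p = (M.mulVec y, y)} ↔
      p.2 ⬝ᵥ u = 0 ∧ p.1 = M.mulVec p.2 := by
  constructor
  · intro h
    refine Submodule.span_induction (p := fun x _ => x.2 ⬝ᵥ u = 0 ∧ x.1 = M.mulVec x.2) ?_ ?_ ?_ ?_ h
    · rintro x ⟨y, hy, rfl⟩
      exact ⟨hy, rfl⟩
    · exact ⟨zero_dotProduct _, (Matrix.mulVec_zero M).symm⟩
    · rintro x y _ _ ⟨h1, h2⟩ ⟨h3, h4⟩
      refine ⟨?_, ?_⟩
      · rw [Prod.snd_add, add_dotProduct, h1, h3, add_zero]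
      · rw [Prod.fst_add, Prod.snd_add, Matrix.mulVec_add, h2, h4]
    · rintro a x _ ⟨h1, h2⟩
      refine ⟨?_, ?_⟩
      · rw [Prod.smul_snd, smul_dotProduct, h1, smul_zero]
      · rw [Prod.smul_fst, Prod.smul_snd, Matrix.mulVec_smul, h2]
  · rintro ⟨h1, h2⟩
    exact Submodule.subset_span ⟨p.2, h1, Prod.ext h2 rfl⟩

/-- A vector `s` with `s ⬝ u = 1`, if there is one. -/
private theorem LA9_s (u : κ → ZMod 2) : ∃ s : κ → ZMod 2, ∀ j, u j * (s ⬝ᵥ u) = u j := by
  by_cases hu : u = 0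
  · refine ⟨0, fun j => ?_⟩
    rw [hu, Pi.zero_apply, zero_mul]
  · obtain ⟨j0, hj0⟩ := Function.ne_iff.1 hu
    refine ⟨Pi.single j0 1, fun j => ?_⟩
    have h1 : u j0 = 1 := by
      have h2 : ∀ a : ZMod 2, a ≠ 0 → a = 1 := by decide
      exact h2 _ hj0
    rw [single_dotProduct, h1, mul_one, mul_one]

private def LA9_b (u s : κ → ZMod 2) (i : κ) : κ → ZMod 2 := Pi.single i 1 + u i • s

private theorem LA9_b_u {u s : κ → ZMod 2} (hs : ∀ j, u j * (s ⬝ᵥ u) = u j) (i : κ) : LA9_b u s i ⬝ᵥ u = 0 := by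
  unfold LA9_b
  rw [add_dotProduct, single_dotProduct, smul_dotProduct, smul_eq_mul, hs i, one_mul]
  exact ZModModule.add_self _

private theorem LA9_b_dot (u s d : κ → ZMod 2) (i : κ) : d ⬝ᵥ LA9_b u s i = d i + u i * (d ⬝ᵥ s) := by
  unfold LA9_b
  rw [dotProduct_add, dotProduct_single, dotProduct_smul, smul_eq_mul, mul_one]

private theorem LA9_b_sum (u s : κ → ZMod 2) {y : κ → ZMod 2} (hy : y ⬝ᵥ u = 0) :
    ∑ j, y j • LA9_b u s j = y := by
  have h1 : ∀ j, y j • LA9_b u s j = Pi.single j (y j) + (y j * u j) • s := by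
    intro j
    unfold LA9_b
    rw [smul_add, smul_smul, ← Pi.single_smul, smul_eq_mul, mul_one]
  rw [sum_congr rfl fun j _ => h1 j, sum_add_distrib, Finset.univ_sum_single, ← sum_smul]
  have h2 : ∑ j, y j * u j = 0 := hy
  rw [h2, zero_smul, add_zero]

private theorem LA9_ann {u d : κ → ZMod 2} (h : ∀ y, y ⬝ᵥ u = 0 → d ⬝ᵥ y = 0) : d = 0 ∨ d = u := by
  obtain ⟨s, hs⟩ := LA9_s u
  have h1 : d = (d ⬝ᵥ s) • u := by
    funext i
    have h2 := h (LA9_b u s i) (LA9_b_u hs i)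
    rw [LA9_b_dot] at h2
    rw [LA9_two h2, Pi.smul_apply, smul_eq_mul, mul_comm]
  have h3 : ∀ a : ZMod 2, a = 0 ∨ a = 1 := by decide
  rcases h3 (d ⬝ᵥ s) with h4 | h4
  · left
    rw [h1, h4, zero_smul]
  · right
    rw [h4, one_smul] at h1
    exact h1

private theorem LA9_hor : perp (hor κ) = hor κ := by
  apply le_antisymm
  · intro p hp
    rw [mem_perp] at hp
    show p.2 = 0
    funext j
    have h1 := hp (Pi.single j 1, 0) rfl
    rw [LA9_om] at h1
    have h2 : p.1 ⬝ᵥ (0 : κ → ZMod 2) + (Pi.single j 1 : κ → ZMod 2) ⬝ᵥ p.2 = 0 := h1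
    rw [dotProduct_zero, zero_add, single_dotProduct, one_mul] at h2
    exact h2
  · intro p hp
    rw [mem_perp]
    intro q hq
    have h1 : p.2 = 0 := hp
    have h2 : q.2 = 0 := hq
    rw [LA9_om, h1, h2, dotProduct_zero, dotProduct_zero, add_zero]

theorem mem_LamM {u : κ → ZMod 2} {M : Matrix κ κ (ZMod 2)} {p : V κ} : p ∈ LamM u M ↔
    ∑ j, p.2 j * u j = 0 ∧ (p.1 = M.mulVec p.2 ∨ p.1 = M.mulVec p.2 + u) := by
  unfold LamM
  rw [sup_comm, mem_sup_sp, LA9_span, LA9_span]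
  show (p.2 ⬝ᵥ u = 0 ∧ p.1 = M.mulVec p.2) ∨ ((p.2 + 0) ⬝ᵥ u = 0 ∧ p.1 + u = M.mulVec (p.2 + 0)) ↔
    p.2 ⬝ᵥ u = 0 ∧ (p.1 = M.mulVec p.2 ∨ p.1 = M.mulVec p.2 + u)
  rw [add_zero, LA9_move]
  tauto

theorem LamM_ok (u : κ → ZMod 2) {M : Matrix κ κ (ZMod 2)} (hM : M.transpose = M) :
    Lg (LamM u M) ∧ ((u, 0) : V κ) ∈ LamM u M ∧ LamM u M ⊓ hor κ = sp (u, 0) := by
  have hu0 : ((u, 0) : V κ) ∈ LamM u M := by
    rw [mem_LamM]
    refine ⟨?_, Or.inr ?_⟩
    · exact zero_dotProduct u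
    · show u = M.mulVec 0 + u
      rw [Matrix.mulVec_zero, zero_add]
  refine ⟨?_, hu0, ?_⟩
  · unfold Lg
    apply le_antisymm
    · intro p hp
      rw [mem_perp] at hp
      rw [mem_LamM]
      have hu : p.2 ⬝ᵥ u = 0 := by
        have h1 := hp (u, 0) hu0
        rw [LA9_om] at h1
        have h2 : p.1 ⬝ᵥ (0 : κ → ZMod 2) + u ⬝ᵥ p.2 = 0 := h1
        rw [dotProduct_zero, zero_add, dotProduct_comm] at h2
        exact h2
      refine ⟨hu, ?_⟩
      have h2 : p.1 + M.mulVec p.2 = 0 ∨ p.1 + M.mulVec p.2 = u := by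
        refine LA9_ann fun y hy => ?_
        have h1 := hp (M.mulVec y, y) (mem_LamM.2 ⟨hy, Or.inl rfl⟩)
        rw [LA9_om] at h1
        have h3 : p.1 ⬝ᵥ y + M.mulVec y ⬝ᵥ p.2 = 0 := h1
        rw [add_dotProduct, LA9_sym hM p.2 y]
        exact h3
      rcases h2 with h2 | h2
      · left
        rw [LA9_move, zero_add] at h2
        exact h2
      · right
        rw [LA9_move, add_comm] at h2
        exact h2
    · intro p hp
      rw [mem_perp]
      intro q hq
      rw [mem_LamM] at hp hq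
      obtain ⟨h1, h2⟩ := hp
      obtain ⟨h3, h4⟩ := hq
      have h1' : u ⬝ᵥ p.2 = 0 := by
        rw [dotProduct_comm]
        exact h1
      have h3' : u ⬝ᵥ q.2 = 0 := by
        rw [dotProduct_comm]
        exact h3
      have e1 : p.1 ⬝ᵥ q.2 = M.mulVec p.2 ⬝ᵥ q.2 := by
        rcases h2 with h | h
        · rw [h]
        · rw [h, add_dotProduct, h3', add_zero]
      have e2 : q.1 ⬝ᵥ p.2 = M.mulVec q.2 ⬝ᵥ p.2 := by
        rcases h4 with h | h
        · rw [h]
        · rw [h, add_dotProduct, h1', add_zero]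
      rw [LA9_om, e1, e2, LA9_sym hM q.2 p.2]
      exact ZModModule.add_self _
  · ext p
    rw [Submodule.mem_inf, mem_sp, mem_LamM]
    constructor
    · rintro ⟨⟨_, h2⟩, h3⟩
      have h4 : p.2 = 0 := h3
      rw [h4, Matrix.mulVec_zero, zero_add] at h2
      rcases h2 with h2 | h2
      · exact Or.inl (Prod.ext h2 h4)
      · exact Or.inr (Prod.ext h2 h4)
    · rintro (rfl | rfl)
      · refine ⟨⟨zero_dotProduct u, Or.inl ?_⟩, rfl⟩
        show (0 : κ → ZMod 2) = M.mulVec 0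
        rw [Matrix.mulVec_zero]
      · exact ⟨mem_LamM.1 hu0, rfl⟩

theorem exists_LamM {u : κ → ZMod 2} (Λ : LL ((u, 0) : V κ)) (h : Λ.1 ⊓ hor κ = sp (u, 0)) :
    ∃ M : Matrix κ κ (ZMod 2), M.transpose = M ∧ LamM u M = Λ.1 := by
  have hL : perp Λ.1 = Λ.1 := Λ.2.1
  have hiso : ∀ p ∈ Λ.1, ∀ q ∈ Λ.1, om p q = 0 := by
    intro p hp q hq
    rw [← hL] at hp
    exact hp q hq
  have hperp : ∀ y : κ → ZMod 2, y ⬝ᵥ u = 0 → ∃ x : κ → ZMod 2, ((x, y) : V κ) ∈ Λ.1 := by
    intro y hy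
    have h1 : perp (Λ.1 ⊓ hor κ) = Λ.1 ⊔ hor κ := by
      rw [perp_inf, LA9_hor, hL]
    have h2 : ((0, y) : V κ) ∈ perp (Λ.1 ⊓ hor κ) := by
      rw [h, mem_perp]
      intro q hq
      rcases mem_sp.1 hq with rfl | rfl
      · rw [om_symm, om_zero_left]
      · rw [LA9_om]
        show (0 : κ → ZMod 2) ⬝ᵥ (0 : κ → ZMod 2) + u ⬝ᵥ y = 0
        rw [zero_dotProduct, zero_add, dotProduct_comm, hy]
    rw [h1, Submodule.mem_sup] at h2
    obtain ⟨a, ha, c, hc, hac⟩ := h2
    refine ⟨a.1, ?_⟩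
    have h3 : a.2 = y := by
      have h4 : a.2 + c.2 = y := congrArg Prod.snd hac
      have h5 : c.2 = 0 := hc
      rw [h5, add_zero] at h4
      exact h4
    rw [← h3]
    exact ha
  obtain ⟨s, hs⟩ := LA9_s u
  have hg0 : ∀ j, ∃ x : κ → ZMod 2, ((x, LA9_b u s j) : V κ) ∈ Λ.1 := fun j => hperp _ (LA9_b_u hs j)
  choose g hg using hg0
  obtain ⟨M, hMd⟩ : ∃ M : Matrix κ κ (ZMod 2), ∀ i j, M i j = g j ⬝ᵥ LA9_b u s i :=
    ⟨Matrix.of fun i j => g j ⬝ᵥ LA9_b u s i, fun _ _ => rfl⟩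
  have hM : M.transpose = M := by
    ext i j
    rw [Matrix.transpose_apply, hMd, hMd]
    have h1 := hiso _ (hg i) _ (hg j)
    rw [LA9_om] at h1
    exact LA9_two h1
  refine ⟨M, hM, ?_⟩
  have hle : LamM u M ≤ Λ.1 := by
    unfold LamM
    refine sup_le ?_ (Submodule.span_le.2 ?_)
    · unfold sp
      rw [Submodule.span_singleton_le_iff_mem]
      exact Λ.2.2
    · rintro _ ⟨y, hy, rfl⟩
      have h1 : ((∑ j, y j • g j, y) : V κ) ∈ Λ.1 := by
        have h2 : ((∑ j, y j • g j, y) : V κ) = ∑ j, y j • ((g j, LA9_b u s j) : V κ) := by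
          refine Prod.ext ?_ ?_
          · rw [Prod.fst_sum]
            rfl
          · rw [Prod.snd_sum]
            exact (LA9_b_sum u s hy).symm
        rw [h2]
        exact Submodule.sum_mem _ fun j _ => Submodule.smul_mem _ _ (hg j)
      have h3 : M.mulVec y = ∑ j, y j • g j + ((∑ j, y j • g j) ⬝ᵥ s) • u := by
        funext i
        have h4 : M.mulVec y i = (∑ j, y j • g j) ⬝ᵥ LA9_b u s i := by
          rw [sum_dotProduct]
          show ∑ j, M i j * y j = _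
          refine sum_congr rfl fun j _ => ?_
          rw [hMd, smul_dotProduct, smul_eq_mul, mul_comm]
        rw [h4, LA9_b_dot, Pi.add_apply, Pi.smul_apply, smul_eq_mul, mul_comm (u i)]
      have h5 : ((M.mulVec y, y) : V κ) = (∑ j, y j • g j, y) + ((∑ j, y j • g j) ⬝ᵥ s) • ((u, 0) : V κ) := by
        refine Prod.ext h3 ?_
        show y = y + _ • (0 : κ → ZMod 2)
        rw [smul_zero, add_zero]
      show ((M.mulVec y, y) : V κ) ∈ Λ.1
      rw [h5]
      exact Submodule.add_mem _ h1 (Submodule.smul_mem _ _ Λ.2.2)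
  apply le_antisymm hle
  have h1 := perp_anti hle
  have h2 : perp (LamM u M) = LamM u M := (LamM_ok u hM).1
  rw [hL, h2] at h1
  exact h1

open Classical in
/-- All the fibres have the same size. -/
theorem LamM_fibre (u : κ → ZMod 2) : ∃ G : ℕ, 0 < G ∧ ∀ M : Matrix κ κ (ZMod 2), M.transpose = M →
    (univ.filter fun M' : Matrix κ κ (ZMod 2) => M'.transpose = M' ∧ LamM u M' = LamM u M).card = G := by
  have key : ∀ M M' : Matrix κ κ (ZMod 2), LamM u M' = LamM u M ↔
      ∀ y : κ → ZMod 2, y ⬝ᵥ u = 0 → (M' + M).mulVec y = 0 ∨ (M' + M).mulVec y = u := by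
    intro M M'
    have hsplit : ∀ y : κ → ZMod 2, ((M' + M).mulVec y = 0 ∨ (M' + M).mulVec y = u) ↔
        (M'.mulVec y = M.mulVec y ∨ M'.mulVec y = M.mulVec y + u) := by
      intro y
      rw [Matrix.add_mulVec, LA9_move, LA9_move, zero_add, add_comm u]
    constructor
    · intro h y hy
      rw [hsplit]
      have h1 : ((M'.mulVec y, y) : V κ) ∈ LamM u M' := mem_LamM.2 ⟨hy, Or.inl rfl⟩
      rw [h, mem_LamM] at h1
      exact h1.2
    · intro h
      ext p
      rw [mem_LamM, mem_LamM]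
      refine and_congr_right fun hy => ?_
      have h1 := (hsplit p.2).1 (h p.2 hy)
      have h2 : M.mulVec p.2 + u + u = M.mulVec p.2 := by
        rw [add_assoc, ZModModule.add_self, add_zero]
      rcases h1 with h1 | h1
      · rw [h1]
      · rw [h1, h2]
        exact or_comm
  refine ⟨(univ.filter fun N : Matrix κ κ (ZMod 2) => N.transpose = N ∧
    ∀ y : κ → ZMod 2, y ⬝ᵥ u = 0 → N.mulVec y = 0 ∨ N.mulVec y = u).card, ?_, fun M hM => ?_⟩
  · refine Finset.card_pos.2 ⟨0, ?_⟩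
    rw [Finset.mem_filter]
    refine ⟨Finset.mem_univ _, Matrix.transpose_zero, fun y _ => Or.inl (Matrix.zero_mulVec y)⟩
  · refine Finset.card_nbij' (fun M' => M' + M) (fun N => N + M) ?_ ?_ ?_ ?_
    · intro M' hM'
      simp only [Finset.coe_filter, Set.mem_setOf_eq, Finset.mem_univ, true_and] at hM' ⊢
      refine ⟨?_, (key M M').1 hM'.2⟩
      rw [Matrix.transpose_add, hM, hM'.1]
    · intro N hN
      simp only [Finset.coe_filter, Set.mem_setOf_eq, Finset.mem_univ, true_and] at hN ⊢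
      refine ⟨?_, (key M (N + M)).2 ?_⟩
      · rw [Matrix.transpose_add, hM, hN.1]
      · rw [add_assoc, ZModModule.add_self, add_zero]
        exact hN.2
    · intro M' _
      show M' + M + M = M'
      rw [add_assoc, ZModModule.add_self, add_zero]
    · intro N _
      show N + M + M = N
      rw [add_assoc, ZModModule.add_self, add_zero]

end

end Pool.Agent.Lib.MP_1a91b9_ntQT.LA
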