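import Pool.Agent.Lib.MP_1a91b9_ntDV.T20

/-!
# MP_1a91b9_nt (quartic stability): the property of `d`
-/

set_option autoImplicit false

namespace Pool.Agent.Lib.MP_1a91b9_ntQT.Fin

open NumberField IsDedekindDomain
open Pool.Agent.Lib.MP_1a91b9_ntDV.Fin (RamOK RelBSD BSD0)

/-- The property `R` of the element `e` of `F`, for the curve `E : y² = x³ + A x` over `K`: the towers above `F`. -/
def PropR {K : Type} [Field K] [NumberField K] (E : WeierstrassCurve K) (F : Type) [Field F]
    [NumberField F] [Algebra K F] (e : F) : Prop :=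
  ∀ V : WeierstrassCurve F, V = ⟨0, 0, 0, algebraMap K F E.a₄ * e ^ 2, 0⟩ →
    ∃ S : Finset ℕ, ∀ (q : ℕ) [Fact q.Prime], q ∉ S →
    ∀ (k : ℕ) (L M : Type) [Field L] [NumberField L] [Field M] [NumberField M]
      [Algebra F L] [Algebra L M] [Algebra F M] [IsScalarTower F L M] [IsGalois F M],
      Module.finrank F M = q ^ k → RamOK K V q L →
    (∀ (N : Type) [Field N] [NumberField N] [Algebra N L] (W : WeierstrassCurve N)
      (C : WeierstrassCurve.VariableChange L), C • W.baseChange L = V.baseChange L → BSD0 q W) ∧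
    ∀ (L' : Type) [Field L'] [NumberField L'] [Algebra L L'] (y : L'),
      y ^ 2 = algebraMap L L' (algebraMap F L e) → IntermediateField.adjoin L {y} = ⊤ →
      RelBSD q ((E.baseChange F).baseChange L) (((E.baseChange F).baseChange L).baseChange L')

/-- The property of `d`, for the fields between `K` and `N = K(d^(1/4))`. -/
def PropQ {K : Type} [Field K] [NumberField K] (E : WeierstrassCurve K) (d : K) : Prop :=
  ∀ (N : Type) [Field N] [NumberField N] [Algebra K N] (x : N), x ^ 4 = algebraMap K N d →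
    IntermediateField.adjoin K {x} = ⊤ →
    Module.finrank K N = 4 ∧
    ∀ (F : Type) [Field F] [NumberField F] [Algebra K F] [Algebra F N] [IsScalarTower K F N],
      (∀ x' y' : F, (E.baseChange F).toAffine.Equation x' y' →
        ∃ x y : K, algebraMap K F x = x' ∧ algebraMap K F y = y') ∧
      (∃ g : ℂ → ℂ, Differentiable ℂ g ∧ g 1 ≠ 0 ∧ ∀ s : ℂ, 3 / 2 < s.re →
        (E.baseChange F).LSeries s = E.LSeries s * g s) ∧
      (∀ (F' : Type) [Field F'] [NumberField F'] [Algebra F F'] [Algebra F' N]
        [IsScalarTower F F' N], Module.finrank F F' ≠ 1 →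
        ∃ S : Finset ℕ, ∀ (q : ℕ) [Fact q.Prime], q ∉ S →
          RelBSD q (E.baseChange F) ((E.baseChange F).baseChange F')) ∧
      ∀ e : F, algebraMap F N e = x ^ 2 ∨ algebraMap F N e = x ^ 4 → ¬ IsSquare e → PropR E F e

end Pool.Agent.Lib.MP_1a91b9_ntQT.Fin
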