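import Pool.Agent.Lib.MP_1a91b9_ntQT.LA0
import Pool.Agent.Lib.MP_1a91b9_ntM.E.XDen

/-!
# Quartic stability, block SY (systems and Lagrangian subspaces): definitions

For a finite set `X` of primes: `KK D σ X` is the space of the `(x, y)` with `N x + a y = 0` (`N` = the symmetric
matrix of `X` with the class part `σ` of the diagonal), `mu D X (x, y) = (a^T x, y)`, `Lam D σ X` the image.
-/

set_option autoImplicit false
set_option linter.unusedSectionVars false

namespace Pool.Agent.Lib.MP_1a91b9_ntQT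

open Finset Pool.Agent.Lib.MP_1a91b9_ntH Pool.Agent.Lib.MP_1a91b9_ntQ Pool.Agent.Lib.MP_1a91b9_ntQ.Da
  Pool.Agent.Lib.MP_1a91b9_ntQ.M Pool.Agent.Lib.MP_1a91b9_ntM Pool.Agent.Lib.MP_1a91b9_ntM.E

noncomputable section

variable {ι : Type} [DecidableEq ι] {κ : Type} [Fintype κ] [DecidableEq κ]

/-- The space of the vectors `(x, y)` with `N x + a y = 0`. -/
def KK (D : Dat2 ι κ) (σ : κ → ZMod 2) (X : Finset ι) :
    Submodule (ZMod 2) ((X → ZMod 2) × (κ → ZMod 2)) where
  carrier := {v | ∀ q : X, D.dg σ q * v.1 q + ∑ l : X, D.s q l * (v.1 q + v.1 l) +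
    ∑ j, D.a q j * v.2 j = 0}
  add_mem' := by
    intro v w hv hw q
    have h1 := hv q
    have h2 := hw q
    have e1 : ∑ l : X, D.s q l * ((v + w).1 q + (v + w).1 l) =
        ∑ l : X, D.s q l * (v.1 q + v.1 l) + ∑ l : X, D.s q l * (w.1 q + w.1 l) := by
      rw [← sum_add_distrib]
      refine sum_congr rfl fun l _ => ?_
      simp only [Prod.fst_add, Pi.add_apply]
      ring
    have e2 : ∑ j, D.a q j * (v + w).2 j = ∑ j, D.a q j * v.2 j + ∑ j, D.a q j * w.2 j := by
      rw [← sum_add_distrib]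
      refine sum_congr rfl fun l _ => ?_
      simp only [Prod.snd_add, Pi.add_apply]
      ring
    rw [e1, e2]
    simp only [Prod.fst_add, Pi.add_apply]
    linear_combination h1 + h2
  zero_mem' := fun q => by simp
  smul_mem' := by
    intro c v hv q
    have h1 := hv q
    have e1 : ∑ l : X, D.s q l * ((c • v).1 q + (c • v).1 l) =
        c * ∑ l : X, D.s q l * (v.1 q + v.1 l) := by
      rw [mul_sum]
      refine sum_congr rfl fun l _ => ?_
      simp only [Prod.smul_fst, Pi.smul_apply, smul_eq_mul]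
      ring
    have e2 : ∑ j, D.a q j * (c • v).2 j = c * ∑ j, D.a q j * v.2 j := by
      rw [mul_sum]
      refine sum_congr rfl fun l _ => ?_
      simp only [Prod.smul_snd, Pi.smul_apply, smul_eq_mul]
      ring
    rw [e1, e2]
    simp only [Prod.smul_fst, Pi.smul_apply, smul_eq_mul]
    linear_combination c * h1

theorem mem_KK {D : Dat2 ι κ} {σ : κ → ZMod 2} {X : Finset ι} {v : (X → ZMod 2) × (κ → ZMod 2)} :
    v ∈ KK D σ X ↔ ∀ q : X, D.dg σ q * v.1 q + ∑ l : X, D.s q l * (v.1 q + v.1 l) +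
      ∑ j, D.a q j * v.2 j = 0 := Iff.rfl

/-- The map `(x, y) ↦ (a^T x, y)`. -/
def mu (D : Dat2 ι κ) (X : Finset ι) : ((X → ZMod 2) × (κ → ZMod 2)) →ₗ[ZMod 2] LA.V κ where
  toFun v := (fun j => ∑ q : X, D.a q j * v.1 q, v.2)
  map_add' v w := by
    refine Prod.ext (funext fun j => ?_) rfl
    show ∑ q : X, D.a q j * (v + w).1 q = ∑ q : X, D.a q j * v.1 q + ∑ q : X, D.a q j * w.1 q
    rw [← sum_add_distrib]
    exact sum_congr rfl fun q _ => by
      simp only [Prod.fst_add, Pi.add_apply]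
      ring
  map_smul' c v := by
    refine Prod.ext (funext fun j => ?_) rfl
    show ∑ q : X, D.a q j * (c • v).1 q = c * ∑ q : X, D.a q j * v.1 q
    rw [mul_sum]
    exact sum_congr rfl fun q _ => by
      simp only [Prod.smul_fst, Pi.smul_apply, smul_eq_mul]
      ring

/-- The subspace of the set `X`. -/
def Lam (D : Dat2 ι κ) (σ : κ → ZMod 2) (X : Finset ι) : Submodule (ZMod 2) (LA.V κ) :=
  (KK D σ X).map (mu D X)

open Classical in
/-- The system `S` is good for the set `X`; `α j = ∑ q ∈ X, D.a q j`. -/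
def gdS (D : Dat2 ι κ) (σ : κ → ZMod 2) (S : Sy κ) (α : κ → ZMod 2) (X : Finset ι) : Prop :=
  D.kB σ S.P S.R X = if Triv σ S.P S.R α then 2 else 1

/-- The number of the vectors of `KK` which are mapped to `0`. -/
def ker0 (D : Dat2 ι κ) (σ : κ → ZMod 2) (X : Finset ι) : ℕ :=
  Nat.card {v : KK D σ X // mu D X v = 0}

end

end Pool.Agent.Lib.MP_1a91b9_ntQT
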