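import Pool.Agent.Lib.MP_1a91b9_ntQT.SY0

/-!
# Quartic stability, block SY

Leaf SY1: `Lam D σ X` is Lagrangian. Isotropic: for `(x, y)`, `(x', y')` in `KK`, `om = ∑ j ((a^T x)_j y'_j + (a^T x')_j y_j) = x · (a y') +
x' · (a y) = x · (N x') + x' · (N x) = 0`, `N` symmetric (`D.Sym`; `N x (q) = dg σ q x q + ∑ l, s q l (x q + x l)`, see
`Dat2.N_mulVec`, `ntQ/D/Mat`). Maximal: `(u', y')` orthogonal to `mu KK` means that the linear form `(x, y) ↦ x · (a y') + y · u'`
vanishes on `KK = ker [N | a]`; so `(a y', u')` is in the range of the transpose of `[N | a]`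
(`LinearMap.range_dualMap_eq_dualAnnihilator_ker`, or a count of dimensions): `a y' = N x'`, `u' = a^T x'`.
-/

set_option autoImplicit false
set_option linter.unusedSectionVars false

namespace Pool.Agent.Lib.MP_1a91b9_ntQT

open Finset Pool.Agent.Lib.MP_1a91b9_ntH Pool.Agent.Lib.MP_1a91b9_ntQ Pool.Agent.Lib.MP_1a91b9_ntQ.Da
  Pool.Agent.Lib.MP_1a91b9_ntQ.M Pool.Agent.Lib.MP_1a91b9_ntM Pool.Agent.Lib.MP_1a91b9_ntM.E

noncomputable section

variable {ι : Type} [DecidableEq ι] {κ : Type} [Fintype κ] [DecidableEq κ]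

private def SY1_N (D : Dat2 ι κ) (σ : κ → ZMod 2) (X : Finset ι) (x : X → ZMod 2) (q : X) : ZMod 2 :=
  D.dg σ q * x q + ∑ l : X, D.s q l * (x q + x l)

private theorem SY1_symm {D : Dat2 ι κ} (hs : D.Sym) (σ : κ → ZMod 2) (X : Finset ι) (x w : X → ZMod 2) :
    ∑ q, x q * SY1_N D σ X w q = ∑ q, w q * SY1_N D σ X x q := by
  have hsym : ∀ p q : ι, D.s p q = D.s q p := by
    intro p q
    by_cases h : p = q
    · rw [h]
    · exact hs p q h
  have key : ∀ x w : X → ZMod 2, ∑ q, x q * SY1_N D σ X w q = ∑ q : X, D.dg σ q * (x q * w q) +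
      (∑ q : X, ∑ l : X, D.s q l * (x q * w q) + ∑ q : X, ∑ l : X, D.s q l * (x q * w l)) := by
    intro x w
    rw [← sum_add_distrib, ← sum_add_distrib]
    refine sum_congr rfl fun q _ => ?_
    unfold SY1_N
    rw [mul_add, mul_sum, ← sum_add_distrib]
    congr 1
    · ring
    · exact sum_congr rfl fun l _ => by ring
  rw [key x w, key w x]
  congr 1
  · exact sum_congr rfl fun q _ => by ring
  · congr 1
    · exact sum_congr rfl fun q _ => sum_congr rfl fun l _ => by ring
    · rw [sum_comm]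
      exact sum_congr rfl fun q _ => sum_congr rfl fun l _ => by
        rw [hsym l q]
        ring

private def SY1_T (D : Dat2 ι κ) (σ : κ → ZMod 2) (X : Finset ι) :
    ((X → ZMod 2) × (κ → ZMod 2)) →ₗ[ZMod 2] (X → ZMod 2) where
  toFun v q := SY1_N D σ X v.1 q + ∑ j, D.a q j * v.2 j
  map_add' v w := by
    funext q
    show SY1_N D σ X (v + w).1 q + ∑ j, D.a q j * (v + w).2 j = (SY1_N D σ X v.1 q + ∑ j, D.a q j * v.2 j) +
      (SY1_N D σ X w.1 q + ∑ j, D.a q j * w.2 j)
    have e1 : SY1_N D σ X (v + w).1 q = SY1_N D σ X v.1 q + SY1_N D σ X w.1 q := by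
      unfold SY1_N
      have e2 : ∑ l : X, D.s q l * ((v + w).1 q + (v + w).1 l) =
          ∑ l : X, D.s q l * (v.1 q + v.1 l) + ∑ l : X, D.s q l * (w.1 q + w.1 l) := by
        rw [← sum_add_distrib]
        refine sum_congr rfl fun l _ => ?_
        simp only [Prod.fst_add, Pi.add_apply]
        ring
      rw [e2]
      simp only [Prod.fst_add, Pi.add_apply]
      ring
    have e3 : ∑ j, D.a q j * (v + w).2 j = ∑ j, D.a q j * v.2 j + ∑ j, D.a q j * w.2 j := by
      rw [← sum_add_distrib]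
      refine sum_congr rfl fun l _ => ?_
      simp only [Prod.snd_add, Pi.add_apply]
      ring
    rw [e1, e3]
    ring
  map_smul' c v := by
    funext q
    show SY1_N D σ X (c • v).1 q + ∑ j, D.a q j * (c • v).2 j = c * (SY1_N D σ X v.1 q + ∑ j, D.a q j * v.2 j)
    have e1 : SY1_N D σ X (c • v).1 q = c * SY1_N D σ X v.1 q := by
      unfold SY1_N
      have e2 : ∑ l : X, D.s q l * ((c • v).1 q + (c • v).1 l) = c * ∑ l : X, D.s q l * (v.1 q + v.1 l) := by
        rw [mul_sum]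
        refine sum_congr rfl fun l _ => ?_
        simp only [Prod.smul_fst, Pi.smul_apply, smul_eq_mul]
        ring
      rw [e2]
      simp only [Prod.smul_fst, Pi.smul_apply, smul_eq_mul]
      ring
    have e3 : ∑ j, D.a q j * (c • v).2 j = c * ∑ j, D.a q j * v.2 j := by
      rw [mul_sum]
      refine sum_congr rfl fun l _ => ?_
      simp only [Prod.smul_snd, Pi.smul_apply, smul_eq_mul]
      ring
    rw [e1, e3]
    ring

private theorem SY1_mem {D : Dat2 ι κ} {σ : κ → ZMod 2} {X : Finset ι} {v : (X → ZMod 2) × (κ → ZMod 2)} :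
    v ∈ KK D σ X ↔ ∀ q, SY1_T D σ X v q = 0 := Iff.rfl

private theorem SY1_om (D : Dat2 ι κ) (X : Finset ι) (v : (X → ZMod 2) × (κ → ZMod 2)) (p : LA.V κ) :
    LA.om p (mu D X v) = ∑ j, p.1 j * v.2 j + ∑ q : X, v.1 q * ∑ j, D.a q j * p.2 j := by
  have h1 : LA.om p (mu D X v) = ∑ j, (p.1 j * v.2 j + (∑ q : X, D.a q j * v.1 q) * p.2 j) := rfl
  rw [h1, sum_add_distrib]
  congr 1
  have h2 : ∀ j, (∑ q : X, D.a q j * v.1 q) * p.2 j = ∑ q : X, v.1 q * (D.a q j * p.2 j) := by
    intro j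
    rw [sum_mul]
    exact sum_congr rfl fun q _ => by ring
  simp only [h2, mul_sum]
  rw [sum_comm]

theorem Lam_lg {D : Dat2 ι κ} (hs : D.Sym) (σ : κ → ZMod 2) (X : Finset ι) : LA.Lg (Lam D σ X) := by
  have h2 : ∀ x : ZMod 2, x + x = 0 := by decide
  have hneg : ∀ x y : ZMod 2, x + y = 0 → x = y := by decide
  apply le_antisymm
  · intro p hp
    have hφ : ∀ v ∈ KK D σ X, ∑ j, p.1 j * v.2 j + ∑ q : X, v.1 q * ∑ j, D.a q j * p.2 j = 0 := by
      intro v hv
      rw [← SY1_om]
      exact hp _ (Submodule.mem_map_of_mem hv)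
    obtain ⟨φ, hφd⟩ : ∃ φ : Module.Dual (ZMod 2) ((X → ZMod 2) × (κ → ZMod 2)), ∀ v, φ v = LA.om p (mu D X v) := by
      refine ⟨{ toFun := fun v => LA.om p (mu D X v), map_add' := fun v w => ?_, map_smul' := fun c v => ?_ },
        fun v => rfl⟩
      · rw [map_add, LA.om_add_right]
      · rw [map_smul, LA.om_smul_right]
        rfl
    have hmem : φ ∈ LinearMap.range (SY1_T D σ X).dualMap := by
      rw [LinearMap.range_dualMap_eq_dualAnnihilator_ker, Submodule.mem_dualAnnihilator]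
      intro v hv
      rw [hφd, SY1_om]
      refine hφ v (SY1_mem.2 fun q => ?_)
      have h3 : SY1_T D σ X v = 0 := hv
      rw [h3]
      rfl
    obtain ⟨ψ, hψ⟩ := hmem
    obtain ⟨x', hx'⟩ : ∃ x' : X → ZMod 2, ∀ q, x' q = ψ (Pi.single q 1) := ⟨_, fun _ => rfl⟩
    have hψs : ∀ w : X → ZMod 2, ψ w = ∑ q, x' q * w q := by
      intro w
      have h3 : w = ∑ q, w q • (Pi.single q 1 : X → ZMod 2) := by
        funext l
        rw [Finset.sum_apply]
        simp [Pi.single_apply]
      conv_lhs => rw [h3]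
      rw [map_sum]
      refine sum_congr rfl fun q _ => ?_
      rw [map_smul, hx', smul_eq_mul, mul_comm]
    have hall : ∀ v, ∑ q, x' q * SY1_T D σ X v q =
        ∑ j, p.1 j * v.2 j + ∑ q : X, v.1 q * ∑ j, D.a q j * p.2 j := by
      intro v
      rw [← hψs, ← SY1_om, ← hφd, ← hψ]
      rfl
    -- the second component
    have hu : ∀ j, ∑ q : X, D.a q j * x' q = p.1 j := by
      intro j
      have h3 := hall (0, Pi.single j 1)
      have h4 : ∀ q, SY1_T D σ X (0, Pi.single j 1) q = D.a q j := by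
        intro q
        show SY1_N D σ X (0 : X → ZMod 2) q + ∑ i, D.a q i * (Pi.single j 1 : κ → ZMod 2) i = D.a q j
        have h5 : SY1_N D σ X (0 : X → ZMod 2) q = 0 := by
          unfold SY1_N
          simp
        rw [h5, zero_add]
        simp [Pi.single_apply]
      simp only [h4] at h3
      have h6 : ∑ i, p.1 i * (Pi.single j 1 : κ → ZMod 2) i = p.1 j := by
        simp [Pi.single_apply]
      rw [h6] at h3
      have h7 : ∑ q : X, (0 : X → ZMod 2) q * ∑ j, D.a q j * p.2 j = 0 := by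
        simp
      rw [h7, add_zero] at h3
      rw [← h3]
      exact sum_congr rfl fun q _ => mul_comm _ _
    have hN : ∀ q : X, SY1_N D σ X x' q = ∑ j, D.a q j * p.2 j := by
      intro q
      have h3 := hall (Pi.single q 1, 0)
      have h4 : ∀ l, SY1_T D σ X (Pi.single q 1, 0) l = SY1_N D σ X (Pi.single q 1) l := by
        intro l
        show SY1_N D σ X (Pi.single q 1) l + ∑ i, D.a l i * (0 : κ → ZMod 2) i = _
        simp
      simp only [h4] at h3
      rw [SY1_symm hs] at h3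
      have h5 : ∑ l : X, (Pi.single q 1 : X → ZMod 2) l * SY1_N D σ X x' l = SY1_N D σ X x' q := by
        simp [Pi.single_apply]
      have h6 : ∑ l : X, (Pi.single q 1 : X → ZMod 2) l * ∑ j, D.a l j * p.2 j = ∑ j, D.a q j * p.2 j := by
        simp [Pi.single_apply]
      have h7 : ∑ j, p.1 j * (0 : κ → ZMod 2) j = 0 := by simp
      rw [h5, h6, h7, zero_add] at h3
      exact h3
    refine ⟨(x', p.2), SY1_mem.2 fun q => ?_, ?_⟩
    · show SY1_N D σ X x' q + ∑ j, D.a q j * p.2 j = 0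
      rw [hN]
      exact h2 _
    · exact Prod.ext (funext hu) rfl
  · rintro _ ⟨v, hv, rfl⟩ _ ⟨w, hw, rfl⟩
    have hv' : ∀ q, SY1_N D σ X v.1 q = ∑ j, D.a q j * v.2 j := fun q => hneg _ _ (SY1_mem.1 hv q)
    have hw' : ∀ q, SY1_N D σ X w.1 q = ∑ j, D.a q j * w.2 j := fun q => hneg _ _ (SY1_mem.1 hw q)
    rw [SY1_om]
    have h3 : ∑ j, (mu D X v).1 j * w.2 j = ∑ q : X, v.1 q * ∑ j, D.a q j * w.2 j := by
      have h4 : ∀ j, (mu D X v).1 j * w.2 j = ∑ q : X, v.1 q * (D.a q j * w.2 j) := by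
        intro j
        show (∑ q : X, D.a q j * v.1 q) * w.2 j = _
        rw [sum_mul]
        exact sum_congr rfl fun q _ => by ring
      simp only [h4, mul_sum]
      rw [sum_comm]
    have h5 : ∀ q : X, ∑ j, D.a q j * (mu D X v).2 j = SY1_N D σ X v.1 q := fun q => (hv' q).symm
    rw [h3]
    simp only [h5, ← hw']
    rw [SY1_symm hs]
    exact h2 _

end

end Pool.Agent.Lib.MP_1a91b9_ntQT
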