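import Pool.Agent.Lib.MP_1a91b9_ntQT.SY0

/-!
# Quartic stability, block SY

Leaf SY2: elementary facts. `kB_eq`: the kernel of `D.NB σ P R X` consists of the `(x, z)` with `(x, P z) ∈ KK`
(`Dat2.NB_inl`, `D.bd P q e = ∑ j, P j e * D.a q j`) and `P^T (a^T x) + R z = 0` (`Dat2.NB_inr`); `P` is injective, so `(x, z) ↦
(x, P z)` is a bijection onto the `v ∈ KK` with `mu v ∈ lag P R` (`LA.mem_lag`). `card_fib`: the fibres of `mu : {v ∈ KK // mu v ∈ L} →
Lam ⊓ L` are cosets of the kernel. `w0_mem`: the image of `(1, σ)`, which is in `KK` (`x + x = 0`). `ker0_of_zero`: if the image of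
`(1, σ)` is `0` and `X ≠ ∅` then there are at least two vectors in the kernel.
-/

set_option autoImplicit false
set_option linter.unusedSectionVars false

namespace Pool.Agent.Lib.MP_1a91b9_ntQT

open Finset Pool.Agent.Lib.MP_1a91b9_ntH Pool.Agent.Lib.MP_1a91b9_ntQ Pool.Agent.Lib.MP_1a91b9_ntQ.Da
  Pool.Agent.Lib.MP_1a91b9_ntQ.M Pool.Agent.Lib.MP_1a91b9_ntM Pool.Agent.Lib.MP_1a91b9_ntM.E

noncomputable section

variable {ι : Type} [DecidableEq ι] {κ : Type} [Fintype κ] [DecidableEq κ]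

theorem kB_eq (D : Dat2 ι κ) (σ : κ → ZMod 2) {E : Type} [Fintype E] [DecidableEq E] (P : κ → E → ZMod 2)
    (R : Matrix E E (ZMod 2)) (hP : ∀ z : E → ZMod 2, (∀ j, ∑ e, P j e * z e = 0) → z = 0)
    (X : Finset ι) :
    D.kB σ P R X = Nat.card {v : KK D σ X // mu D X v ∈ LA.lag P R} := by
  have hbd : ∀ (q : X) (z : E → ZMod 2), ∑ j, D.a q j * (∑ e, P j e * z e) = ∑ e, D.bd P q e * z e := by
    intro q z
    unfold Dat2.bd
    simp only [mul_sum, sum_mul]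
    rw [sum_comm]
    exact sum_congr rfl fun e _ => sum_congr rfl fun j _ => by ring
  have hbd2 : ∀ (e : E) (x : X → ZMod 2), ∑ j, P j e * (∑ q : X, D.a q j * x q) = ∑ q : X, D.bd P q e * x q := by
    intro e x
    unfold Dat2.bd
    simp only [mul_sum, sum_mul]
    rw [sum_comm]
    exact sum_congr rfl fun q _ => sum_congr rfl fun j _ => by ring
  have hk : ∀ v : {v : X ⊕ E → ZMod 2 // (D.NB σ P R X).mulVec v = 0},
      ((fun q => v.1 (Sum.inl q), fun j => ∑ e, P j e * v.1 (Sum.inr e)) : (X → ZMod 2) × (κ → ZMod 2)) ∈ KK D σ X := by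
    rintro ⟨v, hv⟩ q
    have h1 := congrFun hv (Sum.inl q)
    rw [D.NB_inl, Pi.zero_apply] at h1
    show D.dg σ q * v (Sum.inl q) + ∑ l : X, D.s q l * (v (Sum.inl q) + v (Sum.inl l)) +
      ∑ j, D.a q j * (∑ e, P j e * v (Sum.inr e)) = 0
    rw [hbd q fun e => v (Sum.inr e)]
    exact h1
  have hl : ∀ v : {v : X ⊕ E → ZMod 2 // (D.NB σ P R X).mulVec v = 0},
      mu D X ((fun q => v.1 (Sum.inl q), fun j => ∑ e, P j e * v.1 (Sum.inr e)) : (X → ZMod 2) × (κ → ZMod 2)) ∈ LA.lag P R := by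
    rintro ⟨v, hv⟩
    refine ⟨fun e => v (Sum.inr e), fun j => rfl, fun e => ?_⟩
    have h1 := congrFun hv (Sum.inr e)
    rw [D.NB_inr, Pi.zero_apply] at h1
    show ∑ j, P j e * (∑ q : X, D.a q j * v (Sum.inl q)) + ∑ f, R e f * v (Sum.inr f) = 0
    rw [hbd2 e fun q => v (Sum.inl q)]
    exact h1
  unfold Dat2.kB
  rw [← Nat.card_eq_fintype_card]
  refine Nat.card_eq_of_bijective (fun v => (⟨⟨_, hk v⟩, hl v⟩ : {v : KK D σ X // mu D X v ∈ LA.lag P R})) ⟨?_, ?_⟩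
  · rintro ⟨v, hv⟩ ⟨w, hw⟩ h
    have h1 := congrArg (fun u : {v : KK D σ X // mu D X v ∈ LA.lag P R} => ((u.1 : KK D σ X) : (X → ZMod 2) × (κ → ZMod 2))) h
    have h2 := congrArg Prod.fst h1
    have h3 := congrArg Prod.snd h1
    refine Subtype.ext (funext fun t => ?_)
    rcases t with q | e
    · exact congrFun h2 q
    · have h4 := hP (fun e => v (Sum.inr e) - w (Sum.inr e)) fun j => by
        have h5 : ∑ e, P j e * v (Sum.inr e) = ∑ e, P j e * w (Sum.inr e) := congrFun h3 j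
        simp only [mul_sub, sum_sub_distrib]
        rw [h5, sub_self]
      exact sub_eq_zero.1 (congrFun h4 e)
  · rintro ⟨⟨⟨x, y⟩, hv⟩, z, h1, h2⟩
    have h1' : ∀ j, y j = ∑ e, P j e * z e := h1
    have h2' : ∀ e, ∑ j, P j e * (∑ q : X, D.a q j * x q) + ∑ f, R e f * z f = 0 := h2
    have hy : y = fun j => ∑ e, P j e * z e := funext h1'
    subst hy
    refine ⟨⟨Sum.elim x z, funext fun t => ?_⟩, rfl⟩
    rcases t with q | e
    · rw [D.NB_inl, Pi.zero_apply]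
      have h3 : D.dg σ q * x q + ∑ l : X, D.s q l * (x q + x l) + ∑ j, D.a q j * (∑ e, P j e * z e) = 0 := hv q
      rw [hbd q z] at h3
      exact h3
    · rw [D.NB_inr, Pi.zero_apply]
      have h3 := h2' e
      rw [hbd2 e x] at h3
      exact h3

theorem card_fib (D : Dat2 ι κ) (σ : κ → ZMod 2) (X : Finset ι)
    (L : Submodule (ZMod 2) (LA.V κ)) :
    Nat.card {v : KK D σ X // mu D X v ∈ L} =
      ker0 D σ X * Nat.card (Lam D σ X ⊓ L : Submodule (ZMod 2) (LA.V κ)) := by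
  obtain ⟨G, hG⟩ : ∃ G : Submodule (ZMod 2) (KK D σ X), ∀ v, v ∈ G ↔ mu D X v ∈ L :=
    ⟨L.comap ((mu D X).comp (KK D σ X).subtype), fun v => Iff.rfl⟩
  obtain ⟨f, hf⟩ : ∃ f : G →ₗ[ZMod 2] LA.V κ, ∀ v, f v = mu D X v.1 :=
    ⟨((mu D X).comp (KK D σ X).subtype).comp G.subtype, fun _ => rfl⟩
  have h1 : Nat.card {v : KK D σ X // mu D X v ∈ L} = Nat.card G :=
    Nat.card_congr (Equiv.subtypeEquivRight fun v => (hG v).symm)
  have h2 : Nat.card (LinearMap.ker f) = ker0 D σ X := by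
    refine Nat.card_eq_of_bijective (fun v => (⟨v.1.1, by rw [← hf]; exact v.2⟩ : {v : KK D σ X // mu D X v = 0})) ⟨?_, ?_⟩
    · rintro ⟨⟨v, hv⟩, hv'⟩ ⟨⟨w, hw⟩, hw'⟩ h
      have h3 : v = w := congrArg (fun u : {v : KK D σ X // mu D X v = 0} => u.1) h
      subst h3
      rfl
    · rintro ⟨v, hv⟩
      exact ⟨⟨⟨v, (hG v).2 (by rw [hv]; exact L.zero_mem)⟩, (hf _).trans hv⟩, rfl⟩
  have h3 : LinearMap.range f = Lam D σ X ⊓ L := by
    ext p
    rw [LinearMap.mem_range, Submodule.mem_inf]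
    constructor
    · rintro ⟨v, rfl⟩
      rw [hf]
      exact ⟨⟨v.1, v.1.2, rfl⟩, (hG v.1).1 v.2⟩
    · rintro ⟨⟨v, hv, rfl⟩, h4⟩
      exact ⟨⟨⟨v, hv⟩, (hG _).2 h4⟩, hf _⟩
  rw [h1, ← h2, ← h3]
  have h4 := (LinearMap.toAddMonoidHom f).ker.card_mul_index
  rw [AddSubgroup.index_ker] at h4
  exact h4.symm

theorem triv_iff_mem {σ : κ → ZMod 2} {E : Type} [Fintype E] [DecidableEq E] {P : κ → E → ZMod 2}
    {R : Matrix E E (ZMod 2)} {α : κ → ZMod 2} : Triv σ P R α ↔ ((α, σ) : LA.V κ) ∈ LA.lag P R := by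
  rw [LA.mem_lag]
  unfold Triv
  exact exists_congr fun z => and_congr (forall_congr' fun j => eq_comm) Iff.rfl

theorem w0_mem (D : Dat2 ι κ) (σ : κ → ZMod 2) {X : Finset ι} {α : κ → ZMod 2}
    (hα : ∀ j, ∑ q ∈ X, D.a q j = α j) : ((α, σ) : LA.V κ) ∈ Lam D σ X := by
  have h2 : (1 : ZMod 2) + 1 = 0 := by decide
  refine ⟨((fun _ => 1, σ) : (X → ZMod 2) × (κ → ZMod 2)), fun q => ?_, ?_⟩
  · show D.dg σ q * 1 + ∑ l : X, D.s q l * (1 + 1) + ∑ j, D.a q j * σ j = 0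
    have h3 : ∑ j, D.a q j * σ j = D.dg σ q := sum_congr rfl fun j _ => mul_comm _ _
    rw [h3, h2]
    simp only [mul_zero, sum_const_zero, add_zero, mul_one]
    exact z2_add_self _
  · refine Prod.ext (funext fun j => ?_) rfl
    show ∑ q : X, D.a q j * 1 = α j
    rw [← hα j]
    simp only [mul_one]
    exact sum_coe_sort X fun q => D.a q j

theorem ker0_pos (D : Dat2 ι κ) (σ : κ → ZMod 2) (X : Finset ι) : 0 < ker0 D σ X := by
  unfold ker0
  have : Nonempty {v : KK D σ X // mu D X v = 0} := ⟨⟨0, map_zero (mu D X)⟩⟩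
  exact Nat.card_pos

theorem ker0_of_zero (D : Dat2 ι κ) (σ : κ → ZMod 2) {X : Finset ι} (hX : X ≠ ∅) {α : κ → ZMod 2}
    (hα : ∀ j, ∑ q ∈ X, D.a q j = α j) (h0 : ((α, σ) : LA.V κ) = 0) : 2 ≤ ker0 D σ X := by
  have h2 : (1 : ZMod 2) + 1 = 0 := by decide
  have hσ : σ = 0 := congrArg Prod.snd h0
  have hα0 : α = 0 := congrArg Prod.fst h0
  obtain ⟨q0, hq0⟩ := Finset.nonempty_iff_ne_empty.2 hX
  have hm : ((fun _ => 1, σ) : (X → ZMod 2) × (κ → ZMod 2)) ∈ KK D σ X := by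
    intro q
    show D.dg σ q * 1 + ∑ l : X, D.s q l * (1 + 1) + ∑ j, D.a q j * σ j = 0
    have h3 : ∑ j, D.a q j * σ j = D.dg σ q := sum_congr rfl fun j _ => mul_comm _ _
    rw [h3, h2]
    simp only [mul_zero, sum_const_zero, add_zero, mul_one]
    exact z2_add_self _
  have hmu : mu D X ((fun _ => 1, σ) : (X → ZMod 2) × (κ → ZMod 2)) = 0 := by
    refine Prod.ext (funext fun j => ?_) hσ
    show ∑ q : X, D.a q j * 1 = 0
    have h3 : ∑ q : X, D.a q j * 1 = α j := by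
      rw [← hα j]
      simp only [mul_one]
      exact sum_coe_sort X fun q => D.a q j
    rw [h3, hα0]
    rfl
  have : Nontrivial {v : KK D σ X // mu D X v = 0} := by
    refine ⟨⟨⟨_, hm⟩, hmu⟩, ⟨0, map_zero (mu D X)⟩, fun h => ?_⟩
    have h3 := congrArg (fun u : {v : KK D σ X // mu D X v = 0} => ((u.1 : KK D σ X) : (X → ZMod 2) × (κ → ZMod 2)).1 ⟨q0, hq0⟩) h
    exact one_ne_zero (α := ZMod 2) h3
  unfold ker0
  exact Finite.one_lt_card

end

end Pool.Agent.Lib.MP_1a91b9_ntQT
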