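import Pool.Agent.Lib.MP_1a91b9_ntQT.LA1
import Pool.Agent.Lib.MP_1a91b9_ntQT.SY0

/-!
# Quartic stability, block SY

Leaf SY3 (pure linear algebra, with the facts of LA1 on `perp`): for a Lagrangian `L` and `w ∉ L` put `L' = (L ⊓ perp (sp w)) ⊔ sp w`. It is
Lagrangian (`perp (L ⊓ perp (sp w)) = L ⊔ sp w`, by the dimensions / `perp_perp`), it contains `w`, and for `Λ` Lagrangian, `w ∈ Λ`: `v ∈ Λ ⊓ L'`,
`v = l + c w`, gives `l ∈ Λ ⊓ L`; and `Λ ≤ perp (sp w)`.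
-/

set_option autoImplicit false
set_option linter.unusedSectionVars false

namespace Pool.Agent.Lib.MP_1a91b9_ntQT

open Finset Pool.Agent.Lib.MP_1a91b9_ntH Pool.Agent.Lib.MP_1a91b9_ntQ Pool.Agent.Lib.MP_1a91b9_ntQ.Da
  Pool.Agent.Lib.MP_1a91b9_ntQ.M Pool.Agent.Lib.MP_1a91b9_ntM Pool.Agent.Lib.MP_1a91b9_ntM.E

noncomputable section

variable {ι : Type} [DecidableEq ι] {κ : Type} [Fintype κ] [DecidableEq κ]

theorem exists_sharp {w : LA.V κ} {L : Submodule (ZMod 2) (LA.V κ)} (hL : LA.Lg L) (hw : w ∉ L) :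
    ∃ L' : LA.LL w, ∀ Λ : Submodule (ZMod 2) (LA.V κ), LA.Lg Λ → w ∈ Λ →
      (Λ ⊓ L = ⊥ ↔ Λ ⊓ L'.1 = LA.sp w) := by
  set M : Submodule (ZMod 2) (LA.V κ) := L ⊓ LA.perp (LA.sp w) with hM
  have hLL : LA.perp L = L := hL
  have hIM : LA.Iso M := LA.Iso.mono (inf_le_left : M ≤ L) (le_of_eq hLL.symm)
  have hww : w ∈ LA.sp w := LA.mem_sp.2 (Or.inr rfl)
  have hwM : w ∈ LA.perp M := by
    intro q hq
    rw [LA.om_symm]
    exact hq.2 w hww
  have hwM' : w ∉ M := fun h => hw h.1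
  have hIL : LA.Iso (M ⊔ LA.sp w) := LA.Iso.sup_sp hIM hwM
  have hfr : Module.finrank (ZMod 2) (M ⊔ LA.sp w : Submodule (ZMod 2) (LA.V κ)) = Fintype.card κ := by
    rw [LA.finrank_sup_sp hwM']
    have h1 := LA.finrank_perp M
    rw [hM, LA.perp_inf, LA.perp_perp, hLL, LA.finrank_sup_sp hw, LA.Lg.finrank hL, ← hM] at h1
    omega
  refine ⟨⟨M ⊔ LA.sp w, LA.Lg.of_iso hIL hfr, Submodule.mem_sup_right hww⟩, fun Λ hΛ hwΛ => ?_⟩
  have hΛΛ : LA.perp Λ = Λ := hΛ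
  constructor
  · intro h
    refine le_antisymm ?_ ?_
    · rintro x ⟨hx, hx2⟩
      rcases LA.mem_sup_sp.1 hx2 with h1 | h1
      · have h2 : x ∈ Λ ⊓ L := ⟨hx, h1.1⟩
        rw [h, Submodule.mem_bot] at h2
        rw [h2]
        exact Submodule.zero_mem _
      · have h2 : x + w ∈ Λ ⊓ L := ⟨Λ.add_mem hx hwΛ, h1.1⟩
        rw [h, Submodule.mem_bot] at h2
        rw [eq_neg_of_add_eq_zero_left h2]
        exact Submodule.neg_mem _ hww
    · intro x hx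
      rcases LA.mem_sp.1 hx with rfl | rfl
      · exact Submodule.zero_mem _
      · exact ⟨hwΛ, Submodule.mem_sup_right hww⟩
  · intro h
    rw [eq_bot_iff]
    rintro x ⟨hx, hxL⟩
    have hxp : x ∈ LA.perp (LA.sp w) := by
      rw [← hΛΛ] at hx
      intro q hq
      rcases LA.mem_sp.1 hq with rfl | rfl
      · rw [LA.om_symm]
        exact LA.om_zero_left _
      · exact hx _ hwΛ
    have h2 : x ∈ Λ ⊓ (M ⊔ LA.sp w) := ⟨hx, Submodule.mem_sup_left ⟨hxL, hxp⟩⟩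
    have h3 : x ∈ LA.sp w := by
      rw [← h]
      exact h2
    rcases LA.mem_sp.1 h3 with rfl | rfl
    · exact Submodule.zero_mem _
    · exact absurd hxL hw

end

end Pool.Agent.Lib.MP_1a91b9_ntQT
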