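import Pool.Agent.Lib.MP_1a91b9_ntQT.LA13
import Pool.Agent.Lib.MP_1a91b9_ntQT.SY1
import Pool.Agent.Lib.MP_1a91b9_ntQT.SY2
import Pool.Agent.Lib.MP_1a91b9_ntQT.SY3

/-!
# Quartic stability, block SY

Leaf SY4: `gd_iff`: `L'` = `lag S.P S.R` if `w = (α, σ)` is in it (`triv_iff_mem`; then the kernel has the size `2` iff `ker0 * #(Lam ⊓ L) = 2`
by `kB_eq`, `card_fib`; `w ∈ Lam ⊓ L`; if `w ≠ 0` this means `ker0 = 1` and `Lam ⊓ L = sp w`; if `w = 0` then `2 ≤ ker0` and it means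
`ker0 = 2`, `Lam ⊓ L = ⊥ = sp 0`), and the `L'` of `exists_sharp` if `w ∉ lag S.P S.R` (then `w ≠ 0`, and the size is `1` iff `ker0 = 1` and
`Lam ⊓ L = ⊥`). `exists_S`: `LA.exists_sys` for `L`, then `w ∈ L` so `gd_iff` applies with `L' = L`.
-/

set_option autoImplicit false
set_option linter.unusedSectionVars false

namespace Pool.Agent.Lib.MP_1a91b9_ntQT

open Finset Pool.Agent.Lib.MP_1a91b9_ntH Pool.Agent.Lib.MP_1a91b9_ntQ Pool.Agent.Lib.MP_1a91b9_ntQ.Da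
  Pool.Agent.Lib.MP_1a91b9_ntQ.M Pool.Agent.Lib.MP_1a91b9_ntM Pool.Agent.Lib.MP_1a91b9_ntM.E

noncomputable section

variable {ι : Type} [DecidableEq ι] {κ : Type} [Fintype κ] [DecidableEq κ]

private theorem SY4_card {w : LA.V κ} (hw : w ≠ 0) : Nat.card (LA.sp w) = 2 := by
  rw [LA.natCard_eq]
  unfold LA.sp
  rw [finrank_span_singleton hw, pow_one]

private theorem SY4_pos (U : Submodule (ZMod 2) (LA.V κ)) : 0 < Nat.card U := by
  rw [LA.natCard_eq]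
  exact Nat.pow_pos (by norm_num)

private theorem SY4_eq {A B : Submodule (ZMod 2) (LA.V κ)} (h : A ≤ B) (hc : Nat.card A = Nat.card B) : B = A := by
  rw [LA.natCard_eq, LA.natCard_eq] at hc
  exact (Submodule.eq_of_le_of_finrank_eq h (Nat.pow_right_injective (le_refl 2) hc)).symm

private theorem SY4_two (D : Dat2 ι κ) (σ : κ → ZMod 2) {X : Finset ι} (hX : X ≠ ∅) {α : κ → ZMod 2}
    (hα : ∀ j, ∑ q ∈ X, D.a q j = α j) : 2 ≤ ker0 D σ X * Nat.card (LA.sp ((α, σ) : LA.V κ)) := by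
  by_cases h0 : ((α, σ) : LA.V κ) = 0
  · have h1 := ker0_of_zero D σ hX hα h0
    have h2 := SY4_pos (LA.sp ((α, σ) : LA.V κ))
    calc 2 ≤ ker0 D σ X := h1
      _ = ker0 D σ X * 1 := (mul_one _).symm
      _ ≤ ker0 D σ X * Nat.card (LA.sp ((α, σ) : LA.V κ)) := Nat.mul_le_mul_left _ h2
  · rw [SY4_card h0]
    have h1 := ker0_pos D σ X
    omega

private theorem SY4_inj {S : Sy κ} (hS : S.OK 0) (z : S.W → ZMod 2) (hz : ∀ j, ∑ e, S.P j e * z e = 0) : z = 0 :=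
  hS.bd z 0 fun j => by rw [hz j, zero_mul]

private theorem SY4_mem {D : Dat2 ι κ} (σ α : κ → ZMod 2) {S : Sy κ} (hS : S.OK 0)
    (hw : ((α, σ) : LA.V κ) ∈ LA.lag S.P S.R) {X : Finset ι} (hX : X ≠ ∅) (hα : ∀ j, ∑ q ∈ X, D.a q j = α j) :
    gdS D σ S α X ↔ ker0 D σ X * Nat.card (LA.sp ((α, σ) : LA.V κ)) = 2 ∧
      Lam D σ X ⊓ LA.lag S.P S.R = LA.sp (α, σ) := by
  unfold gdS
  rw [if_pos (triv_iff_mem.2 hw), kB_eq D σ S.P S.R (SY4_inj hS) X, card_fib]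
  constructor
  · intro h
    have h1 : LA.sp ((α, σ) : LA.V κ) ≤ Lam D σ X ⊓ LA.lag S.P S.R := by
      unfold LA.sp
      rw [Submodule.span_singleton_le_iff_mem]
      exact ⟨w0_mem D σ hα, hw⟩
    have h2 : Nat.card (LA.sp ((α, σ) : LA.V κ)) ≤
        Nat.card (Lam D σ X ⊓ LA.lag S.P S.R : Submodule (ZMod 2) (LA.V κ)) := by
      rw [LA.natCard_eq, LA.natCard_eq]
      exact Nat.pow_le_pow_right (by norm_num) (Submodule.finrank_mono h1)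
    have h3 := SY4_two D σ hX hα
    have h4 := Nat.mul_le_mul_left (ker0 D σ X) h2
    have h5 : ker0 D σ X * Nat.card (LA.sp ((α, σ) : LA.V κ)) = 2 := by omega
    refine ⟨h5, SY4_eq h1 ?_⟩
    exact Nat.eq_of_mul_eq_mul_left (ker0_pos D σ X) (h5.trans h.symm)
  · rintro ⟨h1, h2⟩
    rw [h2]
    exact h1

theorem gd_iff {D : Dat2 ι κ} (hs : D.Sym) (σ α : κ → ZMod 2) (S : Sy κ) (hS : S.OK 0) :
    ∃ L' : LA.LL ((α, σ) : LA.V κ), ∀ X : Finset ι, X ≠ ∅ → (∀ j, ∑ q ∈ X, D.a q j = α j) →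
      (gdS D σ S α X ↔ ker0 D σ X * Nat.card (LA.sp ((α, σ) : LA.V κ)) = 2 ∧
        Lam D σ X ⊓ L'.1 = LA.sp (α, σ)) := by
  have hL : LA.Lg (LA.lag S.P S.R) := LA.lag_ok (SY4_inj hS) hS.sym
  by_cases hw : ((α, σ) : LA.V κ) ∈ LA.lag S.P S.R
  · exact ⟨⟨LA.lag S.P S.R, hL, hw⟩, fun X hX hα => SY4_mem σ α hS hw hX hα⟩
  · obtain ⟨L', hL'⟩ := exists_sharp hL hw
    refine ⟨L', fun X hX hα => ?_⟩
    have h0 : ((α, σ) : LA.V κ) ≠ 0 := by
      intro h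
      apply hw
      rw [h]
      exact zero_mem _
    rw [← hL' (Lam D σ X) (Lam_lg hs σ X) (w0_mem D σ hα), SY4_card h0]
    unfold gdS
    rw [if_neg (fun h => hw (triv_iff_mem.1 h)), kB_eq D σ S.P S.R (SY4_inj hS) X, card_fib]
    constructor
    · intro h
      obtain ⟨h1, h2⟩ := mul_eq_one.1 h
      refine ⟨by rw [h1, one_mul], ?_⟩
      refine SY4_eq bot_le ?_
      rw [h2]
      exact Nat.card_unique
    · rintro ⟨h1, h2⟩
      have h3 : ker0 D σ X = 1 := by omega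
      rw [h3, h2, one_mul]
      exact Nat.card_unique

theorem exists_S {D : Dat2 ι κ} (hs : D.Sym) (σ α : κ → ZMod 2) (L : LA.LL ((α, σ) : LA.V κ)) :
    ∃ S : Sy κ, S.OK 0 ∧ ∀ X : Finset ι, X ≠ ∅ → (∀ j, ∑ q ∈ X, D.a q j = α j) →
      (gdS D σ S α X ↔ ker0 D σ X * Nat.card (LA.sp ((α, σ) : LA.V κ)) = 2 ∧
        Lam D σ X ⊓ L.1 = LA.sp (α, σ)) := by
  have _ := hs
  obtain ⟨s, P, R, hP, hR, hL⟩ := LA.exists_sys L.2.1
  have hS : (⟨Fin s, inferInstance, inferInstance, P, R⟩ : Sy κ).OK 0 := by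
    refine ⟨fun x t h => hP x fun j => ?_, hR⟩
    have h1 : ∑ e, P j e * x e = t * (0 : κ → ZMod 2) j := h j
    rw [h1, Pi.zero_apply, mul_zero]
  refine ⟨⟨Fin s, inferInstance, inferInstance, P, R⟩, hS, fun X hX hα => ?_⟩
  have hw : ((α, σ) : LA.V κ) ∈ LA.lag P R := by
    rw [← hL]
    exact L.2.2
  have h1 := SY4_mem (D := D) σ α hS hw hX hα
  rw [h1, hL]

end

end Pool.Agent.Lib.MP_1a91b9_ntQT
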