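import Pool.Agent.Lib.MP_1a91b9_ntQT.SY5

/-!
# Quartic stability, block TL

Leaf TL1: the sum of the weights is at most `1`: `pencil` with `∑ c ≤ 1`: the sum over `Λ` of the identity gives `N13 = (∑ c) N`
(`card_opp`, `card_opp_pos`) and `TT ≤ 1` gives `N13 ≤ N`. `sy_pair2`: `sy_pair` (copy of the proof in SY5) with this.
-/

set_option autoImplicit false
set_option linter.unusedSectionVars false

namespace Pool.Agent.Lib.MP_1a91b9_ntQT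

open Finset Pool.Agent.Lib.MP_1a91b9_ntH Pool.Agent.Lib.MP_1a91b9_ntQ Pool.Agent.Lib.MP_1a91b9_ntQ.Da
  Pool.Agent.Lib.MP_1a91b9_ntQ.M Pool.Agent.Lib.MP_1a91b9_ntM Pool.Agent.Lib.MP_1a91b9_ntM.E

noncomputable section

variable {ι : Type} [DecidableEq ι] {κ : Type} [Fintype κ] [DecidableEq κ]

theorem pencil2 {w : LA.V κ} (L1 L3 : LA.LL w) : ∃ c : LA.LL w → ℝ,
    (∀ Λ : LA.LL w, LA.TT Λ L1 * LA.TT Λ L3 = ∑ L : LA.LL w, c L * LA.TT Λ L) ∧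
      cinf2 ≤ ∑ L : LA.LL w, c L ∧ ∑ L : LA.LL w, c L ≤ 1 := by
  obtain ⟨c, hc⟩ := LA.exists_wt (fun Λ : LA.LL w => LA.TT Λ L1 * LA.TT Λ L3)
  have h1 := LA.card_both L1 L3
  have h2 : ∑ Λ : LA.LL w, LA.TT Λ L1 * LA.TT Λ L3 = (∑ L : LA.LL w, c L) * ∑ Λ : LA.LL w, LA.TT Λ L1 := by
    rw [sum_congr rfl fun Λ _ => hc Λ, sum_comm, sum_mul]
    refine sum_congr rfl fun L _ => ?_
    rw [← mul_sum, LA.card_opp L L1]
  have h3 : ∑ Λ : LA.LL w, LA.TT Λ L1 * LA.TT Λ L3 ≤ 1 * ∑ Λ : LA.LL w, LA.TT Λ L1 := by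
    rw [one_mul]
    refine sum_le_sum fun Λ _ => ?_
    unfold LA.TT
    by_cases h4 : Λ.1 ⊓ L1.1 = LA.sp w
    · by_cases h5 : Λ.1 ⊓ L3.1 = LA.sp w
      · rw [if_pos h4, if_pos h5, mul_one]
      · rw [if_pos h4, if_neg h5, mul_zero]
        exact zero_le_one
    · rw [if_neg h4, zero_mul]
  rw [h2] at h1 h3
  exact ⟨c, hc, le_of_mul_le_mul_right h1 (LA.card_opp_pos L1),
    le_of_mul_le_mul_right h3 (LA.card_opp_pos L1)⟩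

open Classical in
theorem sy_pair2 {D : Dat2 ι κ} (hs : D.Sym) (σ α : κ → ZMod 2) (S1 S3 : Sy κ) (h1 : S1.OK 0)
    (h3 : S3.OK 0) : ∃ (n : ℕ) (S : Fin n → Sy κ) (w : Fin n → ℝ), (∀ i, (S i).OK 0) ∧
      cinf2 ≤ ∑ i, w i ∧ ∑ i, w i ≤ 1 ∧ ∀ X : Finset ι, X ≠ ∅ → (∀ j, ∑ q ∈ X, D.a q j = α j) →
        (if gdS D σ S1 α X ∧ gdS D σ S3 α X then (1 : ℝ) else 0) =
          ∑ i, w i * (if gdS D σ (S i) α X then 1 else 0) := by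
  obtain ⟨L1, hL1⟩ := gd_iff hs σ α S1 h1
  obtain ⟨L3, hL3⟩ := gd_iff hs σ α S3 h3
  obtain ⟨c, hc, hsum, hsum2⟩ := pencil2 L1 L3
  choose S0 hS0 hS1 using fun L : LA.LL ((α, σ) : LA.V κ) => exists_S hs σ α L
  let e : Fin (Fintype.card (LA.LL ((α, σ) : LA.V κ))) ≃ LA.LL ((α, σ) : LA.V κ) := (Fintype.equivFin _).symm
  refine ⟨Fintype.card (LA.LL ((α, σ) : LA.V κ)), fun i => S0 (e i), fun i => c (e i), fun i => hS0 _, ?_, ?_, ?_⟩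
  · rw [Equiv.sum_comp e c]
    exact hsum
  · rw [Equiv.sum_comp e c]
    exact hsum2
  intro X hX hα
  obtain ⟨Λ, hΛ⟩ : ∃ Λ : LA.LL ((α, σ) : LA.V κ), Λ.1 = Lam D σ X :=
    ⟨⟨Lam D σ X, Lam_lg hs σ X, w0_mem D σ hα⟩, rfl⟩
  obtain ⟨k, hk⟩ : ∃ k : ℝ, k = if ker0 D σ X * Nat.card (LA.sp ((α, σ) : LA.V κ)) = 2 then 1 else 0 := ⟨_, rfl⟩
  have hkk : k * k = k := by
    rw [hk]
    split_ifs
    · rw [mul_one]
    · rw [mul_zero]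
  have key : ∀ (S : Sy κ) (L : LA.LL ((α, σ) : LA.V κ)),
      (gdS D σ S α X ↔ ker0 D σ X * Nat.card (LA.sp ((α, σ) : LA.V κ)) = 2 ∧
        Lam D σ X ⊓ L.1 = LA.sp (α, σ)) →
      (if gdS D σ S α X then (1 : ℝ) else 0) = k * LA.TT Λ L := by
    intro S L hSL
    unfold LA.TT
    rw [hk, hΛ]
    by_cases h4 : ker0 D σ X * Nat.card (LA.sp ((α, σ) : LA.V κ)) = 2
    · by_cases h5 : Lam D σ X ⊓ L.1 = LA.sp (α, σ)
      · rw [if_pos (hSL.2 ⟨h4, h5⟩), if_pos h4, if_pos h5, mul_one]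
      · rw [if_neg (fun h => h5 (hSL.1 h).2), if_neg h5, mul_zero]
    · rw [if_neg (fun h => h4 (hSL.1 h).1), if_neg h4, zero_mul]
  have hL : (if gdS D σ S1 α X ∧ gdS D σ S3 α X then (1 : ℝ) else 0) =
      (if gdS D σ S1 α X then (1 : ℝ) else 0) * (if gdS D σ S3 α X then (1 : ℝ) else 0) := by
    by_cases h4 : gdS D σ S1 α X
    · by_cases h5 : gdS D σ S3 α X
      · rw [if_pos ⟨h4, h5⟩, if_pos h4, if_pos h5, mul_one]
      · rw [if_neg (fun h => h5 h.2), if_neg h5, mul_zero]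
    · rw [if_neg (fun h => h4 h.1), if_neg h4, zero_mul]
  rw [hL, key S1 L1 (hL1 X hX hα), key S3 L3 (hL3 X hX hα)]
  have h6 : k * LA.TT Λ L1 * (k * LA.TT Λ L3) = k * ∑ L : LA.LL ((α, σ) : LA.V κ), c L * LA.TT Λ L := by
    rw [← hc Λ]
    linear_combination (LA.TT Λ L1 * LA.TT Λ L3) * hkk
  rw [h6, ← Equiv.sum_comp e (fun L => c L * LA.TT Λ L), mul_sum]
  refine sum_congr rfl fun i _ => ?_
  rw [key (S0 (e i)) (e i) (hS1 (e i) X hX hα)]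
  ring

end

end Pool.Agent.Lib.MP_1a91b9_ntQT
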