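import Pool.Agent.Lib.MP_1a91b9_ntQT.DL1

/-!
# Quartic stability, block TL

Leaf TL2: the mean value of the joint event, as in `densG` (DL1): `ml_sy`, `ML.sum`, `ML.smul`, `Finset.prod_univ_sum`,
`Fintype.piFinset_univ`; the identity `hE` is only known for `B ≠ ∅`: the difference of the sums over `SB ∅ C.cl γ X` is bounded by a
constant, so by `ε X` for large `X`.
-/

set_option autoImplicit false
set_option linter.unusedSectionVars false

namespace Pool.Agent.Lib.MP_1a91b9_ntQT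

open Finset Filter Topology Pool.Agent.Lib.MP_1a91b9_ntH Pool.Agent.Lib.MP_1a91b9_ntQ
  Pool.Agent.Lib.MP_1a91b9_ntQ.Da Pool.Agent.Lib.MP_1a91b9_ntQ.M Pool.Agent.Lib.MP_1a91b9_ntM
  Pool.Agent.Lib.MP_1a91b9_ntM.E

noncomputable section

variable {ι : Type} [DecidableEq ι] {κ : Type} [Fintype κ] [DecidableEq κ]

/-- The term `b0` does not matter. -/
private theorem TL2_ml {β : Type} {B : ℕ → Finset β} {f h : β → ℝ} {v : ℝ} (hh : ML B h v) (b0 : β)
    (hb : ∀ X, ∀ b ∈ B X, b ≠ b0 → f b = h b) : ML B f v := by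
  classical
  intro δ hδ ε hε
  obtain ⟨X1, h1⟩ := hh δ hδ (ε / 2) (by positivity)
  obtain ⟨X2, h2⟩ := exists_nat_ge (|f b0 - h b0| / (ε / 2))
  refine ⟨max X1 X2, fun X hX => ?_⟩
  have h3 := h1 X (le_trans (le_max_left _ _) hX)
  have h4 : |∑ b ∈ B X, f b - ∑ b ∈ B X, h b| ≤ |f b0 - h b0| := by
    rw [← sum_sub_distrib]
    by_cases h5 : b0 ∈ B X
    · have h6 : ∑ b ∈ (B X).erase b0, (f b - h b) = 0 :=
        sum_eq_zero fun b hb' => sub_eq_zero.2 (hb X b (mem_of_mem_erase hb') (ne_of_mem_erase hb'))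
      rw [← add_sum_erase _ _ h5, h6, add_zero]
    · have h6 : ∑ b ∈ B X, (f b - h b) = 0 :=
        sum_eq_zero fun b hb' => sub_eq_zero.2 (hb X b hb' fun h7 => h5 (h7 ▸ hb'))
      rw [h6, abs_zero]
      exact abs_nonneg _
  have h5 : |f b0 - h b0| ≤ ε / 2 * X := by
    have h6 : |f b0 - h b0| / (ε / 2) ≤ (X : ℝ) := by
      refine h2.trans ?_
      exact_mod_cast le_trans (le_max_right _ _) hX
    rw [div_le_iff₀ (by positivity)] at h6
    linarith
  calc |∑ b ∈ B X, f b - v * (B X).card|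
      = |(∑ b ∈ B X, f b - ∑ b ∈ B X, h b) + (∑ b ∈ B X, h b - v * (B X).card)| := by
        congr 1
        ring
    _ ≤ |∑ b ∈ B X, f b - ∑ b ∈ B X, h b| + |∑ b ∈ B X, h b - v * (B X).card| := abs_add_le _ _
    _ ≤ ε / 2 * X + (δ * (B X).card + ε / 2 * X) := add_le_add (h4.trans h5) h3
    _ = δ * (B X).card + ε * X := by ring

open Classical in
/-- **The joint law for linear combinations of systems**, mean values. -/
theorem densML [PS ι] {D : Dat2 ι κ} {ρ : (κ → ZMod 2) → ι → ZMod 2} (hM : MVX D ρ)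
    {A : Type} [Fintype A] [DecidableEq A] [Nonempty A] {cA σ : A → κ → ZMod 2}
    (hsg : ∀ a b, a ≠ b → cA a = cA b → σ a + σ b ≠ 0 ∧ σ a + σ b ≠ cA a)
    {I : A → Type} [∀ a, Fintype (I a)] [∀ a, DecidableEq (I a)] (S : ∀ a, I a → Sy κ)
    (hS : ∀ a i, (S a i).OK (cA a)) (w : ∀ a, I a → ℝ) {G : Type} [AddCommGroup G] [Fintype G]
    (C : Cl2 D G) (γ : G) (Ev : A → Finset ι → Prop)
    (hE : ∀ a (B : Finset ι), B ≠ ∅ → ∑ q ∈ B, C.cl q = γ → (if Ev a B then (1 : ℝ) else 0) =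
      ∑ i, w a i * (if nS D ρ (cA a) (σ a) (S a i) (fun j => C.A j γ) B = 1 then 1 else 0)) :
    ML (SB ∅ C.cl γ) (fun B => ∏ a, if Ev a B then (1 : ℝ) else 0)
      (∏ a, (cinf2 * ∑ i, w a i)) := by
  classical
  set α : κ → ZMod 2 := fun j => C.A j γ with hα
  have h1 : ∀ s : (∀ a, I a), ML (SB ∅ C.cl γ) (fun B => ∏ a,
      if nS D ρ (cA a) (σ a) (S a (s a)) α B = 1 then (1 : ℝ) else 0) (cinf2 ^ Fintype.card A) :=
    fun s => ml_sy hM hsg (fun a => S a (s a)) (fun a => hS a (s a)) C γ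
  have h2 : ML (SB ∅ C.cl γ) (fun B => ∑ s : (∀ a, I a), (∏ a, w a (s a)) * ∏ a,
      (if nS D ρ (cA a) (σ a) (S a (s a)) α B = 1 then (1 : ℝ) else 0))
      (∑ s : (∀ a, I a), (∏ a, w a (s a)) * cinf2 ^ Fintype.card A) :=
    ML.sum univ fun s _ => (h1 s).smul _
  have h3 : ∀ B, ∑ s : (∀ a, I a), (∏ a, w a (s a)) * ∏ a,
      (if nS D ρ (cA a) (σ a) (S a (s a)) α B = 1 then (1 : ℝ) else 0) =
      ∏ a, ∑ i, w a i * (if nS D ρ (cA a) (σ a) (S a i) α B = 1 then 1 else 0) := by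
    intro B
    rw [Finset.prod_univ_sum, Fintype.piFinset_univ]
    exact sum_congr rfl fun s _ => (prod_mul_distrib).symm
  have h4 : ∑ s : (∀ a, I a), (∏ a, w a (s a)) * cinf2 ^ Fintype.card A =
      ∏ a, (cinf2 * ∑ i, w a i) := by
    have h5 : ∑ s : (∀ a, I a), ∏ a, w a (s a) = ∏ a, ∑ i, w a i := by
      rw [Finset.prod_univ_sum, Fintype.piFinset_univ]
    rw [← sum_mul, h5, prod_mul_distrib, prod_const, card_univ, mul_comm]
  refine TL2_ml (h2.congr (fun B => (h3 B).symm) h4.symm) ∅ fun X B hB hB0 => ?_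
  exact prod_congr rfl fun a _ => hE a B hB0 (mem_SB.1 hB).2.2

end

end Pool.Agent.Lib.MP_1a91b9_ntQT
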