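import Pool.Agent.Lib.MP_1a91b9_ntQT.TL1
import Pool.Agent.Lib.MP_1a91b9_ntQT.TL2
import Pool.Agent.Lib.MP_1a91b9_ntZ.Bin

/-!
# Quartic stability, block TL

Leaf TL3: at least `t` of the events: `Mn.lower` (`ntZ/Bin`; `Mn` is `ML`) with `F a B` = the indicator of the event of `a` (times the
indicator of `B ≠ ∅`, or subtract the one set `B = ∅` at the end), `g = cinf2 ^ 3`, `v a = (cinf2 * ∑ w) * (cinf2 * 1)` with the weights of
`sy_pair2` (`cinf2 ≤ ∑ w ≤ 1`, so `g ≤ v a ≤ 1`; `cinf2 ≤ 1`). The mean values of the products over a nonempty `J ⊆ I`: `densML` for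
`A = J × Bool` (as in DL2: `(a, false)`: `cA = 0`, `σ = σ₁ a`, the systems of `sy_pair2`; `(a, true)`: `c₂ a`, `σ₂ a`, the system `S2 a`).
-/

set_option autoImplicit false
set_option linter.unusedSectionVars false

namespace Pool.Agent.Lib.MP_1a91b9_ntQT

open Finset Filter Topology Pool.Agent.Lib.MP_1a91b9_ntH Pool.Agent.Lib.MP_1a91b9_ntQ
  Pool.Agent.Lib.MP_1a91b9_ntQ.Da Pool.Agent.Lib.MP_1a91b9_ntQ.M Pool.Agent.Lib.MP_1a91b9_ntM
  Pool.Agent.Lib.MP_1a91b9_ntM.E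
open Pool.Agent.Lib.MP_1a91b9_ntZ (Atl bn)

noncomputable section

variable {ι : Type} [DecidableEq ι] {κ : Type} [Fintype κ] [DecidableEq κ]

private theorem TL3_flt {α : Type} (s : Finset α) (p : α → Prop) (i : DecidablePred p) (a : α) :
    a ∈ @Finset.filter α p i s ↔ a ∈ s ∧ p a := Finset.mem_filter

private theorem TL3_pos : 0 < cinf2 := by
  by_contra h
  rw [cinf2_eq] at h
  push Not at h
  have h1 : (1 : ℝ) ≤ 0 := le_of_tendsto' tendsto_prod2 fun n =>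
    mul_nonpos_of_nonneg_of_nonpos (prod_nonneg fun i _ => by positivity) h
  linarith

open Classical in
/-- the mean value of the joint event for the triples in a nonempty set -/
private theorem TL3_ml [PS ι] {D : Dat2 ι κ} {ρ : (κ → ZMod 2) → ι → ZMod 2} (hρ : ρ 0 = 0)
    (hM : MVX D ρ) {I : Type} [Fintype I] [DecidableEq I] (σ₁ c₂ σ₂ : I → κ → ZMod 2)
    (h11 : ∀ a b, a ≠ b → σ₁ a + σ₁ b ≠ 0) (h12 : ∀ a b, c₂ b = 0 → σ₁ a + σ₂ b ≠ 0)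
    (h22 : ∀ a b, a ≠ b → c₂ a = c₂ b → σ₂ a + σ₂ b ≠ 0 ∧ σ₂ a + σ₂ b ≠ c₂ a)
    (S1 S2 S3 : I → Sy κ) (o2 : ∀ a, (S2 a).OK (c₂ a)) {G : Type} [AddCommGroup G] [Fintype G]
    (C : Cl2 D G) (γ : G) {n : I → ℕ} (S : ∀ a, Fin (n a) → Sy κ) (w : ∀ a, Fin (n a) → ℝ)
    (i₀ : ∀ a, Fin (n a)) (hS : ∀ a i, (S a i).OK 0)
    (hX : ∀ a, ∀ X : Finset ι, X ≠ ∅ → (∀ j, ∑ q ∈ X, D.a q j = C.A j γ) →
      (if gdS D (σ₁ a) (S1 a) (fun j => C.A j γ) X ∧ gdS D (σ₁ a) (S3 a) (fun j => C.A j γ) X then (1 : ℝ) else 0) =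
        ∑ i, w a i * (if gdS D (σ₁ a) (S a i) (fun j => C.A j γ) X then 1 else 0))
    (J : Finset I) (hJ : J.Nonempty) :
    ML (SB ∅ C.cl γ) (fun B => ∏ a ∈ J,
        ((if kW D (c₂ a) (S2 a).P (S2 a).R (rho D (ρ (c₂ a)) (σ₂ a)) ∅ B =
          (if c₂ a = 0 ∧ Triv (σ₂ a) (S2 a).P (S2 a).R (fun j => C.A j γ) then 2 else 1) then (1 : ℝ) else 0) *
        (if gdS D (σ₁ a) (S1 a) (fun j => C.A j γ) B ∧ gdS D (σ₁ a) (S3 a) (fun j => C.A j γ) B then (1 : ℝ) else 0)))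
      (∏ a ∈ J, (cinf2 * (cinf2 * ∑ i, w a i))) := by
  obtain ⟨α, hα⟩ : ∃ α : κ → ZMod 2, α = fun j => C.A j γ := ⟨_, rfl⟩
  have hsum : ∀ B : Finset ι, ∑ q ∈ B, C.cl q = γ → ∀ j, ∑ q ∈ B, D.a q j = C.A j γ := by
    intro B hB j
    rw [← hB]
    show _ = C.A j (∑ q ∈ B, C.cl q)
    rw [map_sum]
    exact sum_congr rfl fun q _ => C.ha q j
  obtain ⟨a₀, ha₀⟩ := hJ
  have : Nonempty ({a // a ∈ J} × Bool) := ⟨(⟨a₀, ha₀⟩, true)⟩
  have hw1 : ∀ a, ∑ i : Fin (n a), (if i = i₀ a then (1 : ℝ) else 0) = 1 := by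
    intro a
    rw [Finset.sum_ite_eq', if_pos (Finset.mem_univ _)]
  have key := densML hM (A := {a // a ∈ J} × Bool) (cA := fun x => cond x.2 (c₂ x.1.1) 0)
    (σ := fun x => cond x.2 (σ₂ x.1.1) (σ₁ x.1.1))
    (by
      rintro ⟨⟨a, ha⟩, x⟩ ⟨⟨b, hb⟩, y⟩ hab hcc
      have hab' : x = y → a ≠ b := fun h1 h2 => hab (by subst h1; subst h2; rfl)
      cases x <;> cases y
      · exact ⟨h11 a b (hab' rfl), h11 a b (hab' rfl)⟩
      · have h4 : c₂ b = 0 := hcc.symm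
        exact ⟨h12 a b h4, h12 a b h4⟩
      · have h4 : c₂ a = 0 := hcc
        refine ⟨?_, ?_⟩
        · show σ₂ a + σ₁ b ≠ 0
          rw [add_comm]
          exact h12 b a h4
        · show σ₂ a + σ₁ b ≠ c₂ a
          rw [add_comm, h4]
          exact h12 b a h4
      · exact h22 a b (hab' rfl) hcc)
    (I := fun x => Fin (n x.1.1)) (fun x i => cond x.2 (S2 x.1.1) (S x.1.1 i))
    (by
      rintro ⟨⟨a, ha⟩, x⟩ i
      cases x
      · exact hS a i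
      · exact o2 a)
    (fun x i => cond x.2 (if i = i₀ x.1.1 then 1 else 0) (w x.1.1 i)) C γ
    (fun x B => cond x.2 (kW D (c₂ x.1.1) (S2 x.1.1).P (S2 x.1.1).R (rho D (ρ (c₂ x.1.1)) (σ₂ x.1.1)) ∅ B =
          if c₂ x.1.1 = 0 ∧ Triv (σ₂ x.1.1) (S2 x.1.1).P (S2 x.1.1).R (fun j => C.A j γ) then 2 else 1)
      (gdS D (σ₁ x.1.1) (S1 x.1.1) (fun j => C.A j γ) B ∧ gdS D (σ₁ x.1.1) (S3 x.1.1) (fun j => C.A j γ) B))
    (by
      rintro ⟨⟨a, ha⟩, x⟩ B hB hBγ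
      cases x
      · have h4 := hX a B hB (hsum B hBγ)
        refine Eq.trans ?_ (h4.trans ?_)
        · exact if_congr Iff.rfl rfl rfl
        · refine Finset.sum_congr rfl fun i _ => ?_
          refine congrArg (w a i * ·) (if_congr ?_ rfl rfl)
          exact (nS_zero hρ (σ₁ a) (S a i) hB (hsum B hBγ)).symm
      · have h4 := nS_iff hρ (c₂ a) (σ₂ a) (S2 a) hB (hsum B hBγ)
        rw [Finset.sum_eq_single (i₀ a)]
        · show _ = (if i₀ a = i₀ a then (1 : ℝ) else 0) * _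
          rw [if_pos rfl, one_mul]
          exact if_congr h4.symm rfl rfl
        · intro i _ hi
          show (if i = i₀ a then (1 : ℝ) else 0) * _ = 0
          rw [if_neg hi, zero_mul]
        · intro h5
          exact absurd (Finset.mem_univ _) h5)
  refine key.congr (fun B => ?_) ?_
  · rw [Fintype.prod_prod_type, ← Finset.prod_coe_sort J]
    refine Finset.prod_congr rfl fun a _ => ?_
    rw [Fintype.prod_bool]
    refine congrArg₂ (· * ·) ?_ ?_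
    · exact if_congr Iff.rfl rfl rfl
    · exact if_congr Iff.rfl rfl rfl
  · rw [Fintype.prod_prod_type, ← Finset.prod_coe_sort J]
    refine Finset.prod_congr rfl fun a _ => ?_
    rw [Fintype.prod_bool]
    show _ = (cinf2 * ∑ i : Fin (n a.1), (if i = i₀ a.1 then (1 : ℝ) else 0)) * (cinf2 * ∑ i, w a.1 i)
    rw [hw1, mul_one]

open Classical in
/-- **The law for several triples of curves.** -/
theorem densT [PS ι] {D : Dat2 ι κ} (hs : D.Sym) {ρ : (κ → ZMod 2) → ι → ZMod 2} (hρ : ρ 0 = 0)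
    (hM : MVX D ρ) {I : Type} [Fintype I] [DecidableEq I] (σ₁ c₂ σ₂ : I → κ → ZMod 2)
    (h11 : ∀ a b, a ≠ b → σ₁ a + σ₁ b ≠ 0) (h12 : ∀ a b, c₂ b = 0 → σ₁ a + σ₂ b ≠ 0)
    (h22 : ∀ a b, a ≠ b → c₂ a = c₂ b → σ₂ a + σ₂ b ≠ 0 ∧ σ₂ a + σ₂ b ≠ c₂ a)
    (S1 S2 S3 : I → Sy κ) (o1 : ∀ a, (S1 a).OK 0) (o2 : ∀ a, (S2 a).OK (c₂ a))
    (o3 : ∀ a, (S3 a).OK 0) {G : Type} [AddCommGroup G] [Fintype G]
    (C : Cl2 D G) (γ : G) (t : ℕ) {κ₀ : ℝ} (hκ : κ₀ < bn (Fintype.card I) t (cinf2 ^ 3)) (ε : ℝ)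
    (hε : 0 < ε) :
    ∃ X₀ : ℕ, ∀ X : ℕ, X₀ ≤ X → κ₀ * ((SB ∅ C.cl γ X).card : ℝ) - ε * X ≤
      (((SB ∅ C.cl γ X).filter fun B => B ≠ ∅ ∧ Atl t fun a =>
        gdS D (σ₁ a) (S1 a) (fun j => C.A j γ) B ∧ gdS D (σ₁ a) (S3 a) (fun j => C.A j γ) B ∧
        kW D (c₂ a) (S2 a).P (S2 a).R (rho D (ρ (c₂ a)) (σ₂ a)) ∅ B =
          if c₂ a = 0 ∧ Triv (σ₂ a) (S2 a).P (S2 a).R (fun j => C.A j γ) then 2 else 1).card : ℝ) := by
  have hc := TL3_pos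
  choose n S w hS hw hw' hX using fun a => sy_pair2 hs (σ₁ a) (fun j => C.A j γ) (S1 a) (S3 a) (o1 a) (o3 a)
  have hn : ∀ a, 0 < n a := by
    intro a
    rcases Nat.eq_zero_or_pos (n a) with h0 | h0
    · exfalso
      have h1 : ∑ i, w a i = 0 := by
        have : IsEmpty (Fin (n a)) := by
          rw [h0]
          infer_instance
        exact Fintype.sum_empty _
      have h2 := hw a
      rw [h1] at h2
      exact absurd (lt_of_lt_of_le hc h2) (lt_irrefl _)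
    · exact h0
  have hml := TL3_ml hρ hM σ₁ c₂ σ₂ h11 h12 h22 S1 S2 S3 o2 C γ S w (fun a => ⟨0, hn a⟩) hS hX
  obtain ⟨X₀, hX₀⟩ := Pool.Agent.Lib.MP_1a91b9_ntZ.Mn.lower
    (P := fun a B => gdS D (σ₁ a) (S1 a) (fun j => C.A j γ) B ∧ gdS D (σ₁ a) (S3 a) (fun j => C.A j γ) B ∧
        kW D (c₂ a) (S2 a).P (S2 a).R (rho D (ρ (c₂ a)) (σ₂ a)) ∅ B =
          if c₂ a = 0 ∧ Triv (σ₂ a) (S2 a).P (S2 a).R (fun j => C.A j γ) then 2 else 1)
    (F := fun a B => (if kW D (c₂ a) (S2 a).P (S2 a).R (rho D (ρ (c₂ a)) (σ₂ a)) ∅ B =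
          (if c₂ a = 0 ∧ Triv (σ₂ a) (S2 a).P (S2 a).R (fun j => C.A j γ) then 2 else 1) then (1 : ℝ) else 0) *
        (if gdS D (σ₁ a) (S1 a) (fun j => C.A j γ) B ∧ gdS D (σ₁ a) (S3 a) (fun j => C.A j γ) B then (1 : ℝ) else 0))
    (fun a B => by
      refine mul_nonneg ?_ ?_
      · split_ifs <;> norm_num
      · split_ifs <;> norm_num)
    (fun a B => by
      refine mul_le_one₀ ?_ ?_ ?_
      · split_ifs <;> norm_num
      · split_ifs <;> norm_num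
      · split_ifs <;> norm_num)
    (fun a B hP => by
      rw [mul_eq_zero]
      by_contra h
      push Not at h
      obtain ⟨h1, h2⟩ := h
      exact hP ⟨(of_not_not fun h3 => h2 (if_neg h3)).1, (of_not_not fun h3 => h2 (if_neg h3)).2,
        of_not_not fun h3 => h1 (if_neg h3)⟩)
    (fun J hJ => hml J hJ) (g := cinf2 ^ 3) (by positivity)
    (fun a => by
      have h5 := mul_le_mul_of_nonneg_left (mul_le_mul_of_nonneg_left (hw a) hc.le) hc.le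
      calc cinf2 ^ 3 = cinf2 * (cinf2 * cinf2) := by ring
        _ ≤ _ := h5)
    (fun a => by
      have h1 : cinf2 ≤ 1 := (hw a).trans (hw' a)
      have h2 : 0 ≤ ∑ i, w a i := hc.le.trans (hw a)
      refine mul_le_one₀ h1 (mul_nonneg hc.le h2) (mul_le_one₀ h1 h2 (hw' a)))
    t hκ (ε / 2) (by positivity)
  obtain ⟨X₁, hX₁⟩ := exists_nat_gt (2 / ε)
  refine ⟨max X₀ X₁, fun X hX' => ?_⟩
  have h1 := hX₀ X (le_trans (le_max_left _ _) hX')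
  have h2 : (1 : ℝ) ≤ ε / 2 * X := by
    have h3 : (X₁ : ℝ) ≤ X := by exact_mod_cast le_trans (le_max_right _ _) hX'
    have h4 : 2 / ε ≤ X := hX₁.le.trans h3
    rw [div_le_iff₀ hε] at h4
    linarith
  obtain ⟨T, hT⟩ : ∃ T : Finset (Finset ι), T = (SB ∅ C.cl γ X).filter fun B => Atl t fun a =>
      gdS D (σ₁ a) (S1 a) (fun j => C.A j γ) B ∧ gdS D (σ₁ a) (S3 a) (fun j => C.A j γ) B ∧
        kW D (c₂ a) (S2 a).P (S2 a).R (rho D (ρ (c₂ a)) (σ₂ a)) ∅ B =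
          if c₂ a = 0 ∧ Triv (σ₂ a) (S2 a).P (S2 a).R (fun j => C.A j γ) then 2 else 1 := ⟨_, rfl⟩
  obtain ⟨U, hU⟩ : ∃ U : Finset (Finset ι), U = (SB ∅ C.cl γ X).filter fun B => B ≠ ∅ ∧ Atl t fun a =>
      gdS D (σ₁ a) (S1 a) (fun j => C.A j γ) B ∧ gdS D (σ₁ a) (S3 a) (fun j => C.A j γ) B ∧
        kW D (c₂ a) (S2 a).P (S2 a).R (rho D (ρ (c₂ a)) (σ₂ a)) ∅ B =
          if c₂ a = 0 ∧ Triv (σ₂ a) (S2 a).P (S2 a).R (fun j => C.A j γ) then 2 else 1 := ⟨_, rfl⟩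
  rw [← hU]
  have h3 : κ₀ * ((SB ∅ C.cl γ X).card : ℝ) - ε / 2 * X ≤ (T.card : ℝ) := by
    refine h1.trans (le_of_eq (congrArg Nat.cast (congrArg Finset.card (Finset.ext fun B => ?_))))
    rw [hT]
  have h4 : T ⊆ insert ∅ U := by
    intro B hB
    rw [hT, TL3_flt] at hB
    by_cases h5 : B = ∅
    · rw [h5]
      exact mem_insert_self _ _
    · refine mem_insert_of_mem ?_
      rw [hU, TL3_flt]
      exact ⟨hB.1, h5, hB.2⟩
  have h5 : (T.card : ℝ) ≤ U.card + 1 := by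
    exact_mod_cast (card_le_card h4).trans (card_insert_le _ _)
  linarith

end

end Pool.Agent.Lib.MP_1a91b9_ntQT
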