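import Pool.Agent.Lib.MP_1a91b9_ntQT.TR5
import Pool.Agent.Lib.MP_1a91b9_ntQT.TL3

/-!
# Quartic stability, block TL

Leaf TL4: `dsQ` (TR5) for a family, with `densT` in the place of `dens3`; for the conditions `h22` on the class vectors use `sX_inj` and
`sX_inv` (`ntM/E/Sig`) as in `dsjX_of` (`ntM/E/XAsm`). (`DSB_of_le`; `trQ true`, `trQ false`, `oneX` for each index, `choose`.)
-/

set_option autoImplicit false
set_option linter.unusedSectionVars false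

namespace Pool.Agent.Lib.MP_1a91b9_ntQT

open Finset NumberField Pool.Agent.Lib.MP_1a91b9_ntH Pool.Agent.Lib.MP_1a91b9_ntQ
  Pool.Agent.Lib.MP_1a91b9_ntQ.Da Pool.Agent.Lib.MP_1a91b9_ntQ.M Pool.Agent.Lib.MP_1a91b9_ntM
  Pool.Agent.Lib.MP_1a91b9_ntM.E
open Pool.Agent.Lib.MP_1a91b9_ntZ (Atl bn)

noncomputable section

/-- **The law for the families of data.** -/
theorem dsT {P : Finset Pg} {I : Type} [Fintype I] [DecidableEq I] {z1 z2 z3 : I → DD8}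
    (h1 : ∀ i, Dj (z1 i).S (z1 i).T (z1 i).B) (h2 : ∀ i, Dj (z2 i).S (z2 i).T (z2 i).B)
    (h3 : ∀ i, Dj (z3 i).S (z3 i).T (z3 i).B)
    (hP1 : ∀ i, (z1 i).S ⊆ P ∧ (z1 i).T ⊆ P ∧ (z1 i).B ⊆ P)
    (hP2 : ∀ i, (z2 i).S ⊆ P ∧ (z2 i).T ⊆ P ∧ (z2 i).B ⊆ P)
    (hP3 : ∀ i, (z3 i).S ⊆ P ∧ (z3 i).T ⊆ P ∧ (z3 i).B ⊆ P)
    (h13 : ∀ i, cX P (z1 i) = cX P (z3 i))
    (h11 : ∀ a b, a ≠ b → cX P (z1 a) + cX P (z1 b) ≠ 0)
    (h12 : ∀ a b, cX P (z2 b) = 0 → cX P (z1 a) + sX P (z2 b) ≠ 0)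
    (h22 : ∀ a b, a ≠ b → z2 a ≠ z2 b ∧ z2 a ≠ (z2 b).inv) (m : ℕ) (g : GB m P) (t : ℕ)
    {κ₀ : ℝ} (hκ : κ₀ < bn (Fintype.card I) t (cinf2 ^ 3)) :
    DSB m P g κ₀ fun X => X ≠ ∅ ∧ Atl t fun i =>
      GdB (z1 i).k (z1 i).j ((z1 i).S ∪ X) (z1 i).T (z1 i).B ∧ GdX (z2 i) X ∧
      GdB (z3 i).k (z3 i).j (z3 i).S ((z3 i).T ∪ X) (z3 i).B := by
  classical
  obtain ⟨m0, h0⟩ := oneX trX1 trX2 trSq
  refine DSB_of_le (le_max_left m (max m0 2)) fun g => ?_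
  have hm0 : m0 ≤ max m (max m0 2) := (le_max_left _ _).trans (le_max_right _ _)
  have hm2 : 2 ≤ max m (max m0 2) := (le_max_right _ _).trans (le_max_right _ _)
  generalize max m (max m0 2) = m at hm0 hm2 g
  choose E i1 i2 Pm R z b hb hR hz0 hzf hX using fun i : I =>
    h0 m hm0 P (z2 i) false (h2 i) (hP2 i) (fun h => absurd h (by decide)) g
  choose S1 hS1 hX1 using fun i : I => trQ true hm2 (h1 i) (hP1 i) g
  choose S3 hS3 hX3 using fun i : I => trQ false hm2 (h3 i) (hP3 i) g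
  have hzn : ∀ i e, z i = some e → False := fun i e he => by
    have h4 := hzf i (by rw [he]; rfl)
    exact absurd h4 (by decide)
  have hS2 : ∀ i, (⟨E i, i1 i, i2 i, Pm i, R i⟩ : Sy (Fin 2 ⊕ P)).OK (cX P (z2 i)) :=
    fun i => ⟨hb i, hR i⟩
  have h22' : ∀ a b, a ≠ b → cX P (z2 a) = cX P (z2 b) →
      sX P (z2 a) + sX P (z2 b) ≠ 0 ∧ sX P (z2 a) + sX P (z2 b) ≠ cX P (z2 a) := by
    refine fun a b hab hc => ⟨fun hs => ?_, fun hs => ?_⟩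
    · refine (h22 a b hab).1 (sX_inj (h2 a) (hP2 a) (h2 b) (hP2 b) hc ?_)
      funext j
      have h4 := congrFun hs j
      simp only [Pi.add_apply, Pi.zero_apply] at h4
      have h5 := eq_neg_of_add_eq_zero_left h4
      rw [z2_neg] at h5
      exact h5
    · exact (h22 a b hab).2 (sX_inv (h2 a) (hP2 a) (h2 b) (hP2 b) hc hs)
  have key := densT (OK_off d4_OK P).sym (ρX_zero P) (mvX4 P) (fun i => cX P (z1 i))
    (fun i => cX P (z2 i)) (fun i => sX P (z2 i)) h11 h12 h22' S1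
    (fun i => ⟨E i, i1 i, i2 i, Pm i, R i⟩) S3 hS1 hS2 hS3 (CclB m P) g t hκ
  refine glueB (P := fun S => ∃ X : Finset (Off P), S = up X ∧ X ≠ ∅ ∧
    ∑ q ∈ X, (CclB m P).cl q = g ∧ Atl t fun i =>
    gdS (d4.off P) (cX P (z1 i)) (S1 i) (fun j => (CclB m P).A j g) X ∧
    gdS (d4.off P) (cX P (z1 i)) (S3 i) (fun j => (CclB m P).A j g) X ∧
    ((cX P (z2 i) = 0 ∧ Triv (sX P (z2 i)) (Pm i) (R i) (fun j => (CclB m P).A j g)) →
      kW (d4.off P) (cX P (z2 i)) (Pm i) (R i) (rho (d4.off P) (ρX P (cX P (z2 i))) (sX P (z2 i)))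
        ∅ X = 2) ∧
    (¬ (cX P (z2 i) = 0 ∧ Triv (sX P (z2 i)) (Pm i) (R i) (fun j => (CclB m P).A j g)) →
      kW (d4.off P) (cX P (z2 i)) (Pm i) (R i) (rho (d4.off P) (ρX P (cX P (z2 i))) (sX P (z2 i)))
        ∅ X = 1))
    (fun ε hε => ?_) fun S hS hSg hSX => ?_
  · obtain ⟨X0, hX0⟩ := key ε hε
    refine ⟨X0, fun Y hY => ?_⟩
    have h4 := hX0 Y hY
    rw [SB_eq (CclB m P) (cl := clB m P) (fun q => rfl), SG_eq, card_map]
    refine h4.trans ?_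
    rw [Nat.cast_le, ← card_map ⟨up, up_injective⟩]
    refine card_le_card fun S hS => ?_
    obtain ⟨X, hX5, rfl⟩ := mem_map.1 hS
    obtain ⟨hX6, hX7, hX8⟩ := (mem_flt _ _ _ _).1 hX5
    refine mem_filter.2 ⟨mem_map_of_mem _ hX6, X, rfl, hX7, (mem_SB.1 hX6).2.2,
      hX8.mono fun i hi => ⟨hi.1, hi.2.1, fun hc => ?_, fun hc => ?_⟩⟩
    · exact hi.2.2.trans (if_pos hc)
    · exact hi.2.2.trans (if_neg hc)
  · obtain ⟨X, rfl, hXe, hXg, hA⟩ := hSX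
    refine ⟨fun h => hXe (up_injective (h.trans up_empty.symm)), hA.mono fun i hi => ?_⟩
    obtain ⟨e1, e3, e2, e4⟩ := hi
    refine ⟨hX1 i X hXe hXg e1, ?_, ?_⟩
    · by_cases hc : cX P (z2 i) = 0 ∧ Triv (sX P (z2 i)) (Pm i) (R i) (fun j => (CclB m P).A j g)
      · exact (hX i X hXe hXg 2 (fun _ => hc) (fun h7 => absurd rfl h7) (e2 hc)
          fun e he => (hzn i e he).elim).1
      · exact (hX i X hXe hXg 1 (fun h7 => absurd h7 (by decide)) (fun _ => ⟨rfl, hc⟩) (e4 hc)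
          fun e he => (hzn i e he).elim).1
    · refine hX3 i X hXe hXg ?_
      rw [← h13 i]
      exact e3

end

end Pool.Agent.Lib.MP_1a91b9_ntQT
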