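import Pool.Agent.Lib.MP_1a91b9_ntQT.DE4

/-!
# Quartic stability, block TL

Leaf TL5: the class vectors of a family of pairs `(a i, δ i)`. (1) `cX z1 = cX z1'`: `sq_of_cX`: `(a δ e0) (a' δ' e0)` is a square, so `a² a'² (δ
δ')²` is a fourth power (`k = l = 2`; `-1` is a square). (2) `cX (z2 i') = 0`: `z2 i'` is a square (`cX_ne0` in `ntM/E/XAsm`), `el_sq`; as in `sg_ne` (DE4):
`a' (δ' e0)²` is the square of `y` and `(a δ e0) y` is a square, so `a² δ² a' δ'²` is a fourth power (`k = 2`, `l = 1` if `i ≠ i'`; for `i = i'`: `a³ δ⁴`, so `a³`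
and `a` are fourth powers; or `sg_ne` itself with `e0 := δ i * e0`). (3) `z2 i = z2 i'`: `a δ² = a' δ'² r⁴`: `k = 1`, `l = 3`; `z2 i = (z2 i').inv`: `el_inv`
(`ntM/E/GoodX`): `a a' (δ δ')²` is a fourth power.
-/

set_option autoImplicit false
set_option linter.unusedSectionVars false

namespace Pool.Agent.Lib.MP_1a91b9_ntQT

open Finset NumberField Pool.Agent.Lib.MP_1a91b9_ntH Pool.Agent.Lib.MP_1a91b9_ntQ
  Pool.Agent.Lib.MP_1a91b9_ntQ.Da Pool.Agent.Lib.MP_1a91b9_ntQ.M Pool.Agent.Lib.MP_1a91b9_ntM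
  Pool.Agent.Lib.MP_1a91b9_ntM.E

noncomputable section

/-- The condition of independence on the pairs `(a i, δ i)`. -/
def Ind4 {K : Type} [Field K] {I : Type} (a δ : I → K) : Prop :=
  (∀ i, a i ≠ 0 ∧ δ i ≠ 0 ∧ ∀ y : K, y ^ 4 ≠ a i) ∧
  ∀ i i', i ≠ i' → ∀ k l : ℕ, 1 ≤ k → k ≤ 3 → 1 ≤ l → l ≤ 3 → ∀ y : K,
    y ^ 4 ≠ a i ^ k * a i' ^ l * (δ i * δ i') ^ 2

private theorem TL5_sk {z : DD8} (h : z.Sq) : md z.sk = hk z.k := by
  obtain ⟨h1, _, _⟩ := h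
  have key : ∀ k : ZMod 4, (ZMod.castHom (show 2 ∣ 4 by norm_num) (ZMod 2)) k = 0 →
      (ZMod.castHom (show 2 ∣ 4 by norm_num) (ZMod 2)) (if k = 0 then 0 else 1) =
        if 2 ≤ k.val then 1 else 0 := by decide
  exact key _ h1

private theorem TL5_sj {z : DD8} (h : z.Sq) :
    (((Fin.castLE (by norm_num) z.sj : Fin 4).val : ℕ) : ZMod 2) = hj z.j := by
  obtain ⟨_, h1, _⟩ := h
  have key : ∀ j : Fin 4, ((j.val : ℕ) : ZMod 2) = 0 →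
      (((Fin.castLE (by norm_num) (if j = 0 then 0 else 1 : Fin 2) : Fin 4).val : ℕ) : ZMod 2) =
        if 2 ≤ j.val then 1 else 0 := by decide
  exact key _ h1

private theorem TL5_w {P : Finset Pg} {z : DD8} (hSq : z.Sq) (hP : z.B ⊆ P) :
    ∃ w : DD8, Dj w.S w.T w.B ∧ (w.S ⊆ P ∧ w.T ⊆ P) ∧ z.el = w.el ^ 2 ∧ cX P w = sX P z := by
  obtain ⟨w, hw⟩ : ∃ w : DD8, w = ⟨z.sk, Fin.castLE (by norm_num) z.sj, z.B, ∅, ∅⟩ := ⟨_, rfl⟩
  have hwe : w.el = Den4.ph z.sk z.sj (DDq z.B) := by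
    rw [hw]
    unfold DD8.el dB cB Den4.ph
    have e1 : DDq (∅ : Finset Pg) = 1 := DDq_empty
    rw [e1]
    simp
  have hT : z.T = ∅ := (Finset.union_eq_empty.1 hSq.2.2).2
  refine ⟨w, ?_, ?_, ?_, ?_⟩
  · rw [hw]
    exact ⟨disjoint_empty_right _, disjoint_empty_right _, disjoint_empty_right _⟩
  · rw [hw]
    exact ⟨hP, empty_subset _⟩
  · have hz2 := el_sq hSq
    rw [← hwe] at hz2
    exact hz2
  · rw [hw]
    unfold cX E.sX kvB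
    dsimp only
    rw [TL5_sk hSq, TL5_sj hSq, hT, union_comm]

private theorem TL5_eq {α : Type} {x y : α → ZMod 2} (h : x + y = 0) : x = y := by
  have h2 : ∀ a b : ZMod 2, a + b = 0 → a = b := by decide
  funext i
  exact h2 _ _ (congrFun h i)

private theorem TL5_root {X Y e : 𝓞 K4} (he : e ≠ 0) (h : X * e ^ 4 = Y ^ 4) : ∃ y : K4, y ^ 4 = (X : K4) := by
  refine ⟨(Y : K4) / (e : K4), ?_⟩
  have hn : (e : K4) ≠ 0 := RX.coe_ne he
  rw [div_pow, div_eq_iff (pow_ne_zero 4 hn)]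
  exact_mod_cast congrArg (fun z : 𝓞 K4 => (z : K4)) h.symm

private theorem TL5_no {I : Type} {a δ : I → 𝓞 K4} (hc : Ind4 (fun i => (a i : K4)) (fun i => (δ i : K4)))
    {i i' : I} (h : i ≠ i') (k l : ℕ) (hk : 1 ≤ k) (hk' : k ≤ 3) (hl : 1 ≤ l) (hl' : l ≤ 3) {Y e : 𝓞 K4} (he : e ≠ 0)
    (hy : (a i ^ k * a i' ^ l * (δ i * δ i') ^ 2) * e ^ 4 = Y ^ 4) : False := by
  obtain ⟨y, hy'⟩ := TL5_root he hy
  refine hc.2 i i' h k l hk hk' hl hl' y ?_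
  rw [hy']
  push_cast
  rfl

theorem cls_T {P : Finset Pg} {I : Type} {a δ : I → 𝓞 K4} {e0 : 𝓞 K4} (he : e0 ≠ 0)
    (hc : Ind4 (fun i => (a i : K4)) (fun i => (δ i : K4))) {z1 z2 : I → DD8} {t1 t2 : I → 𝓞 K4}
    (h1 : ∀ i, Dj (z1 i).S (z1 i).T (z1 i).B) (h2 : ∀ i, Dj (z2 i).S (z2 i).T (z2 i).B)
    (ht1 : ∀ i, t1 i ≠ 0) (ht2 : ∀ i, t2 i ≠ 0)
    (e1 : ∀ i, a i * (δ i * e0) = (z1 i).el * t1 i ^ 4)
    (e2 : ∀ i, a i * (δ i * e0) ^ 2 = (z2 i).el * t2 i ^ 4)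
    (hP1 : ∀ i, (z1 i).S ⊆ P ∧ (z1 i).T ⊆ P ∧ (z1 i).B ⊆ P)
    (hP2 : ∀ i, (z2 i).S ⊆ P ∧ (z2 i).T ⊆ P ∧ (z2 i).B ⊆ P) :
    (∀ i i', i ≠ i' → cX P (z1 i) + cX P (z1 i') ≠ 0) ∧
    (∀ i i', cX P (z2 i') = 0 → cX P (z1 i) + sX P (z2 i') ≠ 0) ∧
    ∀ i i', i ≠ i' → z2 i ≠ z2 i' ∧ z2 i ≠ (z2 i').inv := by
  have _ := h2
  have _ := ht1
  refine ⟨fun i i' hii h0 => ?_, fun i i' hcz h0 => ?_, fun i i' hii => ⟨fun h0 => ?_, fun h0 => ?_⟩⟩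
  · obtain ⟨y, hy⟩ := sq_of_cX (h1 i) (h1 i') ⟨(hP1 i).1, (hP1 i).2.1⟩ ⟨(hP1 i').1, (hP1 i').2.1⟩ (TL5_eq h0)
    refine TL5_no hc hii 2 2 (by norm_num) (by norm_num) (by norm_num) (by norm_num) he
      (Y := y * t1 i ^ 2 * t1 i' ^ 2) ?_
    have k1 : (a i * (δ i * e0)) * (a i' * (δ i' * e0)) = (y * t1 i ^ 2 * t1 i' ^ 2) ^ 2 := by
      rw [e1 i, e1 i']
      linear_combination (t1 i ^ 4 * t1 i' ^ 4) * hy
    linear_combination ((a i * (δ i * e0)) * (a i' * (δ i' * e0)) + (y * t1 i ^ 2 * t1 i' ^ 2) ^ 2) * k1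
  · have hSq : (z2 i').Sq := by
      by_contra h
      exact cX_ne0 (hP2 i') h hcz
    obtain ⟨w, hw1, hw2, hw3, hw4⟩ := TL5_w (P := P) hSq (hP2 i').2.2
    obtain ⟨y, hy⟩ := sq_of_cX (h1 i) hw1 ⟨(hP1 i).1, (hP1 i).2.1⟩ hw2 (by
      rw [hw4]
      exact TL5_eq h0)
    have e2' := e2 i'
    rw [hw3] at e2'
    have k1 : (a i * (δ i * e0)) ^ 2 * (a i' * (δ i' * e0) ^ 2) = (y * t1 i ^ 2 * t2 i') ^ 4 := by
      rw [e1 i, e2']
      linear_combination ((t1 i ^ 8 * t2 i' ^ 4) * ((z1 i).el * w.el + y ^ 2)) * hy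
    by_cases hii : i = i'
    · subst hii
      have k2 : (a i ^ 3) * (δ i * e0) ^ 4 = (y * t1 i ^ 2 * t2 i) ^ 4 := by
        linear_combination k1
      have hδ : δ i ≠ 0 := by
        intro h
        exact (hc.1 i).2.1 (by
          show ((δ i : 𝓞 K4) : K4) = 0
          rw [h]
          rfl)
      have ha0 : a i ≠ 0 := by
        intro h
        exact (hc.1 i).1 (by
          show ((a i : 𝓞 K4) : K4) = 0
          rw [h]
          rfl)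
      obtain ⟨v, hv⟩ := TL5_root (mul_ne_zero hδ he) k2
      have ha0' : ((a i : 𝓞 K4) : K4) ≠ 0 := RX.coe_ne ha0
      have hv' : v ^ 4 = ((a i : 𝓞 K4) : K4) ^ 3 := by
        rw [hv]
        push_cast
        rfl
      have hv0 : v ≠ 0 := by
        rintro rfl
        rw [zero_pow (by norm_num)] at hv'
        exact pow_ne_zero 3 ha0' hv'.symm
      refine (hc.1 i).2.2 (((a i : 𝓞 K4) : K4) / v) ?_
      show (((a i : 𝓞 K4) : K4) / v) ^ 4 = ((a i : 𝓞 K4) : K4)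
      rw [div_pow, hv', div_eq_iff (pow_ne_zero 3 ha0')]
      ring
    · refine TL5_no hc hii 2 1 (by norm_num) (by norm_num) (by norm_num) (by norm_num) he
        (Y := y * t1 i ^ 2 * t2 i') ?_
      linear_combination k1
  · have k1 := e2 i
    rw [h0] at k1
    have k2 := e2 i'
    refine TL5_no hc hii 1 3 (by norm_num) (by norm_num) (by norm_num) (by norm_num) (mul_ne_zero (ht2 i') he)
      (Y := a i' * δ i' * t2 i * e0) ?_
    linear_combination (a i' ^ 3 * δ i' ^ 2 * e0 ^ 2) * (t2 i' ^ 4 * k1 - t2 i ^ 4 * k2)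
  · obtain ⟨t, ht, ht'⟩ := RX.el_inv (z2 i')
    have k1 := e2 i
    rw [h0] at k1
    have k2 := e2 i'
    refine TL5_no hc hii 1 1 (by norm_num) (by norm_num) (by norm_num) (by norm_num) he
      (Y := t * t2 i * t2 i') ?_
    have k3 : (a i * (δ i * e0) ^ 2) * (a i' * (δ i' * e0) ^ 2) = (t * t2 i * t2 i') ^ 4 := by
      rw [k1, k2]
      linear_combination (t2 i ^ 4 * t2 i' ^ 4) * ht'
    linear_combination k3

end

end Pool.Agent.Lib.MP_1a91b9_ntQT
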