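import Pool.Agent.Lib.MP_1a91b9_ntQT.DE6
import Pool.Agent.Lib.MP_1a91b9_ntQT.TL4
import Pool.Agent.Lib.MP_1a91b9_ntQT.TL5

/-!
# Quartic stability, block TL

Leaf TL6: `dsc_all` (DE6) for a family: `a i * s⁻⁴ = a0.el` (`RX.exists_DD8`) and the same for `δ i`; or simply take `P` = `T ∪ B` and all the
primes of `Pg` which divide one of the `a i`, `δ i` (finitely many: `a i`, `δ i` are not `0`; the primes of `z_n` divide `a i * (δ i * e0) ^ n`, `dat_of`),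
then no reduction of `a` is needed. `DSc_of_DSB`, `cls_T`, `cX_of_sq` for `z1 i`, `z3 i`, `dsT`, `DSB.excD` with the union over `i` of the finite sets of
`exc_fin` (for `β * δ i`). For `X` in the event: `d = dB k j (B' ∪ X) T B = e0 * DDq X`, `a i * (δ i * d) ^ n = (a i * (δ i * e0) ^ n) * DDq X ^ n`: `good_S`,
`good_B`, `good_T` (DE3); `Atl.mono`.
-/

set_option autoImplicit false
set_option linter.unusedSectionVars false

namespace Pool.Agent.Lib.MP_1a91b9_ntQT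

open Finset NumberField Pool.Agent.Lib.MP_1a91b9_ntH Pool.Agent.Lib.MP_1a91b9_ntQ
  Pool.Agent.Lib.MP_1a91b9_ntQ.Da Pool.Agent.Lib.MP_1a91b9_ntQ.M Pool.Agent.Lib.MP_1a91b9_ntM
  Pool.Agent.Lib.MP_1a91b9_ntM.E
open Pool.Agent.Lib.MP_1a91b9_ntZ (Atl bn)

noncomputable section

private theorem TL6_red {I : Type} {a δ a0 δ0 s r : I → 𝓞 K4}
    (ha : ∀ i, a i = a0 i * s i ^ 4) (hδ : ∀ i, δ i = δ0 i * r i ^ 4)
    (hc : Ind4 (fun i => (a i : K4)) (fun i => (δ i : K4))) :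
    Ind4 (fun i => (a0 i : K4)) (fun i => (δ0 i : K4)) := by
  have ha' : ∀ i, (a i : K4) = (a0 i : K4) * (s i : K4) ^ 4 := fun i => by
    rw [ha i]
    push_cast
    rfl
  have hδ' : ∀ i, (δ i : K4) = (δ0 i : K4) * (r i : K4) ^ 4 := fun i => by
    rw [hδ i]
    push_cast
    rfl
  refine ⟨fun i => ⟨fun h => (hc.1 i).1 ?_, fun h => (hc.1 i).2.1 ?_, fun y hy => (hc.1 i).2.2 (y * (s i : K4)) ?_⟩,
    fun i i' hi k l hk hk' hl hl' y hy => hc.2 i i' hi k l hk hk' hl hl'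
      (y * ((s i : K4) ^ k * (s i' : K4) ^ l * ((r i : K4) * (r i' : K4)) ^ 2)) ?_⟩
  · show (a i : K4) = 0
    have h' : (a0 i : K4) = 0 := h
    rw [ha', h', zero_mul]
  · show (δ i : K4) = 0
    have h' : (δ0 i : K4) = 0 := h
    rw [hδ', h', zero_mul]
  · show (y * (s i : K4)) ^ 4 = (a i : K4)
    have h' : y ^ 4 = (a0 i : K4) := hy
    rw [mul_pow, h', ha']
  · show (y * ((s i : K4) ^ k * (s i' : K4) ^ l * ((r i : K4) * (r i' : K4)) ^ 2)) ^ 4 =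
      (a i : K4) ^ k * (a i' : K4) ^ l * ((δ i : K4) * (δ i' : K4)) ^ 2
    have h' : y ^ 4 = (a0 i : K4) ^ k * (a0 i' : K4) ^ l * ((δ0 i : K4) * (δ0 i' : K4)) ^ 2 := hy
    rw [mul_pow, h', ha', ha', hδ', hδ', mul_pow (a0 i : K4), mul_pow (a0 i' : K4), ← pow_mul, ← pow_mul, mul_comm 4 k, mul_comm 4 l,
      pow_mul, pow_mul]
    ring

/-- **The law for fixed `k`, `j`, `T`, `B`.** -/
theorem dscT {I : Type} [Fintype I] [DecidableEq I] {a δ : I → 𝓞 K4}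
    (hc : Ind4 (fun i => (a i : K4)) (fun i => (δ i : K4))) (Bf : I → Finset K4)
    (hB : ∀ i, ∀ β ∈ Bf i, β ≠ 0) (k : ZMod 4) (j : Fin 4) {T B : Finset Pg}
    (hTB : Disjoint T B) {m : ℕ} (g : G4n m) (t : ℕ) {κ₀ : ℝ}
    (hκ : κ₀ < bn (Fintype.card I) t (Da.cinf2 ^ 3)) :
    DSc m (T ∪ B) g κ₀ fun S => Disjoint S (T ∪ B) →
      Atl t fun i => Gq (a i) (Bf i) (δ i * dB k j S T B) := by
  choose A s hA hs hae using fun i => RX.exists_DD8 (a := a i) (fun h => (hc.1 i).1 (by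
    show (a i : K4) = 0
    rw [h]
    rfl))
  choose D r hD hr hde using fun i => RX.exists_DD8 (a := δ i) (fun h => (hc.1 i).2.1 (by
    show (δ i : K4) = 0
    rw [h]
    rfl))
  have hA0 : ∀ i, (A i).el ≠ 0 := fun i => dB_ne
  have hD0 : ∀ i, (D i).el ≠ 0 := fun i => dB_ne
  have hδ0 : ∀ i, δ i ≠ 0 := fun i => by
    rw [hde]
    exact mul_ne_zero (hD0 i) (pow_ne_zero 4 (hr i))
  have hc0 := TL6_red hae hde hc
  obtain ⟨P, hPdef⟩ : ∃ P : Finset Pg, P = T ∪ B ∪ univ.biUnion fun i => (A i).S ∪ (A i).T ∪ (A i).B ∪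
      ((D i).S ∪ (D i).T ∪ (D i).B) := ⟨_, rfl⟩
  have hTBP : T ∪ B ⊆ P := by
    rw [hPdef]
    exact subset_union_left
  have hAP : ∀ i, (A i).S ∪ (A i).T ∪ (A i).B ⊆ P := fun i => by
    rw [hPdef]
    exact (subset_union_left.trans (subset_biUnion_of_mem (fun i => (A i).S ∪ (A i).T ∪ (A i).B ∪
      ((D i).S ∪ (D i).T ∪ (D i).B)) (mem_univ i))).trans subset_union_right
  have hDP : ∀ i, (D i).S ∪ (D i).T ∪ (D i).B ⊆ P := fun i => by
    rw [hPdef]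
    exact (subset_union_right.trans (subset_biUnion_of_mem (fun i => (A i).S ∪ (A i).T ∪ (A i).B ∪
      ((D i).S ∪ (D i).T ∪ (D i).B)) (mem_univ i))).trans subset_union_right
  refine DSc_of_DSB hTBP g fun B' hB' hdB' g' => ?_
  obtain ⟨e0, he0⟩ : ∃ e0 : 𝓞 K4, e0 = dB k j B' T B := ⟨_, rfl⟩
  have he0n : e0 ≠ 0 := by
    rw [he0]
    exact dB_ne
  have hxn : ∀ (i : I) (n : ℕ), (A i).el * ((D i).el * e0) ^ n ≠ 0 := fun i n =>
    mul_ne_zero (hA0 i) (pow_ne_zero n (mul_ne_zero (hD0 i) he0n))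
  have hprm : ∀ (i : I) (n : ℕ) (q : Pg), q.1 ∣ (A i).el * ((D i).el * e0) ^ n → q ∈ P := by
    intro i n q hq
    rcases q.prime.dvd_or_dvd hq with h | h
    · exact hAP i (mem_of_dvd_dB h)
    · rcases q.prime.dvd_or_dvd (q.prime.dvd_of_dvd_pow h) with h1 | h1
      · exact hDP i (mem_of_dvd_dB h1)
      · rw [he0] at h1
        have h2 := mem_of_dvd_dB h1
        rw [mem_union, mem_union] at h2
        rcases h2 with (h2 | h2) | h2
        · exact hB' h2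
        · exact hTBP (mem_union_left _ h2)
        · exact hTBP (mem_union_right _ h2)
  have hdat : ∀ (n : ℕ) (i : I), ∃ (z : DD8) (t : 𝓞 K4), Dj z.S z.T z.B ∧ t ≠ 0 ∧
      (A i).el * ((D i).el * e0) ^ n = z.el * t ^ 4 ∧ (z.S ⊆ P ∧ z.T ⊆ P ∧ z.B ⊆ P) := by
    intro n i
    obtain ⟨z, t, h1, h2, h3, h5⟩ := dat_of (hxn i n)
    exact ⟨z, t, h1, h2, h3, fun q hq => hprm i n q (h5 q (Or.inl hq)),
      fun q hq => hprm i n q (h5 q (Or.inr (Or.inl hq))),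
      fun q hq => hprm i n q (h5 q (Or.inr (Or.inr hq)))⟩
  choose z1 t1 hd1 ht1 hx1 hP1 using hdat 1
  choose z2 t2 hd2 ht2 hx2 hP2 using hdat 2
  choose z3 t3 hd3 ht3 hx3 hP3 using hdat 3
  have h13 : ∀ i, cX P (z1 i) = cX P (z3 i) := by
    intro i
    have e1 : ((z1 i).el * (z3 i).el) * ((t1 i * t3 i) ^ 2) ^ 2 = ((A i).el * ((D i).el * e0) ^ 2) ^ 2 := by
      linear_combination -((A i).el * ((D i).el * e0) ^ 3) * hx1 i - ((z1 i).el * t1 i ^ 4) * hx3 i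
    have e2 : (t1 i * t3 i) ^ 2 ∣ (A i).el * ((D i).el * e0) ^ 2 := by
      rw [← IsIntegrallyClosed.pow_dvd_pow_iff (n := 2) two_ne_zero, ← e1]
      exact dvd_mul_left _ _
    obtain ⟨y, hy⟩ := e2
    refine cX_of_sq P (hd1 i) (hd3 i) (y := y) ?_
    have e3 : ((t1 i * t3 i) ^ 2) ^ 2 ≠ 0 := pow_ne_zero 2 (pow_ne_zero 2 (mul_ne_zero (ht1 i) (ht3 i)))
    apply mul_right_cancel₀ e3
    rw [e1, hy]
    ring
  obtain ⟨h11, h12, h22⟩ := cls_T (P := P) he0n hc0 hd1 hd2 ht1 ht2 (fun i => by rw [← hx1 i, pow_one]) hx2 hP1 hP2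
  have hmain := dsT hd1 hd2 hd3 hP1 hP2 hP3 h13 h11 h12 h22 m g' t hκ
  obtain ⟨F, hF⟩ : ∃ F : Set (Finset Pg), F = ⋃ i, ⋃ β ∈ (Bf i : Set K4),
      {S : Finset Pg | IsSquare ((β * (δ i : K4)) * (dB k j S T B : K4))} := ⟨_, rfl⟩
  have hFfin : F.Finite := by
    rw [hF]
    refine Set.finite_iUnion fun i => ((Bf i).finite_toSet).biUnion fun β hβ => exc_fin (mul_ne_zero (hB i β hβ) ?_) k j T B
    exact fun h => hδ0 i (RingOfIntegers.coe_eq_zero_iff.1 h)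
  refine (DSB.excD hB' hmain hFfin).mono fun X hXP _ hX _ => ?_
  obtain ⟨⟨hne, hat⟩, hXF⟩ := hX
  have hXB' : Disjoint B' X := (disjoint_of_subset_right hB' hXP).symm
  have hd : dB k j (B' ∪ X) T B = e0 * DDq X := by
    rw [he0]
    exact dB_addS hXB'
  refine Atl.mono (fun i hi => ?_) hat
  obtain ⟨hg1, hg2, hg3⟩ := hi
  have c1 := good_S (hd1 i) (hP1 i) hXP hne (ht1 i) (hx1 i) hg1
  have c2 := good_B (hd2 i) (hP2 i) hXP (ht2 i) (hx2 i) hg2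
  have c3 := good_T (hd3 i) (hP3 i) hXP hne (ht3 i) (hx3 i) hg3
  have hsr : ∀ n : ℕ, s i * r i ^ n ≠ 0 := fun n => mul_ne_zero (hs i) (pow_ne_zero n (hr i))
  refine ⟨?_, ?_, ?_, ?_⟩
  · have e : a i * (δ i * dB k j (B' ∪ X) T B) = (A i).el * ((D i).el * e0) ^ 1 * DDq X * (s i * r i ^ 1) ^ 4 := by
      rw [hd, hae i, hde i]
      ring
    rw [e]
    exact WD4_pow4 (hsr 1) c1
  · have e : a i * (δ i * dB k j (B' ∪ X) T B) ^ 2 = (A i).el * ((D i).el * e0) ^ 2 * DDq X ^ 2 * (s i * r i ^ 2) ^ 4 := by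
      rw [hd, hae i, hde i]
      ring
    rw [e]
    exact WD4_pow4 (hsr 2) c2
  · have e : a i * (δ i * dB k j (B' ∪ X) T B) ^ 3 = (A i).el * ((D i).el * e0) ^ 3 * DDq X ^ 3 * (s i * r i ^ 3) ^ 4 := by
      rw [hd, hae i, hde i]
      ring
    rw [e]
    exact WD4_pow4 (hsr 3) c3
  · intro β hβ hsq
    apply hXF
    rw [hF]
    refine Set.mem_iUnion.2 ⟨i, Set.mem_biUnion (x := β) (by exact_mod_cast hβ) ?_⟩
    show IsSquare ((β * (δ i : K4)) * (dB k j (B' ∪ X) T B : K4))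
    have e : (β * (δ i : K4)) * (dB k j (B' ∪ X) T B : K4) = β * ((δ i * dB k j (B' ∪ X) T B : 𝓞 K4) : K4) := by
      push_cast
      ring
    rw [e]
    exact hsq

end

end Pool.Agent.Lib.MP_1a91b9_ntQT
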