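import Pool.Agent.Lib.MP_1a91b9_ntQT.DE7
import Pool.Agent.Lib.MP_1a91b9_ntQT.TL6

/-!
# Quartic stability, block TL

Leaf TL7: the density over `K4`: copy of `main_K4` (DE7) with `dscT`.
-/

set_option autoImplicit false
set_option linter.unusedSectionVars false

namespace Pool.Agent.Lib.MP_1a91b9_ntQT

open Finset NumberField Pool.Agent.Lib.MP_1a91b9_ntH Pool.Agent.Lib.MP_1a91b9_ntQ
  Pool.Agent.Lib.MP_1a91b9_ntQ.Da Pool.Agent.Lib.MP_1a91b9_ntQ.M Pool.Agent.Lib.MP_1a91b9_ntM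
  Pool.Agent.Lib.MP_1a91b9_ntM.E
open Pool.Agent.Lib.MP_1a91b9_ntZ (Atl bn)

noncomputable section

theorem main_K4T {I : Type} [Fintype I] [DecidableEq I] {a δ : I → 𝓞 K4}
    (hc : Ind4 (fun i => (a i : K4)) (fun i => (δ i : K4))) (Bf : I → Finset K4)
    (hB : ∀ i, ∀ β ∈ Bf i, β ≠ 0) {n : ℕ} {M u : 𝓞 K4} (hM : M ∣ 2 ^ n)
    (hu : ∀ q : 𝓞 K4, Prime q → ¬ (q ^ 4 ∣ M ∧ q ^ 4 ∣ u)) (t : ℕ) (ε : ℝ) (hε : 0 < ε) :
    ∀ᶠ X : ℝ in Filter.atTop,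
      bn (Fintype.card I) t ((∏' i : ℕ, (1 + 1 / (2 : ℝ) ^ (i + 1))⁻¹) ^ 3) - ε ≤
      (Nat.card {x : 𝓞 K4 // (∀ z : 𝓞 K4, z ^ 4 ∣ x → IsUnit z) ∧ M ∣ x - u ∧
        |Algebra.norm ℤ x| ≤ X ∧ Atl t fun i => Gq (a i) (Bf i) (δ i * x)} : ℝ) /
        (Nat.card {x : 𝓞 K4 // (∀ z : 𝓞 K4, z ^ 4 ∣ x → IsUnit z) ∧ M ∣ x - u ∧
          |Algebra.norm ℤ x| ≤ X} : ℝ) := by
  rw [cinf2_form]
  exact trC (2 * n) (hM.trans (Q5.two_pow_dvd n)) (hu lam prime_lam)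
    (bn (Fintype.card I) t (Da.cinf2 ^ 3) - ε / 2) (bn (Fintype.card I) t (Da.cinf2 ^ 3) - ε)
    (by linarith)
    (fun k j S T B => Disjoint S (T ∪ B) → Atl t fun i => Gq (a i) (Bf i) (δ i * dB k j S T B))
    (fun k j T B hTB g => dscT hc Bf hB k j hTB g t (by linarith))
    (fun x => Atl t fun i => Gq (a i) (Bf i) (δ i * x))
    (fun k j S T B h1 h2 => h2 (disjoint_union_right.2 ⟨h1.st, h1.sb⟩))

end

end Pool.Agent.Lib.MP_1a91b9_ntQT
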