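import Pool.Agent.Lib.MP_1a91b9_ntQT.DE8
import Pool.Agent.Lib.MP_1a91b9_ntQT.TL7

/-!
# Quartic stability, block TL

Leaf TL8: the density over an abstract field `K`: copy of `main_K` (DE8) with `main_K4T`.
-/

set_option autoImplicit false
set_option linter.unusedSectionVars false

namespace Pool.Agent.Lib.MP_1a91b9_ntQT

open Finset NumberField Pool.Agent.Lib.MP_1a91b9_ntH Pool.Agent.Lib.MP_1a91b9_ntQ
  Pool.Agent.Lib.MP_1a91b9_ntQ.Da Pool.Agent.Lib.MP_1a91b9_ntQ.M Pool.Agent.Lib.MP_1a91b9_ntM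
  Pool.Agent.Lib.MP_1a91b9_ntM.E
open Pool.Agent.Lib.MP_1a91b9_ntW.J (RkZ)
open Pool.Agent.Lib.MP_1a91b9_ntZ (Atl bn)

noncomputable section

private theorem TL8_fourth (b : K4) : ∃ (a ν : 𝓞 K4), ν ≠ 0 ∧ (a : K4) = b * (ν : K4) ^ 4 := by
  obtain ⟨⟨x, y⟩, hxy⟩ := IsLocalization.surj (nonZeroDivisors (𝓞 K4)) b
  refine ⟨x * y ^ 3, y, nonZeroDivisors.ne_zero y.2, ?_⟩
  have h : b * (((y : 𝓞 K4) : 𝓞 K4) : K4) = ((x : 𝓞 K4) : K4) := hxy
  rw [oc_mul, oc_pow, ← h]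
  ring

private theorem TL8_map {K : Type} [Field K] [NumberField K] (e : K4 ≃+* K) {W : WeierstrassCurve K4} {j : ℤ}
    (hj : Pool.Agent.Lib.MP_1a91b9_nuI.HasJ W j) : RkZ (W.map (e : K4 →+* K)) ↔ RkZ W := by
  have h1 : ∀ s, (W.map (e : K4 →+* K)).LSeries s = W.LSeries s :=
    fun s => Pool.Agent.Lib.MP_1a91b9_ntI.ls_e_hasJ e hj s
  have h2 : Finite W.toAffine.Point ↔ Finite (W.map (e : K4 →+* K)).toAffine.Point :=
    (Equiv.ofBijective _ (Pool.Agent.Lib.MP_1a91b9_ntI.ptMap_bij e W)).finite_iff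
  unfold RkZ
  rw [h2]
  simp only [h1]

private theorem TL8_crv {K : Type} [Field K] [NumberField K] (e : K4 ≃+* K) (b : K4) :
    RkZ (Pool.Agent.Lib.MP_1a91b9_ntL.crv 0 b) ↔ RkZ (⟨0, 0, 0, e b, 0⟩ : WeierstrassCurve K) := by
  rw [← TL8_map e (Pool.Agent.Lib.MP_1a91b9_ntW.J.hasJ_crv4 b)]
  have h1 : (Pool.Agent.Lib.MP_1a91b9_ntL.crv 0 b).map (e : K4 →+* K) = ⟨0, 0, 0, e b, 0⟩ := by
    unfold Pool.Agent.Lib.MP_1a91b9_ntL.crv
    refine WeierstrassCurve.ext ?_ ?_ ?_ ?_ ?_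
    · exact map_zero e
    · exact map_zero e
    · exact map_zero e
    · rfl
    · exact map_zero e
  rw [h1]

private theorem TL8_cn {D : 𝓞 K4} {b ν : K4} (hν : ν ≠ 0) (hD : -(D : K4) = b * ν ^ 4) :
    Cn D ↔ RkZ (Pool.Agent.Lib.MP_1a91b9_ntL.crv 0 b) := by
  have h1 : Cn D ↔ RkZ (Pool.Agent.Lib.MP_1a91b9_ntL.crv 0 (-(D : K4))) := Iff.rfl
  rw [h1, hD]
  exact Pool.Agent.Lib.MP_1a91b9_ntW.J.c4_fourth b hν

private theorem TL8_pow {K : Type} [Field K] [NumberField K] (e : K4 ≃+* K) {A : K} {a ν : 𝓞 K4} (hν : ν ≠ 0)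
    (ha : (a : K4) = -(e.symm A) * (ν : K4) ^ 4) (D x : 𝓞 K4) (n : ℕ) (hD : D = a * x ^ n) :
    Cn D ↔ RkZ (⟨0, 0, 0, A * ((RingOfIntegers.mapRingEquiv e x : 𝓞 K) : K) ^ n, 0⟩ : WeierstrassCurve K) := by
  have h1 : -(D : K4) = (e.symm A * (x : K4) ^ n) * (ν : K4) ^ 4 := by
    rw [hD, oc_mul, oc_pow, ha]
    ring
  rw [TL8_cn (oc_ne hν) h1, TL8_crv e, map_mul, map_pow, e.apply_symm_apply, RingOfIntegers.mapRingEquiv_apply]

/-- **The density over `K`.** -/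
theorem main_KT (K : Type) [Field K] [NumberField K] (hK : Module.finrank ℚ K = 2)
    (hi : ∃ i : K, i ^ 2 = -1) {I : Type} [Fintype I] [DecidableEq I] {A : I → K} {δ : I → 𝓞 K}
    (hc : Ind4 (fun i => -A i) (fun i => (δ i : K))) (Bf : I → Finset K)
    (hB : ∀ i, ∀ β ∈ Bf i, β ≠ 0) {n : ℕ} {m u : 𝓞 K} (hm : m ∣ 2 ^ n)
    (hu : ∀ q : 𝓞 K, Prime q → ¬ (q ^ 4 ∣ m ∧ q ^ 4 ∣ u)) (t : ℕ) (ε : ℝ) (hε : 0 < ε) :
    ∀ᶠ X : ℝ in Filter.atTop,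
      bn (Fintype.card I) t ((∏' i : ℕ, (1 + 1 / (2 : ℝ) ^ (i + 1))⁻¹) ^ 3) - ε ≤
      (Nat.card {x : 𝓞 K // (∀ z : 𝓞 K, z ^ 4 ∣ x → IsUnit z) ∧ m ∣ x - u ∧
        |Algebra.norm ℤ x| ≤ X ∧ Atl t fun i =>
          (∀ j : ℕ, 1 ≤ j → j ≤ 3 →
            RkZ (⟨0, 0, 0, A i * ((δ i * x : 𝓞 K) : K) ^ j, 0⟩ : WeierstrassCurve K)) ∧
          ∀ β ∈ Bf i, ¬ IsSquare (β * ((δ i * x : 𝓞 K) : K))} : ℝ) /
        (Nat.card {x : 𝓞 K // (∀ z : 𝓞 K, z ^ 4 ∣ x → IsUnit z) ∧ m ∣ x - u ∧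
          |Algebra.norm ℤ x| ≤ X} : ℝ) := by
  classical
  obtain ⟨i0, hi0⟩ := hi
  obtain ⟨e⟩ := Pool.Agent.Lib.MP_1a91b9_ntW.J.iso_K4 hK hi0
  choose a ν hν ha using fun i : I => TL8_fourth (-(e.symm (A i)))
  have hδ : ∀ i, ((((RingOfIntegers.mapRingEquiv e).symm (δ i) : 𝓞 K4)) : K4) = e.symm ((δ i : 𝓞 K) : K) := by
    intro i
    have h1 : e ((((RingOfIntegers.mapRingEquiv e).symm (δ i) : 𝓞 K4)) : K4) = ((δ i : 𝓞 K) : K) := by
      rw [← RingOfIntegers.mapRingEquiv_apply, RingEquiv.apply_symm_apply]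
    rw [← h1, e.symm_apply_apply]
  have hν4 : ∀ i, ((ν i : 𝓞 K4) : K4) ≠ 0 := fun i => oc_ne (hν i)
  have hcI : Ind4 (fun i => ((a i : 𝓞 K4) : K4))
      (fun i => ((((RingOfIntegers.mapRingEquiv e).symm (δ i) : 𝓞 K4)) : K4)) := by
    refine ⟨fun i => ⟨?_, ?_, fun y hy => ?_⟩, fun i i' hii k l hk1 hk3 hl1 hl3 y hy => ?_⟩
    · show ((a i : 𝓞 K4) : K4) ≠ 0
      rw [ha i]
      refine mul_ne_zero (neg_ne_zero.2 ?_) (pow_ne_zero 4 (hν4 i))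
      rw [Ne, map_eq_zero_iff _ e.symm.injective]
      exact fun h => (hc.1 i).1 (by
        show -A i = 0
        rw [h, neg_zero])
    · show ((((RingOfIntegers.mapRingEquiv e).symm (δ i) : 𝓞 K4)) : K4) ≠ 0
      rw [hδ i, Ne, map_eq_zero_iff _ e.symm.injective]
      exact (hc.1 i).2.1
    · have hy' : y ^ 4 = ((a i : 𝓞 K4) : K4) := hy
      refine (hc.1 i).2.2 (e (y / (ν i : K4))) ?_
      show (e (y / (ν i : K4))) ^ 4 = -A i
      rw [← map_pow, div_pow, hy', ha i, mul_div_assoc, div_self (pow_ne_zero 4 (hν4 i)), mul_one, map_neg,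
        e.apply_symm_apply]
    · have hy' : y ^ 4 = ((a i : 𝓞 K4) : K4) ^ k * ((a i' : 𝓞 K4) : K4) ^ l *
          (((((RingOfIntegers.mapRingEquiv e).symm (δ i) : 𝓞 K4)) : K4) *
            ((((RingOfIntegers.mapRingEquiv e).symm (δ i') : 𝓞 K4)) : K4)) ^ 2 := hy
      refine hc.2 i i' hii k l hk1 hk3 hl1 hl3 (e (y / ((ν i : K4) ^ k * (ν i' : K4) ^ l))) ?_
      show (e (y / ((ν i : K4) ^ k * (ν i' : K4) ^ l))) ^ 4 =
        (-A i) ^ k * (-A i') ^ l * (((δ i : 𝓞 K) : K) * ((δ i' : 𝓞 K) : K)) ^ 2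
      have hne : ((ν i : K4) ^ k * (ν i' : K4) ^ l) ^ 4 ≠ 0 :=
        pow_ne_zero 4 (mul_ne_zero (pow_ne_zero k (hν4 i)) (pow_ne_zero l (hν4 i')))
      have h5 : y ^ 4 = ((-(e.symm (A i))) ^ k * (-(e.symm (A i'))) ^ l *
          (e.symm ((δ i : 𝓞 K) : K) * e.symm ((δ i' : 𝓞 K) : K)) ^ 2) * ((ν i : K4) ^ k * (ν i' : K4) ^ l) ^ 4 := by
        rw [hy', ha i, ha i', hδ i, hδ i']
        ring
      rw [← map_pow, div_pow, h5, mul_div_assoc, div_self hne, mul_one, map_mul, map_mul, map_pow, map_pow, map_pow,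
        map_mul, map_neg, map_neg, e.apply_symm_apply, e.apply_symm_apply, e.apply_symm_apply, e.apply_symm_apply]
  have hB' : ∀ i, ∀ β ∈ (Bf i).image e.symm, β ≠ 0 := by
    intro i β hβ
    obtain ⟨γ, hγ, rfl⟩ := Finset.mem_image.1 hβ
    rw [Ne, map_eq_zero_iff _ e.symm.injective]
    exact hB i γ hγ
  have hM : (RingOfIntegers.mapRingEquiv e).symm m ∣ 2 ^ n := by
    have h2 := map_dvd (RingOfIntegers.mapRingEquiv e).symm hm
    rwa [map_pow, map_ofNat] at h2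
  have hu' : ∀ q : 𝓞 K4, Prime q → ¬ (q ^ 4 ∣ (RingOfIntegers.mapRingEquiv e).symm m ∧
      q ^ 4 ∣ (RingOfIntegers.mapRingEquiv e).symm u) := by
    rintro q hq ⟨h2, h3⟩
    refine hu (RingOfIntegers.mapRingEquiv e q) ?_ ⟨?_, ?_⟩
    · exact (MulEquiv.prime_iff (RingOfIntegers.mapRingEquiv e).toMulEquiv).2 hq
    · have h4 := map_dvd (RingOfIntegers.mapRingEquiv e) h2
      rwa [map_pow, RingEquiv.apply_symm_apply] at h4
    · have h4 := map_dvd (RingOfIntegers.mapRingEquiv e) h3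
      rwa [map_pow, RingEquiv.apply_symm_apply] at h4
  have key : ∀ d : 𝓞 K4, ((∀ z : 𝓞 K4, z ^ 4 ∣ d → IsUnit z) ∧ (RingOfIntegers.mapRingEquiv e).symm m ∣
      d - (RingOfIntegers.mapRingEquiv e).symm u) ↔
      ((∀ z : 𝓞 K, z ^ 4 ∣ RingOfIntegers.mapRingEquiv e d → IsUnit z) ∧
        m ∣ RingOfIntegers.mapRingEquiv e d - u) := by
    intro d
    refine and_congr ⟨fun h z hz => ?_, fun h z hz => ?_⟩ ⟨fun h => ?_, fun h => ?_⟩
    · have h2 := map_dvd (RingOfIntegers.mapRingEquiv e).symm hz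
      rw [map_pow, RingEquiv.symm_apply_apply] at h2
      exact (MulEquiv.isUnit_map (RingOfIntegers.mapRingEquiv e).symm).1 (h _ h2)
    · have h2 := map_dvd (RingOfIntegers.mapRingEquiv e) hz
      rw [map_pow] at h2
      exact (MulEquiv.isUnit_map (RingOfIntegers.mapRingEquiv e)).1 (h _ h2)
    · have h1 := map_dvd (RingOfIntegers.mapRingEquiv e) h
      rwa [map_sub, RingEquiv.apply_symm_apply, RingEquiv.apply_symm_apply] at h1
    · have h1 := map_dvd (RingOfIntegers.mapRingEquiv e).symm h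
      rwa [map_sub, RingEquiv.symm_apply_apply] at h1
  have hno : ∀ d : 𝓞 K4, |Algebra.norm ℤ (RingOfIntegers.mapRingEquiv e d)| = |Algebra.norm ℤ d| := by
    intro d
    rw [Pool.Agent.Lib.MP_1a91b9_ntW.J.norm_mapRingEquiv]
  have hG1 : ∀ (i : I) (d : 𝓞 K4), Gq (a i) ((Bf i).image e.symm) d ↔
      ((∀ j : ℕ, 1 ≤ j → j ≤ 3 →
        RkZ (⟨0, 0, 0, A i * ((RingOfIntegers.mapRingEquiv e d : 𝓞 K) : K) ^ j, 0⟩ : WeierstrassCurve K)) ∧
        ∀ β ∈ Bf i, ¬ IsSquare (β * ((RingOfIntegers.mapRingEquiv e d : 𝓞 K) : K))) := by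
    intro i d
    have c1 := TL8_pow e (hν i) (ha i) (a i * d) d 1 (by rw [pow_one])
    have c2 := TL8_pow e (hν i) (ha i) (a i * d ^ 2) d 2 rfl
    have c3 := TL8_pow e (hν i) (ha i) (a i * d ^ 3) d 3 rfl
    have c4 : (∀ β ∈ (Bf i).image e.symm, ¬ IsSquare (β * (d : K4))) ↔
        ∀ β ∈ Bf i, ¬ IsSquare (β * ((RingOfIntegers.mapRingEquiv e d : 𝓞 K) : K)) := by
      rw [RingOfIntegers.mapRingEquiv_apply]
      constructor
      · intro h β hβ hsq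
        refine h (e.symm β) (Finset.mem_image_of_mem _ hβ) ?_
        have h1 := hsq.map e.symm
        rwa [map_mul, e.symm_apply_apply] at h1
      · intro h β hβ hsq
        obtain ⟨γ, hγ, rfl⟩ := Finset.mem_image.1 hβ
        refine h γ hγ ?_
        have h1 := hsq.map e
        rwa [map_mul, e.apply_symm_apply] at h1
    constructor
    · intro h
      refine ⟨fun j hj1 hj3 => ?_, c4.1 h.ex⟩
      rcases (by omega : j = 1 ∨ j = 2 ∨ j = 3) with rfl | rfl | rfl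
      · exact c1.1 h.c1
      · exact c2.1 h.c2
      · exact c3.1 h.c3
    · rintro ⟨h1, h2⟩
      exact ⟨c1.2 (h1 1 (by norm_num) (by norm_num)), c2.2 (h1 2 (by norm_num) (by norm_num)),
        c3.2 (h1 3 (by norm_num) (by norm_num)), c4.2 h2⟩
  have hG : ∀ d : 𝓞 K4, Atl t (fun i => Gq (a i) ((Bf i).image e.symm) ((RingOfIntegers.mapRingEquiv e).symm (δ i) * d)) ↔
      Atl t (fun i => (∀ j : ℕ, 1 ≤ j → j ≤ 3 →
        RkZ (⟨0, 0, 0, A i * ((δ i * RingOfIntegers.mapRingEquiv e d : 𝓞 K) : K) ^ j, 0⟩ : WeierstrassCurve K)) ∧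
        ∀ β ∈ Bf i, ¬ IsSquare (β * ((δ i * RingOfIntegers.mapRingEquiv e d : 𝓞 K) : K))) := by
    intro d
    have h1 : (fun i => Gq (a i) ((Bf i).image e.symm) ((RingOfIntegers.mapRingEquiv e).symm (δ i) * d)) =
        (fun i => (∀ j : ℕ, 1 ≤ j → j ≤ 3 →
        RkZ (⟨0, 0, 0, A i * ((δ i * RingOfIntegers.mapRingEquiv e d : 𝓞 K) : K) ^ j, 0⟩ : WeierstrassCurve K)) ∧
        ∀ β ∈ Bf i, ¬ IsSquare (β * ((δ i * RingOfIntegers.mapRingEquiv e d : 𝓞 K) : K))) := by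
      funext i
      have h2 : RingOfIntegers.mapRingEquiv e ((RingOfIntegers.mapRingEquiv e).symm (δ i) * d) =
          δ i * RingOfIntegers.mapRingEquiv e d := by
        rw [map_mul, RingEquiv.apply_symm_apply]
      refine propext ?_
      rw [hG1 i, h2]
    rw [h1]
  filter_upwards [main_K4T hcI (fun i => (Bf i).image e.symm) hB' hM hu' t ε hε] with X hX
  have h1 : Nat.card {d : 𝓞 K4 // (∀ z : 𝓞 K4, z ^ 4 ∣ d → IsUnit z) ∧ (RingOfIntegers.mapRingEquiv e).symm m ∣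
      d - (RingOfIntegers.mapRingEquiv e).symm u ∧ |Algebra.norm ℤ d| ≤ X} =
      Nat.card {d : 𝓞 K // (∀ z : 𝓞 K, z ^ 4 ∣ d → IsUnit z) ∧ m ∣ d - u ∧ |Algebra.norm ℤ d| ≤ X} := by
    refine Nat.card_congr ((RingOfIntegers.mapRingEquiv e).toEquiv.subtypeEquiv fun d => ?_)
    have h3 := key d
    have h4 := hno d
    constructor
    · rintro ⟨a1, a2, a3⟩
      obtain ⟨b1, b2⟩ := h3.1 ⟨a1, a2⟩
      exact ⟨b1, b2, by
        show ((|Algebra.norm ℤ (RingOfIntegers.mapRingEquiv e d)| : ℤ) : ℝ) ≤ X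
        rw [h4]
        exact a3⟩
    · rintro ⟨a1, a2, a3⟩
      obtain ⟨b1, b2⟩ := h3.2 ⟨a1, a2⟩
      exact ⟨b1, b2, by
        rw [← h4]
        exact a3⟩
  have h2 : Nat.card {d : 𝓞 K4 // (∀ z : 𝓞 K4, z ^ 4 ∣ d → IsUnit z) ∧ (RingOfIntegers.mapRingEquiv e).symm m ∣
      d - (RingOfIntegers.mapRingEquiv e).symm u ∧ |Algebra.norm ℤ d| ≤ X ∧
      Atl t fun i => Gq (a i) ((Bf i).image e.symm) ((RingOfIntegers.mapRingEquiv e).symm (δ i) * d)} =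
      Nat.card {x : 𝓞 K // (∀ z : 𝓞 K, z ^ 4 ∣ x → IsUnit z) ∧ m ∣ x - u ∧
        |Algebra.norm ℤ x| ≤ X ∧ Atl t fun i =>
          (∀ j : ℕ, 1 ≤ j → j ≤ 3 →
            RkZ (⟨0, 0, 0, A i * ((δ i * x : 𝓞 K) : K) ^ j, 0⟩ : WeierstrassCurve K)) ∧
          ∀ β ∈ Bf i, ¬ IsSquare (β * ((δ i * x : 𝓞 K) : K))} := by
    refine Nat.card_congr ((RingOfIntegers.mapRingEquiv e).toEquiv.subtypeEquiv fun d => ?_)
    have h3 := key d
    have h4 := hno d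
    constructor
    · rintro ⟨a1, a2, a3, a4⟩
      obtain ⟨b1, b2⟩ := h3.1 ⟨a1, a2⟩
      exact ⟨b1, b2, by
        show ((|Algebra.norm ℤ (RingOfIntegers.mapRingEquiv e d)| : ℤ) : ℝ) ≤ X
        rw [h4]
        exact a3, (hG d).1 a4⟩
    · rintro ⟨a1, a2, a3, a4⟩
      obtain ⟨b1, b2⟩ := h3.2 ⟨a1, a2⟩
      exact ⟨b1, b2, by
        rw [← h4]
        exact a3, (hG d).2 a4⟩
  rw [h1, h2] at hX
  exact hX

end

end Pool.Agent.Lib.MP_1a91b9_ntQT
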