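import Pool.Agent.Lib.MP_1a91b9_ntQT.TV6

/-!
# MP_1a91b9_nt (quartic stability): from rank zero of the three twists to all the fields between K and K(x)
-/

set_option autoImplicit false

namespace Pool.Agent.Lib.MP_1a91b9_ntQT

open NumberField IsDedekindDomain WeierstrassCurve
open Pool.Agent.Lib.MP_1a91b9_nuI (HasJ)
open Pool.Agent.Lib.MP_1a91b9_ntL (crv)
open Pool.Agent.Lib.MP_1a91b9_ntJ (TowP)
open Pool.Agent.Lib.MP_1a91b9_ntW.J (RkZ twd twd_crv)
open Pool.Agent.Lib.MP_1a91b9_ntC Pool.Agent.Lib.MP_1a91b9_ntC.Sh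

/-- **The main theorem of the block.** -/
theorem to_main {K : Type} [Field K] [NumberField K] (hK : Module.finrank ℚ K = 2) {i : K} (hi : i ^ 2 = -1)
    {A : K} (hA : A ≠ 0) {d : 𝓞 K} (hd : ¬ IsSquare (d : K)) (h1 : RkZ (crv 0 (A * (d : K))))
    (h2 : RkZ (crv 0 (A * (d : K) ^ 2))) (h3 : RkZ (crv 0 (A * (d : K) ^ 3)))
    {N : Type} [Field N] [NumberField N] [Algebra K N] {x : N} (hx : x ^ 4 = algebraMap K N (d : K))
    (hgen : IntermediateField.adjoin K {x} = ⊤) :
    Module.finrank K N = 4 ∧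
    (∀ (F : Type) [Field F] [NumberField F] [Algebra K F], Module.finrank K F = 1 →
      TowE K (algebraMap K F A) (algebraMap K F (d : K))) ∧
    (∀ (F : Type) [Field F] [NumberField F] [Algebra K F], Module.finrank K F = 2 → ∀ y : F,
      y ^ 2 = algebraMap K F (d : K) → TowE K (algebraMap K F A) y) ∧
    ((∀ x' y' : N, y' ^ 2 = x' ^ 3 + algebraMap K N A * x' →
      ∃ u v : K, algebraMap K N u = x' ∧ algebraMap K N v = y') →
    ∀ (F' : Type) [Field F'] [NumberField F'] [Algebra K F'] [Algebra F' N] [IsScalarTower K F' N],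
      (∃ g : ℂ → ℂ, Differentiable ℂ g ∧ g 1 ≠ 0 ∧ ∀ s : ℂ, 3 / 2 < s.re →
        ((crv 0 A).map (algebraMap K F')).LSeries s = (crv 0 A).LSeries s * g s) ∧
      ∀ (F'' : Type) [Field F''] [NumberField F''] [Algebra K F''] [Algebra F' F'']
        [IsScalarTower K F' F''] [Algebra F'' N] [IsScalarTower F' F'' N], Module.finrank F' F'' ≠ 1 →
        ∃ S : Finset ℕ, ∀ (q : ℕ) [Fact q.Prime], q ∉ S →
          RelQ q ((crv 0 A).map (algebraMap K F'))
            (((crv 0 A).map (algebraMap K F')).map (algebraMap F' F''))) := by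
  have H1 : ∀ (F : Type) [Field F] [NumberField F] [Algebra K F], Module.finrank K F = 1 →
      TowE K (algebraMap K F A) (algebraMap K F (d : K)) := fun F _ _ _ hF => tow_one hK hi hA hd h2 hF
  have H2 : ∀ (F : Type) [Field F] [NumberField F] [Algebra K F], Module.finrank K F = 2 → ∀ y : F,
      y ^ 2 = algebraMap K F (d : K) → TowE K (algebraMap K F A) y := fun F _ _ _ hF y hy =>
    tow_two hK hi hA hd h1 h3 hF hy
  refine ⟨deg_four hi hd hx hgen, H1, H2, fun hN F' _ _ _ _ _ => ⟨?_, ?_⟩⟩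
  · by_cases hF : Module.finrank K F' = 1
    · refine ⟨fun _ => 1, differentiable_const 1, one_ne_zero, fun s _ => ?_⟩
      rw [mul_one]
      exact ls_one hF (q_hasJ A) s
    · obtain ⟨S, hS⟩ := rel_all hi hd hx hgen H1 H2 hN K F' hF
      obtain ⟨q, hq, hqp⟩ := Nat.exists_infinite_primes (S.sup id + 1)
      have hqS : q ∉ S := fun h => by
        have := Finset.le_sup (f := id) h
        simp only [id] at this
        omega
      have _ : Fact q.Prime := ⟨hqp⟩
      obtain ⟨⟨g, g1, g2, g3, -⟩, -⟩ := hS q hqS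
      refine ⟨g, g1, g2, fun s hs => ?_⟩
      have e1 : (crv 0 A).map (algebraMap K K) = crv 0 A := WeierstrassCurve.map_id _
      have h4 := g3 s hs
      rw [e1] at h4
      exact h4
  · intro F'' _ _ _ _ _ _ _ hne
    exact rel_all hi hd hx hgen H1 H2 hN F' F'' hne

end Pool.Agent.Lib.MP_1a91b9_ntQT
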