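import Pool.Agent.Lib.MP_1a91b9_ntQT.Q0
import Pool.Agent.Lib.MP_1a91b9_ntQT.AR8
import Pool.Agent.Lib.MP_1a91b9_ntQT.TV7

/-!
# MP_1a91b9_nt (quartic stability): the property of `d` from the three twists
-/

set_option autoImplicit false

namespace Pool.Agent.Lib.MP_1a91b9_ntQT

open NumberField WeierstrassCurve
open Pool.Agent.Lib.MP_1a91b9_ntL (crv)
open Pool.Agent.Lib.MP_1a91b9_ntW.J (RkZ)

/-- from the towers to the property `R` -/
private theorem TO7_R {K : Type} [Field K] [NumberField K] {A : K} {F : Type} [Field F] [NumberField F]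
    [Algebra K F] {e : F} (h : TowE K (algebraMap K F A) e) :
    Fin.PropR (⟨0, 0, 0, A, 0⟩ : WeierstrassCurve K) F e := by
  intro V hV
  have hV' : V = crv 0 (e ^ 2 * algebraMap K F A) := by
    rw [hV, mul_comm]
    rfl
  obtain ⟨⟨S₁, hS₁⟩, S₂, hS₂⟩ := h
  rw [← hV'] at hS₁ hS₂
  refine ⟨S₁ ∪ S₂, fun q _ hq k L M _ _ _ _ _ _ _ _ _ hM hram => ⟨?_, ?_⟩⟩
  · intro N _ _ _ W C hC
    exact hS₁ q (fun h => hq (Finset.mem_union_left _ h)) k N L M hM hram W C hC
  · intro L' _ _ _ y hy hgen
    have h1 := hS₂ q (fun h => hq (Finset.mem_union_right _ h)) k L M hM hram L' y hy hgen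
    have e1 : (⟨0, 0, 0, A, 0⟩ : WeierstrassCurve K).baseChange F = crv 0 (algebraMap K F A) := crv0_map A
    rw [e1]
    exact h1

/-- **The property of `d`** from the three twists. -/
theorem propQ_of {K : Type} [Field K] [NumberField K] (hK : Module.finrank ℚ K = 2) {i : K}
    (hi : i ^ 2 = -1) {A : K} (hA : A ≠ 0) :
    ∃ B : Finset K, (∀ β ∈ B, β ≠ 0) ∧ ∀ d : 𝓞 K, ¬ IsSquare (d : K) →
      (∀ β ∈ B, ¬ IsSquare (β * (d : K))) →
      (∀ j : ℕ, 1 ≤ j → j ≤ 3 → RkZ (⟨0, 0, 0, A * (d : K) ^ j, 0⟩ : WeierstrassCurve K)) →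
      Fin.PropQ (⟨0, 0, 0, A, 0⟩ : WeierstrassCurve K) (d : K) := by
  obtain ⟨B, hB0, hB⟩ := no_new4 hi hA
  refine ⟨B, hB0, fun d hd hBd hR N _ _ _ x hx hgen => ?_⟩
  have r1 : RkZ (crv 0 (A * (d : K))) := by
    have := hR 1 le_rfl (by norm_num)
    rwa [pow_one] at this
  have r2 : RkZ (crv 0 (A * (d : K) ^ 2)) := hR 2 (by norm_num) (by norm_num)
  have r3 : RkZ (crv 0 (A * (d : K) ^ 3)) := hR 3 (by norm_num) le_rfl
  obtain ⟨m1, m2, m3, m4⟩ := to_main hK hi hA hd r1 r2 r3 hx hgen
  have hN := hB N (d : K) x hx hgen hd (fun j h1 h2 => (hR j h1 h2).2) hBd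
  refine ⟨m1, fun F _ _ _ _ _ => ?_⟩
  obtain ⟨n1, n2⟩ := m4 hN F
  have eF : (⟨0, 0, 0, A, 0⟩ : WeierstrassCurve K).baseChange F = (crv 0 A).map (algebraMap K F) := rfl
  refine ⟨?_, n1, ?_, ?_⟩
  · intro x' y' hxy
    rw [eF, crv0_map] at hxy
    have h10 : y' ^ 2 = x' ^ 3 + algebraMap K F A * x' := by
      have h11 := (WeierstrassCurve.Affine.equation_iff _ _).1 hxy
      simp only [crv] at h11
      linear_combination h11
    obtain ⟨u, v, hu, hv⟩ := hN (algebraMap F N x') (algebraMap F N y') (by
      rw [IsScalarTower.algebraMap_apply K F N, ← map_pow, ← map_pow, h10, map_add, map_mul])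
    refine ⟨u, v, (algebraMap F N).injective ?_, (algebraMap F N).injective ?_⟩
    · rw [← IsScalarTower.algebraMap_apply K F N, hu]
    · rw [← IsScalarTower.algebraMap_apply K F N, hv]
  · intro F' _ _ _ _ _ hne
    let _ : Algebra K F' := ((algebraMap F F').comp (algebraMap K F)).toAlgebra
    have _ : IsScalarTower K F F' := IsScalarTower.of_algebraMap_eq fun _ => rfl
    exact n2 F' hne
  · intro e he hsq
    have hmul := Module.finrank_mul_finrank K F N
    rw [m1] at hmul
    have p1 : 0 < Module.finrank K F := Module.finrank_pos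
    have hcase : Module.finrank K F = 1 ∨ Module.finrank K F = 2 ∨ Module.finrank K F = 4 := by
      have hdvd : Module.finrank K F ∣ 4 := ⟨_, hmul.symm⟩
      have hle : Module.finrank K F ≤ 4 := Nat.le_of_dvd (by norm_num) hdvd
      generalize Module.finrank K F = a at p1 hdvd hle
      interval_cases a <;> revert hdvd <;> decide
    rcases hcase with hF | hF | hF
    · -- degree one
      have hbij : Function.Bijective (algebraMap K F) := Module.Free.bijective_algebraMap_of_finrank_eq_one hF
      rcases he with he | he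
      · exfalso
        obtain ⟨e', rfl⟩ := hbij.2 e
        rw [← IsScalarTower.algebraMap_apply K F N] at he
        apply hd
        refine ⟨e', (algebraMap K N).injective ?_⟩
        rw [map_mul, he, ← hx]
        ring
      · have he' : e = algebraMap K F (d : K) := (algebraMap F N).injective (by
          rw [he, hx, IsScalarTower.algebraMap_apply K F N])
        rw [he']
        exact TO7_R (m2 F hF)
    · -- degree two
      obtain ⟨y, hy1, hy2⟩ := sq_mem hi hd hx hgen (F := F) hF
      rcases he with he | he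
      · have he' : e = y := (algebraMap F N).injective (by rw [he, hy1])
        rw [he']
        exact TO7_R (m3 F hF y hy2)
      · exfalso
        apply hsq
        refine ⟨y, (algebraMap F N).injective ?_⟩
        rw [he, map_mul, hy1]
        ring
    · -- degree four
      exfalso
      have h6 : Module.finrank F N = 1 := by
        rw [hF] at hmul
        omega
      have hbij : Function.Bijective (algebraMap F N) := Module.Free.bijective_algebraMap_of_finrank_eq_one h6
      obtain ⟨z, hz⟩ := hbij.2 x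
      apply hsq
      rcases he with he | he
      · refine ⟨z, hbij.1 ?_⟩
        rw [he, map_mul, hz]
        ring
      · refine ⟨z ^ 2, hbij.1 ?_⟩
        rw [he, map_mul, map_pow, hz]
        ring

end Pool.Agent.Lib.MP_1a91b9_ntQT
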