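import Pool.Agent.Lib.MP_1a91b9_ntQT.TL8
import Pool.Agent.Lib.MP_1a91b9_ntQT.TO7
import Pool.Agent.Lib.MP_1a91b9_ntZ.Hund
import Pool.Agent.Lib.MP_1a91b9_ntW.J.Mono

/-!
# Quartic stability, block TL

Leaf TL9: the final statement for a set `T` of pairs `τ = (A, δ)`: as `fin_Q` (FIN): `propQ_of` for each `A` (`choose`), `main_KT`; if `T` is finite take
`I = T` (`Set.Finite.toFinset`, `ncard`), if `T` is infinite take finite subsets of `n` elements and `bn_tendsto` (`ntZ/Hund`; `bn` is the sum in `hv`);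
the count with `encard` from `Atl` (as in `ntZ/C3Fin`, `AtF_of_Atl`, or directly: the image of a subset of `I` with `t` elements); monotonicity with the
finiteness of the sets (`finite_units`, `no_real`, `finite_norm_le` of `ntW/J/Mono`, see FIN.lean).
-/

set_option autoImplicit false
set_option linter.unusedSectionVars false

namespace Pool.Agent.Lib.MP_1a91b9_ntQT

open NumberField
open Pool.Agent.Lib.MP_1a91b9_ntZ (Atl bn)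

/-- A fourth-power-free element is not zero. -/
private theorem TL9_ff {K : Type} [Field K] [NumberField K] {x : 𝓞 K}
    (h : ∀ z : 𝓞 K, z ^ 4 ∣ x → IsUnit z) : x ≠ 0 := by
  rintro rfl
  exact not_isUnit_zero (h 0 (dvd_zero _))

/-- the constant is between `0` and `1` -/
private theorem TL9_c : 0 < (∏' i : ℕ, (1 + 1 / (2 : ℝ) ^ (i + 1))⁻¹) ∧
    (∏' i : ℕ, (1 + 1 / (2 : ℝ) ^ (i + 1))⁻¹) ≤ 1 := by
  have hs : Summable fun i : ℕ => 1 / (2 : ℝ) ^ (i + 1) := by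
    have h1 : Summable fun i : ℕ => (1 / 2 : ℝ) * (1 / 2) ^ i :=
      (summable_geometric_of_lt_one (by norm_num) (by norm_num)).mul_left _
    refine h1.congr fun i => ?_
    rw [pow_succ, one_div_pow, one_div_mul_one_div, mul_comm]
  have h : ∀ i : ℕ, Real.exp (-(1 / (2 : ℝ) ^ (i + 1))) ≤ (1 + 1 / (2 : ℝ) ^ (i + 1))⁻¹ := by
    intro i
    rw [Real.exp_neg]
    have h1 : (0 : ℝ) ≤ 1 / (2 : ℝ) ^ (i + 1) := by positivity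
    have h2 := Real.add_one_le_exp (1 / (2 : ℝ) ^ (i + 1))
    exact inv_anti₀ (by linarith) (by linarith)
  have h1 : ∀ i : ℕ, (1 + 1 / (2 : ℝ) ^ (i + 1))⁻¹ ≤ 1 := fun i =>
    inv_le_one_of_one_le₀ (by
      have h1 : (0 : ℝ) ≤ 1 / (2 : ℝ) ^ (i + 1) := by positivity
      linarith)
  by_cases hf : Multipliable fun i : ℕ => (1 + 1 / (2 : ℝ) ^ (i + 1))⁻¹
  · have ht := hf.hasProd.tendsto_prod_nat
    have hf0 : ∀ i : ℕ, 0 ≤ (1 + 1 / (2 : ℝ) ^ (i + 1))⁻¹ := fun i =>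
      (Real.exp_pos _).le.trans (h i)
    constructor
    · refine lt_of_lt_of_le (Real.exp_pos (-∑' i : ℕ, 1 / (2 : ℝ) ^ (i + 1)))
        (ge_of_tendsto' ht fun n => ?_)
      calc Real.exp (-∑' i : ℕ, 1 / (2 : ℝ) ^ (i + 1))
          ≤ Real.exp (∑ i ∈ Finset.range n, -(1 / (2 : ℝ) ^ (i + 1))) := by
            rw [Real.exp_le_exp, Finset.sum_neg_distrib, neg_le_neg_iff]
            exact hs.sum_le_tsum _ fun i _ => by positivity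
        _ = ∏ i ∈ Finset.range n, Real.exp (-(1 / (2 : ℝ) ^ (i + 1))) := Real.exp_sum _ _
        _ ≤ _ := Finset.prod_le_prod (fun i _ => (Real.exp_pos _).le) fun i _ => h i
    · exact le_of_tendsto' ht fun n => Finset.prod_le_one (fun i _ => hf0 i) fun i _ => h1 i
  · rw [tprod_eq_one_of_not_multipliable hf]
    exact ⟨zero_lt_one, le_rfl⟩

/-- the count -/
private theorem TL9_enc {A : Type} {S : Finset A} {T : Set A} (hS : (S : Set A) ⊆ T) {t : ℕ}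
    {P : S → Prop} {Q : A → Prop} (h : ∀ i : S, P i → Q i.1) (hP : Atl t P) :
    (t : ℕ∞) ≤ {a ∈ T | Q a}.encard := by
  classical
  obtain ⟨F, hF, hF'⟩ : ∃ F : Finset S, t ≤ F.card ∧ ∀ i ∈ F, P i := by
    unfold Atl at hP
    exact ⟨_, hP, fun i hi => (Finset.mem_filter.1 hi).2⟩
  have h2 : ((F.map (Function.Embedding.subtype _) : Finset A) : Set A) ⊆ {a ∈ T | Q a} := by
    intro a ha
    obtain ⟨i, hi, rfl⟩ := Finset.mem_map.1 (Finset.mem_coe.1 ha)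
    exact ⟨hS (Finset.mem_coe.2 i.2), h i (hF' i hi)⟩
  have h4 := Set.encard_le_encard h2
  rw [Set.encard_coe_eq_coe_finsetCard, Finset.card_map] at h4
  exact le_trans (by exact_mod_cast hF) h4

/-- the law for finite subsets -/
private theorem TL9_S {K : Type} [Field K] [NumberField K] (hK : Module.finrank ℚ K = 2)
    (hi : ∃ i : K, i ^ 2 = -1) (T : Set (K × 𝓞 K)) (S : Finset (K × 𝓞 K))
    (hS : (S : Set (K × 𝓞 K)) ⊆ T)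
    (h0 : ∀ τ ∈ T, τ.1 ≠ 0 ∧ τ.2 ≠ 0 ∧ ∀ z : K, z ^ 4 ≠ -τ.1)
    (hT : ∀ τ ∈ T, ∀ τ' ∈ T, τ ≠ τ' → ∀ k l : ℕ, 1 ≤ k → k ≤ 3 → 1 ≤ l → l ≤ 3 → ∀ z : K,
      z ^ 4 ≠ (-τ.1) ^ k * (-τ'.1) ^ l * ((τ.2 * τ'.2 : 𝓞 K) : K) ^ 2)
    (n : ℕ) (m u : 𝓞 K) (hm : m ∣ 2 ^ n) (hu : ∀ q : 𝓞 K, Prime q → ¬ (q ^ 4 ∣ m ∧ q ^ 4 ∣ u))
    (t : ℕ) (ε : ℝ) (hε : 0 < ε) :
    ∀ᶠ X : ℝ in Filter.atTop,
      bn S.card t ((∏' i : ℕ, (1 + 1 / (2 : ℝ) ^ (i + 1))⁻¹) ^ 3) - ε ≤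
      (Nat.card {d : 𝓞 K // (∀ z : 𝓞 K, z ^ 4 ∣ d → IsUnit z) ∧ m ∣ d - u ∧
        |Algebra.norm ℤ d| ≤ X ∧
        t ≤ {τ ∈ T | Fin.PropQ (⟨0, 0, 0, τ.1, 0⟩ : WeierstrassCurve K)
          ((τ.2 * d : 𝓞 K) : K)}.encard} : ℝ) /
        (Nat.card {d : 𝓞 K // (∀ z : 𝓞 K, z ^ 4 ∣ d → IsUnit z) ∧ m ∣ d - u ∧
          |Algebra.norm ℤ d| ≤ X} : ℝ) := by
  classical
  obtain ⟨i, hi'⟩ := hi
  have hB : ∀ τ : S, ∃ B : Finset K, (∀ β ∈ B, β ≠ 0) ∧ ∀ d : 𝓞 K, ¬ IsSquare (d : K) →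
      (∀ β ∈ B, ¬ IsSquare (β * (d : K))) →
      (∀ j : ℕ, 1 ≤ j → j ≤ 3 →
        Pool.Agent.Lib.MP_1a91b9_ntW.J.RkZ (⟨0, 0, 0, τ.1.1 * (d : K) ^ j, 0⟩ : WeierstrassCurve K)) →
      Fin.PropQ (⟨0, 0, 0, τ.1.1, 0⟩ : WeierstrassCurve K) (d : K) :=
    fun τ => propQ_of hK hi' (h0 τ.1 (hS τ.2)).1
  choose B hB0 hB1 using hB
  have hc : Ind4 (fun τ : S => -(τ.1.1 : K)) (fun τ : S => ((τ.1.2 : 𝓞 K) : K)) := by
    refine ⟨fun τ => ⟨neg_ne_zero.2 (h0 τ.1 (hS τ.2)).1, ?_, (h0 τ.1 (hS τ.2)).2.2⟩,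
      fun τ τ' hne k l hk hk' hl hl' y => ?_⟩
    · show ((τ.1.2 : 𝓞 K) : K) ≠ 0
      exact_mod_cast (h0 τ.1 (hS τ.2)).2.1
    · have h1 := hT τ.1 (hS τ.2) τ'.1 (hS τ'.2) (fun h => hne (Subtype.ext h)) k l hk hk' hl hl' y
      push_cast at h1
      exact h1
  have hB0' : ∀ τ : S, ∀ β ∈ insert 1 (B τ), β ≠ 0 := by
    intro τ β hβ
    rcases Finset.mem_insert.1 hβ with rfl | h
    · exact one_ne_zero
    · exact hB0 τ β h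
  have key := main_KT K hK ⟨i, hi'⟩ (A := fun τ : S => τ.1.1) (δ := fun τ : S => τ.1.2) hc
    (fun τ => insert 1 (B τ)) hB0' hm hu t ε hε
  have hfu : Finite (𝓞 K)ˣ := Pool.Agent.Lib.MP_1a91b9_ntW.J.finite_units hK
    (Pool.Agent.Lib.MP_1a91b9_ntW.J.no_real (s := i) (a := -1) (by rw [hi']; norm_num) (by norm_num))
  rw [Fintype.card_coe] at key
  filter_upwards [key] with X hX
  refine hX.trans ?_
  refine div_le_div_of_nonneg_right ?_ (Nat.cast_nonneg _)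
  have hfin : Finite {d : 𝓞 K // (∀ z : 𝓞 K, z ^ 4 ∣ d → IsUnit z) ∧ m ∣ d - u ∧
      |Algebra.norm ℤ d| ≤ X ∧ t ≤ {τ ∈ T | Fin.PropQ (⟨0, 0, 0, τ.1, 0⟩ : WeierstrassCurve K)
          ((τ.2 * d : 𝓞 K) : K)}.encard} := by
    refine ((Pool.Agent.Lib.MP_1a91b9_ntW.J.finite_norm_le (K := K) X).subset ?_ : Set.Finite _)
    rintro d ⟨h1, -, h3, -⟩
    exact ⟨TL9_ff h1, h3⟩
  rw [Nat.cast_le]
  refine Nat.card_le_card_of_injective (fun d => ⟨d.1, d.2.1, d.2.2.1, d.2.2.2.1,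
    TL9_enc hS (fun τ hτ => ?_) d.2.2.2.2⟩) ?_
  · refine hB1 τ (τ.1.2 * d.1) ?_ (fun β hβ => hτ.2 β (Finset.mem_insert_of_mem hβ)) hτ.1
    have h8 := hτ.2 1 (Finset.mem_insert_self _ _)
    rwa [one_mul] at h8
  · intro x y hxy
    exact Subtype.ext (congrArg (fun z => z.1) hxy)

open Classical in
/-- **The law.** -/
theorem fin_T (K : Type) [Field K] [NumberField K] (hK : Module.finrank ℚ K = 2)
    (hi : ∃ i : K, i ^ 2 = -1) (T : Set (K × 𝓞 K))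
    (h0 : ∀ τ ∈ T, τ.1 ≠ 0 ∧ τ.2 ≠ 0 ∧ ∀ z : K, z ^ 4 ≠ -τ.1)
    (hT : ∀ τ ∈ T, ∀ τ' ∈ T, τ ≠ τ' → ∀ k l : ℕ, 1 ≤ k → k ≤ 3 → 1 ≤ l → l ≤ 3 → ∀ z : K,
      z ^ 4 ≠ (-τ.1) ^ k * (-τ'.1) ^ l * ((τ.2 * τ'.2 : 𝓞 K) : K) ^ 2)
    (n : ℕ) (m u : 𝓞 K) (hm : m ∣ 2 ^ n) (hu : ∀ q : 𝓞 K, Prime q → ¬ (q ^ 4 ∣ m ∧ q ^ 4 ∣ u))
    (t : ℕ) (v : ℝ) (hv : v = if T.Infinite then 1 else ∑ j ∈ Finset.Icc t T.ncard,
      (T.ncard.choose j : ℝ) * ((∏' i : ℕ, (1 + 1 / (2 : ℝ) ^ (i + 1))⁻¹) ^ 3) ^ j *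
        (1 - (∏' i : ℕ, (1 + 1 / (2 : ℝ) ^ (i + 1))⁻¹) ^ 3) ^ (T.ncard - j))
    (ε : ℝ) (hε : 0 < ε) :
    ∀ᶠ X : ℝ in Filter.atTop, v - ε ≤
      (Nat.card {d : 𝓞 K // (∀ z : 𝓞 K, z ^ 4 ∣ d → IsUnit z) ∧ m ∣ d - u ∧
        |Algebra.norm ℤ d| ≤ X ∧
        t ≤ {τ ∈ T | Fin.PropQ (⟨0, 0, 0, τ.1, 0⟩ : WeierstrassCurve K)
          ((τ.2 * d : 𝓞 K) : K)}.encard} : ℝ) /
        (Nat.card {d : 𝓞 K // (∀ z : 𝓞 K, z ^ 4 ∣ d → IsUnit z) ∧ m ∣ d - u ∧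
          |Algebra.norm ℤ d| ≤ X} : ℝ) := by
  obtain ⟨c0, c1⟩ := TL9_c
  have hg0 := pow_pos c0 3
  have hg1 := pow_le_one₀ (n := 3) c0.le c1
  rcases T.finite_or_infinite with hT' | hT'
  · have hv' : v = bn T.ncard t ((∏' i : ℕ, (1 + 1 / (2 : ℝ) ^ (i + 1))⁻¹) ^ 3) := by
      rw [hv, if_neg (Set.not_infinite.2 hT')]
      rfl
    have h1 := TL9_S hK hi T hT'.toFinset (by rw [hT'.coe_toFinset]) h0 hT n m u hm hu t ε hε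
    rw [← Set.ncard_eq_toFinset_card T hT', ← hv'] at h1
    exact h1
  · have hv' : v = 1 := by rw [hv, if_pos hT']
    obtain ⟨k, hk⟩ := ((Pool.Agent.Lib.MP_1a91b9_ntZ.bn_tendsto hg0 hg1 t).eventually
      (lt_mem_nhds (show 1 - ε / 2 < 1 by linarith))).exists
    obtain ⟨S, hST, hSk⟩ := hT'.exists_subset_card_eq k
    have h1 := TL9_S hK hi T S hST h0 hT n m u hm hu t (ε / 2) (by positivity)
    rw [hSk] at h1
    filter_upwards [h1] with X hX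
    rw [hv']
    linarith

end Pool.Agent.Lib.MP_1a91b9_ntQT
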