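import Pool.Agent.Lib.MP_1a91b9_ntQT.SY0
import Pool.Agent.Lib.MP_1a91b9_ntQ.B.GdDen
import Pool.Agent.Lib.MP_1a91b9_ntM.E.TrS

/-!
# Quartic stability, block TR

Leaf TR1: the set `X` is added to `S` (`f = true`) or to `T` (`f = false`); the invariants of the primary factor only depend on the class of `X`.
`iv_cB`: `cB (aS f S X) (aT f T X) B = DDq X * c` or `DDq X ^ 3 * c` (`DDq_union` and disjointness), `Sm.dvd`. The others: as `Sm.aa_eq` ..
`Sm.ll_eq` in `ntQ/B/GdDen`. `iv_aa`, `iv_bb`: `aa_cBs`, `bb_cBs`, `A4_of`.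
-/

set_option autoImplicit false
set_option linter.unusedSectionVars false

namespace Pool.Agent.Lib.MP_1a91b9_ntQT

open Finset NumberField Pool.Agent.Lib.MP_1a91b9_ntH Pool.Agent.Lib.MP_1a91b9_ntQ
  Pool.Agent.Lib.MP_1a91b9_ntQ.Da Pool.Agent.Lib.MP_1a91b9_ntQ.M Pool.Agent.Lib.MP_1a91b9_ntM
  Pool.Agent.Lib.MP_1a91b9_ntM.E

noncomputable section

/-- `S` with `X` added if `f = true`. -/
def aS (f : Bool) (S X : Finset Pg) : Finset Pg := if f = true then S ∪ X else S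

/-- `T` with `X` added if `f = false`. -/
def aT (f : Bool) (T X : Finset Pg) : Finset Pg := if f = true then T else T ∪ X

theorem aS_aT (f : Bool) (S T X : Finset Pg) : aS f S X ∪ aT f T X = X ∪ (S ∪ T) := by
  cases f
  · simp only [aS, aT, Bool.false_eq_true, if_false]
    rw [← union_assoc, union_comm]
  · simp only [aS, aT, if_true]
    rw [union_right_comm, union_comm]

theorem dj_add {S T B P X : Finset Pg} (f : Bool) (h : Dj S T B) (hP : S ⊆ P ∧ T ⊆ P ∧ B ⊆ P)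
    (hX : Disjoint X P) : Dj (aS f S X) (aT f T X) B := by
  have hXS : Disjoint X S := disjoint_of_subset_right hP.1 hX
  have hXT : Disjoint X T := disjoint_of_subset_right hP.2.1 hX
  have hXB : Disjoint X B := disjoint_of_subset_right hP.2.2 hX
  cases f
  · simp only [aS, aT, Bool.false_eq_true, if_false]
    exact ⟨disjoint_union_right.2 ⟨h.st, hXS.symm⟩, h.sb, disjoint_union_left.2 ⟨h.tb, hXB⟩⟩
  · simp only [aS, aT, if_true]
    exact ⟨disjoint_union_left.2 ⟨h.st, hXT⟩, disjoint_union_left.2 ⟨h.sb, hXB⟩, h.tb⟩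

section

variable {m : ℕ} {P S T B X X' : Finset Pg}

theorem iv_cB (f : Bool) (hP : S ⊆ P ∧ T ⊆ P ∧ B ⊆ P) (h : Sm m P X X') :
    lam ^ (m + 5) ∣ cB (aS f S X) (aT f T X) B - cB (aS f S X') (aT f T X') B := by
  obtain ⟨t, ht⟩ := h.dvd
  have hXS : Disjoint S X := (disjoint_of_subset_right hP.1 h.d).symm
  have hXS' : Disjoint S X' := (disjoint_of_subset_right hP.1 h.d').symm
  have hXT : Disjoint T X := (disjoint_of_subset_right hP.2.1 h.d).symm
  have hXT' : Disjoint T X' := (disjoint_of_subset_right hP.2.1 h.d').symm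
  cases f
  · simp only [aS, aT, Bool.false_eq_true, if_false]
    unfold cB
    rw [DDq_union hXT, DDq_union hXT']
    refine ⟨t * ((DDq X ^ 2 + DDq X * DDq X' + DDq X' ^ 2) * (DDq S * DDq T ^ 3 * DDq B ^ 2)), ?_⟩
    linear_combination ((DDq X ^ 2 + DDq X * DDq X' + DDq X' ^ 2) * (DDq S * DDq T ^ 3 * DDq B ^ 2)) * ht
  · simp only [aS, aT, if_true]
    unfold cB
    rw [DDq_union hXS, DDq_union hXS']
    refine ⟨t * (DDq S * DDq T ^ 3 * DDq B ^ 2), ?_⟩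
    linear_combination (DDq S * DDq T ^ 3 * DDq B ^ 2) * ht

private theorem TR1_sum (f : Bool) (hP : S ⊆ P ∧ T ⊆ P ∧ B ⊆ P) (hX : Disjoint X P)
    (hST : Disjoint S T) (φ : Pg → ZMod 2) :
    ∑ q ∈ aS f S X, φ q + ∑ q ∈ aT f T X, φ q = ∑ q ∈ X, φ q + ∑ q ∈ S ∪ T, φ q := by
  have hXS : Disjoint S X := (disjoint_of_subset_right hP.1 hX).symm
  have hXT : Disjoint T X := (disjoint_of_subset_right hP.2.1 hX).symm
  rw [sum_union hST]
  cases f
  · simp only [aS, aT, Bool.false_eq_true, if_false]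
    rw [sum_union hXT]
    ring
  · simp only [aS, aT, if_true]
    rw [sum_union hXS]
    ring

theorem iv_aa (f : Bool) (hP : S ⊆ P ∧ T ⊆ P ∧ B ⊆ P) (hX : Disjoint X P) {g : GB m P}
    (hg : ∑ q ∈ X, clB m P q = g) (hST : Disjoint S T) :
    aa (cB (aS f S X) (aT f T X) B) = A4 m 0 g.1 + ∑ t ∈ S ∪ T, d4.a t 0 := by
  rw [aa_cBs, TR1_sum f hP hX hST, A4_of hg]
  rfl

theorem iv_bb (f : Bool) (hP : S ⊆ P ∧ T ⊆ P ∧ B ⊆ P) (hX : Disjoint X P) {g : GB m P}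
    (hg : ∑ q ∈ X, clB m P q = g) (hST : Disjoint S T) :
    bb (cB (aS f S X) (aT f T X) B) = A4 m 1 g.1 + ∑ t ∈ S ∪ T, d4.a t 1 := by
  rw [bb_cBs, TR1_sum f hP hX hST, A4_of hg]
  rfl

theorem iv_nn (f : Bool) (hP : S ⊆ P ∧ T ⊆ P ∧ B ⊆ P) (hm : 1 ≤ m) (h : Sm m P X X') :
    nn (cB (aS f S X) (aT f T X) B) = nn (cB (aS f S X') (aT f T X') B) :=
  nn_congr6 (inCB _ _ B) ((pow_dvd_pow lam (by omega)).trans (iv_cB f hP h))

theorem iv_mn (f : Bool) (hP : S ⊆ P ∧ T ⊆ P ∧ B ⊆ P) (hm : 2 ≤ m) (h : Sm m P X X') :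
    mmB (cB (aS f S X) (aT f T X) B) = mmB (cB (aS f S X') (aT f T X') B) ∧
      nnB (cB (aS f S X) (aT f T X) B) = nnB (cB (aS f S X') (aT f T X') B) := by
  obtain ⟨a, b, k, l, h1, h2⟩ := form_congr (e := 4) (inCB (aS f S X) (aT f T X) B)
    (dvd_lam7 ((pow_dvd_pow lam (by omega)).trans (iv_cB f hP h)))
  rw [h1, h2, mmB_fm, mmB_fm, nnB_fm, nnB_fm]
  push_cast
  have h4 : (4 : ZMod 4) = 0 := rfl
  rw [h4, zero_mul, zero_mul, add_zero, add_zero]
  exact ⟨rfl, rfl⟩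

theorem iv_ll (f : Bool) (hP : S ⊆ P ∧ T ⊆ P ∧ B ⊆ P) (hm : 2 ≤ m) (h : Sm m P X X') :
    llB (cB (aS f S X) (aT f T X) B) = llB (cB (aS f S X') (aT f T X') B) := by
  unfold llB
  rw [(iv_mn f hP hm h).1, (iv_mn f hP hm h).2]

end

end

end Pool.Agent.Lib.MP_1a91b9_ntQT
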