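import Pool.Agent.Lib.MP_1a91b9_ntQT.TR1

/-!
# Quartic stability, block TR

Leaf TR2: the rows `V` and their symbols only depend on the class of `X` (as `Sm.vb_eq`, `Sm.rh_eq`, `trV` in `ntQ/B/GdDen`; `dB k j (aS f S X)
(aT f T X) (B.erase b) = DDq X ^ (1 or 3) * rest`, `c4_mul`, `Sm.c4_eq`, `Sm.s4_eq`). `iv_al`: from `v ∈ VB ..` with `kxB = 0` and `alB_of`.
-/

set_option autoImplicit false
set_option linter.unusedSectionVars false

namespace Pool.Agent.Lib.MP_1a91b9_ntQT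

open Finset NumberField Pool.Agent.Lib.MP_1a91b9_ntH Pool.Agent.Lib.MP_1a91b9_ntQ
  Pool.Agent.Lib.MP_1a91b9_ntQ.Da Pool.Agent.Lib.MP_1a91b9_ntQ.M Pool.Agent.Lib.MP_1a91b9_ntM
  Pool.Agent.Lib.MP_1a91b9_ntM.E

noncomputable section

section

variable {m : ℕ} {P S T B X X' : Finset Pg}

private theorem TR2_dX (hP : S ⊆ P ∧ T ⊆ P ∧ B ⊆ P) (hX : Disjoint X P) : Disjoint X (S ∪ T) :=
  disjoint_of_subset_right (union_subset hP.1 hP.2.1) hX

private theorem TR2_dB (f : Bool) (hP : S ⊆ P ∧ T ⊆ P ∧ B ⊆ P) (hX : Disjoint X P) (k : ZMod 4) (j : Fin 4) (b : Pg) :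
    dB k j (aS f S X) (aT f T X) (B.erase b) = DDq X ^ (if f = true then 1 else 3) *
      (iO ^ k.val * lam ^ j.val * (DDq S * DDq T ^ 3 * DDq (B.erase b) ^ 2)) := by
  have h1 : Disjoint S X := (disjoint_of_subset_right hP.1 hX).symm
  have h2 : Disjoint T X := (disjoint_of_subset_right hP.2.1 hX).symm
  cases f with
  | true =>
    have e1 : aS true S X = S ∪ X := rfl
    have e2 : aT true T X = T := rfl
    rw [e1, e2, if_pos rfl]
    unfold dB cB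
    rw [DDq_union h1]
    ring
  | false =>
    have e1 : aS false S X = S := rfl
    have e2 : aT false T X = T ∪ X := rfl
    rw [e1, e2, if_neg (by decide)]
    unfold dB cB
    rw [DDq_union h2]
    ring

private theorem TR2_nd (hd : Dj S T B) (k : ZMod 4) (j : Fin 4) {b : Pg} (hb : b ∈ B) :
    ¬ b.1 ∣ iO ^ k.val * lam ^ j.val * (DDq S * DDq T ^ 3 * DDq (B.erase b) ^ 2) := by
  intro h
  rcases b.prime.dvd_or_dvd h with h | h
  · rcases b.prime.dvd_or_dvd h with h | h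
    · exact nd_iO_pow b _ h
    · exact nd_lamP b (b.prime.dvd_of_dvd_pow h)
  · rcases b.prime.dvd_or_dvd h with h | h
    · rcases b.prime.dvd_or_dvd h with h | h
      · exact disjoint_right.1 hd.sb hb (dvd_DDq.1 h)
      · exact disjoint_right.1 hd.tb hb (dvd_DDq.1 (b.prime.dvd_of_dvd_pow h))
    · exact notMem_erase b B (dvd_DDq.1 (b.prime.dvd_of_dvd_pow h))

private theorem TR2_c4 (f : Bool) (hd : Dj S T B) (hP : S ⊆ P ∧ T ⊆ P ∧ B ⊆ P) (hX : Disjoint X P) (k : ZMod 4)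
    (j : Fin 4) {b : Pg} (hb : b ∈ B) : c4 b (dB k j (aS f S X) (aT f T X) (B.erase b)) =
      (((if f = true then 1 else 3 : ℕ) : ℕ) : ZMod 4) * c4 b (DDq X) +
        c4 b (iO ^ k.val * lam ^ j.val * (DDq S * DDq T ^ 3 * DDq (B.erase b) ^ 2)) := by
  have h1 : ¬ b.1 ∣ DDq X := not_dvd_DDq hX b (hP.2.2 hb)
  rw [TR2_dB f hP hX k j b, c4_mul b (fun h => h1 (b.prime.dvd_of_dvd_pow h)) (TR2_nd hd k j hb), c4_pow b h1]

theorem iv_V (f : Bool) (hP : S ⊆ P ∧ T ⊆ P ∧ B ⊆ P) (h : Sm m P X X') (k : ZMod 4) (j : Fin 4) :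
    VB k j (aS f S X) (aT f T X) B = VB k j (aS f S X') (aT f T X') B := by
  unfold VB
  refine filter_congr fun b hb => ?_
  rw [aS_aT, aS_aT, sum_union (TR2_dX hP h.d), sum_union (TR2_dX hP h.d'), h.s4_eq (hP.2.2 hb)]

theorem iv_rh (f : Bool) (hd : Dj S T B) (hP : S ⊆ P ∧ T ⊆ P ∧ B ⊆ P) (h : Sm m P X X')
    (k : ZMod 4) (j : Fin 4) {b : Pg} (hb : b ∈ B) :
    rhB k j (aS f S X) (aT f T X) B b = rhB k j (aS f S X') (aT f T X') B b := by
  unfold rhB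
  congr 1
  rw [TR2_c4 f hd hP h.d k j hb, TR2_c4 f hd hP h.d' k j hb, h.c4_eq (hP.2.2 hb)]

theorem iv_al (f : Bool) (hd : Dj S T B) (hP : S ⊆ P ∧ T ⊆ P ∧ B ⊆ P) (hX : Disjoint X P)
    {g : GB m P} (hg : ∑ q ∈ X, clB m P q = g) {k : ZMod 4} {j : Fin 4} (hc : kvB k j = 0) {v : Pg}
    (hv : v ∈ VB k j (aS f S X) (aT f T X) B) : alB g v + ∑ t ∈ S ∪ T, d4.s t v = 0 := by
  obtain ⟨hvB, h1⟩ := mem_filter.1 hv
  have h2 : kxB k j v = 0 := by
    have h3 : md k = 0 := congrFun hc 0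
    have h4 : (j.val : ZMod 2) = 0 := congrFun hc 1
    unfold kxB
    rw [h3, h4, zero_mul, zero_mul, add_zero]
  rw [h2, add_zero, aS_aT, sum_union (TR2_dX hP hX), ← alB_of hX hg (hP.2.2 hvB)] at h1
  rw [← h1]
  congr 1
  refine sum_congr rfl fun t ht => s4_symm fun e => ?_
  subst e
  rcases mem_union.1 ht with ht | ht
  · exact disjoint_left.1 hd.sb ht hvB
  · exact disjoint_left.1 hd.tb ht hvB

end

end

end Pool.Agent.Lib.MP_1a91b9_ntQT
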