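import Pool.Agent.Lib.MP_1a91b9_ntQT.SY0
import Pool.Agent.Lib.MP_1a91b9_ntQ.B.GdDen
import Pool.Agent.Lib.MP_1a91b9_ntM.E.TrS

/-!
# Quartic stability, block TR

Leaf TR3: the system of the matrix `d4.NV`: `⟨F ⊕ (V ⊕ E), PoB P F V P0, RoB d4 F V c P0 R0 τ (alB g)⟩`, `PoB_inj`, `RoB_symm`, `okv_one`
(`ntM/E/TrS`) with `B := P`, `T := F`; as in `trSq` (`ntM/E/TrS`); `(CclB m P).A (Sum.inl j) g = A4 m j g.1` is `rfl`, `alB_A`.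
-/

set_option autoImplicit false
set_option linter.unusedSectionVars false

namespace Pool.Agent.Lib.MP_1a91b9_ntQT

open Finset NumberField Pool.Agent.Lib.MP_1a91b9_ntH Pool.Agent.Lib.MP_1a91b9_ntQ
  Pool.Agent.Lib.MP_1a91b9_ntQ.Da Pool.Agent.Lib.MP_1a91b9_ntQ.M Pool.Agent.Lib.MP_1a91b9_ntM
  Pool.Agent.Lib.MP_1a91b9_ntM.E

noncomputable section

theorem sysNV {m : ℕ} {P F V : Finset Pg} (hF : F ⊆ P) (hV : V ⊆ P) (hFV : Disjoint F V)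
    (c : Fin 2 → ZMod 2) {E : Type} [Fintype E] [DecidableEq E] (P0 : Fin 2 → E → ZMod 2)
    (R0 : Matrix E E (ZMod 2)) (hP0 : ∀ x : E → ZMod 2, (∀ j, ∑ e, P0 j e * x e = 0) → x = 0)
    (hR0 : ∀ e f, R0 e f = R0 f e) (τ : Pg → ZMod 2) (g : GB m P) :
    ∃ Y : Sy (Fin 2 ⊕ P), Y.OK 0 ∧ ∀ X : Finset (Off P), X ≠ ∅ → ∑ q ∈ X, (CclB m P).cl q = g →
      gdS (d4.off P) (coB P F c) Y (fun j => (CclB m P).A j g) X →
      ((∀ γ, ¬ TrivV d4 c P0 R0 F V (alB g) (fun j => A4 m j g.1) γ) →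
        (d4.NV c P0 R0 V τ (up X ∪ F)).det ≠ 0) ∧
      ∀ γ, TrivV d4 c P0 R0 F V (alB g) (fun j => A4 m j g.1) γ →
        ∀ w, (d4.NV c P0 R0 V τ (up X ∪ F)).mulVec w = 0 →
          w = 0 ∨ w = Sum.elim (fun _ => 1) (Sum.elim (fun _ => 0) γ) := by
  refine ⟨⟨F ⊕ (V ⊕ E), inferInstance, inferInstance, PoB P F V P0,
    RoB d4 F V c P0 R0 τ (alB g)⟩, ⟨fun x t hx => ?_, ?_⟩, fun X hX hXg hgd => ?_⟩
  · refine PoB_inj hF hV hFV hP0 x fun j => ?_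
    exact (hx j).trans (mul_zero t)
  · exact RoB_symm d4_OK.sym F V c P0 hR0 τ (alB g)
  · exact okv_one (D := d4) d4_OK.sym hF hV hFV (CclB m P) (P := P0) (R := R0) hP0 τ g
      (αB := alB g) (fun b => alB_A g b) hX hXg hgd

end

end Pool.Agent.Lib.MP_1a91b9_ntQT
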