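import Pool.Agent.Lib.MP_1a91b9_ntQT.TR2
import Pool.Agent.Lib.MP_1a91b9_ntQT.TR3

/-!
# Quartic stability, block TR

Leaf TR4: the translation for `X` added to `S` or to `T`. If no `X` is in the class `g` every system does. Otherwise fix a representative `X'` of the
class and proceed as in `gdB_two` (`ntQ/B/GdDen`) with its 13 classes and four kinds `d0`, `k0`, `d1`, `k1`: in each class the criterion is a
statement on `NB0` / `NB1` (`gdB_c1`, .., use the invariants `iv_aa`, `iv_bb`, `iv_nn`, `iv_mn`, `iv_ll`), and `NB0 k j (aS ..) (aT ..) B =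
d4.NV (kvB k j) P0 R0 V τ (up X ∪ F)` with `F = S ∪ T`, `V = VB k j (aS f S X') (aT f T X') B`, `τ = rhB .. X' ..` (`iv_V`, `iv_rh`, `NV_congr`,
`aS_aT`; rewrite the index set with care: `aS_aT` is an equality of finsets, use `▸` / generalize the set first). The system is that of `sysNV`;
`cX P x = coB P (x.S ∪ x.T) (kvB x.k x.j)` is `rfl`. `TrivV` does not hold if `kvB k j` is not in the range of the border (`two_d0`, `two_d1`), and
holds with `γ = 0` in the other classes (`two_k0`, `two_k1`; `iv_al`).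
-/

set_option autoImplicit false
set_option linter.unusedSectionVars false

namespace Pool.Agent.Lib.MP_1a91b9_ntQT

open Finset NumberField Pool.Agent.Lib.MP_1a91b9_ntH Pool.Agent.Lib.MP_1a91b9_ntQ
  Pool.Agent.Lib.MP_1a91b9_ntQ.Da Pool.Agent.Lib.MP_1a91b9_ntQ.M Pool.Agent.Lib.MP_1a91b9_ntM
  Pool.Agent.Lib.MP_1a91b9_ntM.E

noncomputable section

section

variable {m : ℕ} {P S T B X X' : Finset Pg}

private theorem TR4_nb0 (f : Bool) (hd : Dj S T B) (hP : S ⊆ P ∧ T ⊆ P ∧ B ⊆ P) (h : Sm m P X X') (k : ZMod 4)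
    (j : Fin 4) :
    (DetB0 k j (aS f S X) (aT f T X) B ↔ (d4.NV (kvB k j) (Da.P0 (Fin 2)) Da.R0
      (VB k j (aS f S X') (aT f T X') B) (rhB k j (aS f S X') (aT f T X') B) (X ∪ (S ∪ T))).det ≠ 0) ∧
    (KerB0 k j (aS f S X) (aT f T X) B ↔ (X ∪ (S ∪ T)).Nonempty ∧
      ∀ w, (d4.NV (kvB k j) (Da.P0 (Fin 2)) Da.R0 (VB k j (aS f S X') (aT f T X') B)
        (rhB k j (aS f S X') (aT f T X') B) (X ∪ (S ∪ T))).mulVec w = 0 →
        w = 0 ∨ w = Sum.elim (fun _ => 1) (Sum.elim (fun _ => 0) 0)) := by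
  have hτ : ∀ v ∈ VB k j (aS f S X') (aT f T X') B,
      rhB k j (aS f S X) (aT f T X) B v = rhB k j (aS f S X') (aT f T X') B v := fun v hv =>
    iv_rh f hd hP h k j (mem_filter.1 hv).1
  unfold DetB0 KerB0 NB0
  rw [iv_V f hP h k j, NV_congr _ _ _ _ hτ, aS_aT]
  exact ⟨Iff.rfl, Iff.rfl⟩

private theorem TR4_nb1 (f : Bool) (hd : Dj S T B) (hP : S ⊆ P ∧ T ⊆ P ∧ B ⊆ P) (h : Sm m P X X') (k : ZMod 4)
    (j : Fin 4) (p : Fin 2 → ZMod 2) (x : ZMod 2) :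
    (DetB1 k j p x (aS f S X) (aT f T X) B ↔ (d4.NV (kvB k j) (PpB p) (Da.R1 x)
      (VB k j (aS f S X') (aT f T X') B) (rhB k j (aS f S X') (aT f T X') B) (X ∪ (S ∪ T))).det ≠ 0) ∧
    (KerB1 k j p x (aS f S X) (aT f T X) B ↔ (X ∪ (S ∪ T)).Nonempty ∧
      ∀ w, (d4.NV (kvB k j) (PpB p) (Da.R1 x) (VB k j (aS f S X') (aT f T X') B)
        (rhB k j (aS f S X') (aT f T X') B) (X ∪ (S ∪ T))).mulVec w = 0 →
        w = 0 ∨ w = Sum.elim (fun _ => 1) (Sum.elim (fun _ => 0) 0)) := by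
  have hτ : ∀ v ∈ VB k j (aS f S X') (aT f T X') B,
      rhB k j (aS f S X) (aT f T X) B v = rhB k j (aS f S X') (aT f T X') B v := fun v hv =>
    iv_rh f hd hP h k j (mem_filter.1 hv).1
  unfold DetB1 KerB1 NB1
  rw [iv_V f hP h k j, NV_congr _ _ _ _ hτ, aS_aT]
  exact ⟨Iff.rfl, Iff.rfl⟩

private theorem TR4_sm {g : GB m P} (hX' : Disjoint X' P) (hg : ∑ q ∈ X', clB m P q = g) {Z : Finset (Off P)}
    (hZ : ∑ q ∈ Z, (CclB m P).cl q = g) : Sm m P (up Z) X' := by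
  refine ⟨disj_up Z, hX', ?_⟩
  rw [hg, ← hZ]
  exact sum_up Z (clB m P)

private theorem TR4_c0 (f : Bool) (hd : Dj S T B) (hP : S ⊆ P ∧ T ⊆ P ∧ B ⊆ P) {g : GB m P} (hX' : Disjoint X' P)
    (hg : ∑ q ∈ X', clB m P q = g) (k : ZMod 4) (j : Fin 4) :
    ∃ Y : Sy (Fin 2 ⊕ P), Y.OK 0 ∧ ∀ Z : Finset (Off P), Z ≠ ∅ → ∑ q ∈ Z, (CclB m P).cl q = g →
      gdS (d4.off P) (coB P (S ∪ T) (kvB k j)) Y (fun j => (CclB m P).A j g) Z →
      (kvB k j ≠ 0 → DetB0 k j (aS f S (up Z)) (aT f T (up Z)) B) ∧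
        (kvB k j = 0 → KerB0 k j (aS f S (up Z)) (aT f T (up Z)) B) := by
  have hVB : VB k j (aS f S X') (aT f T X') B ⊆ B := filter_subset _ _
  obtain ⟨Y, hY, h⟩ := sysNV (m := m) (union_subset hP.1 hP.2.1) (hVB.trans hP.2.2)
    (disjoint_union_left.2 ⟨disjoint_of_subset_right hVB hd.sb, disjoint_of_subset_right hVB hd.tb⟩) (kvB k j)
    (Da.P0 (Fin 2)) Da.R0 (fun x _ => funext fun e => e.elim) (fun e _ => e.elim)
    (rhB k j (aS f S X') (aT f T X') B) g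
  refine ⟨Y, hY, fun Z hne hZ hgd => ?_⟩
  obtain ⟨h1, h2⟩ := h Z hne hZ hgd
  have hSm := TR4_sm hX' hg hZ
  obtain ⟨e1, e2⟩ := TR4_nb0 f hd hP hSm k j
  refine ⟨fun hc => e1.2 (h1 ?_), fun hc => e2.2 ⟨?_, h2 0 ⟨fun i => ?_, fun v hv => ?_, fun e => e.elim⟩⟩⟩
  · rintro γ ⟨h3, _⟩
    refine hc (funext fun i => ?_)
    rw [← h3 i]
    rfl
  · refine Nonempty.mono subset_union_left (nonempty_iff_ne_empty.2 fun h => hne ?_)
    rw [← dn_up Z, h]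
    rfl
  · rw [hc]
    rfl
  · rw [iv_al f hd hP hX' hg hc hv, zero_add]
    rfl

private theorem TR4_c1 (f : Bool) (hd : Dj S T B) (hP : S ⊆ P ∧ T ⊆ P ∧ B ⊆ P) {g : GB m P} (hX' : Disjoint X' P)
    (hg : ∑ q ∈ X', clB m P q = g) (k : ZMod 4) (j : Fin 4) (p : Fin 2 → ZMod 2) (x : ZMod 2) (hp : ∃ i, p i = 1)
    (h0 : kvB k j = 0 → p 0 * aa (cB (aS f S X') (aT f T X') B) + p 1 * bb (cB (aS f S X') (aT f T X') B) = 0) :
    ∃ Y : Sy (Fin 2 ⊕ P), Y.OK 0 ∧ ∀ Z : Finset (Off P), Z ≠ ∅ → ∑ q ∈ Z, (CclB m P).cl q = g →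
      gdS (d4.off P) (coB P (S ∪ T) (kvB k j)) Y (fun j => (CclB m P).A j g) Z →
      ((∃ i, p i = 0 ∧ kvB k j i ≠ 0) → DetB1 k j p x (aS f S (up Z)) (aT f T (up Z)) B) ∧
        (kvB k j = 0 → KerB1 k j p x (aS f S (up Z)) (aT f T (up Z)) B) := by
  have hVB : VB k j (aS f S X') (aT f T X') B ⊆ B := filter_subset _ _
  obtain ⟨Y, hY, h⟩ := sysNV (m := m) (union_subset hP.1 hP.2.1) (hVB.trans hP.2.2)
    (disjoint_union_left.2 ⟨disjoint_of_subset_right hVB hd.sb, disjoint_of_subset_right hVB hd.tb⟩) (kvB k j)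
    (PpB p) (Da.R1 x) (PpB_inj hp) (fun _ _ => rfl) (rhB k j (aS f S X') (aT f T X') B) g
  refine ⟨Y, hY, fun Z hne hZ hgd => ?_⟩
  obtain ⟨h1, h2⟩ := h Z hne hZ hgd
  have hSm := TR4_sm hX' hg hZ
  obtain ⟨e1, e2⟩ := TR4_nb1 f hd hP hSm k j p x
  refine ⟨fun hc => e1.2 (h1 ?_), fun hc => e2.2 ⟨?_, h2 0 ⟨fun i => ?_, fun v hv => ?_, fun e => ?_⟩⟩⟩
  · rintro γ ⟨h3, _⟩
    obtain ⟨i, hi, hi2⟩ := hc
    refine hi2 ?_
    rw [← h3 i, Fintype.sum_unique]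
    show p i * _ = 0
    rw [hi, zero_mul]
  · refine Nonempty.mono subset_union_left (nonempty_iff_ne_empty.2 fun h => hne ?_)
    rw [← dn_up Z, h]
    rfl
  · rw [hc]
    exact sum_eq_zero fun e _ => mul_zero _
  · rw [iv_al f hd hP hX' hg hc hv, zero_add]
    exact sum_eq_zero fun e _ => mul_zero _
  · rw [sum_eq_zero (s := univ) (f := fun f => Da.R1 x e f * (0 : Unit → ZMod 2) f)
      (fun f _ => mul_zero _), add_zero, Fin.sum_univ_two]
    show p 0 * (A4 m 0 g.1 + ∑ t ∈ S ∪ T, d4.a t 0) + p 1 * (A4 m 1 g.1 + ∑ t ∈ S ∪ T, d4.a t 1) = 0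
    rw [← iv_aa (B := B) f hP hX' hg hd.st, ← iv_bb (B := B) f hP hX' hg hd.st]
    exact h0 hc

end

/-- **The translation.** -/
theorem trQ (f : Bool) {m : ℕ} (hm : 2 ≤ m) {P : Finset Pg} {x : DD8} (hx : Dj x.S x.T x.B)
    (hP : x.S ⊆ P ∧ x.T ⊆ P ∧ x.B ⊆ P) (g : GB m P) :
    ∃ Y : Sy (Fin 2 ⊕ P), Y.OK 0 ∧ ∀ X : Finset (Off P), X ≠ ∅ → ∑ q ∈ X, (CclB m P).cl q = g →
      gdS (d4.off P) (cX P x) Y (fun j => (CclB m P).A j g) X →
        GdB x.k x.j (aS f x.S (up X)) (aT f x.T (up X)) x.B := by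
  obtain ⟨k, j, S, T, B⟩ := x
  simp only at hx hP
  show ∃ Y : Sy (Fin 2 ⊕ P), Y.OK 0 ∧ ∀ X : Finset (Off P), X ≠ ∅ → ∑ q ∈ X, (CclB m P).cl q = g →
      gdS (d4.off P) (coB P (S ∪ T) (kvB k j)) Y (fun j => (CclB m P).A j g) X →
        GdB k j (aS f S (up X)) (aT f T (up X)) B
  by_cases hS : ∃ X : Finset Pg, Disjoint X P ∧ ∑ q ∈ X, clB m P q = g
  swap
  · obtain ⟨Y, hY, -⟩ := sysNV (m := m) (P := P) (F := ∅) (V := ∅) (empty_subset _) (empty_subset _)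
      (disjoint_empty_left _) 0 (Da.P0 (Fin 2)) Da.R0 (fun x _ => funext fun e => e.elim) (fun e _ => e.elim)
      (fun _ => 0) g
    refine ⟨Y, hY, fun X _ hX _ => absurd ⟨up X, disj_up X, ?_⟩ hS⟩
    rw [← hX]
    exact sum_up X (clB m P)
  obtain ⟨X', hX', hg⟩ := hS
  have hSm : ∀ X : Finset (Off P), ∑ q ∈ X, (CclB m P).cl q = g → Sm m P (up X) X' := fun X h => TR4_sm hX' hg h
  have haa : ∀ X : Finset Pg, Sm m P X X' →
      aa (cB (aS f S X) (aT f T X) B) = aa (cB (aS f S X') (aT f T X') B) := fun X h => by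
    rw [iv_aa f hP h.d (h.h.trans hg) hx.st, iv_aa f hP hX' hg hx.st]
  have hbb : ∀ X : Finset Pg, Sm m P X X' →
      bb (cB (aS f S X) (aT f T X) B) = bb (cB (aS f S X') (aT f T X') B) := fun X h => by
    rw [iv_bb f hP h.d (h.h.trans hg) hx.st, iv_bb f hP hX' hg hx.st]
  have hnn : ∀ X : Finset Pg, Sm m P X X' →
      nn (cB (aS f S X) (aT f T X) B) = nn (cB (aS f S X') (aT f T X') B) := fun X h => iv_nn f hP (by omega) h
  have h2 : ∀ x : ZMod 2, x = 0 ∨ x = 1 := by decide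
  have d0 : ∀ (k : ZMod 4) (j : Fin 4), kvB k j ≠ 0 →
      (∀ X, Sm m P X X' → DetB0 k j (aS f S X) (aT f T X) B → GdB k j (aS f S X) (aT f T X) B) →
      ∃ Y : Sy (Fin 2 ⊕ P), Y.OK 0 ∧ ∀ X : Finset (Off P), X ≠ ∅ → ∑ q ∈ X, (CclB m P).cl q = g →
        gdS (d4.off P) (coB P (S ∪ T) (kvB k j)) Y (fun j => (CclB m P).A j g) X →
          GdB k j (aS f S (up X)) (aT f T (up X)) B := by
    intro k j hc h
    obtain ⟨Y, hY, h1⟩ := TR4_c0 f hx hP hX' hg k j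
    exact ⟨Y, hY, fun X hne hX hgd => h _ (hSm X hX) ((h1 X hne hX hgd).1 hc)⟩
  have k0 : ∀ (k : ZMod 4) (j : Fin 4), kvB k j = 0 →
      (∀ X, Sm m P X X' → KerB0 k j (aS f S X) (aT f T X) B → GdB k j (aS f S X) (aT f T X) B) →
      ∃ Y : Sy (Fin 2 ⊕ P), Y.OK 0 ∧ ∀ X : Finset (Off P), X ≠ ∅ → ∑ q ∈ X, (CclB m P).cl q = g →
        gdS (d4.off P) (coB P (S ∪ T) (kvB k j)) Y (fun j => (CclB m P).A j g) X →
          GdB k j (aS f S (up X)) (aT f T (up X)) B := by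
    intro k j hc h
    obtain ⟨Y, hY, h1⟩ := TR4_c0 f hx hP hX' hg k j
    exact ⟨Y, hY, fun X hne hX hgd => h _ (hSm X hX) ((h1 X hne hX hgd).2 hc)⟩
  have d1 : ∀ (k : ZMod 4) (j : Fin 4) (p : Fin 2 → ZMod 2) (x : ZMod 2), (∃ i, p i = 1) →
      (∃ i, p i = 0 ∧ kvB k j i ≠ 0) →
      (∀ X, Sm m P X X' → DetB1 k j p x (aS f S X) (aT f T X) B → GdB k j (aS f S X) (aT f T X) B) →
      ∃ Y : Sy (Fin 2 ⊕ P), Y.OK 0 ∧ ∀ X : Finset (Off P), X ≠ ∅ → ∑ q ∈ X, (CclB m P).cl q = g →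
        gdS (d4.off P) (coB P (S ∪ T) (kvB k j)) Y (fun j => (CclB m P).A j g) X →
          GdB k j (aS f S (up X)) (aT f T (up X)) B := by
    intro k j p x hp hc h
    obtain ⟨Y, hY, h1⟩ := TR4_c1 f hx hP hX' hg k j p x hp (fun h3 => by
      obtain ⟨i, -, hi⟩ := hc
      exact absurd (congrFun h3 i) hi)
    exact ⟨Y, hY, fun X hne hX hgd => h _ (hSm X hX) ((h1 X hne hX hgd).1 hc)⟩
  have k1 : ∀ (k : ZMod 4) (j : Fin 4) (p : Fin 2 → ZMod 2) (x : ZMod 2), (∃ i, p i = 1) →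
      kvB k j = 0 → p 0 * aa (cB (aS f S X') (aT f T X') B) + p 1 * bb (cB (aS f S X') (aT f T X') B) = 0 →
      (∀ X, Sm m P X X' → KerB1 k j p x (aS f S X) (aT f T X) B → GdB k j (aS f S X) (aT f T X) B) →
      ∃ Y : Sy (Fin 2 ⊕ P), Y.OK 0 ∧ ∀ X : Finset (Off P), X ≠ ∅ → ∑ q ∈ X, (CclB m P).cl q = g →
        gdS (d4.off P) (coB P (S ∪ T) (kvB k j)) Y (fun j => (CclB m P).A j g) X →
          GdB k j (aS f S (up X)) (aT f T (up X)) B := by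
    intro k j p x hp hc h0 h
    obtain ⟨Y, hY, h1⟩ := TR4_c1 f hx hP hX' hg k j p x hp (fun _ => h0)
    exact ⟨Y, hY, fun X hne hX hgd => h _ (hSm X hX) ((h1 X hne hX hgd).2 hc)⟩
  have p10 : ∃ i, (![1, 0] : Fin 2 → ZMod 2) i = 1 := ⟨0, rfl⟩
  have p01 : ∃ i, (![0, 1] : Fin 2 → ZMod 2) i = 1 := ⟨1, rfl⟩
  have p11 : ∃ i, (![1, 1] : Fin 2 → ZMod 2) i = 1 := ⟨0, rfl⟩
  have q10 : ∀ a b : ZMod 2, a = 0 →
      (![1, 0] : Fin 2 → ZMod 2) 0 * a + (![1, 0] : Fin 2 → ZMod 2) 1 * b = 0 := by decide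
  have q01 : ∀ a b : ZMod 2, b = 0 →
      (![0, 1] : Fin 2 → ZMod 2) 0 * a + (![0, 1] : Fin 2 → ZMod 2) 1 * b = 0 := by decide
  have q11 : ∀ a b : ZMod 2, a + b = 0 →
      (![1, 1] : Fin 2 → ZMod 2) 0 * a + (![1, 1] : Fin 2 → ZMod 2) 1 * b = 0 := by decide
  have hj : j = 0 ∨ j = 1 ∨ j = 2 ∨ j = 3 := by
    clear d0 k0 d1 k1
    revert j
    decide
  have hk4 : k = 0 ∨ k = 1 ∨ k = 2 ∨ k = 3 := by
    clear d0 k0 d1 k1 hj
    revert k
    decide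
  rcases hj with rfl | rfl | rfl | rfl
  · rcases md_cases k with hk | rfl | rfl
    · refine d0 k 0 (fun h => ?_) fun X _ => (gdB_c1 hk).2
      have h3 : md k = 0 := congrFun h 0
      rw [hk] at h3
      exact one_ne_zero h3
    · rcases h2 (aa (cB (aS f S X') (aT f T X') B)) with hA | hA
      · rcases h2 (hf4 (nn (cB (aS f S X') (aT f T X') B)) + bb (cB (aS f S X') (aT f T X') B)) with hB | hB
        · refine k1 0 0 ![1, 0] (xl4 (llB (cB (aS f S X') (aT f T X') B))) p10 (by decide) (q10 _ _ hA)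
            fun X h hK => ?_
          refine (gdB_x3 ((haa X h).trans hA) (by rw [hnn X h, hbb X h, hB])).2 ?_
          rw [iv_ll f hP hm h]
          exact hK
        · refine k0 0 0 (by decide) fun X h => ?_
          exact (gdB_x2 ((haa X h).trans hA) (by rw [hnn X h, hbb X h, hB])).2
      · exact k0 0 0 (by decide) fun X h => (gdB_c2 (by decide) ((haa X h).trans hA)).2
    · rcases h2 (aa (cB (aS f S X') (aT f T X') B)) with hA | hA
      · refine k1 2 0 ![1, 0] (hf4 (nn (cB (aS f S X') (aT f T X') B))) p10 (by decide) (q10 _ _ hA)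
          fun X h hK => ?_
        refine (gdB_x1 ((haa X h).trans hA)).2 ?_
        rw [hnn X h]
        exact hK
      · exact k0 2 0 (by decide) fun X h => (gdB_c2 (by decide) ((haa X h).trans hA)).2
  · exact d1 k 1 ![1, 0] (xk4 k) p10 ⟨1, rfl, by
      show (((1 : Fin 4).val : ℕ) : ZMod 2) ≠ 0
      decide⟩ fun X _ => gdB_e.2
  · rcases hk4 with rfl | rfl | rfl | rfl
    · rcases h2 (bb (cB (aS f S X') (aT f T X') B)) with hA | hA
      · refine k1 0 2 ![0, 1] (uB0 (mmB (cB (aS f S X') (aT f T X') B)) (nnB (cB (aS f S X') (aT f T X') B)))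
          p01 (by decide) (q01 _ _ hA) fun X h hK => ?_
        refine (gdB_d20 ((hbb X h).trans hA)).2 ?_
        rw [(iv_mn f hP hm h).1, (iv_mn f hP hm h).2]
        exact hK
      · exact k0 0 2 (by decide) fun X h => (gdB_c20 ((hbb X h).trans hA)).2
    · exact d0 1 2 (by decide) fun X _ => gdB_a2.2
    · rcases h2 (aa (cB (aS f S X') (aT f T X') B) + bb (cB (aS f S X') (aT f T X') B)) with hA | hA
      · refine k1 2 2 ![1, 1] (uB2 (mmB (cB (aS f S X') (aT f T X') B)) (nnB (cB (aS f S X') (aT f T X') B)))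
          p11 (by decide) (q11 _ _ hA) fun X h hK => ?_
        refine (gdB_d22 (by rw [haa X h, hbb X h, hA])).2 ?_
        rw [(iv_mn f hP hm h).1, (iv_mn f hP hm h).2]
        exact hK
      · exact k0 2 2 (by decide) fun X h => (gdB_c22 (by rw [haa X h, hbb X h, hA])).2
    · refine d1 3 2 ![0, 1] (uB3 (mmB (cB (aS f S X') (aT f T X') B)) (nnB (cB (aS f S X') (aT f T X') B)))
        p01 ⟨0, rfl, by decide⟩ fun X h hK => ?_
      refine gdB_b2.2 ?_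
      rw [(iv_mn f hP hm h).1, (iv_mn f hP hm h).2]
      exact hK
  · refine d0 k 3 (fun h => ?_) fun X _ => gdB_j3.2
    have h3 : (((3 : Fin 4).val : ℕ) : ZMod 2) = 0 := congrFun h 1
    exact absurd h3 (by decide)

end

end Pool.Agent.Lib.MP_1a91b9_ntQT
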