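import Pool.Agent.Lib.MP_1a91b9_ntQT.TR4
import Pool.Agent.Lib.MP_1a91b9_ntQT.DL2
import Pool.Agent.Lib.MP_1a91b9_ntM.E.XFin

/-!
# Quartic stability, block TR

Leaf TR5: the law for the three sets of data: `DSB_of_le` (take `m` large), `trQ true` for `z1`, `trQ false` for `z3`, `oneX trX1 trX2 trSq` with
`f = false` for `z2` (then `z = none`; the system `S2 = ⟨E, _, _, Pm, R⟩`), `dens3` with `D = d4.off P`, `ρ = ρX P` (`ρX_zero`, `mvX4 P`,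
`(OK_off d4_OK P).sym`), `σ₁ = cX P z1 = cX P z3`, `c₂ = cX P z2`, `σ₂ = sX P z2`, `C = CclB m P`; the passage from `Finset (Off P)` to `Finset Pg`
(`glueB`, `SB_eq`, `SG_eq`, `up`) as in the proof of `dsjX_of` (`ntM/E/XAsm`).
-/

set_option autoImplicit false
set_option linter.unusedSectionVars false

namespace Pool.Agent.Lib.MP_1a91b9_ntQT

open Finset NumberField Pool.Agent.Lib.MP_1a91b9_ntH Pool.Agent.Lib.MP_1a91b9_ntQ
  Pool.Agent.Lib.MP_1a91b9_ntQ.Da Pool.Agent.Lib.MP_1a91b9_ntQ.M Pool.Agent.Lib.MP_1a91b9_ntM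
  Pool.Agent.Lib.MP_1a91b9_ntM.E

noncomputable section

/-- **The law for the three sets of data.** -/
theorem dsQ {P : Finset Pg} {z1 z2 z3 : DD8} (h1 : Dj z1.S z1.T z1.B) (h2 : Dj z2.S z2.T z2.B)
    (h3 : Dj z3.S z3.T z3.B) (hP1 : z1.S ⊆ P ∧ z1.T ⊆ P ∧ z1.B ⊆ P)
    (hP2 : z2.S ⊆ P ∧ z2.T ⊆ P ∧ z2.B ⊆ P) (hP3 : z3.S ⊆ P ∧ z3.T ⊆ P ∧ z3.B ⊆ P)
    (h13 : cX P z1 = cX P z3) (hsg : cX P z2 = 0 → cX P z1 + sX P z2 ≠ 0) (m : ℕ) (g : GB m P)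
    {κ₀ : ℝ} (hκ : κ₀ < cinf2 ^ 3) :
    DSB m P g κ₀ fun X => X ≠ ∅ ∧ GdB z1.k z1.j (z1.S ∪ X) z1.T z1.B ∧ GdX z2 X ∧
      GdB z3.k z3.j z3.S (z3.T ∪ X) z3.B := by
  classical
  obtain ⟨m0, h0⟩ := oneX trX1 trX2 trSq
  refine DSB_of_le (le_max_left m (max m0 2)) fun g => ?_
  have hm0 : m0 ≤ max m (max m0 2) := (le_max_left _ _).trans (le_max_right _ _)
  have hm2 : 2 ≤ max m (max m0 2) := (le_max_right _ _).trans (le_max_right _ _)
  generalize max m (max m0 2) = m at hm0 hm2 g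
  obtain ⟨E, i1, i2, Pm, R, z, b, hb, hR, -, hzf, hX⟩ :=
    h0 m hm0 P z2 false h2 hP2 (fun h => absurd h (by decide)) g
  obtain ⟨S1, hS1, hX1⟩ := trQ true hm2 h1 hP1 g
  obtain ⟨S3, hS3, hX3⟩ := trQ false hm2 h3 hP3 g
  have hzn : ∀ e, z = some e → False := fun e he => by
    have h4 := hzf (by rw [he]; rfl)
    exact absurd h4 (by decide)
  have hS2 : (⟨E, i1, i2, Pm, R⟩ : Sy (Fin 2 ⊕ P)).OK (cX P z2) := ⟨hb, hR⟩
  have key := dens3 (OK_off d4_OK P).sym (ρX_zero P) (mvX4 P) (cX P z1) (cX P z2) (sX P z2) hsg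
    S1 ⟨E, i1, i2, Pm, R⟩ S3 hS1 hS2 hS3 (CclB m P) g hκ
  refine glueB (P := fun S => ∃ X : Finset (Off P), S = up X ∧ X ≠ ∅ ∧
    ∑ q ∈ X, (CclB m P).cl q = g ∧ gdS (d4.off P) (cX P z1) S1 (fun j => (CclB m P).A j g) X ∧
    gdS (d4.off P) (cX P z1) S3 (fun j => (CclB m P).A j g) X ∧
    kW (d4.off P) (cX P z2) Pm R (rho (d4.off P) (ρX P (cX P z2)) (sX P z2)) ∅ X =
      if cX P z2 = 0 ∧ Triv (sX P z2) Pm R (fun j => (CclB m P).A j g) then 2 else 1)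
    (fun ε hε => ?_) fun S hS hSg hSX => ?_
  · obtain ⟨X0, hX0⟩ := key ε hε
    refine ⟨X0, fun Y hY => ?_⟩
    have h4 := hX0 Y hY
    rw [SB_eq (CclB m P) (cl := clB m P) (fun q => rfl), SG_eq, card_map]
    refine h4.trans ?_
    rw [Nat.cast_le, ← card_map ⟨up, up_injective⟩]
    refine card_le_card fun S hS => ?_
    obtain ⟨X, hX5, rfl⟩ := mem_map.1 hS
    obtain ⟨hX6, hX7, hX8, hX9, hX10⟩ := (mem_flt _ _ _ _).1 hX5
    refine mem_filter.2 ⟨mem_map_of_mem _ hX6, X, rfl, hX7, (mem_SB.1 hX6).2.2, hX8, hX9, ?_⟩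
    refine hX10.trans ?_
    by_cases hc : cX P z2 = 0 ∧ Triv (sX P z2) Pm R (fun j => (CclB m P).A j g)
    · exact (if_pos hc).trans (if_pos hc).symm
    · exact (if_neg hc).trans (if_neg hc).symm
  · obtain ⟨X, rfl, hXe, hXg, e1, e3, e2⟩ := hSX
    refine ⟨fun h => hXe ?_, ?_, ?_, ?_⟩
    · exact up_injective (h.trans up_empty.symm)
    · exact hX1 X hXe hXg e1
    · refine (hX X hXe hXg _ (fun h7 => ?_) (fun h7 => ?_) e2 fun e he => (hzn e he).elim).1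
      · by_contra h8
        rw [if_neg h8] at h7
        exact absurd h7 (by decide)
      · by_cases hc : cX P z2 = 0 ∧ Triv (sX P z2) Pm R (fun j => (CclB m P).A j g)
        · exact absurd (if_pos hc) h7
        · exact ⟨if_neg hc, hc⟩
    · refine hX3 X hXe hXg ?_
      rw [← h13]
      exact e3

end

end Pool.Agent.Lib.MP_1a91b9_ntQT
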