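import Pool.Agent.Lib.MP_1a91b9_ntQT.TV3

/-!
# MP_1a91b9_nt (quartic stability): rank zero over the quadratic extension
-/

set_option autoImplicit false

namespace Pool.Agent.Lib.MP_1a91b9_ntQT

open NumberField IsDedekindDomain WeierstrassCurve
open Pool.Agent.Lib.MP_1a91b9_nuI (HasJ)
open Pool.Agent.Lib.MP_1a91b9_ntL (crv)
open Pool.Agent.Lib.MP_1a91b9_ntJ (TowP)
open Pool.Agent.Lib.MP_1a91b9_ntW.J (RkZ twd twd_crv)
open Pool.Agent.Lib.MP_1a91b9_ntC Pool.Agent.Lib.MP_1a91b9_ntC.Sh

private theorem TO1_fin {A : Type} [AddCommGroup A] [Module.Finite ℤ A] (h : Module.finrank ℤ A = 0) :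
    Finite A :=
  Module.finite_of_fg_torsion A (Module.finrank_eq_zero_iff_isTorsion.1 h)

private theorem TO1_zero {A : Type} [AddCommGroup A] [Finite A] : Module.finrank ℤ A = 0 := by
  rw [Module.finrank_eq_zero_iff_isTorsion]
  intro x
  refine ⟨⟨(addOrderOf x : ℤ), mem_nonZeroDivisors_of_ne_zero ?_⟩, ?_⟩
  · exact_mod_cast (addOrderOf_pos x).ne'
  · show (addOrderOf x : ℤ) • x = 0
    rw [natCast_zsmul, addOrderOf_nsmul_eq_zero]

open Classical in
/-- **Rank zero over the quadratic extension** from the curve and its twist. -/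
theorem rk_quad {K : Type} [Field K] {F F' : Type} [Field F] [NumberField F] [Algebra K F] [Field F']
    [NumberField F'] [Algebra F F'] {a b : K} (hE : b * (a ^ 2 - 4 * b) ≠ 0) (hQ : QL (crv a b)) {α : F} (hα : α ≠ 0)
    {x : F'} (hx : x ^ 2 = algebraMap F F' α) (hn : ¬ ∃ y : F, algebraMap F F' y = x)
    (hgen : ∀ z : F', ∃ b c : F, z = algebraMap F F' b + algebraMap F F' c * x)
    (h1 : RkZ ((crv a b).map (algebraMap K F))) (h2 : RkZ (twd ((crv a b).map (algebraMap K F)) α)) :
    RkZ (((crv a b).map (algebraMap K F)).map (algebraMap F F')) := by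
  obtain ⟨⟨g, g1, g2, g3⟩, hf⟩ := h1
  obtain ⟨⟨g', g1', g2', g3'⟩, hf'⟩ := h2
  refine ⟨⟨fun s => g s * g' s, g1.mul g1', fun s hs => ?_, mul_ne_zero g3 g3'⟩, ?_⟩
  · show g s * g' s = _
    rw [hQ F F' α x hα hx hn hgen s hs, g2 s hs, g2' s hs]
  · have hsq : ¬ IsSquare α := fun h => hn (isSquare_of_mem hx h)
    have hb : b ≠ 0 := left_ne_zero_of_mul hE
    have h3 := finrank_quad (F' := F') (algebraMap K F a) (algebraMap K F b) α hsq
      (Pool.Agent.Lib.MP_1a91b9_ntN.G.finrank_two' hn hgen) x hx (by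
        rw [crv_map, twd_crv] at hf'
        exact hf')
    have e2 : ((crv a b).map (algebraMap K F)).map (algebraMap F F') =
        (⟨0, algebraMap F F' (algebraMap K F a), 0, algebraMap F F' (algebraMap K F b), 0⟩ : WeierstrassCurve F') := by
      rw [crv_map, crv_map]
      rfl
    rw [e2]
    have hΔ : (⟨0, algebraMap F F' (algebraMap K F a), 0, algebraMap F F' (algebraMap K F b), 0⟩ :
        WeierstrassCurve F').Δ ≠ 0 := by
      have h4 := (map_ne_zero (algebraMap F F')).2 ((map_ne_zero (algebraMap K F)).2 hE)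
      have e3 : (⟨0, algebraMap F F' (algebraMap K F a), 0, algebraMap F F' (algebraMap K F b), 0⟩ :
        WeierstrassCurve F').Δ = 16 * algebraMap F F' (algebraMap K F b) *
          algebraMap F F' (algebraMap K F (b * (a ^ 2 - 4 * b))) := by
        simp only [WeierstrassCurve.Δ, WeierstrassCurve.b₂, WeierstrassCurve.b₄, WeierstrassCurve.b₆,
          WeierstrassCurve.b₈, map_mul, map_sub, map_pow, map_ofNat]
        ring
      rw [e3]
      exact mul_ne_zero (mul_ne_zero (by norm_num) ((map_ne_zero _).2 ((map_ne_zero _).2 hb))) h4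
    have hell : (⟨0, algebraMap F F' (algebraMap K F a), 0, algebraMap F F' (algebraMap K F b), 0⟩ :
        WeierstrassCurve F').IsElliptic := ⟨isUnit_iff_ne_zero.2 hΔ⟩
    have hfg := Pool.Agent.Lib.MP_17a322_nt.VJ.mordell_weil (⟨0, algebraMap F F' (algebraMap K F a), 0,
      algebraMap F F' (algebraMap K F b), 0⟩ : WeierstrassCurve F')
    have hfin : Module.Finite ℤ (⟨0, algebraMap F F' (algebraMap K F a), 0, algebraMap F F' (algebraMap K F b), 0⟩ :
        WeierstrassCurve F').toAffine.Point := Module.Finite.iff_addGroup_fg.2 hfg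
    refine TO1_fin ?_
    rw [h3]
    rw [crv_map] at hf
    have hf0 : Finite (⟨0, algebraMap K F a, 0, algebraMap K F b, 0⟩ : WeierstrassCurve F).toAffine.Point := hf
    exact TO1_zero

end Pool.Agent.Lib.MP_1a91b9_ntQT
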