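import Mathlib

/-!
# MP_1a91b9_nt (quartic stability): the fields between K and N = K(x), x ^ 4 = d
-/

set_option autoImplicit false

namespace Pool.Agent.Lib.MP_1a91b9_ntQT

section gen

variable {F N : Type} [Field F] [Field N] [Algebra F N]

private theorem TO4_span {x : N} {α : F} (hx : x ^ 2 = algebraMap F N α)
    (hgen : IntermediateField.adjoin F {x} = ⊤) (z : N) :
    ∃ b c : F, z = algebraMap F N b + algebraMap F N c * x := by
  have hint : IsIntegral F x := by
    refine IsIntegral.of_pow two_pos ?_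
    rw [hx]
    exact isIntegral_algebraMap
  have hz : z ∈ Algebra.adjoin F {x} := by
    have h1 := IntermediateField.adjoin_simple_toSubalgebra_of_isAlgebraic hint.isAlgebraic
    rw [hgen] at h1
    have h2 : z ∈ (⊤ : IntermediateField F N).toSubalgebra := Algebra.mem_top
    rw [h1] at h2
    exact h2
  induction hz using Algebra.adjoin_induction with
  | mem w hw =>
    rw [Set.mem_singleton_iff] at hw
    exact ⟨0, 1, by rw [hw, map_zero, map_one]; ring⟩
  | algebraMap r => exact ⟨r, 0, by rw [map_zero]; ring⟩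
  | add u v _ _ hu hv =>
    obtain ⟨b, c, rfl⟩ := hu
    obtain ⟨b', c', rfl⟩ := hv
    exact ⟨b + b', c + c', by rw [map_add, map_add]; ring⟩
  | mul u v _ _ hu hv =>
    obtain ⟨b, c, rfl⟩ := hu
    obtain ⟨b', c', rfl⟩ := hv
    refine ⟨b * b' + c * c' * α, b * c' + c * b', ?_⟩
    simp only [map_add, map_mul, ← hx]
    ring

/-- degree two -/
theorem q4_two {x : N} {α : F} (hx : x ^ 2 = algebraMap F N α) (hgen : IntermediateField.adjoin F {x} = ⊤)
    (hn : ¬ ∃ y : F, algebraMap F N y = x) : Module.finrank F N = 2 := by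
  have hli : LinearIndependent F ![(1 : N), x] := by
    rw [LinearIndependent.pair_iff]
    intro s t h
    rw [Algebra.smul_def, Algebra.smul_def, mul_one] at h
    have ht : t = 0 := by
      by_contra ht
      apply hn
      refine ⟨-(t⁻¹ * s), ?_⟩
      have ht' : algebraMap F N t ≠ 0 := (map_ne_zero _).2 ht
      rw [map_neg, map_mul, map_inv₀]
      field_simp
      linear_combination -h
    refine ⟨?_, ht⟩
    rw [ht, map_zero, zero_mul, add_zero] at h
    exact (map_eq_zero _).1 h
  have hspan : Submodule.span F (Set.range ![(1 : N), x]) = ⊤ := by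
    rw [eq_top_iff]
    intro z _
    obtain ⟨b, c, rfl⟩ := TO4_span hx hgen z
    rw [← Algebra.smul_def, Algebra.algebraMap_eq_smul_one]
    exact Submodule.add_mem _ (Submodule.smul_mem _ _ (Submodule.subset_span ⟨0, rfl⟩))
      (Submodule.smul_mem _ _ (Submodule.subset_span ⟨1, rfl⟩))
  have h3 := Module.finrank_eq_card_basis (Module.Basis.mk hli (by rw [hspan]))
  rw [h3, Fintype.card_fin]

theorem q4_sq {x : N} {α : F} (hx : x ^ 2 = algebraMap F N α) (h : IsSquare α) :
    ∃ y : F, algebraMap F N y = x := by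
  obtain ⟨c, rfl⟩ := h
  rw [map_mul, ← sq] at hx
  rcases sq_eq_sq_iff_eq_or_eq_neg.1 hx with h | h
  · exact ⟨c, h.symm⟩
  · exact ⟨-c, by rw [map_neg, h]⟩

theorem q4_sq' {x : N} {α : F} (hx : x ^ 2 = algebraMap F N α) (hα : ¬ IsSquare α) :
    ¬ ∃ y : F, algebraMap F N y = x := by
  rintro ⟨y, rfl⟩
  rw [← map_pow] at hx
  exact hα ⟨y, by rw [← (algebraMap F N).injective hx, sq]⟩

end gen

variable {K N : Type} [Field K] [CharZero K] [Field N] [Algebra K N]

/-- `√d` is no square in `K(√d)` -/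
theorem q4_next {i : K} (hi : i ^ 2 = -1) {d : K} (hd : ¬ IsSquare d) {F : Type} [Field F] [Algebra K F] {y : F}
    (hy : y ^ 2 = algebraMap K F d) (hgen : IntermediateField.adjoin K {y} = ⊤) : ¬ IsSquare y := by
  rintro ⟨z, hz⟩
  have hn := q4_sq' hy hd
  obtain ⟨a, b, rfl⟩ := TO4_span hy hgen z
  have h1 : algebraMap K F (a ^ 2 + b ^ 2 * d) + algebraMap K F (2 * a * b - 1) * y = 0 := by
    simp only [map_add, map_mul, map_pow, map_sub, map_one, map_ofNat]
    rw [← hy]
    linear_combination -hz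
  have h2 : 2 * a * b - 1 = 0 := by
    by_contra h2
    apply hn
    refine ⟨-(2 * a * b - 1)⁻¹ * (a ^ 2 + b ^ 2 * d), ?_⟩
    have h3 : algebraMap K F (2 * a * b - 1) ≠ 0 := (map_ne_zero _).2 h2
    rw [map_mul, map_neg, map_inv₀]
    field_simp
    linear_combination -h1
  rw [h2, map_zero, zero_mul, add_zero, map_eq_zero] at h1
  have hb : b ≠ 0 := by
    rintro rfl
    rw [mul_zero, zero_sub] at h2
    exact one_ne_zero (neg_eq_zero.1 h2)
  refine hd ⟨i * a / b, ?_⟩
  field_simp
  linear_combination h1 + a ^ 2 * (-hi)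

/-- the square of `x` is in the field of degree two -/
theorem q4_cls {i : K} (hi : i ^ 2 = -1) {d : K} {x : N} (hx : x ^ 4 = algebraMap K N d)
    {F : Type} [Field F] [Algebra K F] [Algebra F N] [IsScalarTower K F N] (hF : Module.finrank F N = 2)
    (hn : ¬ ∃ z : F, algebraMap F N z = x) : ∃ y : F, algebraMap F N y = x ^ 2 := by
  have hfin : FiniteDimensional F N := Module.finite_of_finrank_pos (by rw [hF]; norm_num)
  have h2 : (2 : F) ≠ 0 := by
    have h3 : (algebraMap K F 2) ≠ 0 := (map_ne_zero _).2 two_ne_zero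
    rwa [map_ofNat] at h3
  have hi' : algebraMap K F i ^ 2 = -1 := by rw [← map_pow, hi, map_neg, map_one]
  have hx' : x ^ 4 = algebraMap F N (algebraMap K F d) := by rw [hx, IsScalarTower.algebraMap_apply K F N]
  obtain ⟨I, hI⟩ : ∃ I : F, I = algebraMap K F i := ⟨_, rfl⟩
  obtain ⟨D, hD⟩ : ∃ D : F, D = algebraMap K F d := ⟨_, rfl⟩
  rw [← hI] at hi'
  rw [← hD] at hx'
  have hint : IsIntegral F x := Algebra.IsIntegral.isIntegral x
  have hle : (minpoly F x).natDegree ≤ 2 := by
    rw [← hF]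
    exact minpoly.natDegree_le x
  have hpos := minpoly.natDegree_pos hint
  have hne1 : (minpoly F x).natDegree ≠ 1 := by
    intro h1
    exact hn (minpoly.mem_range_of_degree_eq_one F x (by
      rw [Polynomial.degree_eq_natDegree (minpoly.ne_zero hint), h1]
      rfl))
  have hdeg : (minpoly F x).natDegree = 2 := by omega
  have h0 := minpoly.aeval F x
  rw [Polynomial.aeval_eq_sum_range, hdeg, Finset.sum_range_succ, Finset.sum_range_succ, Finset.sum_range_one] at h0
  have hlead : (minpoly F x).coeff 2 = 1 := by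
    have := (minpoly.monic hint).coeff_natDegree
    rwa [hdeg] at this
  rw [hlead, one_smul, pow_zero, pow_one, Algebra.smul_def, Algebra.smul_def, mul_one] at h0
  obtain ⟨a, ha⟩ : ∃ a : F, a = -(minpoly F x).coeff 0 := ⟨_, rfl⟩
  obtain ⟨b, hb⟩ : ∃ b : F, b = -(minpoly F x).coeff 1 := ⟨_, rfl⟩
  have h1 : x ^ 2 = algebraMap F N a + algebraMap F N b * x := by
    rw [ha, hb, map_neg, map_neg]
    linear_combination h0
  by_cases hb0 : b = 0
  · exact ⟨a, by rw [h1, hb0, map_zero, zero_mul, add_zero]⟩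
  exfalso
  have h3 : algebraMap F N (a ^ 2 + b ^ 2 * a - D) + algebraMap F N (2 * a * b + b ^ 3) * x = 0 := by
    simp only [map_add, map_sub, map_mul, map_pow, map_ofNat]
    rw [← hx']
    have h4 : x ^ 4 = (algebraMap F N a + algebraMap F N b * x) ^ 2 := by rw [← h1]; ring
    linear_combination -h4 - (algebraMap F N b) ^ 2 * h1
  have h5 : 2 * a * b + b ^ 3 = 0 := by
    by_contra h5
    apply hn
    obtain ⟨u, hu⟩ : ∃ u : F, u = a ^ 2 + b ^ 2 * a - D := ⟨_, rfl⟩
    obtain ⟨v, hv⟩ : ∃ v : F, v = 2 * a * b + b ^ 3 := ⟨_, rfl⟩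
    rw [← hu, ← hv] at h3
    rw [← hv] at h5
    refine ⟨-u / v, ?_⟩
    have h6 : algebraMap F N v ≠ 0 := (map_ne_zero _).2 h5
    rw [map_div₀, map_neg]
    field_simp
    linear_combination -h3
  rw [h5, map_zero, zero_mul, add_zero, map_eq_zero] at h3
  have h7 : 2 * a + b ^ 2 = 0 := by
    have : b * (2 * a + b ^ 2) = 0 := by linear_combination h5
    exact (mul_eq_zero.1 this).resolve_left hb0
  obtain ⟨g, hg⟩ : ∃ g : F, 2 * g = I * b ^ 2 := ⟨I * b ^ 2 / 2, by field_simp⟩
  have h8 : g ^ 2 = D := by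
    have h9 : (2 : F) ^ 2 * (g ^ 2 - D) = 0 := by
      have e1 : (2 : F) ^ 2 * g ^ 2 = I ^ 2 * b ^ 4 := by rw [← mul_pow, hg]; ring
      linear_combination e1 + b ^ 4 * hi' + 4 * h3 - (2 * a + b ^ 2) * h7
    exact sub_eq_zero.1 ((mul_eq_zero.1 h9).resolve_left (pow_ne_zero 2 h2))
  have h10 : (x ^ 2 - algebraMap F N g) * (x ^ 2 + algebraMap F N g) = 0 := by
    have e1 : algebraMap F N g ^ 2 = x ^ 4 := by rw [← map_pow, h8, hx']
    linear_combination -e1
  rcases mul_eq_zero.1 h10 with h | h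
  · apply hn
    refine ⟨(g - a) / b, ?_⟩
    have h6 : algebraMap F N b ≠ 0 := (map_ne_zero _).2 hb0
    rw [map_div₀, map_sub]
    field_simp
    linear_combination h1 - h
  · apply hn
    refine ⟨(-g - a) / b, ?_⟩
    have h6 : algebraMap F N b ≠ 0 := (map_ne_zero _).2 hb0
    rw [map_div₀, map_sub, map_neg]
    field_simp
    linear_combination h1 - h

end Pool.Agent.Lib.MP_1a91b9_ntQT
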