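import Pool.Agent.Lib.MP_1a91b9_ntQT.TV1
import Pool.Agent.Lib.MP_1a91b9_ntQT.TV4

/-!
# MP_1a91b9_nt (quartic stability): rank zero and towers over the fields of degree one and two
-/

set_option autoImplicit false

namespace Pool.Agent.Lib.MP_1a91b9_ntQT

open NumberField IsDedekindDomain WeierstrassCurve
open Pool.Agent.Lib.MP_1a91b9_nuI (HasJ)
open Pool.Agent.Lib.MP_1a91b9_ntL (crv)
open Pool.Agent.Lib.MP_1a91b9_ntJ (TowP)
open Pool.Agent.Lib.MP_1a91b9_ntW.J (RkZ twd twd_crv)
open Pool.Agent.Lib.MP_1a91b9_ntC Pool.Agent.Lib.MP_1a91b9_ntC.Sh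
open Pool.Agent.Lib.MP_1a91b9_ntY (CMK Pt2)

section

variable {K : Type} [Field K] [NumberField K]

theorem q_hasJ {F : Type} [Field F] [NumberField F] (c : F) : HasJ (crv 0 c) 1728 := by
  refine Pool.Agent.Lib.MP_1a91b9_ntY.hasJ_crv ?_
  push_cast
  ring

theorem q_cmk {i : K} (hi : i ^ 2 = -1) {c : K} (hc : c ≠ 0) : CMK (crv 0 c) := by
  refine ⟨?_, 1728, -4, 2 * i, ?_, ?_, q_hasJ c⟩
  · rw [Pool.Agent.Lib.MP_1a91b9_ntY.crv_Δ]
    refine mul_ne_zero (mul_ne_zero (by norm_num) (pow_ne_zero 2 hc)) ?_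
    have : (0 : K) ^ 2 - 4 * c = -(4 * c) := by ring
    rw [this]
    exact neg_ne_zero.2 (mul_ne_zero (by norm_num) hc)
  · unfold Pool.Agent.Lib.MP_1a91b9_ntY.cmList
    simp
  · push_cast
    linear_combination 4 * hi

omit [NumberField K] in
theorem q_pt2 (c : K) : Pt2 (crv 0 c) := by
  refine ⟨0, ?_⟩
  unfold crv WeierstrassCurve.b₂ WeierstrassCurve.b₄ WeierstrassCurve.b₆
  ring

theorem q_ql (hK : Module.finrank ℚ K = 2) {i : K} (hi : i ^ 2 = -1) {c : K} (hc : c ≠ 0) : QL (crv 0 c) :=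
  ql_all hK (q_cmk hi hc) (q_pt2 c)

omit [NumberField K] in
/-- The product formula over an extension. -/
theorem ql_up {F : Type} [Field F] [Algebra K F] {W : WeierstrassCurve K} (h : QL W) :
    QL (W.map (algebraMap K F)) := by
  intro L L' _ _ _ _ _ _ α x hα hx hn hgen s hs
  let _ : Algebra K L := ((algebraMap F L).comp (algebraMap K F)).toAlgebra
  have e : W.map (algebraMap K L) = (W.map (algebraMap K F)).map (algebraMap F L) := by
    rw [WeierstrassCurve.map_map]
    rfl
  have h1 := h L L' α x hα hx hn hgen s hs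
  rw [e] at h1
  exact h1

/-- The L-series over an extension of degree one. -/
theorem ls_one {F : Type} [Field F] [NumberField F] [Algebra K F] (hF : Module.finrank K F = 1)
    {W : WeierstrassCurve K} {j : ℤ} (hj : HasJ W j) (s : ℂ) :
    (W.map (algebraMap K F)).LSeries s = W.LSeries s := by
  have hbij : Function.Bijective (algebraMap K F) := Module.Free.bijective_algebraMap_of_finrank_eq_one hF
  obtain ⟨e, he⟩ : ∃ e : K ≃+* F, (e : K →+* F) = algebraMap K F := ⟨RingEquiv.ofBijective _ hbij, rfl⟩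
  rw [← he]
  exact Pool.Agent.Lib.MP_1a91b9_ntI.ls_e_hasJ e hj s

/-- Rank zero over an extension of degree one. -/
theorem rk_one {F : Type} [Field F] [NumberField F] [Algebra K F] (hF : Module.finrank K F = 1)
    {W : WeierstrassCurve K} {j : ℤ} (hj : HasJ W j) (h : RkZ W) : RkZ (W.map (algebraMap K F)) := by
  have hbij : Function.Bijective (algebraMap K F) := Module.Free.bijective_algebraMap_of_finrank_eq_one hF
  obtain ⟨e, he⟩ : ∃ e : K ≃+* F, (e : K →+* F) = algebraMap K F := ⟨RingEquiv.ofBijective _ hbij, rfl⟩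
  obtain ⟨⟨g, g1, g2, g3⟩, hf⟩ := h
  refine ⟨⟨g, g1, fun s hs => ?_, g3⟩, ?_⟩
  · rw [ls_one hF hj s]
    exact g2 s hs
  · have e1 : (W.map (algebraMap K F)).map (e.symm : F →+* K) = W := by
      rw [← he, WeierstrassCurve.map_map]
      have : (e.symm : F →+* K).comp (e : K →+* F) = RingHom.id K := by
        ext x
        simp
      rw [this]
      exact WeierstrassCurve.map_id _
    have hf' : Finite ((W.map (algebraMap K F)).map (e.symm : F →+* K)).toAffine.Point := by
      rw [e1]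
      exact hf
    exact Finite.of_injective _
      (Pool.Agent.Lib.MP_1a91b9_nuT.TW.locMap_injective (e.symm : F →+* K) (W.map (algebraMap K F)))

omit [NumberField K] in
theorem crv0_map {F : Type} [Field F] [Algebra K F] (c : K) :
    (crv 0 c).map (algebraMap K F) = crv 0 (algebraMap K F c) := by
  rw [crv_map, map_zero]

/-- Rank zero over the quadratic extension. -/
theorem rk_two (hK : Module.finrank ℚ K = 2) {i : K} (hi : i ^ 2 = -1) {F : Type} [Field F] [NumberField F]
    [Algebra K F] {c d : K} (hc : c ≠ 0) (hd : ¬ IsSquare d) {y : F} (hy : y ^ 2 = algebraMap K F d)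
    (hgen : IntermediateField.adjoin K {y} = ⊤) (h1 : RkZ (crv 0 c)) (h2 : RkZ (crv 0 (d ^ 2 * c))) :
    RkZ (crv 0 (algebraMap K F c)) := by
  have hd0 : d ≠ 0 := by
    rintro rfl
    exact hd ⟨0, by ring⟩
  have e1 : (crv 0 c).map (algebraMap K K) = crv 0 c := WeierstrassCurve.map_id _
  have h3 := rk_quad (K := K) (F := K) (F' := F) (a := 0) (b := c) (by
      have : c * ((0 : K) ^ 2 - 4 * c) = -(4 * c ^ 2) := by ring
      rw [this]
      exact neg_ne_zero.2 (mul_ne_zero (by norm_num) (pow_ne_zero 2 hc))) (q_ql hK hi hc) (α := d) hd0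
    (x := y) hy (q4_sq' hy hd) (quad_gen hy hgen) (by rw [e1]; exact h1) (by
      rw [e1, twd_crv, mul_zero]
      exact h2)
  rw [e1, crv0_map] at h3
  exact h3

/-- The towers. -/
theorem towP_of (hK : Module.finrank ℚ K = 2) {i : K} (hi : i ^ 2 = -1) {F : Type} [Field F] [NumberField F]
    [Algebra K F] (hF : IntermediateField.adjoin K {x : F | ∃ c : K, x ^ 2 = algebraMap K F c} = ⊤) {c : K}
    (hc : c ≠ 0) (h : RkZ (crv 0 (algebraMap K F c))) : TowP K (crv 0 (algebraMap K F c)) := by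
  have e : (⟨0, algebraMap K F (((1 : 𝓞 K) : K) * 0), 0, algebraMap K F (((1 : 𝓞 K) : K) ^ 2 * c), 0⟩ :
      WeierstrassCurve F) = crv 0 (algebraMap K F c) := by
    have e1 : ((1 : 𝓞 K) : K) = 1 := rfl
    rw [e1, mul_zero, map_zero, one_pow, one_mul]
    rfl
  have h1 := star2 (K := K) hK (a := 0) (b := c) (q_cmk hi hc) (l := 2) (Or.inl rfl) hF (d := 1) one_ne_zero
    (by rw [e]; exact h)
  rw [e] at h1
  exact h1

end

end Pool.Agent.Lib.MP_1a91b9_ntQT
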