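import Pool.Agent.Lib.MP_1a91b9_ntC.Sh.T
import Pool.Agent.Lib.MP_1a91b9_ntC.StabT

/-!
# MP_1a91b9_nt (quartic stability): the step in the towers above `F`, curve and twist over `F`
-/

set_option autoImplicit false

namespace Pool.Agent.Lib.MP_1a91b9_ntQT

open NumberField IsDedekindDomain WeierstrassCurve
open Pool.Agent.Lib.MP_1a91b9_nuI (HasJ)
open Pool.Agent.Lib.MP_1a91b9_ntL (crv)
open Pool.Agent.Lib.MP_1a91b9_ntJ (TowP)
open Pool.Agent.Lib.MP_1a91b9_ntW.J (RkZ twd twd_crv)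
open Pool.Agent.Lib.MP_1a91b9_ntC Pool.Agent.Lib.MP_1a91b9_ntC.Sh

/-- **The step in the towers.** -/
theorem tow_stepF {K : Type} [Field K] [NumberField K] {F : Type} [Field F] [NumberField F] [Algebra K F]
    {a b : F} (hE : b * (a ^ 2 - 4 * b) ≠ 0)
    (hQ : QL (crv a b)) {j : ℤ} (hj : HasJ (crv a b) j) {s : F} {D : ℤ} (hs : s ^ 2 = D) (hD : D < 0)
    {d : 𝓞 F} (hd : d ≠ 0) (hsq : ¬ IsSquare (d : F))
    (hT : TowP K (⟨0, (d : F) * a, 0, (d : F) ^ 2 * b, 0⟩ : WeierstrassCurve F)) :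
    ∃ S : Finset ℕ, ∀ (q : ℕ) [Fact q.Prime], q ∉ S →
      ∀ (k : ℕ) (L M : Type) [Field L] [NumberField L] [Field M] [NumberField M] [Algebra F L]
        [Algebra L M] [Algebra F M] [IsScalarTower F L M] [IsGalois F M],
        Module.finrank F M = q ^ k →
      (∀ (v : HeightOneSpectrum (𝓞 F)) (w : HeightOneSpectrum (𝓞 L)),
        v.asIdeal.map (algebraMap (𝓞 F) (𝓞 L)) ≤ w.asIdeal ^ 2 →
          ((q : 𝓞 F) ∈ v.asIdeal → Ideal.absNorm (v.asIdeal.comap (algebraMap (𝓞 K) (𝓞 F))) = q) ∧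
            ((q : 𝓞 F) ∉ v.asIdeal → ∀ (V₀ : WeierstrassCurve (𝓞 F)) (C₀ : VariableChange F),
              C₀ • (⟨0, (d : F) * a, 0, (d : F) ^ 2 * b, 0⟩ : WeierstrassCurve F) = V₀.map (algebraMap (𝓞 F) F) → V₀.Δ ∉ v.asIdeal →
                ¬ q ∣ Nat.card (V₀.map (Ideal.Quotient.mk v.asIdeal)).toAffine.Point)) →
      ∀ (L' : Type) [Field L'] [NumberField L'] [Algebra L L'] (y : L'),
        y ^ 2 = algebraMap L L' (algebraMap F L (d : F)) →
        IntermediateField.adjoin L {y} = ⊤ →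
        RelQ q ((crv a b).map (algebraMap F L)) (((crv a b).map (algebraMap F L)).map (algebraMap L L')) := by
  have _ : Pool.Agent.Lib.MP_1a91b9_nuT.CD := Pool.Agent.Lib.MP_1a91b9_ntW.cd8
  obtain ⟨S1, hS1⟩ := hT
  obtain ⟨S2, hS2⟩ := exists_good hE hd
  refine ⟨{3} ∪ (S1 ∪ S2), fun q hq hqS k L M _ _ _ _ _ _ _ _ _ hM hram L' _ _ _ y hy hgen => ?_⟩
  obtain ⟨hq3, hqS1, hqS2⟩ : q ≠ 3 ∧ q ∉ S1 ∧ q ∉ S2 := by
    rw [Finset.mem_union, Finset.mem_union, not_or, not_or, Finset.mem_singleton] at hqS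
    exact hqS
  obtain ⟨hq2, hgood⟩ := hS2 q hq.out hqS2
  have h5 : 5 ≤ q := by
    have h1 := hq.out.two_le
    have h4 : q ≠ 4 := by
      rintro rfl
      exact absurd hq.out (by decide)
    omega
  let _ : Algebra F L' := ((algebraMap L L').comp (algebraMap F L)).toAlgebra
  have _ : IsScalarTower F L L' := IsScalarTower.of_algebraMap_eq fun x => rfl
  -- the degree
  have hfM : FiniteDimensional F M := Module.Finite.of_restrictScalars_finite ℚ F M
  have hodd : Odd (Module.finrank F L) := by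
    have h1 : Odd (q ^ k) := (hq.out.odd_of_ne_two hq2).pow
    rw [← hM, ← Module.finrank_mul_finrank F L M] at h1
    exact Nat.Odd.of_mul_left h1
  have hn : ¬ ∃ z : L, algebraMap L L' z = y := by
    rintro ⟨z, rfl⟩
    refine not_sq_odd hodd hsq ⟨z, (algebraMap L L').injective ?_⟩
    rw [map_pow, hy]
  have hy' : y ^ 2 = algebraMap L L' (algebraMap F L (d : F)) := hy
  have hgen' := quad_gen hy' hgen
  have hd0 : algebraMap F L (d : F) ≠ 0 := by
    rw [Ne, map_eq_zero]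
    exact_mod_cast hd
  -- the curve
  have eE : (crv a b).map (algebraMap F L) =
      (⟨0, algebraMap F L a, 0, algebraMap F L b, 0⟩ : WeierstrassCurve L) := crv_map _ a b
  have eV : (⟨0, (d : F) * a, 0, (d : F) ^ 2 * b, 0⟩ :
      WeierstrassCurve F).baseChange L = (⟨0, algebraMap F L (d : F) * algebraMap F L a, 0,
        algebraMap F L (d : F) ^ 2 * algebraMap F L b, 0⟩ : WeierstrassCurve L) := by
    refine WeierstrassCurve.ext (map_zero _) ?_ (map_zero _) ?_ (map_zero _)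
    · change algebraMap F L ((d : F) * a) = _
      rw [map_mul]
    · change algebraMap F L ((d : F) ^ 2 * b) = _
      rw [map_mul, map_pow]
  obtain ⟨g, g1, g2, g3, ⟨r, r1, r2, r3⟩, g5, g6, g7, g8⟩ := hS1 q hqS1 k L L M hM hram
    (⟨0, algebraMap F L (d : F) * algebraMap F L a, 0,
        algebraMap F L (d : F) ^ 2 * algebraMap F L b, 0⟩ : WeierstrassCurve L) 1 (by
      rw [eV, one_smul]
      exact WeierstrassCurve.map_id _)
  obtain ⟨hgE, hgV, hge⟩ := hgood L
  obtain ⟨hgE', -, -⟩ := hgood L'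
  have hsL : (algebraMap F L s) ^ 2 = D := by rw [← map_pow, hs, map_intCast]
  have hsL' : (algebraMap F L' s) ^ 2 = D := by rw [← map_pow, hs, map_intCast]
  rw [eE]
  obtain ⟨e, he⟩ : ∃ e : 𝓞 L, (e : L) = algebraMap F L (d : F) :=
    ⟨algebraMap (𝓞 F) (𝓞 L) d, rfl⟩
  have he0 : e ≠ 0 := by
    rintro rfl
    exact hd0 (by rw [← he]; rfl)
  have hEL : algebraMap F L b * (algebraMap F L a ^ 2 - 4 * algebraMap F L b) ≠ 0 := by
    have h1 := (map_ne_zero (algebraMap F L)).2 hE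
    rwa [map_mul, map_sub, map_mul, map_pow, map_ofNat] at h1
  have hEL' : algebraMap F L' b * (algebraMap F L' a ^ 2 - 4 * algebraMap F L' b) ≠ 0 := by
    have h1 := (map_ne_zero (algebraMap F L')).2 hE
    rwa [map_mul, map_sub, map_mul, map_pow, map_ofNat] at h1
  have hjL : HasJ (⟨0, algebraMap F L a, 0, algebraMap F L b, 0⟩ : WeierstrassCurve L) j := by
    have h1 := Pool.Agent.Lib.MP_1a91b9_ntW.J.hasJ_map (algebraMap F L) hj
    rwa [crv_map] at h1
  have hjL' : HasJ (⟨0, algebraMap F L' a, 0, algebraMap F L' b, 0⟩ : WeierstrassCurve L') j := by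
    have h1 := Pool.Agent.Lib.MP_1a91b9_ntW.J.hasJ_map (algebraMap F L') hj
    rwa [crv_map] at h1
  have eL' : (⟨0, algebraMap F L a, 0, algebraMap F L b, 0⟩ : WeierstrassCurve L).map
      (algebraMap L L') = (⟨0, algebraMap F L' a, 0, algebraMap F L' b, 0⟩ : WeierstrassCurve L') :=
    WeierstrassCurve.ext (map_zero _) rfl (map_zero _) rfl (map_zero _)
  refine ⟨⟨g, g1, g3, fun z hz => ?_, ?_⟩, ?_, ?_, fun v => tam_good hEL hjL hq.out h5 hgE v,
    ?_, ?_⟩
  · -- the L-series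
    have h1 := hQ L L' (algebraMap F L (d : F)) y hd0 hy' hn hgen' z hz
    have h2 : twd ((crv a b).map (algebraMap F L)) (algebraMap F L (d : F)) =
        (⟨0, algebraMap F L (d : F) * algebraMap F L a, 0,
          algebraMap F L (d : F) ^ 2 * algebraMap F L b, 0⟩ : WeierstrassCurve L) := by
      rw [crv_map, twd_crv]
    have h3 : (crv a b).map (algebraMap F L) =
        (⟨0, algebraMap F L a, 0, algebraMap F L b, 0⟩ : WeierstrassCurve L) := crv_map _ a b
    rw [h2, h3] at h1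
    rw [g2 z hz, h1]
  · -- the leading terms
    obtain ⟨ρ, hρ1, hρ2⟩ := period_rel (cplx hsL hD) (algebraMap F L a) (algebraMap F L b)
      (by rw [he]; exact hy') he0 hgen' hn
    have hρ : UnitQ q ρ := by
      refine hρ1 q hq.out hq2 (hge e he) ?_ hgE ?_
      · rw [he]
        exact hgV
      · have h4 : (⟨0, algebraMap F L a, 0, algebraMap F L b, 0⟩ : WeierstrassCurve L).baseChange
            L' = (⟨0, algebraMap F L' a, 0, algebraMap F L' b, 0⟩ : WeierstrassCurve L') :=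
          WeierstrassCurve.ext (map_zero _) rfl (map_zero _) rfl (map_zero _)
        rw [h4]
        exact hgE'
    obtain ⟨V, hV⟩ : ∃ V : WeierstrassCurve L, V = ⟨0, algebraMap F L (d : F) * algebraMap F L a,
      0, algebraMap F L (d : F) ^ 2 * algebraMap F L b, 0⟩ := ⟨_, rfl⟩
    rw [← hV] at g5 g6 g8 r3
    rw [he, ← hV] at hρ2
    have htam : (∏ᶠ v : HeightOneSpectrum (𝓞 L),
        Pool.Agent.Lib.MP_1a91b9_nuT.S9.tam V v).Coprime q :=
      finprod_induction (fun x : ℕ => x.Coprime q) (Nat.coprime_one_left q)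
        (fun _ _ => Nat.Coprime.mul_left) g6
    obtain ⟨tp, htp⟩ : ∃ tp : ℕ, tp = ∏ᶠ v : HeightOneSpectrum (𝓞 L),
      Pool.Agent.Lib.MP_1a91b9_nuT.S9.tam V v := ⟨_, rfl⟩
    rw [← htp] at htam r3
    have hr₀ : UnitQ q (r * ((tp : ℚ) * (((Nat.card V.toAffine.Point : ℕ) : ℚ) *
        ((Nat.card V.toAffine.Point : ℕ) : ℚ))⁻¹)) :=
      UnitQ.mul ⟨r1, r2⟩ ((unitQ_nat htam).mul (((unitQ_nat g8).mul (unitQ_nat g8)).inv hq.out))
    refine lead_rel hq.out (by exact_mod_cast discr_ne_zero L) (by exact_mod_cast discr_ne_zero L')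
      hr₀ hρ g3 ?_ hρ2
    rw [r3, g5]
    push_cast
    rw [sq, one_mul, div_eq_mul_inv]
  · -- the rank
    classical
    have hsqL : ¬ IsSquare (algebraMap F L (d : F)) := fun h => hn (isSquare_of_mem hy' h)
    have h4 : (⟨0, algebraMap F L a, 0, algebraMap F L b, 0⟩ : WeierstrassCurve L).map
        (algebraMap L L') = (⟨0, algebraMap L L' (algebraMap F L a), 0,
          algebraMap L L' (algebraMap F L b), 0⟩ : WeierstrassCurve L') :=
      WeierstrassCurve.ext (map_zero _) rfl (map_zero _) rfl (map_zero _)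
    rw [h4]
    exact finrank_quad (F' := L') (algebraMap F L a) (algebraMap F L b) (algebraMap F L (d : F))
      hsqL (Pool.Agent.Lib.MP_1a91b9_ntN.G.finrank_two' hn hgen') y hy' g7
  · -- the index
    classical
    exact idx_coprime hEL hd0 hy' hn hgen' hq.out hq2 g7 g8
  · -- the Tamagawa numbers over `L'`
    rw [eL']
    exact fun v => tam_good hEL' hjL' hq.out h5 hgE' v
  · -- the Tate-Shafarevich group
    have hsub : Subsingleton (Pool.Agent.Lib.MP_1a91b9_nuT3.S9.ShaP q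
        (⟨0, algebraMap F L (d : F) * algebraMap F L a, 0,
          algebraMap F L (d : F) ^ 2 * algebraMap F L b, 0⟩ : WeierstrassCurve L)) :=
      (Nat.card_eq_one_iff_unique.1 g5).1
    exact sha_stab (cplx hsL hD) (cplx hsL' hD) hy' hd0 hgen' hn q hq2 hsub

end Pool.Agent.Lib.MP_1a91b9_ntQT
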