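import Pool.Agent.Lib.MP_1a91b9_ntQT.TV2

/-!
# MP_1a91b9_nt (quartic stability): the property of the towers for one quadratic step
-/

set_option autoImplicit false

namespace Pool.Agent.Lib.MP_1a91b9_ntQT

open NumberField IsDedekindDomain WeierstrassCurve
open Pool.Agent.Lib.MP_1a91b9_nuI (HasJ)
open Pool.Agent.Lib.MP_1a91b9_ntL (crv)
open Pool.Agent.Lib.MP_1a91b9_ntJ (TowP)
open Pool.Agent.Lib.MP_1a91b9_ntW.J (RkZ twd twd_crv)
open Pool.Agent.Lib.MP_1a91b9_ntC Pool.Agent.Lib.MP_1a91b9_ntC.Sh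

/-- The condition on the ramification of `L / F`. -/
def RamF (K : Type) [Field K] [NumberField K] {F : Type} [Field F] [NumberField F] [Algebra K F]
    (V : WeierstrassCurve F) (q : ℕ) (L : Type) [Field L] [NumberField L] [Algebra F L] : Prop :=
  ∀ (v : HeightOneSpectrum (𝓞 F)) (w : HeightOneSpectrum (𝓞 L)),
    v.asIdeal.map (algebraMap (𝓞 F) (𝓞 L)) ≤ w.asIdeal ^ 2 →
      ((q : 𝓞 F) ∈ v.asIdeal → Ideal.absNorm (v.asIdeal.comap (algebraMap (𝓞 K) (𝓞 F))) = q) ∧
        ((q : 𝓞 F) ∉ v.asIdeal → ∀ (V₀ : WeierstrassCurve (𝓞 F)) (C₀ : VariableChange F),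
          C₀ • V = V₀.map (algebraMap (𝓞 F) F) → V₀.Δ ∉ v.asIdeal →
            ¬ q ∣ Nat.card (V₀.map (Ideal.Quotient.mk v.asIdeal)).toAffine.Point)

/-- The property of the towers above `F` for the twist by `√e`. -/
def TowE (K : Type) [Field K] [NumberField K] {F : Type} [Field F] [NumberField F] [Algebra K F] (A e : F) : Prop :=
  TowP K (crv 0 (e ^ 2 * A)) ∧
  ∃ S : Finset ℕ, ∀ (q : ℕ) [Fact q.Prime], q ∉ S →
    ∀ (k : ℕ) (L M : Type) [Field L] [NumberField L] [Field M] [NumberField M] [Algebra F L]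
      [Algebra L M] [Algebra F M] [IsScalarTower F L M] [IsGalois F M],
      Module.finrank F M = q ^ k → RamF K (crv 0 (e ^ 2 * A)) q L →
    ∀ (L' : Type) [Field L'] [NumberField L'] [Algebra L L'] (y : L'),
      y ^ 2 = algebraMap L L' (algebraMap F L e) → IntermediateField.adjoin L {y} = ⊤ →
      RelQ q ((crv 0 A).map (algebraMap F L)) (((crv 0 A).map (algebraMap F L)).map (algebraMap L L'))

theorem tow_e {K : Type} [Field K] [NumberField K] {F : Type} [Field F] [NumberField F] [Algebra K F] {A : F}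
    (hA : A ≠ 0) (hQ : QL (crv 0 A)) {i : F} (hi : i ^ 2 = -1) {e : 𝓞 F} (he : e ≠ 0) (hsq : ¬ IsSquare (e : F))
    (hT : TowP K (crv 0 ((e : F) ^ 2 * A))) : TowE K A (e : F) := by
  have eV : (⟨0, (e : F) * 0, 0, (e : F) ^ 2 * A, 0⟩ : WeierstrassCurve F) = crv 0 ((e : F) ^ 2 * A) := by
    rw [mul_zero]
    rfl
  obtain ⟨S, hS⟩ := tow_stepF (K := K) (a := 0) (b := A) (by
      have : A * ((0 : F) ^ 2 - 4 * A) = -(4 * A ^ 2) := by ring
      rw [this]
      exact neg_ne_zero.2 (mul_ne_zero (by norm_num) (pow_ne_zero 2 hA))) hQ (q_hasJ A) (s := 2 * i) (D := -4) (by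
      push_cast
      linear_combination 4 * hi) (by norm_num) he hsq (by rw [eV]; exact hT)
  refine ⟨hT, S, fun q _ hq k L M _ _ _ _ _ _ _ _ _ hM hram L' _ _ _ y hy hgen => ?_⟩
  refine hS q hq k L M hM ?_ L' y hy hgen
  rw [eV]
  exact hram

/-- The condition on the ramification is empty for `L = F`. -/
theorem ram_self (K : Type) [Field K] [NumberField K] {F : Type} [Field F] [NumberField F]
    [Algebra K F] (V : WeierstrassCurve F) (q : ℕ) : RamF K V q F := by
  intro v w hvw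
  exfalso
  have h0 : v.asIdeal ≤ w.asIdeal ^ 2 := fun x hx => hvw (Ideal.mem_map_of_mem _ hx)
  have h1 : v.asIdeal = w.asIdeal :=
    v.isMaximal.eq_of_le w.isPrime.ne_top (h0.trans (Ideal.pow_le_self two_ne_zero))
  rw [h1] at h0
  exact absurd (Ideal.pow_lt_self w.asIdeal w.ne_bot w.isPrime.ne_top 2 le_rfl)
    (not_lt_of_ge h0)

/-- The relative conjecture for one quadratic step. -/
theorem rel_step {K : Type} [Field K] [NumberField K] {F : Type} [Field F] [NumberField F] [Algebra K F] {A e : F}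
    (h : TowE K A e) {F₁ : Type} [Field F₁] [NumberField F₁] [Algebra F F₁] {y : F₁}
    (hy : y ^ 2 = algebraMap F F₁ e) (hg : IntermediateField.adjoin F {y} = ⊤) :
    ∃ S : Finset ℕ, ∀ (q : ℕ) [Fact q.Prime], q ∉ S →
      RelQ q (crv 0 A) ((crv 0 A).map (algebraMap F F₁)) := by
  obtain ⟨-, S, hS⟩ := h
  refine ⟨S, fun q _ hq => ?_⟩
  have h1 := hS q hq 0 F F (by rw [Module.finrank_self, pow_zero]) (ram_self K _ q) F₁ y hy hg
  have h2 : (crv 0 A).map (algebraMap F F) = crv 0 A := WeierstrassCurve.map_id _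
  rw [h2] at h1
  exact h1

/-- **The relative conjecture is transitive**, if the upper field gives no new points. -/
theorem relQ_trans' {q : ℕ} [Fact q.Prime] {L L' L'' : Type} [Field L] [NumberField L] [Field L']
    [NumberField L'] [Field L''] [NumberField L''] [Algebra L L'] [Algebra L' L''] [Algebra L L'']
    {W : WeierstrassCurve L} {W' : WeierstrassCurve L'} {W'' : WeierstrassCurve L''}
    (h1 : RelQ q W W') (h2 : RelQ q W' W'')
    (hp : ∀ x' y' : L'', W''.toAffine.Equation x' y' →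
      ∃ x y : L, algebraMap L L'' x = x' ∧ algebraMap L L'' y = y') : RelQ q W W'' := by
  classical
  obtain ⟨⟨g, hg, hg1, hg2, r, hr, hr2⟩, a1, a2, a3, a4, ⟨a5⟩⟩ := h1
  obtain ⟨⟨g', hg', hg1', hg2', r', hr', hr2'⟩, b1, b2, b3, b4, ⟨b5⟩⟩ := h2
  refine ⟨⟨fun s => g s * g' s, hg.mul hg', mul_ne_zero hg1 hg1', fun s hs => ?_, r * r',
    UnitQ.mul hr hr', ?_⟩, b1.trans a1, ?_, a3, b4, ⟨b5.trans a5⟩⟩
  · rw [hg2' s hs, hg2 s hs, mul_assoc]
  · have e : ((r * r' : ℚ) : ℂ) = (r : ℂ) * r' := by push_cast; rfl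
    rw [e, mul_assoc, hr2', mul_left_comm, hr2]
    ring
  · have h : AddSubgroup.closure {P : W''.toAffine.Point | ∃ (x y : L)
        (h : W''.toAffine.Nonsingular (algebraMap L L'' x) (algebraMap L L'' y)),
        P = WeierstrassCurve.Affine.Point.some _ _ h} = ⊤ := by
      rw [eq_top_iff]
      intro P _
      cases P with
      | zero => exact AddSubgroup.zero_mem _
      | some x' y' h =>
        obtain ⟨x, y, rfl, rfl⟩ := hp x' y' h.1
        exact AddSubgroup.subset_closure ⟨x, y, h, rfl⟩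
    unfold IdxQ
    rw [h, AddSubgroup.index_top]
    exact Nat.coprime_one_left q

section

variable {K : Type} [Field K] [NumberField K]

/-- an element of prime degree generates -/
theorem top_of_prime {F F' : Type} [Field F] [Field F'] [Algebra F F'] (h : Module.finrank F F' = 2) {y : F'}
    (hn : ¬ ∃ z : F, algebraMap F F' z = y) : IntermediateField.adjoin F {y} = ⊤ := by
  have hs := IntermediateField.isSimpleOrder_of_finrank_prime F F' (by rw [h]; exact Nat.prime_two)
  rcases hs.eq_bot_or_eq_top (IntermediateField.adjoin F {y}) with h1 | h1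
  · exfalso
    have h2 : y ∈ IntermediateField.adjoin F {y} := IntermediateField.mem_adjoin_simple_self F y
    rw [h1, IntermediateField.mem_bot] at h2
    exact hn h2
  · exact h1

/-- the fields of degree one -/
theorem tow_one (hK : Module.finrank ℚ K = 2) {i : K} (hi : i ^ 2 = -1) {A : K} (hA : A ≠ 0) {d : 𝓞 K}
    (hd : ¬ IsSquare (d : K)) (h2 : RkZ (crv 0 (A * (d : K) ^ 2))) {F : Type} [Field F] [NumberField F] [Algebra K F]
    (hF : Module.finrank K F = 1) : TowE K (algebraMap K F A) (algebraMap K F (d : K)) := by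
  have hbij : Function.Bijective (algebraMap K F) := Module.Free.bijective_algebraMap_of_finrank_eq_one hF
  have hd0 : (d : K) ≠ 0 := by
    intro h0
    exact hd ⟨0, by rw [h0]; ring⟩
  obtain ⟨e, he⟩ : ∃ e : 𝓞 F, (e : F) = algebraMap K F (d : K) := ⟨algebraMap (𝓞 K) (𝓞 F) d, rfl⟩
  have he0 : e ≠ 0 := by
    rintro rfl
    exact (map_ne_zero (algebraMap K F)).2 hd0 he.symm
  have h3 : (crv 0 A).map (algebraMap K F) = crv 0 (algebraMap K F A) := crv0_map A
  have h4 : RkZ (crv 0 (algebraMap K F (A * (d : K) ^ 2))) := by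
    rw [← crv0_map]
    exact rk_one hF (q_hasJ _) h2
  rw [← he]
  refine tow_e ((map_ne_zero _).2 hA) (by rw [← h3]; exact ql_up (q_ql hK hi hA)) (i := algebraMap K F i)
    (by rw [← map_pow, hi, map_neg, map_one]) he0 ?_ ?_
  · rw [he]
    rintro ⟨z, hz⟩
    obtain ⟨z', rfl⟩ := hbij.2 z
    rw [← map_mul] at hz
    exact hd ⟨z', hbij.1 hz⟩
  · rw [he]
    have e1 : algebraMap K F (d : K) ^ 2 * algebraMap K F A = algebraMap K F (A * (d : K) ^ 2) := by
      rw [map_mul, map_pow]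
      ring
    rw [e1]
    refine towP_of hK hi ?_ (mul_ne_zero hA (pow_ne_zero 2 hd0)) h4
    rw [eq_top_iff]
    intro z _
    obtain ⟨z', rfl⟩ := hbij.2 z
    exact IntermediateField.algebraMap_mem _ _

/-- the fields of degree two -/
theorem tow_two (hK : Module.finrank ℚ K = 2) {i : K} (hi : i ^ 2 = -1) {A : K} (hA : A ≠ 0) {d : 𝓞 K}
    (hd : ¬ IsSquare (d : K)) (h1 : RkZ (crv 0 (A * (d : K)))) (h3 : RkZ (crv 0 (A * (d : K) ^ 3)))
    {F : Type} [Field F] [NumberField F] [Algebra K F] (hF : Module.finrank K F = 2) {y : F}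
    (hy : y ^ 2 = algebraMap K F (d : K)) : TowE K (algebraMap K F A) y := by
  have hd0 : (d : K) ≠ 0 := by
    intro h0
    exact hd ⟨0, by rw [h0]; ring⟩
  have hgen : IntermediateField.adjoin K {y} = ⊤ := top_of_prime hF (q4_sq' hy hd)
  have hyint : IsIntegral ℤ y := by
    refine IsIntegral.of_pow two_pos ?_
    rw [hy]
    exact (RingOfIntegers.isIntegral_coe (algebraMap (𝓞 K) (𝓞 F) d))
  obtain ⟨e, he⟩ : ∃ e : 𝓞 F, (e : F) = y := ⟨⟨y, hyint⟩, rfl⟩
  have he0 : e ≠ 0 := by
    rintro rfl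
    have h0 : y = 0 := he.symm
    rw [h0, zero_pow two_ne_zero] at hy
    exact (map_ne_zero (algebraMap K F)).2 hd0 hy.symm
  have e3 : (crv 0 A).map (algebraMap K F) = crv 0 (algebraMap K F A) := crv0_map A
  have e1 : y ^ 2 * algebraMap K F A = algebraMap K F (A * (d : K)) := by
    rw [hy, map_mul]
    ring
  rw [← he]
  refine tow_e ((map_ne_zero _).2 hA) (by rw [← e3]; exact ql_up (q_ql hK hi hA)) (i := algebraMap K F i)
    (by rw [← map_pow, hi, map_neg, map_one]) he0 ?_ ?_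
  · rw [he]
    exact q4_next hi hd hy hgen
  · rw [he, e1]
    refine towP_of hK hi ?_ (mul_ne_zero hA hd0) ?_
    · rw [eq_top_iff, ← hgen, IntermediateField.adjoin_le_iff]
      rintro _ rfl
      exact IntermediateField.subset_adjoin K _ ⟨(d : K), hy⟩
    · refine rk_two hK hi (mul_ne_zero hA hd0) hd hy hgen h1 ?_
      have e4 : (d : K) ^ 2 * (A * (d : K)) = A * (d : K) ^ 3 := by ring
      rw [e4]
      exact h3

end

end Pool.Agent.Lib.MP_1a91b9_ntQT
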