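import Pool.Agent.Lib.MP_1a91b9_ntQT.TV5

/-!
# MP_1a91b9_nt (quartic stability): all the fields between K and N = K(x), x ^ 4 = d
-/

set_option autoImplicit false

namespace Pool.Agent.Lib.MP_1a91b9_ntQT

open NumberField IsDedekindDomain WeierstrassCurve
open Pool.Agent.Lib.MP_1a91b9_nuI (HasJ)
open Pool.Agent.Lib.MP_1a91b9_ntL (crv)
open Pool.Agent.Lib.MP_1a91b9_ntJ (TowP)
open Pool.Agent.Lib.MP_1a91b9_ntW.J (RkZ twd twd_crv)
open Pool.Agent.Lib.MP_1a91b9_ntC Pool.Agent.Lib.MP_1a91b9_ntC.Sh

variable {K : Type} [Field K] [NumberField K]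

/-- the generator of `F(y)` -/
theorem gen_sub {F N : Type} [Field F] [Field N] [Algebra F N] {F₁ : IntermediateField F N} {y : N}
    (h : F₁ = IntermediateField.adjoin F {y}) (hy : y ∈ F₁) :
    IntermediateField.adjoin F {(⟨y, hy⟩ : F₁)} = ⊤ := by
  apply IntermediateField.lift_injective F₁
  rw [IntermediateField.lift_adjoin_simple, IntermediateField.lift_top]
  exact h.symm

/-- **The degree.** -/
theorem deg_four {i : K} (hi : i ^ 2 = -1) {d : K} (hd : ¬ IsSquare d) {N : Type} [Field N] [NumberField N]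
    [Algebra K N] {x : N} (hx : x ^ 4 = algebraMap K N d) (hgen : IntermediateField.adjoin K {x} = ⊤) :
    Module.finrank K N = 4 := by
  obtain ⟨F₁, hF₁⟩ : ∃ F₁ : IntermediateField K N, F₁ = IntermediateField.adjoin K {x ^ 2} := ⟨_, rfl⟩
  have hxF : x ^ 2 ∈ F₁ := by
    rw [hF₁]
    exact IntermediateField.mem_adjoin_simple_self K _
  have hg := gen_sub hF₁ hxF
  have hy : (⟨x ^ 2, hxF⟩ : F₁) ^ 2 = algebraMap K F₁ d := Subtype.ext (by
    show (x ^ 2) ^ 2 = algebraMap K N d
    rw [← hx]
    ring)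
  have h1 : Module.finrank K F₁ = 2 := q4_two hy hg (q4_sq' hy hd)
  have hsq := q4_next hi hd hy hg
  have hx2 : x ^ 2 = algebraMap F₁ N ⟨x ^ 2, hxF⟩ := rfl
  have h2 : Module.finrank F₁ N = 2 :=
    q4_two hx2 (IntermediateField.adjoin_eq_top_of_adjoin_eq_top (F := K) hgen) (q4_sq' hx2 hsq)
  rw [← Module.finrank_mul_finrank K F₁ N, h1, h2]

/-- The element `x ^ 2` is in the fields of degree two. -/
theorem sq_mem {i : K} (hi : i ^ 2 = -1) {d : K} (hd : ¬ IsSquare d) {N : Type} [Field N] [NumberField N]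
    [Algebra K N] {x : N} (hx : x ^ 4 = algebraMap K N d) (hgen : IntermediateField.adjoin K {x} = ⊤)
    {F : Type} [Field F] [NumberField F] [Algebra K F] [Algebra F N] [IsScalarTower K F N]
    (hF : Module.finrank K F = 2) : ∃ y : F, algebraMap F N y = x ^ 2 ∧ y ^ 2 = algebraMap K F d := by
  have h4 := deg_four hi hd hx hgen
  have h2 : Module.finrank F N = 2 := by
    have := Module.finrank_mul_finrank K F N
    rw [hF, h4] at this
    omega
  have hn : ¬ ∃ z : F, algebraMap F N z = x := by
    rintro ⟨z, hz⟩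
    have h5 : IntermediateField.adjoin F {x} = ⊤ := IntermediateField.adjoin_eq_top_of_adjoin_eq_top (F := K) hgen
    have h6 : IntermediateField.adjoin F {x} = ⊥ := by
      rw [IntermediateField.adjoin_simple_eq_bot_iff, IntermediateField.mem_bot]
      exact ⟨z, hz⟩
    rw [h6] at h5
    rw [IntermediateField.bot_eq_top_iff_finrank_eq_one] at h5
    omega
  obtain ⟨y, hy⟩ := q4_cls hi hx h2 hn
  refine ⟨y, hy, (algebraMap F N).injective ?_⟩
  rw [map_pow, hy, ← IsScalarTower.algebraMap_apply K F N, ← hx]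
  ring

private theorem TV6_cases {a b : ℕ} (ha : 0 < a) (hb : 0 < b) (h : a * b ∣ 4) (h1 : b ≠ 1) :
    a = 1 ∧ b = 2 ∨ a = 1 ∧ b = 4 ∨ a = 2 ∧ b = 2 := by
  have hle1 : a ≤ 4 := Nat.le_of_dvd (by norm_num) (dvd_of_mul_right_dvd h)
  have hle2 : b ≤ 4 := Nat.le_of_dvd (by norm_num) (dvd_of_mul_left_dvd h)
  interval_cases a <;> interval_cases b <;> revert h h1 <;> decide

/-- **The relative conjecture between all the intermediate fields.** -/
theorem rel_all {i : K} (hi : i ^ 2 = -1) {A : K} {d : K} (hd : ¬ IsSquare d) {N : Type} [Field N] [NumberField N]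
    [Algebra K N] {x : N} (hx : x ^ 4 = algebraMap K N d) (hgen : IntermediateField.adjoin K {x} = ⊤)
    (H1 : ∀ (F : Type) [Field F] [NumberField F] [Algebra K F], Module.finrank K F = 1 →
      TowE K (algebraMap K F A) (algebraMap K F d))
    (H2 : ∀ (F : Type) [Field F] [NumberField F] [Algebra K F], Module.finrank K F = 2 → ∀ y : F,
      y ^ 2 = algebraMap K F d → TowE K (algebraMap K F A) y)
    (hN : ∀ x' y' : N, y' ^ 2 = x' ^ 3 + algebraMap K N A * x' →
      ∃ u v : K, algebraMap K N u = x' ∧ algebraMap K N v = y')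
    (F' : Type) [Field F'] [NumberField F'] [Algebra K F'] [Algebra F' N] [IsScalarTower K F' N]
    (F'' : Type) [Field F''] [NumberField F''] [Algebra K F''] [Algebra F' F''] [IsScalarTower K F' F'']
    [Algebra F'' N] [IsScalarTower F' F'' N] (hne : Module.finrank F' F'' ≠ 1) :
    ∃ S : Finset ℕ, ∀ (q : ℕ) [Fact q.Prime], q ∉ S →
      RelQ q ((crv 0 A).map (algebraMap K F')) (((crv 0 A).map (algebraMap K F')).map (algebraMap F' F'')) := by
  have hKN : ∀ w : K, algebraMap K N w = algebraMap F'' N (algebraMap K F'' w) := fun w => by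
    rw [IsScalarTower.algebraMap_apply K F' N, IsScalarTower.algebraMap_apply F' F'' N,
      ← IsScalarTower.algebraMap_apply K F' F'']
  have t1 : IsScalarTower K F'' N := IsScalarTower.of_algebraMap_eq hKN
  have h4 := deg_four hi hd hx hgen
  have hm1 := Module.finrank_mul_finrank K F' F''
  have hm2 := Module.finrank_mul_finrank K F'' N
  rw [h4] at hm2
  have p1 : 0 < Module.finrank K F' := Module.finrank_pos
  have p2 : 0 < Module.finrank F' F'' := Module.finrank_pos
  have p3 : 0 < Module.finrank F'' N := Module.finrank_pos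
  -- the step of degree two from a field of degree two to a field of degree four
  have key : ∀ (F : Type) [Field F] [NumberField F] [Algebra K F] [Algebra F F''] [IsScalarTower K F F''],
      Module.finrank K F = 2 → Module.finrank F F'' = 2 → ∃ S : Finset ℕ, ∀ (q : ℕ) [Fact q.Prime], q ∉ S →
      RelQ q ((crv 0 A).map (algebraMap K F)) (((crv 0 A).map (algebraMap K F)).map (algebraMap F F'')) := by
    intro F _ _ _ _ _ hF hFF
    have h5 : Module.finrank K F'' = 4 := by rw [← Module.finrank_mul_finrank K F F'', hF, hFF]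
    have h6 : Module.finrank F'' N = 1 := by
      rw [h5] at hm2
      omega
    have hbij : Function.Bijective (algebraMap F'' N) := Module.Free.bijective_algebraMap_of_finrank_eq_one h6
    obtain ⟨z, hz⟩ := hbij.2 x
    have hz4 : z ^ 4 = algebraMap K F'' d := hbij.1 (by rw [map_pow, hz, hx, hKN])
    have hzg : IntermediateField.adjoin K {z} = ⊤ := by
      rw [eq_top_iff]
      intro w _
      obtain ⟨φ, hφ⟩ : ∃ φ : F'' →ₐ[K] N, ∀ w, φ w = algebraMap F'' N w :=
        ⟨IsScalarTower.toAlgHom K F'' N, fun _ => rfl⟩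
      have h7 : (IntermediateField.adjoin K {z}).map φ = ⊤ := by
        rw [IntermediateField.adjoin_map, Set.image_singleton, hφ, hz, hgen]
      have h8 : φ w ∈ (IntermediateField.adjoin K {z}).map φ := by
        rw [h7]
        trivial
      obtain ⟨w', hw', hw2⟩ := h8
      have h9 : w' = w := φ.injective hw2
      rw [← h9]
      exact hw'
    obtain ⟨y, hy, hy2⟩ := sq_mem hi hd hz4 hzg (F := F) hF
    have hyz : z ^ 2 = algebraMap F F'' y := hy.symm
    have h10 := H2 F hF y hy2
    have h11 : IntermediateField.adjoin F {z} = ⊤ := IntermediateField.adjoin_eq_top_of_adjoin_eq_top (F := K) hzg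
    rw [crv0_map]
    exact rel_step h10 hyz h11
  have hcase : Module.finrank K F' = 1 ∧ Module.finrank F' F'' = 2 ∨
      Module.finrank K F' = 1 ∧ Module.finrank F' F'' = 4 ∨
      Module.finrank K F' = 2 ∧ Module.finrank F' F'' = 2 := by
    exact TV6_cases p1 p2 ⟨_, by rw [hm1, hm2]⟩ hne
  rcases hcase with ⟨ha, hb⟩ | ⟨ha, hb⟩ | ⟨ha, hb⟩
  · -- degree one, two
    have h5 : Module.finrank K F'' = 2 := by rw [← hm1, ha, hb]
    obtain ⟨y, -, hy2⟩ := sq_mem hi hd hx hgen (F := F'') h5
    have hn := q4_sq' hy2 hd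
    have h6 : IntermediateField.adjoin F' {y} = ⊤ :=
      IntermediateField.adjoin_eq_top_of_adjoin_eq_top (F := K) (top_of_prime h5 hn)
    rw [crv0_map]
    refine rel_step (H1 F' ha) (y := y) ?_ h6
    rw [hy2, ← IsScalarTower.algebraMap_apply K F' F'']
  · -- degree one, four
    have h5 : Module.finrank K F'' = 4 := by rw [← hm1, ha, hb]
    have h6 : Module.finrank F'' N = 1 := by
      rw [h5] at hm2
      omega
    have hbij : Function.Bijective (algebraMap F'' N) := Module.Free.bijective_algebraMap_of_finrank_eq_one h6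
    obtain ⟨y, hy⟩ := hbij.2 (x ^ 2)
    have hy2 : y ^ 2 = algebraMap K F'' d := hbij.1 (by
      rw [map_pow, hy, ← hKN, ← hx]
      ring)
    obtain ⟨F₁, hF₁⟩ : ∃ F₁ : IntermediateField F' F'', F₁ = IntermediateField.adjoin F' {y} := ⟨_, rfl⟩
    have hyF : y ∈ F₁ := by
      rw [hF₁]
      exact IntermediateField.mem_adjoin_simple_self F' _
    have hg := gen_sub hF₁ hyF
    have hy3 : (⟨y, hyF⟩ : F₁) ^ 2 = algebraMap F' F₁ (algebraMap K F' d) := Subtype.ext (by
      show y ^ 2 = algebraMap F' F'' (algebraMap K F' d)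
      rw [hy2, ← IsScalarTower.algebraMap_apply K F' F''])
    have hbij' : Function.Bijective (algebraMap K F') := Module.Free.bijective_algebraMap_of_finrank_eq_one ha
    have hd' : ¬ IsSquare (algebraMap K F' d) := by
      rintro ⟨z, hz⟩
      obtain ⟨z', rfl⟩ := hbij'.2 z
      rw [← map_mul] at hz
      exact hd ⟨z', hbij'.1 hz⟩
    have h7 : Module.finrank F' F₁ = 2 := q4_two hy3 hg (q4_sq' hy3 hd')
    have h8 : Module.finrank K F₁ = 2 := by rw [← Module.finrank_mul_finrank K F' F₁, ha, h7]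
    have h9 : Module.finrank F₁ F'' = 2 := by
      have := Module.finrank_mul_finrank F' F₁ F''
      rw [h7, hb] at this
      omega
    have hFK : ∀ w : K, algebraMap F₁ F'' (algebraMap K F₁ w) = algebraMap K F'' w := fun w => by
      have e0 : ((w • (1 : F₁) : F₁) : F'') = w • (1 : F'') := rfl
      show ((algebraMap K F₁ w : F₁) : F'') = algebraMap K F'' w
      rw [Algebra.algebraMap_eq_smul_one (A := F₁), e0, ← Algebra.algebraMap_eq_smul_one]
    have t7 : IsScalarTower K F₁ F'' := IsScalarTower.of_algebraMap_eq fun w => (hFK w).symm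
    obtain ⟨S₁, hS₁⟩ := rel_step (H1 F' ha) hy3 hg
    obtain ⟨S₂, hS₂⟩ := key F₁ h8 h9
    refine ⟨S₁ ∪ S₂, fun q _ hq => ?_⟩
    have r1 := hS₁ q fun h => hq (Finset.mem_union_left _ h)
    have r2 := hS₂ q fun h => hq (Finset.mem_union_right _ h)
    rw [← crv0_map] at r1
    obtain ⟨E, hE⟩ : ∃ E : WeierstrassCurve K, E = crv 0 A := ⟨_, rfl⟩
    rw [← hE] at r1 r2 ⊢
    have e1 : (E.map (algebraMap K F')).map (algebraMap F' F₁) = E.map (algebraMap K F₁) := by
      rw [WeierstrassCurve.map_map]
      refine congrArg E.map (RingHom.ext fun w => (algebraMap F₁ F'').injective ?_)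
      rw [hFK, IsScalarTower.algebraMap_apply K F' F'']
      rfl
    have e2 : (E.map (algebraMap K F₁)).map (algebraMap F₁ F'') =
        (E.map (algebraMap K F')).map (algebraMap F' F'') := by
      rw [← e1, WeierstrassCurve.map_map]
      exact congrArg (E.map (algebraMap K F')).map (RingHom.ext fun w => rfl)
    have e3 : (E.map (algebraMap K F')).map (algebraMap F' F'') = E.map (algebraMap K F'') := by
      rw [WeierstrassCurve.map_map, ← IsScalarTower.algebraMap_eq]
    rw [e1] at r1
    rw [e2] at r2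
    refine relQ_trans' r1 r2 fun x' y' hxy => ?_
    rw [e3, hE, crv0_map] at hxy
    have h10 : y' ^ 2 = x' ^ 3 + algebraMap K F'' A * x' := by
      have h11 := (WeierstrassCurve.Affine.equation_iff _ _).1 hxy
      simp only [crv] at h11
      linear_combination h11
    obtain ⟨u, v, hu, hv⟩ := hN (algebraMap F'' N x') (algebraMap F'' N y') (by
      rw [hKN, ← map_pow, ← map_pow, h10, map_add, map_mul])
    refine ⟨algebraMap K F' u, algebraMap K F' v, hbij.1 ?_, hbij.1 ?_⟩
    · rw [← IsScalarTower.algebraMap_apply F' F'' N, ← IsScalarTower.algebraMap_apply K F' N, hu]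
    · rw [← IsScalarTower.algebraMap_apply F' F'' N, ← IsScalarTower.algebraMap_apply K F' N, hv]
  · exact key F' ha hb

end Pool.Agent.Lib.MP_1a91b9_ntQT
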